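import Mathlib

/-!
Edge sets, degrees, short cycles (triangles and 4-cycles) and good (simple, square-free)
2-matchings, as finite sets of unordered pairs.
-/

namespace H999

open Finset

variable {V : Type*} [DecidableEq V]

/-- the number of edges of `M` at `v`, as an integer -/
def dg (M : Finset (Sym2 V)) (v : V) : ℤ := ((M.filter (fun e => v ∈ e)).card : ℤ)

/-- indicator of `y` -/
def ind (y z : V) : ℤ := if z = y then 1 else 0

theorem dg_nonneg (M : Finset (Sym2 V)) (v : V) : 0 ≤ dg M v := by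
  unfold dg; positivity

theorem ind_self (y : V) : ind y y = 1 := by simp [ind]

theorem ind_ne {y z : V} (h : z ≠ y) : ind y z = 0 := by simp [ind, h]

theorem ind_ne' {y z : V} (h : y ≠ z) : ind y z = 0 := by simp [ind, h.symm]

theorem dg_insert {M : Finset (Sym2 V)} {x y : V} (hxy : x ≠ y) (h : s(x, y) ∉ M) (v : V) :
    dg (insert s(x, y) M) v = dg M v + ind x v + ind y v := by
  unfold dg ind
  rw [Finset.filter_insert]
  by_cases hvx : v = x
  · subst hvx
    have h1 : v ∈ s(v, y) := Sym2.mem_mk_left _ _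
    rw [if_pos h1, Finset.card_insert_of_notMem (by simp [h])]
    simp [hxy]
  · by_cases hvy : v = y
    · subst hvy
      have h1 : v ∈ s(x, v) := Sym2.mem_mk_right _ _
      rw [if_pos h1, Finset.card_insert_of_notMem (by simp [h])]
      simp [hvx]
    · have h1 : v ∉ s(x, y) := by
        rw [Sym2.mem_iff]; push Not; exact ⟨hvx, hvy⟩
      rw [if_neg h1]
      simp [hvx, hvy]

theorem dg_erase {M : Finset (Sym2 V)} {x y : V} (hxy : x ≠ y) (h : s(x, y) ∈ M) (v : V) :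
    dg (M.erase s(x, y)) v = dg M v - ind x v - ind y v := by
  have h1 : s(x, y) ∉ M.erase s(x, y) := by simp
  have h2 := dg_insert hxy h1 v
  rw [Finset.insert_erase h] at h2
  omega

theorem dg_mono {M N : Finset (Sym2 V)} (h : M ⊆ N) (v : V) : dg M v ≤ dg N v := by
  unfold dg
  exact_mod_cast Finset.card_le_card (Finset.filter_subset_filter _ h)

theorem exists_of_dg_lt {M N : Finset (Sym2 V)} {v : V} (h : dg M v < dg N v) :
    ∃ w, s(v, w) ∈ N ∧ s(v, w) ∉ M := by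
  by_contra hcon
  push Not at hcon
  have : N.filter (fun e => v ∈ e) ⊆ M.filter (fun e => v ∈ e) := by
    intro e he
    rw [Finset.mem_filter] at he ⊢
    obtain ⟨w, rfl⟩ := Sym2.mem_iff_exists.mp he.2
    exact ⟨hcon w he.1, he.2⟩
  have h2 := Finset.card_le_card this
  unfold dg at h
  omega

theorem one_le_dg {M : Finset (Sym2 V)} {v a : V} (h : s(v, a) ∈ M) : 1 ≤ dg M v := by
  unfold dg
  have : 0 < (M.filter (fun e => v ∈ e)).card :=
    Finset.card_pos.mpr ⟨s(v, a), by simp [h]⟩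
  omega

theorem two_le_dg {M : Finset (Sym2 V)} {v a b : V} (hab : a ≠ b) (ha : s(v, a) ∈ M)
    (hb : s(v, b) ∈ M) : 2 ≤ dg M v := by
  unfold dg
  have h1 : ({s(v, a), s(v, b)} : Finset (Sym2 V)) ⊆ M.filter (fun e => v ∈ e) := by
    intro e he
    simp only [Finset.mem_insert, Finset.mem_singleton] at he
    rcases he with rfl | rfl <;> simp [ha, hb]
  have h2 := Finset.card_le_card h1
  rw [Finset.card_pair] at h2
  · omega
  · intro h
    rw [Sym2.eq_iff] at h
    rcases h with h | h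
    · exact hab h.2
    · exact hab (h.2.trans h.1)

theorem three_le_dg {M : Finset (Sym2 V)} {v a b c : V} (hab : a ≠ b) (hac : a ≠ c)
    (hbc : b ≠ c) (ha : s(v, a) ∈ M) (hb : s(v, b) ∈ M) (hc : s(v, c) ∈ M) : 3 ≤ dg M v := by
  unfold dg
  have key : ∀ {x y : V}, x ≠ y → s(v, x) ≠ s(v, y) := by
    intro x y hxy h
    rw [Sym2.eq_iff] at h
    rcases h with h | h
    · exact hxy h.2
    · exact hxy (h.2.trans h.1)
  have h1 : ({s(v, a), s(v, b), s(v, c)} : Finset (Sym2 V)) ⊆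
      M.filter (fun e => v ∈ e) := by
    intro e he
    simp only [Finset.mem_insert, Finset.mem_singleton] at he
    rcases he with rfl | rfl | rfl <;> simp [ha, hb, hc]
  have h2 := Finset.card_le_card h1
  rw [Finset.card_eq_three.mpr ⟨_, _, _, key hab, key hac, key hbc, rfl⟩] at h2
  omega

theorem two {M : Finset (Sym2 V)} {v a b : V} (hM : dg M v ≤ 1) (ha : s(v, a) ∈ M)
    (hb : s(v, b) ∈ M) : a = b := by
  by_contra h
  have := two_le_dg h ha hb
  omega

theorem three {M : Finset (Sym2 V)} {v a b c : V} (hM : dg M v ≤ 2) (ha : s(v, a) ∈ M)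
    (hb : s(v, b) ∈ M) (hc : s(v, c) ∈ M) : a = b ∨ a = c ∨ b = c := by
  by_contra h
  push Not at h
  have := three_le_dg h.1 h.2.1 h.2.2 ha hb hc
  omega

theorem exists_other {N : Finset (Sym2 V)} {v a : V} (h : 2 ≤ dg N v) :
    ∃ b, b ≠ a ∧ s(v, b) ∈ N := by
  unfold dg at h
  have h1 : 1 < (N.filter (fun e => v ∈ e)).card := by omega
  obtain ⟨e, he, hne⟩ := Finset.exists_mem_ne h1 s(v, a)
  rw [Finset.mem_filter] at he
  obtain ⟨b, rfl⟩ := Sym2.mem_iff_exists.mp he.2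
  refine ⟨b, ?_, he.1⟩
  rintro rfl
  exact hne rfl

/-- size of the symmetric difference -/
def dst (M N : Finset (Sym2 V)) : ℕ := (symmDiff M N).card

theorem dst_insert_blue {M N : Finset (Sym2 V)} {e : Sym2 V} (h1 : e ∈ N) (h2 : e ∉ M) :
    dst (insert e M) N + 1 = dst M N := by
  unfold dst
  have h3 : e ∈ symmDiff M N := by rw [Finset.mem_symmDiff]; exact Or.inr ⟨h1, h2⟩
  have h4 : symmDiff (insert e M) N = (symmDiff M N).erase e := by
    ext f
    simp only [Finset.mem_symmDiff, Finset.mem_insert, Finset.mem_erase]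
    by_cases hf : f = e
    · subst hf; simp [h1]
    · simp [hf]
  rw [h4, Finset.card_erase_of_mem h3]
  have := Finset.card_pos.mpr ⟨e, h3⟩
  omega

theorem dst_erase_red {M N : Finset (Sym2 V)} {e : Sym2 V} (h1 : e ∈ M) (h2 : e ∉ N) :
    dst (M.erase e) N + 1 = dst M N := by
  unfold dst
  have h3 : e ∈ symmDiff M N := by rw [Finset.mem_symmDiff]; exact Or.inl ⟨h1, h2⟩
  have h4 : symmDiff (M.erase e) N = (symmDiff M N).erase e := by
    ext f
    simp only [Finset.mem_symmDiff, Finset.mem_erase]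
    by_cases hf : f = e
    · subst hf; simp [h2]
    · simp [hf]
  rw [h4, Finset.card_erase_of_mem h3]
  have := Finset.card_pos.mpr ⟨e, h3⟩
  omega

theorem dst_erase_common {M N : Finset (Sym2 V)} {e : Sym2 V} (h1 : e ∈ M) (h2 : e ∈ N) :
    dst (M.erase e) N = dst M N + 1 := by
  unfold dst
  have h3 : e ∉ symmDiff M N := by rw [Finset.mem_symmDiff]; tauto
  have h4 : symmDiff (M.erase e) N = insert e (symmDiff M N) := by
    ext f
    simp only [Finset.mem_symmDiff, Finset.mem_erase, Finset.mem_insert]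
    by_cases hf : f = e
    · subst hf; simp [h1, h2]
    · simp [hf]
  rw [h4, Finset.card_insert_of_notMem h3]

/-! ### Short cycles -/

/-- the edge set of the triangle `a b c` -/
def tri (a b c : V) : Finset (Sym2 V) := {s(a, b), s(b, c), s(c, a)}

/-- the edge set of the 4-cycle `a b c d` -/
def quad (a b c d : V) : Finset (Sym2 V) := {s(a, b), s(b, c), s(c, d), s(d, a)}

/-- a triangle or a 4-cycle -/
def Short (Z : Finset (Sym2 V)) : Prop :=
  (∃ a b c, a ≠ b ∧ a ≠ c ∧ b ≠ c ∧ Z = tri a b c) ∨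
  (∃ a b c d, a ≠ b ∧ a ≠ c ∧ a ≠ d ∧ b ≠ c ∧ b ≠ d ∧ c ≠ d ∧ Z = quad a b c d)

theorem mem_tri {a b c : V} {e : Sym2 V} :
    e ∈ tri a b c ↔ e = s(a, b) ∨ e = s(b, c) ∨ e = s(c, a) := by
  simp [tri]

theorem mem_quad {a b c d : V} {e : Sym2 V} :
    e ∈ quad a b c d ↔ e = s(a, b) ∨ e = s(b, c) ∨ e = s(c, d) ∨ e = s(d, a) := by
  simp [quad]

theorem tri_rot (a b c : V) : tri a b c = tri b c a := by
  ext e; simp only [mem_tri]; tauto

theorem tri_swap (a b c : V) : tri a b c = tri b a c := by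
  ext e; simp only [mem_tri, Sym2.eq_swap (a := b) (b := a), Sym2.eq_swap (a := a) (b := c),
    Sym2.eq_swap (a := c) (b := b)]; tauto

theorem quad_rot (a b c d : V) : quad a b c d = quad b c d a := by
  ext e; simp only [mem_quad]; tauto

theorem quad_rev (a b c d : V) : quad a b c d = quad b a d c := by
  ext e; simp only [mem_quad, Sym2.eq_swap (a := b) (b := a), Sym2.eq_swap (a := a) (b := d),
    Sym2.eq_swap (a := d) (b := c), Sym2.eq_swap (a := c) (b := b)]; tauto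

/-- normal form of a short cycle at one of its edges -/
theorem Short.at_edge {Z : Finset (Sym2 V)} (hZ : Short Z) {x y : V} (h : s(x, y) ∈ Z) :
    (∃ q, x ≠ y ∧ x ≠ q ∧ y ≠ q ∧ Z = tri x y q) ∨
    (∃ q r, x ≠ y ∧ x ≠ q ∧ x ≠ r ∧ y ≠ q ∧ y ≠ r ∧ q ≠ r ∧ Z = quad x y q r) := by
  rcases hZ with ⟨a, b, c, hab, hac, hbc, rfl⟩ | ⟨a, b, c, d, hab, hac, had, hbc, hbd, hcd, rfl⟩
  · left
    rw [mem_tri] at h
    rcases h with h | h | h
    · rw [Sym2.eq_iff] at h
      rcases h with ⟨rfl, rfl⟩ | ⟨rfl, rfl⟩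
      · exact ⟨c, hab, hac, hbc, rfl⟩
      · exact ⟨c, hab.symm, hbc, hac, tri_swap _ _ _⟩
    · rw [Sym2.eq_iff] at h
      rcases h with ⟨rfl, rfl⟩ | ⟨rfl, rfl⟩
      · exact ⟨a, hbc, hab.symm, hac.symm, tri_rot _ _ _⟩
      · exact ⟨a, hbc.symm, hac.symm, hab.symm, by rw [tri_rot, tri_swap]⟩
    · rw [Sym2.eq_iff] at h
      rcases h with ⟨rfl, rfl⟩ | ⟨rfl, rfl⟩
      · exact ⟨b, hac.symm, hbc.symm, hab, by rw [tri_rot, tri_rot]⟩
      · exact ⟨b, hac, hab, hbc.symm, by rw [tri_rot, tri_rot, tri_swap]⟩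
  · right
    rw [mem_quad] at h
    rcases h with h | h | h | h
    · rw [Sym2.eq_iff] at h
      rcases h with ⟨rfl, rfl⟩ | ⟨rfl, rfl⟩
      · exact ⟨c, d, hab, hac, had, hbc, hbd, hcd, rfl⟩
      · exact ⟨d, c, hab.symm, hbd, hbc, had, hac, hcd.symm, quad_rev _ _ _ _⟩
    · rw [Sym2.eq_iff] at h
      rcases h with ⟨rfl, rfl⟩ | ⟨rfl, rfl⟩
      · exact ⟨d, a, hbc, hbd, hab.symm, hcd, hac.symm, had.symm, quad_rot _ _ _ _⟩
      · exact ⟨a, d, hbc.symm, hac.symm, hcd, hab.symm, hbd, had, by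
          rw [quad_rot, quad_rev]⟩
    · rw [Sym2.eq_iff] at h
      rcases h with ⟨rfl, rfl⟩ | ⟨rfl, rfl⟩
      · exact ⟨a, b, hcd, hac.symm, hbc.symm, had.symm, hbd.symm, hab, by
          rw [quad_rot, quad_rot]⟩
      · exact ⟨b, a, hcd.symm, hbd.symm, had.symm, hbc.symm, hac.symm, hab.symm, by
          rw [quad_rot, quad_rot, quad_rev]⟩
    · rw [Sym2.eq_iff] at h
      rcases h with ⟨rfl, rfl⟩ | ⟨rfl, rfl⟩
      · exact ⟨b, c, had.symm, hbd.symm, hcd.symm, hab, hac, hbc, by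
          rw [quad_rot, quad_rot, quad_rot]⟩
      · exact ⟨c, b, had, hac, hab, hcd.symm, hbd.symm, hbc.symm, by
          rw [quad_rot, quad_rot, quad_rot, quad_rev]⟩

theorem Short.ne {Z : Finset (Sym2 V)} (hZ : Short Z) {x y : V} (h : s(x, y) ∈ Z) : x ≠ y := by
  rcases hZ.at_edge h with ⟨q, h1, _⟩ | ⟨q, r, h1, _⟩ <;> exact h1

/-- in a short cycle an end of an edge has a further edge -/
theorem Short.next {Z : Finset (Sym2 V)} (hZ : Short Z) {x y : V} (h : s(x, y) ∈ Z) :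
    ∃ z, z ≠ y ∧ s(x, z) ∈ Z := by
  rcases hZ.at_edge h with ⟨q, h1, h2, h3, rfl⟩ | ⟨q, r, h1, h2, h3, h4, h5, h6, rfl⟩
  · exact ⟨q, h3.symm, by rw [mem_tri]; right; right; exact Sym2.eq_swap⟩
  · exact ⟨r, h5.symm, by rw [mem_quad]; right; right; right; exact Sym2.eq_swap⟩

/-- closure: a short cycle in `N`, where `N` has degree at most 2 at `x`, uses every edge of `N`
at `x` as soon as it uses one -/
theorem Short.closure {Z N : Finset (Sym2 V)} (hZ : Short Z) (hZN : Z ⊆ N) {x y z : V}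
    (hx : dg N x ≤ 2) (h : s(x, y) ∈ Z) (hz : s(x, z) ∈ N) : s(x, z) ∈ Z := by
  obtain ⟨w, hw, hwZ⟩ := hZ.next h
  rcases three hx (hZN h) (hZN hwZ) hz with h1 | h1 | h1
  · exact absurd h1.symm hw
  · rw [← h1]; exact h
  · rw [← h1]; exact hwZ

/-- a short cycle with a path of three edges is the 4-cycle closing it -/
theorem Short.path3 {Z : Finset (Sym2 V)} (hZ : Short Z) {p q r s : V} (h1 : s(p, q) ∈ Z)
    (h2 : s(q, r) ∈ Z) (h3 : s(r, s) ∈ Z) (hpr : p ≠ r) (hqs : q ≠ s) (hps : p ≠ s) :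
    Z = quad p q r s := by
  have hpq := hZ.ne h1
  have hqr := hZ.ne h2
  have hrs := hZ.ne h3
  rcases hZ.at_edge h1 with ⟨t, h4, h5, h6, rfl⟩ | ⟨t, u, h4, h5, h6, h7, h8, h9, rfl⟩
  · exfalso
    simp only [mem_tri, Sym2.eq_iff] at h2 h3
    rcases h2 with h2 | h2 | h2 <;> rcases h2 with h2 | h2 <;>
      rcases h3 with h3 | h3 | h3 <;> rcases h3 with h3 | h3 <;>
      obtain ⟨h2a, h2b⟩ := h2 <;> obtain ⟨h3a, h3b⟩ := h3 <;> subst_vars <;> simp_all
  · simp only [mem_quad, Sym2.eq_iff] at h2 h3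
    rcases h2 with h2 | h2 | h2 | h2 <;> rcases h2 with h2 | h2 <;>
      rcases h3 with h3 | h3 | h3 | h3 <;> rcases h3 with h3 | h3 <;>
      obtain ⟨h2a, h2b⟩ := h2 <;> obtain ⟨h3a, h3b⟩ := h3 <;> subst_vars <;> simp_all

/-- good: no loops, all degrees at most 2, no member of `S` -/
structure Good (S : Set (Finset (Sym2 V))) (M : Finset (Sym2 V)) : Prop where
  ne : ∀ {x y : V}, s(x, y) ∈ M → x ≠ y
  deg : ∀ v, dg M v ≤ 2
  free : ∀ Z ∈ S, ¬ Z ⊆ M

theorem Good.mono {S : Set (Finset (Sym2 V))} {M M' : Finset (Sym2 V)} (h : Good S M)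
    (hM : M' ⊆ M) : Good S M' :=
  ⟨fun h1 => h.ne (hM h1), fun v => (dg_mono hM v).trans (h.deg v),
    fun Z hZ h1 => h.free Z hZ (h1.trans hM)⟩

end H999
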