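import Pool.Agent.H999_TwoFactor.Tutte
import Pool.Agent.H622R2.MatGraph

/-!
The verifier.
-/

namespace H999

open Finset Pool.Agent.H622R2

set_option linter.all false

/-- adjacency test -/
def adjB (M : List (List Bool)) (i j : ℕ) : Bool := entry M i j || entry M j i

/-- is `xy` an edge of the item? -/
def inKB (it : Bool × ℕ × List ℕ × List ℕ) (x y : ℕ) : Bool :=
  if it.1 then decide (x ∈ it.2.1 :: it.2.2.1) && decide (y ∈ it.2.1 :: it.2.2.1) &&
    !decide (x = y)
  else (decide (x = it.2.1) && decide (y ∈ it.2.2.1)) || (decide (y = it.2.1) &&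
    decide (x ∈ it.2.2.1)) || (decide (x ∈ it.2.2.1) && decide (y ∈ it.2.2.2)) ||
    (decide (y ∈ it.2.2.1) && decide (x ∈ it.2.2.2))

/-- validity test of an item -/
def okB (it : Bool × ℕ × List ℕ × List ℕ) : Bool :=
  if it.1 then decide ((it.2.1 :: it.2.2.1).Nodup) && decide (it.2.2.1.length = 3)
  else decide ((it.2.1 :: (it.2.2.1 ++ it.2.2.2)).Nodup) &&
    (decide (it.2.2.1.length = 2) || decide (it.2.2.2.length = 1))

/-- the remaining edges -/
def edL (M : List (List Bool)) (its : List (Bool × ℕ × List ℕ × List ℕ)) : List (ℕ × ℕ) :=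
  (List.range M.length).flatMap fun x => ((List.range M.length).filter fun y =>
    decide (x < y) && adjB M x y && its.all fun it => !inKB it x y).map fun y => (x, y)

/-- all tokens -/
def TTl (M : List (List Bool)) (its : List (Bool × ℕ × List ℕ × List ℕ)) :
    List (List ℕ × List ℕ) :=
  (edL M its).map (fun p => ([p.1], [p.2])) ++ its.flatMap itoks

/-- compatible labels -/
def cmp (a b : ℕ) : Bool := decide (a = 0) || decide (b = 0) || decide (a = b)

/-- compatible with both copies -/
def cmpV (lv : List (ℕ × ℕ)) (a x : ℕ) : Bool :=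
  cmp a (lv.getD x (0, 0)).1 && cmp a (lv.getD x (0, 0)).2

/-- test of one token -/
def chkTok (lv : List (ℕ × ℕ)) (p : (List ℕ × List ℕ) × ℕ × ℕ) : Bool :=
  cmp p.2.1 p.2.2 && p.1.1.all (fun x => cmpV lv p.2.1 x) && p.1.2.all (fun x => cmpV lv p.2.2 x)

/-- all labels in a list of pairs -/
def flat (l : List (ℕ × ℕ)) : List ℕ := l.flatMap fun p => [p.1, p.2]

/-- number of occurrences -/
def cnt (l : List ℕ) (c : ℕ) : ℕ := (l.filter fun a => decide (a = c)).length

/-- the test of the labels -/
def chkLab (n : ℕ) (TT : List (List ℕ × List ℕ)) (lv lt : List (ℕ × ℕ)) (cs : List ℕ) : Bool :=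
  decide (lv.length = n) && decide (lt.length = TT.length) && (TT.zip lt).all (chkTok lv) &&
  decide cs.Nodup && cs.all (fun c => !decide (c = 0) &&
    decide (cnt (flat lv ++ flat lt) c % 2 = 1)) && decide (cnt (flat lv ++ flat lt) 0 < cs.length)

/-- the verifier -/
def chk (p : List (List Bool) × List (Bool × ℕ × List ℕ × List ℕ) ×
    (List (ℕ × ℕ) × List (ℕ × ℕ) × List ℕ)) : Bool :=
  p.2.1.all okB && chkLab p.1.length (TTl p.1 p.2.1) p.2.2.1 p.2.2.2.1 p.2.2.2.2

theorem cnt_eq (l : List ℕ) (c : ℕ) : cnt l c = l.count c := by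
  unfold cnt
  rw [List.count_eq_countP, List.countP_eq_length_filter]
  congr 1

theorem cnt_append (l l' : List ℕ) (c : ℕ) : cnt (l ++ l') c = cnt l c + cnt l' c := by
  unfold cnt; rw [List.filter_append, List.length_append]

theorem cnt_cons (a : ℕ) (l : List ℕ) (c : ℕ) :
    cnt (a :: l) c = (if a = c then 1 else 0) + cnt l c := by
  unfold cnt
  by_cases h : a = c
  · simp [h]; ring
  · simp [h]

theorem flat_cons (p : ℕ × ℕ) (l : List (ℕ × ℕ)) : flat (p :: l) = p.1 :: p.2 :: flat l := rfl

/-- the parity argument -/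
theorem parity : ∀ (ps : List (ℕ × ℕ)) (cs : List ℕ),
    (∀ p ∈ ps, p.1 = 0 ∨ p.2 = 0 ∨ p.1 = p.2) → cs.Nodup →
    (∀ c ∈ cs, c ≠ 0 ∧ cnt (flat ps) c % 2 = 1) → cs.length ≤ cnt (flat ps) 0
  | [], cs, _, _, h => by
    cases cs with
    | nil => simp
    | cons c cs => have := (h c (by simp)).2; simp [flat, cnt] at this
  | p :: ps, cs, hp, hnd, h => by
    have hp0 := hp p (by simp)
    have hps : ∀ q ∈ ps, q.1 = 0 ∨ q.2 = 0 ∨ q.1 = q.2 :=
      fun q hq => hp q (List.mem_cons_of_mem _ hq)
    rw [flat_cons, cnt_cons, cnt_cons]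
    have hc : ∀ c ∈ cs, c ≠ 0 ∧ ((if p.1 = c then 1 else 0) + ((if p.2 = c then 1 else 0) +
        cnt (flat ps) c)) % 2 = 1 := by
      intro c hc
      have := h c hc
      rwa [flat_cons, cnt_cons, cnt_cons] at this
    have same : p.1 = p.2 → cs.length ≤ (if p.1 = 0 then 1 else 0) +
        ((if p.2 = 0 then 1 else 0) + cnt (flat ps) 0) := by
      intro he
      have := parity ps cs hps hnd (fun c hcc => by
        obtain ⟨h1, h2⟩ := hc c hcc
        refine ⟨h1, ?_⟩
        rw [he] at h2
        split_ifs at h2 <;> omega)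
      omega
    by_cases he : p.1 = p.2
    · exact same he
    · -- one of them is zero, the other one is `b`
      obtain ⟨b, hb⟩ : ∃ b, (p.1 = 0 ∧ p.2 = b) ∨ (p.2 = 0 ∧ p.1 = b) := by
        rcases hp0 with h0 | h0 | h0
        · exact ⟨p.2, Or.inl ⟨h0, rfl⟩⟩
        · exact ⟨p.1, Or.inr ⟨h0, rfl⟩⟩
        · exact absurd h0 he
      have h3 := parity ps (cs.erase b) hps (hnd.erase b) (fun c hcc => by
        rw [hnd.mem_erase_iff] at hcc
        obtain ⟨h1, h2⟩ := hc c hcc.2
        refine ⟨h1, ?_⟩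
        have hcb := hcc.1
        rcases hb with ⟨h4, h5⟩ | ⟨h4, h5⟩
        · rw [h4, h5, if_neg (Ne.symm h1), if_neg (Ne.symm hcb)] at h2; omega
        · rw [h4, h5, if_neg (Ne.symm h1), if_neg (Ne.symm hcb)] at h2; omega)
      have h4 : cs.length ≤ (cs.erase b).length + 1 := by
        rw [List.length_erase]; split_ifs <;> omega
      rcases hb with ⟨h5, h6⟩ | ⟨h5, h6⟩
      · rw [h5, if_pos rfl]; omega
      · rw [h5, if_pos rfl]; omega

/-- contribution of a vertex -/
def gl (lv : List (ℕ × ℕ)) (z : ℕ) (k : ℤ) (c : ℕ) : ℕ :=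
  (if 1 ≤ k ∧ (lv.getD z (0, 0)).1 = c then 1 else 0) +
    (if 2 ≤ k ∧ (lv.getD z (0, 0)).2 = c then 1 else 0)

theorem sum_gl_step {lv : List (ℕ × ℕ)} {n : ℕ} {x : ℕ → ℤ} {a : ℕ} (ha : a < n)
    (h0 : 0 ≤ x a) (h1 : x a ≤ 1) (c : ℕ) :
    ∑ z ∈ Finset.range n, gl lv z (x z + ind a z) c = ∑ z ∈ Finset.range n, gl lv z (x z) c +
      (if (if x a = 0 then (lv.getD a (0, 0)).1 else (lv.getD a (0, 0)).2) = c then 1 else 0) := by
  have hm : a ∈ Finset.range n := Finset.mem_range.2 ha
  rw [← Finset.add_sum_erase _ _ hm, ← Finset.add_sum_erase _ _ hm]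
  have h2 : ∑ z ∈ (Finset.range n).erase a, gl lv z (x z + ind a z) c =
      ∑ z ∈ (Finset.range n).erase a, gl lv z (x z) c := by
    refine Finset.sum_congr rfl fun z hz => ?_
    rw [ind_ne (Finset.ne_of_mem_erase hz), add_zero]
  rw [h2, ind_self]
  have h3 : x a = 0 ∨ x a = 1 := by omega
  unfold gl
  rcases h3 with h | h <;> rw [h] <;> simp <;> ring

theorem label_core : ∀ (TT : List (List ℕ × List ℕ)) (lt lv : List (ℕ × ℕ)) (n : ℕ),
    lt.length = TT.length → (∀ p ∈ TT.zip lt, chkTok lv p = true) → ∀ f : ℕ → ℤ, Toks TT f →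
    (∀ z, f z ≤ 2) → (∀ z, n ≤ z → f z = 0) →
    ∃ ps : List (ℕ × ℕ), (∀ p ∈ ps, p.1 = 0 ∨ p.2 = 0 ∨ p.1 = p.2) ∧
      ∀ c, cnt (flat ps) c = ∑ z ∈ Finset.range n, gl lv z (f z) c + cnt (flat lt) c
  | [], lt, lv, n, hlen, _, f, hf, _, _ => by
    have h1 : lt = [] := by simpa using hlen
    subst h1
    have hf : ∀ z, f z = 0 := hf
    refine ⟨[], by simp, fun c => ?_⟩
    simp [flat, cnt, gl, hf]
  | t :: TT, [], lv, n, hlen, _, f, hf, _, _ => absurd hlen (by simp)
  | t :: TT, l :: lt, lv, n, hlen, hchk, f, hf, hle, hout => by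
    obtain ⟨x, s, hx, hs, hfx⟩ := hf
    have hx0 := hx.nonneg
    have ht := hchk (t, l) (by simp)
    have hrest : ∀ p ∈ TT.zip lt, chkTok lv p = true :=
      fun p hp => hchk p (by rw [List.zip_cons_cons]; exact List.mem_cons_of_mem _ hp)
    simp only [chkTok, Bool.and_eq_true, List.all_eq_true] at ht
    obtain ⟨⟨t1, t2⟩, t3⟩ := ht
    have cmp_iff : ∀ a b, cmp a b = true ↔ (a = 0 ∨ b = 0 ∨ a = b) := by
      intro a b; simp [cmp, or_assoc]
    rcases hs with hs | ⟨a, ha, b, hb, hs⟩
    · have hfe : f = x := by funext z; rw [hfx, hs]; ring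
      subst hfe
      obtain ⟨ps, h1, h2⟩ := label_core TT lt lv n (by simpa using hlen) hrest f hx hle hout
      refine ⟨(l.1, l.2) :: ps, ?_, fun c => ?_⟩
      · intro p hp
        rcases List.mem_cons.1 hp with rfl | hp
        · exact (cmp_iff _ _).1 t1
        · exact h1 p hp
      · rw [flat_cons, flat_cons, cnt_cons, cnt_cons, cnt_cons, cnt_cons, h2]
        ring
    · have hfe : ∀ z, f z = x z + ind a z + ind b z := fun z => by rw [hfx, hs]; ring
      have ia := fun z => ind_nonneg a z
      have ib := fun z => ind_nonneg b z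
      obtain ⟨ps, h1, h2⟩ := label_core TT lt lv n (by simpa using hlen) hrest x hx
        (fun z => by have := hle z; rw [hfe] at this; have := ia z; have := ib z; omega)
        (fun z hz => by
          have := hout z hz; rw [hfe] at this; have := ia z; have := ib z; have := hx0 z; omega)
      have han : a < n := by
        by_contra hc
        have := hout a (by omega); rw [hfe, ind_self] at this
        have := ib a; have := hx0 a; omega
      have hbn : b < n := by
        by_contra hc
        have := hout b (by omega); rw [hfe, ind_self] at this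
        have := ia b; have := hx0 b; omega
      have hxa : x a ≤ 1 := by
        have := hle a; rw [hfe, ind_self] at this; have := ib a; omega
      have hxb : x b + ind a b ≤ 1 := by
        have := hle b; rw [hfe, ind_self] at this; omega
      have hx0' : 0 ≤ x b + ind a b := by have := hx0 b; have := ia b; omega
      have s1 := sum_gl_step (lv := lv) (x := x) han (hx0 a) hxa
      have s2 := sum_gl_step (lv := lv) (x := fun z => x z + ind a z) hbn hx0' hxb
      refine ⟨(l.1, if x a = 0 then (lv.getD a (0, 0)).1 else (lv.getD a (0, 0)).2) ::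
        (l.2, if x b + ind a b = 0 then (lv.getD b (0, 0)).1 else (lv.getD b (0, 0)).2) :: ps,
        ?_, fun c => ?_⟩
      · have g1 := t2 a ha
        have g2 := t3 b hb
        simp only [cmpV, Bool.and_eq_true] at g1 g2
        intro p hp
        rcases List.mem_cons.1 hp with rfl | hp
        · by_cases h : x a = 0
          · simp only [h, if_true]; exact (cmp_iff _ _).1 g1.1
          · simp only [h, if_false]; exact (cmp_iff _ _).1 g1.2
        rcases List.mem_cons.1 hp with rfl | hp
        · by_cases h : x b + ind a b = 0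
          · simp only [h, if_true]; exact (cmp_iff _ _).1 g2.1
          · simp only [h, if_false]; exact (cmp_iff _ _).1 g2.2
        · exact h1 p hp
      · have e1 : ∑ z ∈ Finset.range n, gl lv z (f z) c =
            ∑ z ∈ Finset.range n, gl lv z ((x z + ind a z) + ind b z) c :=
          Finset.sum_congr rfl fun z _ => by rw [hfe]
        rw [e1, s2 c, s1 c]
        rw [flat_cons, flat_cons, flat_cons, cnt_cons, cnt_cons, cnt_cons, cnt_cons, cnt_cons,
          cnt_cons, h2]
        ring

theorem sum_gl_two : ∀ (lv : List (ℕ × ℕ)) (c : ℕ),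
    ∑ z ∈ Finset.range lv.length, gl lv z 2 c = cnt (flat lv) c := by
  intro lv c
  induction lv with
  | nil => simp [flat, cnt]
  | cons p lv ih =>
    rw [List.length_cons, Finset.sum_range_succ', flat_cons, cnt_cons, cnt_cons, ← ih]
    have : ∀ z, gl (p :: lv) (z + 1) 2 c = gl lv z 2 c := by
      intro z; simp [gl]
    simp only [this]
    simp [gl]
    ring

/-- the labels exclude a solution -/
theorem chkLab_sound {n : ℕ} {TT : List (List ℕ × List ℕ)} {lv lt : List (ℕ × ℕ)} {cs : List ℕ}
    (h : chkLab n TT lv lt cs = true) {f : ℕ → ℤ} (hf : Toks TT f)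
    (h2 : ∀ z, f z = if z < n then 2 else 0) : False := by
  simp only [chkLab, Bool.and_eq_true, decide_eq_true_eq, List.all_eq_true, Bool.not_eq_true',
    decide_eq_false_iff_not] at h
  obtain ⟨⟨⟨⟨⟨h3, h4⟩, h5⟩, h6⟩, h7⟩, h8⟩ := h
  obtain ⟨ps, g1, g2⟩ := label_core TT lt lv n h4 h5 f hf
    (fun z => by rw [h2]; split_ifs <;> omega)
    (fun z hz => by rw [h2, if_neg (by omega)])
  have g3 : ∀ c, cnt (flat ps) c = cnt (flat lv ++ flat lt) c := by
    intro c
    rw [g2, cnt_append, ← sum_gl_two lv c, h3]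
    congr 1
    refine Finset.sum_congr rfl fun z hz => ?_
    rw [h2, if_pos (Finset.mem_range.1 hz)]
  have := parity ps cs g1 h6 (fun c hc => by
    obtain ⟨e1, e2⟩ := h7 c hc
    exact ⟨e1, by rw [g3]; exact e2⟩)
  rw [g3] at this
  omega

end H999
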