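import Pool.Agent.H999_TwoFactor.Check

/-!
Soundness and completeness of the verifier.
-/

namespace H999

open Finset Pool.Agent.H622R2

set_option linter.all false

section

variable {V : Type*} [DecidableEq V]

theorem mem_kE (it : Item V) (x y : V) : s(x, y) ∈ kE it ↔
    if it.1 then (x ∈ it.2.1 :: it.2.2.1 ∧ y ∈ it.2.1 :: it.2.2.1 ∧ x ≠ y)
    else ((x = it.2.1 ∧ y ∈ it.2.2.1) ∨ (y = it.2.1 ∧ x ∈ it.2.2.1) ∨
      (x ∈ it.2.2.1 ∧ y ∈ it.2.2.2) ∨ (y ∈ it.2.2.1 ∧ x ∈ it.2.2.2)) := by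
  obtain ⟨fl, s, A, B⟩ := it
  cases fl with
  | true =>
    simp only [kE, if_true, Set.mem_setOf_eq]
    constructor
    · rintro ⟨a, ha, b, hb, hne, h⟩
      rw [Sym2.eq_iff] at h
      rcases h with ⟨rfl, rfl⟩ | ⟨rfl, rfl⟩
      · exact ⟨ha, hb, hne⟩
      · exact ⟨hb, ha, hne.symm⟩
    · rintro ⟨h1, h2, h3⟩
      exact ⟨x, h1, y, h2, h3, rfl⟩
  | false =>
    simp only [kE, Bool.false_eq_true, if_false, sE, Set.mem_setOf_eq]
    constructor
    · rintro ⟨a, ha, h | ⟨b, hb, h⟩⟩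
      · rw [Sym2.eq_iff] at h
        rcases h with ⟨rfl, rfl⟩ | ⟨rfl, rfl⟩
        · exact Or.inl ⟨rfl, ha⟩
        · exact Or.inr (Or.inl ⟨rfl, ha⟩)
      · rw [Sym2.eq_iff] at h
        rcases h with ⟨rfl, rfl⟩ | ⟨rfl, rfl⟩
        · exact Or.inr (Or.inr (Or.inl ⟨ha, hb⟩))
        · exact Or.inr (Or.inr (Or.inr ⟨ha, hb⟩))
    · rintro (⟨rfl, h⟩ | ⟨rfl, h⟩ | ⟨h1, h2⟩ | ⟨h1, h2⟩)
      · exact ⟨y, h, Or.inl rfl⟩
      · exact ⟨x, h, Or.inl Sym2.eq_swap⟩
      · exact ⟨x, h1, Or.inr ⟨y, h2, rfl⟩⟩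
      · exact ⟨y, h1, Or.inr ⟨x, h2, Sym2.eq_swap⟩⟩

theorem toks_edges : ∀ (L : List (V × V)) (M : Finset (Sym2 V)),
    (∀ e ∈ M, ∃ p ∈ L, e = s(p.1, p.2)) → (∀ p ∈ L, p.1 ≠ p.2) →
    Toks (L.map (fun p => ([p.1], [p.2]))) (dg M)
  | [], M, h, _ => by
    have : M = ∅ := by
      rw [Finset.eq_empty_iff_forall_notMem]
      intro e he
      obtain ⟨p, hp, -⟩ := h e he
      simp at hp
    subst this
    intro z; simp [dg]
  | p :: L, M, h, hne => by
    have hne' : ∀ q ∈ L, q.1 ≠ q.2 := fun q hq => hne q (List.mem_cons_of_mem _ hq)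
    by_cases hp : s(p.1, p.2) ∈ M
    · refine ⟨dg (M.erase s(p.1, p.2)), fun z => ind p.1 z + ind p.2 z,
        toks_edges L _ ?_ hne', Or.inr ⟨p.1, by simp, p.2, by simp, fun z => rfl⟩, fun z => ?_⟩
      · intro e he
        rw [Finset.mem_erase] at he
        obtain ⟨q, hq, h1⟩ := h e he.2
        rcases List.mem_cons.1 hq with rfl | hq
        · exact absurd h1 he.1
        · exact ⟨q, hq, h1⟩
      · rw [dg_erase (hne p (by simp)) hp]; ring
    · refine ⟨dg M, fun _ => 0, toks_edges L _ ?_ hne', Or.inl fun _ => rfl, fun z => by ring⟩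
      intro e he
      obtain ⟨q, hq, h1⟩ := h e he
      rcases List.mem_cons.1 hq with rfl | hq
      · rw [h1] at he; exact absurd he hp
      · exact ⟨q, hq, h1⟩

theorem toks_edges_conv : ∀ (L : List (V × V)) (f : V → ℤ),
    (L.map (fun p => s(p.1, p.2))).Nodup → (∀ p ∈ L, p.1 ≠ p.2) →
    Toks (L.map (fun p => ([p.1], [p.2]))) f →
    ∃ M : Finset (Sym2 V), (∀ e ∈ M, ∃ p ∈ L, e = s(p.1, p.2)) ∧ ∀ z, dg M z = f z
  | [], f, _, _, hf => by
    have hf : ∀ z, f z = 0 := hf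
    exact ⟨∅, by simp, fun z => by rw [hf]; simp [dg]⟩
  | p :: L, f, hnd, hne, hf => by
    rw [List.map_cons, List.nodup_cons] at hnd
    have hne' : ∀ q ∈ L, q.1 ≠ q.2 := fun q hq => hne q (List.mem_cons_of_mem _ hq)
    obtain ⟨x, t, hx, ht, hfx⟩ := hf
    obtain ⟨M, h1, h2⟩ := toks_edges_conv L x hnd.2 hne' hx
    rcases ht with ht | ⟨a, ha, b, hb, ht⟩
    · refine ⟨M, fun e he => ?_, fun z => by rw [h2, hfx, ht]; ring⟩
      obtain ⟨q, hq, h3⟩ := h1 e he
      exact ⟨q, List.mem_cons_of_mem _ hq, h3⟩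
    · rw [List.mem_singleton] at ha hb
      subst ha hb
      refine ⟨insert s(p.1, p.2) M, fun e he => ?_, fun z => ?_⟩
      · rcases Finset.mem_insert.1 he with rfl | he
        · exact ⟨p, by simp, rfl⟩
        · obtain ⟨q, hq, h3⟩ := h1 e he
          exact ⟨q, List.mem_cons_of_mem _ hq, h3⟩
      · rw [dg_insert (hne p (by simp)), h2, hfx, ht]
        · ring
        · intro hM
          obtain ⟨q, hq, h3⟩ := h1 _ hM
          exact hnd.1 (List.mem_map.2 ⟨q, hq, h3.symm⟩)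

end

theorem inKB_iff (it : Item ℕ) (x y : ℕ) : inKB it x y = true ↔ s(x, y) ∈ kE it := by
  rw [mem_kE]
  obtain ⟨fl, s, A, B⟩ := it
  cases fl with
  | true => simp [inKB, and_assoc]
  | false => simp [inKB, or_assoc]

theorem okB_iff (it : Item ℕ) : okB it = true ↔ iok it := by
  obtain ⟨fl, s, A, B⟩ := it
  cases fl with
  | true => simp only [okB, iok, if_true, Bool.and_eq_true, decide_eq_true_eq]
  | false =>
    simp only [okB, iok, Bool.false_eq_true, if_false, Bool.and_eq_true, decide_eq_true_eq,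
      Bool.or_eq_true]

theorem mem_edL {M : List (List Bool)} {its : List (Item ℕ)} {p : ℕ × ℕ} :
    p ∈ edL M its ↔ p.2 < M.length ∧ p.1 < p.2 ∧ adjB M p.1 p.2 = true ∧
      s(p.1, p.2) ∉ kAll its := by
  unfold edL
  simp only [List.mem_flatMap, List.mem_map, List.mem_filter, List.mem_range, Bool.and_eq_true,
    decide_eq_true_eq, List.all_eq_true, Bool.not_eq_true']
  constructor
  · rintro ⟨x, hx, y, ⟨hy, ⟨h1, h2⟩, h3⟩, rfl⟩
    refine ⟨hy, h1, h2, ?_⟩
    rintro ⟨it, hit, he⟩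
    have := h3 it hit
    rw [(inKB_iff it x y).2 he] at this
    cases this
  · rintro ⟨h1, h2, h3, h4⟩
    refine ⟨p.1, by omega, p.2, ⟨h1, ⟨h2, h3⟩, ?_⟩, rfl⟩
    intro it hit
    by_contra hc
    have hc' : inKB it p.1 p.2 = true := by simpa using hc
    exact h4 ⟨it, hit, (inKB_iff it _ _).1 hc'⟩

theorem edL_nodup (M : List (List Bool)) (its : List (Item ℕ)) :
    ((edL M its).map (fun p => s(p.1, p.2))).Nodup := by
  have h1 : (edL M its).Nodup := by
    unfold edL
    rw [List.nodup_flatMap]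
    refine ⟨fun x _ => ?_, ?_⟩
    · exact (List.nodup_range.filter _).map (fun a b h => by simpa using h)
    · refine List.nodup_range.imp ?_
      intro a b hab
      rw [Function.onFun, List.disjoint_left]
      rintro p hp hp'
      rw [List.mem_map] at hp hp'
      obtain ⟨y, -, rfl⟩ := hp
      obtain ⟨y', -, h⟩ := hp'
      simp only [Prod.mk.injEq] at h
      exact hab h.1.symm
  refine List.Nodup.map_on ?_ h1
  intro p hp q hq h
  rw [mem_edL] at hp hq
  rw [Sym2.eq_iff] at h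
  rcases h with h | h
  · exact Prod.ext h.1 h.2
  · have := hp.2.1; have := hq.2.1; omega

/-- image of a set of edges on `Fin n` -/
def up {n : ℕ} (N : Finset (Sym2 (Fin n))) : Finset (Sym2 ℕ) := N.image (Sym2.map Fin.val)

theorem mem_up {n : ℕ} {N : Finset (Sym2 (Fin n))} {a b : ℕ} : s(a, b) ∈ up N ↔
    ∃ x y : Fin n, s(x, y) ∈ N ∧ a = x ∧ b = y := by
  unfold up
  rw [Finset.mem_image]
  constructor
  · rintro ⟨e, he, h⟩
    induction e using Sym2.ind with
    | _ x y =>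
    rw [Sym2.map_mk, Sym2.eq_iff] at h
    rcases h with ⟨rfl, rfl⟩ | ⟨rfl, rfl⟩
    · exact ⟨x, y, he, rfl, rfl⟩
    · exact ⟨y, x, by rw [Sym2.eq_swap]; exact he, rfl, rfl⟩
  · rintro ⟨x, y, h, rfl, rfl⟩
    exact ⟨s(x, y), h, by rw [Sym2.map_mk]⟩

theorem dg_up {n : ℕ} {N : Finset (Sym2 (Fin n))} (v : Fin n) : dg (up N) v.val = dg N v := by
  unfold dg up
  have : (N.image (Sym2.map Fin.val)).filter (fun e => v.val ∈ e) =
      (N.filter (fun e => v ∈ e)).image (Sym2.map Fin.val) := by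
    ext e
    simp only [Finset.mem_filter, Finset.mem_image]
    constructor
    · rintro ⟨⟨f, hf, rfl⟩, h⟩
      refine ⟨f, ⟨hf, ?_⟩, rfl⟩
      rw [Sym2.mem_map] at h
      obtain ⟨a, ha, hav⟩ := h
      rwa [← Fin.ext hav]
    · rintro ⟨f, ⟨hf, hv⟩, rfl⟩
      exact ⟨⟨f, hf, rfl⟩, Sym2.mem_map.2 ⟨v, hv, rfl⟩⟩
  rw [this, Finset.card_image_of_injective _ (Sym2.map.injective Fin.val_injective)]

theorem dg_up_ge {n : ℕ} {N : Finset (Sym2 (Fin n))} {z : ℕ} (hz : n ≤ z) : dg (up N) z = 0 := by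
  unfold dg up
  have : (N.image (Sym2.map Fin.val)).filter (fun e => z ∈ e) = ∅ := by
    rw [Finset.filter_eq_empty_iff]
    intro e he hze
    rw [Finset.mem_image] at he
    obtain ⟨f, hf, rfl⟩ := he
    rw [Sym2.mem_map] at hze
    obtain ⟨a, ha, rfl⟩ := hze
    have := a.2; omega
  rw [this]; simp

theorem chk_sound {M : List (List Bool)}
    {w : List (Item ℕ) × (List (ℕ × ℕ) × List (ℕ × ℕ) × List ℕ)} (h : chk (M, w) = true) :
    Blk (matGraph M).edgeSet {Z | IsQuad Z} := by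
  obtain ⟨its, lv, lt, cs⟩ := w
  simp only [chk, Bool.and_eq_true, List.all_eq_true] at h
  obtain ⟨hok, hlab⟩ := h
  intro N hN hNG
  by_contra hcon
  push Not at hcon
  have hadj : ∀ {x y : Fin M.length}, s(x, y) ∈ N → (matGraph M).Adj x y := by
    intro x y hxy
    exact hNG _ hxy
  obtain ⟨K, t, h1, h2, h3, h4⟩ := realise (R := Set.univ) its (fun it hit => (okB_iff it).1 (hok it hit))
    (up N) (by
      intro a b hab
      obtain ⟨x, y, hxy, rfl, rfl⟩ := mem_up.1 hab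
      exact fun h => hN.ne hxy (Fin.ext h)) (by
      intro z
      by_cases hz : z < M.length
      · have := dg_up (N := N) ⟨z, hz⟩
        simp only at this
        rw [this, hN.deg]
      · rw [dg_up_ge (by omega)]; omega) (by
      rintro Z ⟨a, b, c, d, hab, hac, had, hbc, hbd, hcd, rfl⟩ hsub
      obtain ⟨x, y, e1, rfl, rfl⟩ := mem_up.1 (hsub (show s(a, b) ∈ quad a b c d by rw [mem_quad]; simp))
      obtain ⟨y', z, e2, h5, rfl⟩ := mem_up.1 (hsub (show s(y.val, c) ∈ quad x.val y.val c d by rw [mem_quad]; simp))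
      obtain ⟨z', w, e3, h6, rfl⟩ := mem_up.1 (hsub (show s(z.val, d) ∈ quad x.val y.val z.val d by rw [mem_quad]; simp))
      obtain ⟨w', x', e4, h7, h8⟩ := mem_up.1 (hsub (show s(w.val, x.val) ∈ quad x.val y.val z.val w.val by rw [mem_quad]; simp))
      have g1 : y = y' := Fin.ext h5
      have g2 : z = z' := Fin.ext h6
      have g3 : w = w' := Fin.ext h7
      have g4 : x = x' := Fin.ext h8
      subst g1 g2 g3 g4
      refine hcon (quad x y z w) ⟨x, y, z, w, ?_, ?_, ?_, ?_, ?_, ?_, rfl⟩ ?_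
      · rintro rfl; exact hab rfl
      · rintro rfl; exact hac rfl
      · rintro rfl; exact had rfl
      · rintro rfl; exact hbc rfl
      · rintro rfl; exact hbd rfl
      · rintro rfl; exact hcd rfl
      · intro e he
        rw [mem_quad] at he
        rcases he with rfl | rfl | rfl | rfl
        · exact e1
        · exact e2
        · exact e3
        · exact e4) (fun e _ => Set.mem_univ _)
  have hT : Toks (TTl M its) (fun z => dg K z + t z) := by
    unfold TTl
    refine Toks.append.2 ⟨dg K, t, toks_edges _ K ?_ ?_, h3, fun z => rfl⟩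
    · intro e he
      have h5 := h2 e he
      induction e using Sym2.ind with
      | _ a b =>
      obtain ⟨x, y, hxy, rfl, rfl⟩ := mem_up.1 (h1 he)
      have hA := hadj hxy
      have hne : x ≠ y := hA.1
      have hk : s(x.val, y.val) ∉ kAll its := h5.2
      rcases lt_or_gt_of_ne (fun h : x.val = y.val => hne (Fin.ext h)) with hlt | hlt
      · refine ⟨(x.val, y.val), mem_edL.2 ⟨y.2, hlt, ?_, hk⟩, rfl⟩
        have := hA.2
        simp only [adjB, Bool.or_eq_true]
        exact this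
      · refine ⟨(y.val, x.val), mem_edL.2 ⟨x.2, hlt, ?_, ?_⟩, Sym2.eq_swap⟩
        · have := hA.2
          simp only [adjB, Bool.or_eq_true]
          exact this.symm
        · rw [Sym2.eq_swap]; exact hk
    · intro p hp
      have := (mem_edL.1 hp).2.1
      omega
  refine chkLab_sound hlab hT ?_
  intro z
  beta_reduce
  rw [h4 z]
  by_cases hz : z < M.length
  · rw [if_pos hz]
    have := dg_up (N := N) ⟨z, hz⟩
    simp only at this
    rw [this, hN.deg]
  · rw [if_neg hz, dg_up_ge (by omega)]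

end H999
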