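import Pool.Agent.H999_TwoFactor.Check2
import Pool.Agent.H671R2.PolyAuto
import Pool.Agent.H622R2.CoNP

/-!
Completeness of the verifier and the size of the certificates.
-/

namespace H999

open Finset Pool.Agent.H622R2 Pool.Agent.NPC

set_option linter.all false

/-- items on `Fin n` as items on `ℕ` -/
def mapIt {n : ℕ} (it : Item (Fin n)) : Item ℕ :=
  (it.1, it.2.1.val, it.2.2.1.map Fin.val, if it.1 then [] else it.2.2.2.map Fin.val)

/-- tokens on `Fin n` as tokens on `ℕ` -/
def mapTok {n : ℕ} (t : List (Fin n) × List (Fin n)) : List ℕ × List ℕ :=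
  (t.1.map Fin.val, t.2.map Fin.val)

theorem mapIt_ok {n : ℕ} {it : Item (Fin n)} (h : iok it) : iok (mapIt it) := by
  obtain ⟨fl, s, A, B⟩ := it
  cases fl with
  | true =>
    simp only [iok, mapIt, if_true, List.length_map] at *
    exact ⟨by have := h.1.map Fin.val_injective; simpa using this, h.2⟩
  | false =>
    simp only [iok, mapIt, Bool.false_eq_true, if_false, List.length_map] at *
    exact ⟨by have := h.1.map Fin.val_injective; simpa using this, h.2⟩

theorem mem_mapv {n : ℕ} {x : Fin n} {l : List (Fin n)} : x.val ∈ l.map Fin.val ↔ x ∈ l := by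
  rw [List.mem_map]
  constructor
  · rintro ⟨y, hy, h⟩; rwa [← Fin.ext h]
  · intro h; exact ⟨x, h, rfl⟩

theorem mapIt_kE {n : ℕ} {it : Item (Fin n)} {x y : Fin n} :
    s(x.val, y.val) ∈ kE (mapIt it) ↔ s(x, y) ∈ kE it := by
  rw [mem_kE, mem_kE]
  obtain ⟨fl, s, A, B⟩ := it
  have h1 : s.val :: A.map Fin.val = (s :: A).map Fin.val := rfl
  cases fl with
  | true =>
    simp only [mapIt, if_true]
    rw [h1, mem_mapv, mem_mapv, Ne, Ne, Fin.ext_iff]
  | false =>
    simp only [mapIt, Bool.false_eq_true, if_false]
    rw [mem_mapv, mem_mapv, mem_mapv, mem_mapv, Fin.ext_iff, Fin.ext_iff]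

theorem mapIt_toks {n : ℕ} (it : Item (Fin n)) : itoks (mapIt it) = (itoks it).map mapTok := by
  obtain ⟨fl, s, A, B⟩ := it
  cases fl with
  | true => simp [itoks, mapIt, mapTok]
  | false =>
    simp only [itoks, mapIt, Bool.false_eq_true, if_false, stoks, List.map_append, List.map_map]
    rfl

theorem exists_lift {α β : Type} (f : α → β) : ∀ l : List β, (∀ b ∈ l, ∃ a, f a = b) →
    ∃ l' : List α, l'.map f = l
  | [], _ => ⟨[], rfl⟩
  | b :: l, h => by
    obtain ⟨a, ha⟩ := h b (by simp)
    obtain ⟨l', hl'⟩ := exists_lift f l (fun c hc => h c (List.mem_cons_of_mem _ hc))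
    exact ⟨a :: l', by rw [List.map_cons, ha, hl']⟩

theorem cnt_flat_ofFn {k : ℕ} (g : Fin k → ℕ × ℕ) (c : ℕ) :
    cnt (flat (List.ofFn g)) c =
      ∑ i, ((if (g i).1 = c then 1 else 0) + (if (g i).2 = c then 1 else 0)) := by
  induction k with
  | zero => simp [flat, cnt]
  | succ k ih =>
    rw [List.ofFn_succ, flat_cons, cnt_cons, cnt_cons, ih, Fin.sum_univ_succ]
    ring

theorem sz_nat_lin (k : ℕ) : sz k ≤ 4 * k + 1 := by
  have h1 := sz_nat_le k
  have h2 := Poly.size_le_self k
  omega

/-- bound of the number of tokens -/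
def mB (n : ℕ) : ℕ := n * n + n ^ 4 * (2 * n + 3)

/-- bound of the labels -/
def wB (n : ℕ) : ℕ := 2 * n + 2 * mB n

/-- bound of the certificate size -/
def certB (n : ℕ) : ℕ :=
  (n ^ 4 * ((3 + (4 * n + 1) + (n * (4 * n + 2) + 1) + (n * (4 * n + 2) + 1) + 3) + 1) + 1) +
  (n * (8 * wB n + 4) + 1) + (mB n * (8 * wB n + 4) + 1) + ((wB n + 1) * (4 * wB n + 2) + 1) + 3

theorem sz_item {n : ℕ} {it : Item (Fin n)} (h : iok it) :
    sz (mapIt it) ≤ 3 + (4 * n + 1) + (n * (4 * n + 2) + 1) + (n * (4 * n + 2) + 1) + 3 := by
  obtain ⟨fl, s, A, B⟩ := it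
  have hl : ∀ l : List (Fin n), l.Nodup → sz (l.map Fin.val) ≤ n * (4 * n + 2) + 1 := by
    intro l hl
    have h1 := sz_le_length_mul (l.map Fin.val) (4 * n + 1) (by
      intro a ha
      rw [List.mem_map] at ha
      obtain ⟨x, -, rfl⟩ := ha
      have := sz_nat_lin x.val
      have := x.2
      omega)
    have h2 : (l.map Fin.val).length ≤ n := by
      rw [List.length_map]
      have := hl.length_le_card
      simpa using this
    refine h1.trans ?_
    have : (l.map Fin.val).length * (4 * n + 1 + 1) ≤ n * (4 * n + 2) := Nat.mul_le_mul_right _ h2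
    omega
  have hs : sz s.val ≤ 4 * n + 1 := by
    have := sz_nat_lin s.val
    have := s.2
    omega
  have hfl := sz_bool_le fl
  cases fl with
  | true =>
    simp only [iok, if_true] at h
    have h1 := hl A (List.nodup_cons.1 h.1).2
    simp only [mapIt, sz_pair, if_true, sz_list_nil]
    omega
  | false =>
    simp only [iok, Bool.false_eq_true, if_false] at h
    have h1 := hl A (List.nodup_append.1 (List.nodup_cons.1 h.1).2).1
    have h2 := hl B (List.nodup_append.1 (List.nodup_cons.1 h.1).2).2.1
    simp only [mapIt, sz_pair, Bool.false_eq_true, if_false]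
    omega

theorem flat_len (its : List (Item ℕ)) : True := trivial

theorem itoks_len {n : ℕ} {it : Item (Fin n)} (h : iok it) : (itoks it).length ≤ 2 * n + 3 := by
  obtain ⟨fl, s, A, B⟩ := it
  cases fl with
  | true => simp [itoks]
  | false =>
    simp only [iok, Bool.false_eq_true, if_false] at h
    have h1 := (List.nodup_append.1 (List.nodup_cons.1 h.1).2).1.length_le_card
    have h2 := (List.nodup_append.1 (List.nodup_cons.1 h.1).2).2.1.length_le_card
    simp only [Fintype.card_fin] at h1 h2
    simp only [itoks, Bool.false_eq_true, if_false, stoks, List.length_append, List.length_map]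
    omega

theorem flatMap_len_le {α β : Type} (f : α → List β) (B : ℕ) : ∀ l : List α,
    (∀ a ∈ l, (f a).length ≤ B) → (l.flatMap f).length ≤ l.length * B
  | [], _ => by simp
  | a :: l, h => by
    rw [List.flatMap_cons, List.length_append, List.length_cons]
    have h1 := h a (by simp)
    have h2 := flatMap_len_le f B l (fun b hb => h b (List.mem_cons_of_mem _ hb))
    have : (l.length + 1) * B = l.length * B + B := by ring
    omega

theorem edL_len (M : List (List Bool)) (its : List (Item ℕ)) :
    (edL M its).length ≤ M.length * M.length := by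
  unfold edL
  refine (flatMap_len_le _ M.length _ ?_).trans ?_
  · intro x _
    rw [List.length_map]
    refine (List.length_filter_le _ _).trans ?_
    rw [List.length_range]
  · rw [List.length_range]

theorem chk_complete {M : List (List Bool)} (h : Blk (matGraph M).edgeSet {Z | IsQuad Z}) :
    ∃ w : List (Item ℕ) × (List (ℕ × ℕ) × List (ℕ × ℕ) × List ℕ),
      sz w ≤ certB M.length ∧ chk (M, w) = true := by
  classical
  obtain ⟨its, hok, hlen, hinf⟩ := char_items h
  rw [Fintype.card_fin] at hlen
  set its' := its.map mapIt with hits'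
  -- the remaining edges
  obtain ⟨L', hL'⟩ : ∃ L' : List (Fin M.length × Fin M.length),
      L'.map (fun p => (p.1.val, p.2.val)) = edL M its' := by
    refine exists_lift _ _ ?_
    intro p hp
    rw [mem_edL] at hp
    exact ⟨(⟨p.1, by omega⟩, ⟨p.2, hp.1⟩), rfl⟩
  have hL'm : ∀ p ∈ L', p.1.val < p.2.val ∧ adjB M p.1 p.2 = true ∧ s(p.1, p.2) ∉ kAll its := by
    intro p hp
    have h1 : (p.1.val, p.2.val) ∈ edL M its' := by rw [← hL']; exact List.mem_map.2 ⟨p, hp, rfl⟩
    rw [mem_edL] at h1
    obtain ⟨-, h2, h3, h4⟩ := h1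
    refine ⟨h2, h3, ?_⟩
    rintro ⟨it, hit, he⟩
    refine h4 ⟨mapIt it, List.mem_map.2 ⟨it, hit, rfl⟩, mapIt_kE.2 he⟩
  have hL'nd : (L'.map (fun p => s(p.1, p.2))).Nodup := by
    have h1 := edL_nodup M its'
    rw [← hL', List.map_map] at h1
    have h2 : ((fun p : ℕ × ℕ => s(p.1, p.2)) ∘ fun p : Fin M.length × Fin M.length =>
        (p.1.val, p.2.val)) = (Sym2.map Fin.val) ∘ (fun p => s(p.1, p.2)) := by
      funext p; simp [Sym2.map_mk]
    rw [h2, ← List.map_map] at h1
    exact List.Nodup.of_map _ h1
  set TT' : List (List (Fin M.length) × List (Fin M.length)) :=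
    L'.map (fun p => ([p.1], [p.2])) ++ its.flatMap itoks with hTT'
  have hTT : TTl M its' = TT'.map mapTok := by
    unfold TTl
    rw [hTT', List.map_append, ← hL', List.map_map, List.map_map]
    congr 1
    rw [hits', List.flatMap_map, List.map_flatMap]
    refine List.flatMap_congr fun it _ => ?_
    exact mapIt_toks it
  -- no solution on `Fin n`
  have hno : ¬ Toks TT' (fun _ => 2) := by
    intro hT
    obtain ⟨x, y, hx, hy, hxy⟩ := Toks.append.1 hT
    obtain ⟨K, hK1, hK2⟩ := toks_edges_conv L' x hL'nd (fun p hp => by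
      have := (hL'm p hp).1
      intro h; rw [h] at this; omega) hx
    have hy0 := hy.nonneg
    refine hinf ⟨x, y, ⟨K, ⟨?_, ?_, by simp⟩, ?_, hK2⟩, hy, hxy⟩
    · intro a b hab
      obtain ⟨p, hp, he⟩ := hK1 _ hab
      have := (hL'm p hp).1
      rw [Sym2.eq_iff] at he
      rcases he with ⟨rfl, rfl⟩ | ⟨rfl, rfl⟩
      · intro h; rw [h] at this; omega
      · intro h; rw [h] at this; omega
    · intro v
      rw [hK2]
      have h1 : (2 : ℤ) = x v + y v := hxy v
      have := hy0 v
      omega
    · intro e he
      obtain ⟨p, hp, rfl⟩ := hK1 e he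
      obtain ⟨h1, h2, h3⟩ := hL'm p hp
      refine ⟨?_, h3⟩
      simp only [adjB, Bool.or_eq_true] at h2
      exact ⟨fun h => by have h' : p.1 = p.2 := h; rw [h'] at h1; omega, h2⟩
  obtain ⟨lab, cs, hlab, hadj, hcs, hcard⟩ := labels_of_no_pm (tgraph TT')
    (fun Mm hMm => hno (toks_of_pm TT' Mm hMm))
  set lv : List (ℕ × ℕ) :=
    List.ofFn (fun v : Fin M.length => (lab (.inl (v, false)), lab (.inl (v, true)))) with hlv
  set lt : List (ℕ × ℕ) :=
    List.ofFn (fun i : Fin TT'.length => (lab (.inr (i, false)), lab (.inr (i, true)))) with hlt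
  have hcount : ∀ c, cnt (flat lv ++ flat lt) c =
      (Finset.univ.filter (fun x => lab x = c)).card := by
    intro c
    rw [cnt_append, hlv, hlt, cnt_flat_ofFn, cnt_flat_ofFn, Finset.card_filter,
      Fintype.sum_sum_type, Fintype.sum_prod_type, Fintype.sum_prod_type]
    congr 1
    · refine Finset.sum_congr rfl fun i _ => ?_
      rw [Fintype.sum_bool]; simp only [add_comm]
    · refine Finset.sum_congr rfl fun i _ => ?_
      rw [Fintype.sum_bool]; simp only [add_comm]
  have cmp_iff : ∀ a b, cmp a b = true ↔ (a = 0 ∨ b = 0 ∨ a = b) := by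
    intro a b; simp [cmp, or_assoc]
  have hgetD : ∀ v : Fin M.length, lv.getD v.val (0, 0) =
      (lab (.inl (v, false)), lab (.inl (v, true))) := by
    intro v
    rw [hlv, List.getD_eq_getElem?_getD, List.getElem?_ofFn]
    simp
  have hm : TT'.length ≤ mB M.length := by
    rw [hTT', List.length_append, List.length_map]
    have h1 := edL_len M its'
    rw [← hL', List.length_map] at h1
    have h2 := flatMap_len_le itoks (2 * M.length + 3) its (fun it hit => itoks_len (hok it hit))
    have h3 : its.length * (2 * M.length + 3) ≤ M.length ^ 4 * (2 * M.length + 3) :=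
      Nat.mul_le_mul_right _ hlen
    unfold mB
    omega
  have hW : Fintype.card ((Fin M.length × Bool) ⊕ (Fin TT'.length × Bool)) ≤ wB M.length := by
    simp only [Fintype.card_sum, Fintype.card_prod, Fintype.card_fin, Fintype.card_bool]
    unfold wB
    omega
  have hlabB : ∀ x, sz (lab x) ≤ 4 * wB M.length + 1 := by
    intro x
    have h1 := sz_nat_lin (lab x)
    have h2 := hlab x
    omega
  refine ⟨(its', lv, lt, cs.toList), ?_, ?_⟩
  · -- size
    have s1 : sz its' ≤ M.length ^ 4 * ((3 + (4 * M.length + 1) +
        (M.length * (4 * M.length + 2) + 1) + (M.length * (4 * M.length + 2) + 1) + 3) + 1) + 1 := by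
      refine (sz_le_length_mul its' (3 + (4 * M.length + 1) +
          (M.length * (4 * M.length + 2) + 1) + (M.length * (4 * M.length + 2) + 1) + 3)
          (fun it hit => ?_)).trans ?_
      · rw [hits', List.mem_map] at hit
        obtain ⟨it', hit', rfl⟩ := hit
        exact sz_item (hok it' hit')
      · rw [hits', List.length_map]
        have := Nat.mul_le_mul_right ((3 + (4 * M.length + 1) +
          (M.length * (4 * M.length + 2) + 1) + (M.length * (4 * M.length + 2) + 1) + 3) + 1) hlen
        exact Nat.add_le_add_right this 1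
    have s2 : sz lv ≤ M.length * (8 * wB M.length + 4) + 1 := by
      refine (sz_le_length_mul lv (8 * wB M.length + 3) (fun p hp => ?_)).trans ?_
      · rw [hlv, List.mem_ofFn] at hp
        obtain ⟨v, rfl⟩ := hp
        have h1 := hlabB (.inl (v, false))
        have h2 := hlabB (.inl (v, true))
        simp only [sz_pair]
        omega
      · rw [hlv, List.length_ofFn]
    have s3 : sz lt ≤ mB M.length * (8 * wB M.length + 4) + 1 := by
      refine (sz_le_length_mul lt (8 * wB M.length + 3) (fun p hp => ?_)).trans ?_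
      · rw [hlt, List.mem_ofFn] at hp
        obtain ⟨v, rfl⟩ := hp
        have h1 := hlabB (.inr (v, false))
        have h2 := hlabB (.inr (v, true))
        simp only [sz_pair]
        omega
      · rw [hlt, List.length_ofFn]
        have := Nat.mul_le_mul_right (8 * wB M.length + 3 + 1) hm
        exact Nat.add_le_add_right this 1
    have s4 : sz cs.toList ≤ (wB M.length + 1) * (4 * wB M.length + 2) + 1 := by
      refine (sz_le_length_mul cs.toList (4 * wB M.length + 1) (fun c hc => ?_)).trans ?_
      · rw [Finset.mem_toList] at hc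
        have h1 := (hcs c hc).2.1
        have h2 := sz_nat_lin c
        omega
      · rw [Finset.length_toList]
        have h1 : cs.card ≤ wB M.length + 1 := by
          have h2 : cs ⊆ Finset.range (wB M.length + 1) := by
            intro c hc
            rw [Finset.mem_range]
            have := (hcs c hc).2.1
            omega
          have := Finset.card_le_card h2
          rwa [Finset.card_range] at this
        have := Nat.mul_le_mul_right (4 * wB M.length + 1 + 1) h1
        exact Nat.add_le_add_right this 1
    simp only [sz_pair]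
    unfold certB
    omega
  · -- acceptance
    simp only [chk, Bool.and_eq_true, List.all_eq_true]
    refine ⟨?_, ?_⟩
    · intro it hit
      rw [hits', List.mem_map] at hit
      obtain ⟨it', hit', rfl⟩ := hit
      exact (okB_iff _).2 (mapIt_ok (hok it' hit'))
    · simp only [chkLab, Bool.and_eq_true, decide_eq_true_eq, List.all_eq_true, Bool.not_eq_true',
        decide_eq_false_iff_not]
      refine ⟨⟨⟨⟨⟨?_, ?_⟩, ?_⟩, Finset.nodup_toList _⟩, ?_⟩, ?_⟩
      · rw [hlv, List.length_ofFn]
      · rw [hlt, List.length_ofFn, hTT, List.length_map]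
      · intro p hp
        rw [hTT] at hp
        obtain ⟨i, hi, hpi⟩ := List.mem_iff_getElem.1 hp
        rw [List.length_zip, List.length_map] at hi
        have hi' : i < TT'.length := by omega
        rw [List.getElem_zip, List.getElem_map] at hpi
        have hlti : lt[i]'(by rw [hlt, List.length_ofFn]; exact hi') =
            (lab (.inr (⟨i, hi'⟩, false)), lab (.inr (⟨i, hi'⟩, true))) := by
          simp only [hlt, List.getElem_ofFn]
        rw [hlti] at hpi
        subst hpi
        simp only [chkTok, Bool.and_eq_true, List.all_eq_true, mapTok]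
        refine ⟨⟨?_, ?_⟩, ?_⟩
        · rw [cmp_iff]
          exact hadj (.inr (⟨i, hi'⟩, false)) (.inr (⟨i, hi'⟩, true)) ⟨rfl, by simp⟩
        · intro a ha
          rw [List.mem_map] at ha
          obtain ⟨v, hv, rfl⟩ := ha
          simp only [cmpV, Bool.and_eq_true]
          rw [hgetD, cmp_iff, cmp_iff]
          refine ⟨hadj (.inr (⟨i, hi'⟩, false)) (.inl (v, false)) ?_,
            hadj (.inr (⟨i, hi'⟩, false)) (.inl (v, true)) ?_⟩
          · exact hv
          · exact hv
        · intro a ha
          rw [List.mem_map] at ha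
          obtain ⟨v, hv, rfl⟩ := ha
          simp only [cmpV, Bool.and_eq_true]
          rw [hgetD, cmp_iff, cmp_iff]
          refine ⟨hadj (.inr (⟨i, hi'⟩, true)) (.inl (v, false)) ?_,
            hadj (.inr (⟨i, hi'⟩, true)) (.inl (v, true)) ?_⟩
          · exact hv
          · exact hv
      · intro c hc
        rw [Finset.mem_toList] at hc
        obtain ⟨h1, h2, h3⟩ := hcs c hc
        refine ⟨h1, ?_⟩
        rw [hcount]
        exact Nat.odd_iff.1 h3
      · rw [hcount, Finset.length_toList]
        exact hcard

end H999
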