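import Pool.Agent.H999_TwoFactor.State

/-!
The parts of an uncrossed family of 4-cycles and their items.
-/

namespace H999

open Finset

set_option linter.all false

variable {V : Type*} [DecidableEq V]

/-- items: `(true, a, [b, c, d], [])` for a `K_4`, `(false, s, A, B)` with special vertex -/
abbrev Item (V : Type*) := Bool × V × List V × List V

/-- edges of an item -/
def kE (it : Item V) : Set (Sym2 V) :=
  if it.1 then {e | ∃ x ∈ it.2.1 :: it.2.2.1, ∃ y ∈ it.2.1 :: it.2.2.1, x ≠ y ∧ e = s(x, y)}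
  else sE it.2.1 it.2.2.1 it.2.2.2

/-- tokens of an item -/
def itoks (it : Item V) : List (List V × List V) :=
  if it.1 then List.replicate 3 (it.2.1 :: it.2.2.1, it.2.1 :: it.2.2.1)
  else stoks it.2.1 it.2.2.1 it.2.2.2

/-- validity of an item -/
def iok (it : Item V) : Prop :=
  if it.1 then (it.2.1 :: it.2.2.1).Nodup ∧ it.2.2.1.length = 3
  else (it.2.1 :: (it.2.2.1 ++ it.2.2.2)).Nodup ∧ (it.2.2.1.length = 2 ∨ it.2.2.2.length = 1)

/-- edges between `u, w` and `Y` -/
def KY (u w : V) (Y : Finset V) : Set (Sym2 V) := {e | ∃ y ∈ Y, e = s(u, y) ∨ e = s(w, y)}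

theorem KY_swap (u w : V) (Y : Finset V) : KY w u Y = KY u w Y := by
  ext e; simp only [KY, Set.mem_setOf_eq]
  constructor <;> rintro ⟨y, hy, h⟩ <;> exact ⟨y, hy, h.symm⟩

/-- structure of the family -/
structure Str (S : Set (Finset (Sym2 V))) : Prop where
  q : ∀ Z ∈ S, IsQuad Z
  U : ∀ Z ∈ S, ∀ Z' ∈ S, Z ≠ Z' → ∀ e ∈ Z, e ∈ Z' → ∃ e' ∈ Z, e' ∈ Z' ∧ e' ≠ e
  K : ∀ a b c d, a ≠ b → a ≠ c → a ≠ d → b ≠ c → b ≠ d → c ≠ d → quad a b c d ∈ S →
    quad a b d c ∈ S → quad a c b d ∈ S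

theorem Str.sdiff {S C : Set (Finset (Sym2 V))} {K : Set (Sym2 V)} (h : Str S)
    (hc : Clus S C K) : Str (S \ C) where
  q Z hZ := h.q Z hZ.1
  U Z hZ Z' hZ' := h.U Z hZ.1 Z' hZ'.1
  K a b c d h1 h2 h3 h4 h5 h6 hq hq' := by
    refine ⟨h.K a b c d h1 h2 h3 h4 h5 h6 hq.1 hq'.1, fun hC => ?_⟩
    refine hc.dis _ hq'.1 hq'.2 s(a, c) (hc.CK _ hC _ ?_) ?_
    · rw [mem_quad]; left; rfl
    · rw [mem_quad]; right; right; right; exact Sym2.eq_swap

theorem quad_sw (u i w j : V) : quad w i u j = quad u i w j := by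
  ext e; simp only [mem_quad, Sym2.eq_swap (a := w) (b := i), Sym2.eq_swap (a := i) (b := u),
    Sym2.eq_swap (a := u) (b := j), Sym2.eq_swap (a := j) (b := w)]; tauto

theorem quad_ij (u i w j : V) : quad u j w i = quad u i w j := by
  ext e; simp only [mem_quad, Sym2.eq_swap (a := w) (b := i), Sym2.eq_swap (a := i) (b := u),
    Sym2.eq_swap (a := u) (b := j), Sym2.eq_swap (a := j) (b := w)]; tauto

section

variable {S C : Set (Finset (Sym2 V))} {R : Set (Sym2 V)} {ts : List (List V × List V)}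
  {u w : V} {Y : Finset V} {E : V → V → Prop}

theorem sunEnv [Fintype V] (hst : St S R ts) (hs : Str S) (huw : u ≠ w) (hu : u ∉ Y)
    (hw : w ∉ Y) (hE : ∀ i j, E i j → i ∈ Y ∧ j ∈ Y ∧ i ≠ j) (hsym : ∀ i j, E i j → E j i)
    (hc : Clus S C (KY u w Y)) (hC : ∀ Z, Z ∈ C ↔ ∃ i j, E i j ∧ Z = quad u i w j) :
    SunEnv (QE S C (KY u w Y) R ts) u w Y E where
  js := QE.js hs.q
  huw := huw
  hu := hu
  hw := hw
  le f hf z := QE.le hf z
  mem := hE
  symm := hsym
  seed i j hij := by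
    have hq : quad u i w j ∈ C := (hC _).2 ⟨i, j, hij, rfl⟩
    have h := hc.seed hst hq
    obtain ⟨hi, hj, hne⟩ := hE i j hij
    have hui : u ≠ i := fun e => hu (e ▸ hi)
    have huj : u ≠ j := fun e => hu (e ▸ hj)
    have hwi : w ≠ i := fun e => hw (e ▸ hi)
    have hwj : w ≠ j := fun e => hw (e ▸ hj)
    have he : (fun z => dg (quad u i w j) z) =
        (fun z => 2 * ind u z + 2 * ind w z + 2 * ind i z + 2 * ind j z) := by
      funext z; rw [dg_quad hui huw huj hwi.symm hne hwj]; ring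
    rw [he] at h
    exact h
  bad P R' hP hR' hPR := by
    refine hc.bad hst ?_ ?_ ?_
    · intro e he
      rw [mem_KF] at he
      rcases he with ⟨y, hy, rfl⟩ | ⟨y, hy, rfl⟩
      · exact ⟨y, hP hy, Or.inl rfl⟩
      · exact ⟨y, hR' hy, Or.inr rfl⟩
    · intro x y hxy
      rw [mem_KF] at hxy
      rcases hxy with ⟨t, ht, h⟩ | ⟨t, ht, h⟩
      · have : u ≠ t := fun e => hu (e ▸ hP ht)
        rw [Sym2.eq_iff] at h
        rcases h with ⟨rfl, rfl⟩ | ⟨rfl, rfl⟩
        · exact this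
        · exact this.symm
      · have : w ≠ t := fun e => hw (e ▸ hR' ht)
        rw [Sym2.eq_iff] at h
        rcases h with ⟨rfl, rfl⟩ | ⟨rfl, rfl⟩
        · exact this
        · exact this.symm
    · intro Z hZ hsub
      obtain ⟨i, j, hij, rfl⟩ := (hC Z).1 hZ
      obtain ⟨h1, h2⟩ := quad_sub_KF huw (fun h => hu (hR' h)) (fun h => hw (hP h)) hsub
      exact hPR i h1 j h2 hij

/-- item of a complete sunflower -/
theorem itemC [Fintype V] (hst : St S R ts) (hc : Clus S C (KY u w Y))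
    (hS : SunEnv (QE S C (KY u w Y) R ts) u w Y E) (hC : ∀ i j, E i j → quad u i w j ∈ C)
    (hall : ∀ i ∈ Y, ∀ j ∈ Y, i ≠ j → E i j) (hdw : ∀ y ∈ Y, ¬ QE S C (KY u w Y) R ts (dbl w y)) :
    ∃ it : Item V, iok it ∧ kE it = KY u w Y ∧
      St (S \ C) (R \ KY u w Y) (ts ++ itoks it) := by
  have hK : sE u Y.toList [w] = KY u w Y := by
    ext e
    simp only [sE, KY, Set.mem_setOf_eq, List.mem_singleton, exists_eq_left, Finset.mem_toList]
    constructor
    · rintro ⟨y, hy, h | h⟩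
      · exact ⟨y, hy, Or.inl h⟩
      · exact ⟨y, hy, Or.inr (h.trans Sym2.eq_swap)⟩
    · rintro ⟨y, hy, h | h⟩
      · exact ⟨y, hy, Or.inl h⟩
      · exact ⟨y, hy, Or.inr (h.trans Sym2.eq_swap)⟩
  have hnd : (u :: (Y.toList ++ [w])).Nodup := by
    rw [List.nodup_cons, List.nodup_append, List.mem_append, List.mem_singleton]
    refine ⟨?_, Finset.nodup_toList Y, by simp, ?_⟩
    · rintro (h' | h')
      · exact hS.hu (Finset.mem_toList.1 h')
      · exact hS.huw h'
    · rintro a ha b hb rfl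
      rw [List.mem_singleton] at hb
      subst hb
      exact hS.hw (Finset.mem_toList.1 ha)
  refine ⟨(false, u, Y.toList, [w]), ?_, ?_, ?_⟩
  · simp only [iok, Bool.false_eq_true, if_false]
    exact ⟨hnd, Or.inr rfl⟩
  · simp only [kE, Bool.false_eq_true, if_false]
    exact hK
  · have : itoks (false, u, Y.toList, [w]) = stoks u Y.toList [w] := by
      simp only [itoks, Bool.false_eq_true, if_false]
    rw [this]
    refine hst.step hc ?_ ?_
    · intro F hF hd hfree
      refine orient1 hnd (fun e he => by rw [hK]; exact hF e he) ?_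
      intro a ha a' ha' hne
      exact hfree _ (hC a a' (hall a (Finset.mem_toList.1 ha) a' (Finset.mem_toList.1 ha') hne))
    · intro f hf
      exact hS.sepC (Finset.nodup_toList Y) (Finset.toList_toFinset Y) hdw hf

/-- item of a star -/
theorem itemS [Fintype V] (hst : St S R ts) (hc : Clus S C (KY u w Y))
    (hS : SunEnv (QE S C (KY u w Y) R ts) u w Y E) (hC : ∀ i j, E i j → quad u i w j ∈ C)
    {c : V} (hcY : c ∈ Y) (hcE : ∀ y ∈ Y, y ≠ c → E c y) (hstar : ∀ i j, E i j → i = c ∨ j = c)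
    (h2 : ∀ y, E c y → ∃ y', y' ≠ y ∧ E c y') :
    ∃ it : Item V, iok it ∧ kE it = KY u w Y ∧
      St (S \ C) (R \ KY u w Y) (ts ++ itoks it) := by
  set B := (Y.erase c).toList with hB
  have hBm : ∀ b, b ∈ B ↔ b ∈ Y ∧ b ≠ c := by
    intro b; rw [hB, Finset.mem_toList, Finset.mem_erase]; tauto
  have hBnd : B.Nodup := Finset.nodup_toList _
  have hEB : ∀ b ∈ B, ∀ b' ∈ B, ¬ E b b' := by
    intro b hb b' hb' h
    rcases hstar b b' h with h' | h'
    · exact ((hBm b).1 hb).2 h'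
    · exact ((hBm b').1 hb').2 h'
  have hdu : ∀ (u w : V), SunEnv (QE S C (KY u w Y) R ts) u w Y E → ∀ b ∈ B,
      ¬ QE S C (KY u w Y) R ts (dbl u b) := by
    intro u w hS b hb
    have h3 := hcE b ((hBm b).1 hb).1 ((hBm b).1 hb).2
    obtain ⟨b', hne, h4⟩ := h2 b h3
    have hb' : b' ∈ B := (hBm b').2 ⟨(hS.mem c b' h4).2.1, (hS.mem c b' h4).2.2.symm⟩
    exact hS.S2 h3 h4 hne.symm (hEB b hb b' hb')
  have hK : sE c [u, w] B = KY u w Y := by
    ext e
    simp only [sE, KY, Set.mem_setOf_eq, hBm]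
    constructor
    · rintro ⟨a, ha, h | ⟨b, hb, h⟩⟩
      · simp only [List.mem_cons, List.not_mem_nil, or_false] at ha
        rcases ha with rfl | rfl
        · exact ⟨c, hcY, Or.inl (h.trans Sym2.eq_swap)⟩
        · exact ⟨c, hcY, Or.inr (h.trans Sym2.eq_swap)⟩
      · simp only [List.mem_cons, List.not_mem_nil, or_false] at ha
        rcases ha with rfl | rfl
        · exact ⟨b, hb.1, Or.inl h⟩
        · exact ⟨b, hb.1, Or.inr h⟩
    · rintro ⟨y, hy, h | h⟩
      · refine ⟨u, by simp, ?_⟩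
        by_cases hyc : y = c
        · subst hyc; left; exact h.trans Sym2.eq_swap
        · right; exact ⟨y, ⟨hy, hyc⟩, h⟩
      · refine ⟨w, by simp, ?_⟩
        by_cases hyc : y = c
        · subst hyc; left; exact h.trans Sym2.eq_swap
        · right; exact ⟨y, ⟨hy, hyc⟩, h⟩
  have hnd : (c :: ([u, w] ++ B)).Nodup := by
    have hcu : c ≠ u := fun e => hS.hu (e ▸ hcY)
    have hcw : c ≠ w := fun e => hS.hw (e ▸ hcY)
    have hcB : c ∉ B := fun h => ((hBm c).1 h).2 rfl
    have huB : u ∉ B := fun h => hS.hu ((hBm u).1 h).1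
    have hwB : w ∉ B := fun h => hS.hw ((hBm w).1 h).1
    simp only [List.cons_append, List.nil_append, List.nodup_cons, List.mem_cons]
    exact ⟨by push Not; exact ⟨hcu, hcw, hcB⟩, by push Not; exact ⟨hS.huw, huB⟩, hwB, hBnd⟩
  refine ⟨(false, c, [u, w], B), ?_, ?_, ?_⟩
  · simp only [iok, Bool.false_eq_true, if_false]
    exact ⟨hnd, Or.inl rfl⟩
  · simp only [kE, Bool.false_eq_true, if_false]
    exact hK
  · have : itoks (false, c, [u, w], B) = stoks c [u, w] B := by
      simp only [itoks, Bool.false_eq_true, if_false]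
    rw [this]
    refine hst.step hc ?_ ?_
    · intro F hF hd hfree
      refine orient2 hnd (fun e he => by rw [hK]; exact hF e he) hd ?_
      intro b hb
      have h3 := hcE b ((hBm b).1 hb).1 ((hBm b).1 hb).2
      have h4 := hfree _ (hC c b h3)
      have : quad c u b w = quad u c w b := by
        rw [quad_rot, ← quad_ij]
      rw [this]; exact h4
    · intro f hf
      refine hS.sepS hcY hBnd hBm hEB (hdu u w hS) ?_ hf
      intro b hb
      have h3 := hdu w u (by rw [KY_swap]; exact hS.swap) b hb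
      rw [KY_swap] at h3
      exact h3

end

end H999
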