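import Pool.Agent.H999_TwoFactor.Cluster

/-!
The three types of parts.
-/

namespace H999

open Finset

set_option linter.all false

variable {V : Type*} [DecidableEq V]

section

variable {S C : Set (Finset (Sym2 V))} {R : Set (Sym2 V)} {ts : List (List V × List V)}

/-- the conclusion of one step -/
def Done (S : Set (Finset (Sym2 V))) (R : Set (Sym2 V)) (ts : List (List V × List V)) : Prop :=
  ∃ (it : Item V) (C : Set (Finset (Sym2 V))), iok it ∧ C.Nonempty ∧ Clus S C (kE it) ∧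
    St (S \ C) (R \ kE it) (ts ++ itoks it)

theorem quad_dg_left {a b c d : V} (hab : a ≠ b) (hac : a ≠ c) (had : a ≠ d) (hbc : b ≠ c)
    (hbd : b ≠ d) (hcd : c ≠ d) : dg (quad a b c d) a = 2 := by
  rw [dg_quad hab hac had hbc hbd hcd, ind_self, ind_ne hab, ind_ne hac, ind_ne had]; ring

/-- single 4-cycle, special vertex opposite to the absent double edges -/
theorem stepSingle' [Fintype V] (hst : St S R ts) (hs : Str S) {a b c d : V} (hab : a ≠ b)
    (hac : a ≠ c) (had : a ≠ d) (hbc : b ≠ c) (hbd : b ≠ d) (hcd : c ≠ d)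
    (hZ : quad a b c d ∈ S)
    (hno : ∀ Z' ∈ S, Z' ≠ quad a b c d → ∀ e ∈ quad a b c d, e ∉ Z') :
    Clus S {quad a b c d} (KY a c {b, d}) ∧
    SunEnv (QE S {quad a b c d} (KY a c {b, d}) R ts) a c {b, d}
      (fun i j => (i = b ∧ j = d) ∨ (i = d ∧ j = b)) := by
  have hKq : ∀ e, e ∈ KY a c {b, d} ↔ e ∈ quad a b c d := by
    intro e
    simp only [KY, Set.mem_setOf_eq, Finset.mem_insert, Finset.mem_singleton, mem_quad]
    constructor
    · rintro ⟨y, rfl | rfl, rfl | rfl⟩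
      · left; rfl
      · right; left; exact Sym2.eq_swap
      · right; right; right; exact Sym2.eq_swap
      · right; right; left; rfl
    · rintro (rfl | rfl | rfl | rfl)
      · exact ⟨b, Or.inl rfl, Or.inl rfl⟩
      · exact ⟨b, Or.inl rfl, Or.inr Sym2.eq_swap⟩
      · exact ⟨d, Or.inr rfl, Or.inr rfl⟩
      · exact ⟨d, Or.inr rfl, Or.inl Sym2.eq_swap⟩
  have hda : dg (quad a b c d) a = 2 := quad_dg_left hab hac had hbc hbd hcd
  have hdc : dg (quad a b c d) c = 2 := by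
    rw [← quad_sw]
    exact quad_dg_left hbc.symm hac.symm hcd hab.symm hbd had
  have hcl : Clus S {quad a b c d} (KY a c {b, d}) := by
    refine ⟨by simpa using hZ, ?_, ?_, ?_, ?_⟩
    · intro Z h1 h2 e he
      exact hno Z h1 (by simpa using h2) e ((hKq e).1 he)
    · intro Z h1 e he
      rw [Set.mem_singleton_iff] at h1
      subst h1
      exact (hKq e).2 he
    · intro Z h1 e he
      rw [Set.mem_singleton_iff] at h1
      subst h1
      obtain ⟨y, hy, rfl | rfl⟩ := he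
      · exact ⟨a, Sym2.mem_mk_left _ _, hda⟩
      · exact ⟨c, Sym2.mem_mk_left _ _, hdc⟩
    · intro e he
      exact ⟨_, rfl, (hKq e).1 he⟩
  refine ⟨hcl, ?_⟩
  refine sunEnv hst hs hac ?_ ?_ ?_ ?_ hcl ?_
  · simp [hab, had]
  · simp [hbc.symm, hcd]
  · rintro i j (⟨rfl, rfl⟩ | ⟨rfl, rfl⟩)
    · simp [hbd]
    · simp [hbd.symm]
  · rintro i j (⟨rfl, rfl⟩ | ⟨rfl, rfl⟩)
    · exact Or.inr ⟨rfl, rfl⟩
    · exact Or.inl ⟨rfl, rfl⟩
  · intro Z
    rw [Set.mem_singleton_iff]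
    constructor
    · rintro rfl; exact ⟨b, d, Or.inl ⟨rfl, rfl⟩, rfl⟩
    · rintro ⟨i, j, ⟨rfl, rfl⟩ | ⟨rfl, rfl⟩, h⟩
      · exact h
      · rw [h, quad_ij]

theorem stepSingle [Fintype V] (hst : St S R ts) (hs : Str S) {a b c d : V} (hab : a ≠ b)
    (hac : a ≠ c) (had : a ≠ d) (hbc : b ≠ c) (hbd : b ≠ d) (hcd : c ≠ d)
    (hZ : quad a b c d ∈ S)
    (hno : ∀ Z' ∈ S, Z' ≠ quad a b c d → ∀ e ∈ quad a b c d, e ∉ Z') : Done S R ts := by
  -- one of the four vertices is special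
  have main : ∀ a b c d : V, a ≠ b → a ≠ c → a ≠ d → b ≠ c → b ≠ d → c ≠ d →
      quad a b c d ∈ S → (∀ Z' ∈ S, Z' ≠ quad a b c d → ∀ e ∈ quad a b c d, e ∉ Z') →
      ¬ QE S {quad a b c d} (KY a c {b, d}) R ts (dbl c b) →
      ¬ QE S {quad a b c d} (KY a c {b, d}) R ts (dbl c d) → Done S R ts := by
    intro a b c d hab hac had hbc hbd hcd hZ hno h1 h2
    obtain ⟨hcl, hsun⟩ := stepSingle' hst hs hab hac had hbc hbd hcd hZ hno
    obtain ⟨it, h3, h4, h5⟩ := itemC hst hcl hsun (by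
      rintro i j (⟨rfl, rfl⟩ | ⟨rfl, rfl⟩)
      · rfl
      · rw [quad_ij]; rfl) (by
      intro i hi j hj hne
      simp only [Finset.mem_insert, Finset.mem_singleton] at hi hj
      rcases hi with rfl | rfl <;> rcases hj with rfl | rfl
      · exact absurd rfl hne
      · exact Or.inl ⟨rfl, rfl⟩
      · exact Or.inr ⟨rfl, rfl⟩
      · exact absurd rfl hne) (by
      intro y hy
      simp only [Finset.mem_insert, Finset.mem_singleton] at hy
      rcases hy with rfl | rfl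
      · exact h1
      · exact h2)
    exact ⟨it, {quad a b c d}, h3, ⟨_, rfl⟩, by rw [h4]; exact hcl, by rw [h4]; exact h5⟩
  obtain ⟨hcl, hsun⟩ := stepSingle' hst hs hab hac had hbc hbd hcd hZ hno
  have hK1 : KY c a {b, d} = KY a c {b, d} := KY_swap _ _ _
  have hK2 : KY b d {a, c} = KY a c {b, d} := by
    ext e
    simp only [KY, Set.mem_setOf_eq, Finset.mem_insert, Finset.mem_singleton]
    constructor
    · rintro ⟨y, rfl | rfl, rfl | rfl⟩
      · exact ⟨b, Or.inl rfl, Or.inl Sym2.eq_swap⟩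
      · exact ⟨d, Or.inr rfl, Or.inl Sym2.eq_swap⟩
      · exact ⟨b, Or.inl rfl, Or.inr Sym2.eq_swap⟩
      · exact ⟨d, Or.inr rfl, Or.inr Sym2.eq_swap⟩
    · rintro ⟨y, rfl | rfl, rfl | rfl⟩
      · exact ⟨a, Or.inl rfl, Or.inl Sym2.eq_swap⟩
      · exact ⟨c, Or.inr rfl, Or.inl Sym2.eq_swap⟩
      · exact ⟨a, Or.inl rfl, Or.inr Sym2.eq_swap⟩
      · exact ⟨c, Or.inr rfl, Or.inr Sym2.eq_swap⟩
  have hK3 : KY d b {a, c} = KY a c {b, d} := by rw [KY_swap, hK2]
  have hK4 : KY c a {d, b} = KY a c {b, d} := by rw [Finset.pair_comm, hK1]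
  have hK5 : KY b d {c, a} = KY a c {b, d} := by rw [Finset.pair_comm, hK2]
  have hK6 : KY d b {a, c} = KY a c {b, d} := hK3
  have q1 : quad b c d a = quad a b c d := (quad_rot a b c d).symm
  have q2 : quad c d a b = quad a b c d := by rw [← quad_rot b c d a, q1]
  have q3 : quad d a b c = quad a b c d := by rw [← quad_rot c d a b, q2]
  have dc : ∀ x y : V, (dbl x y : V → ℤ) = dbl y x := by
    intro x y; funext z; unfold dbl; ring
  have s1 : ¬ (QE S {quad a b c d} (KY a c {b, d}) R ts (dbl a b) ∧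
      QE S {quad a b c d} (KY a c {b, d}) R ts (dbl c d)) :=
    fun h => hsun.S1 (Or.inl ⟨rfl, rfl⟩) h.1 h.2
  have s2 : ¬ (QE S {quad a b c d} (KY a c {b, d}) R ts (dbl a d) ∧
      QE S {quad a b c d} (KY a c {b, d}) R ts (dbl c b)) :=
    fun h => hsun.S1 (Or.inr ⟨rfl, rfl⟩) h.1 h.2
  by_cases g1 : QE S {quad a b c d} (KY a c {b, d}) R ts (dbl c d)
  · have g2 : ¬ QE S {quad a b c d} (KY a c {b, d}) R ts (dbl a b) := fun h => s1 ⟨h, g1⟩
    by_cases g3 : QE S {quad a b c d} (KY a c {b, d}) R ts (dbl c b)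
    · have g4 : ¬ QE S {quad a b c d} (KY a c {b, d}) R ts (dbl a d) := fun h => s2 ⟨h, g3⟩
      refine main c d a b hcd hac.symm hbc.symm had.symm hbd.symm hab (by rw [q2]; exact hZ)
        (by rw [q2]; exact hno) ?_ ?_
      · rw [q2, hK4]; exact g4
      · rw [q2, hK4]; exact g2
    · refine main d a b c had.symm hbd.symm hcd.symm hab hac hbc (by rw [q3]; exact hZ)
        (by rw [q3]; exact hno) ?_ ?_
      · rw [q3, hK6, dc]; exact g2
      · rw [q3, hK6, dc]; exact g3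
  · by_cases g3 : QE S {quad a b c d} (KY a c {b, d}) R ts (dbl c b)
    · have g4 : ¬ QE S {quad a b c d} (KY a c {b, d}) R ts (dbl a d) := fun h => s2 ⟨h, g3⟩
      refine main b c d a hbc hbd hab.symm hcd hac.symm had.symm (by rw [q1]; exact hZ)
        (by rw [q1]; exact hno) ?_ ?_
      · rw [q1, hK5, dc]; exact g1
      · rw [q1, hK5, dc]; exact g4
    · exact main a b c d hab hac had hbc hbd hcd hZ hno g3 g1

end

end H999
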