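import Pool.Agent.H999_TwoFactor.Cluster2

/-!
Parts of type `K_4`.
-/

namespace H999

open Finset

set_option linter.all false

variable {V : Type*} [DecidableEq V]

theorem IsQuad.at_edge {Z : Finset (Sym2 V)} (hZ : IsQuad Z) {x y : V} (h : s(x, y) ∈ Z) :
    ∃ q r, x ≠ y ∧ x ≠ q ∧ x ≠ r ∧ y ≠ q ∧ y ≠ r ∧ q ≠ r ∧ Z = quad x y q r := by
  have hcard : ∀ e ∈ Z, True := fun _ _ => trivial
  obtain ⟨a, b, c, d, hab, hac, had, hbc, hbd, hcd, rfl⟩ := hZ
  rw [mem_quad] at h
  rcases h with h | h | h | h <;> rw [Sym2.eq_iff] at h <;>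
    rcases h with ⟨rfl, rfl⟩ | ⟨rfl, rfl⟩
  · exact ⟨c, d, hab, hac, had, hbc, hbd, hcd, rfl⟩
  · exact ⟨d, c, hab.symm, hbd, hbc, had, hac, hcd.symm, quad_rev _ _ _ _⟩
  · exact ⟨d, a, hbc, hbd, hab.symm, hcd, hac.symm, had.symm, quad_rot _ _ _ _⟩
  · exact ⟨a, d, hbc.symm, hac.symm, hcd, hab.symm, hbd, had, by rw [quad_rot, quad_rev]⟩
  · exact ⟨a, b, hcd, hac.symm, hbc.symm, had.symm, hbd.symm, hab, by rw [quad_rot, quad_rot]⟩
  · exact ⟨b, a, hcd.symm, hbd.symm, had.symm, hbc.symm, hac.symm, hab.symm, by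
      rw [quad_rot, quad_rot, quad_rev]⟩
  · exact ⟨b, c, had.symm, hbd.symm, hcd.symm, hab, hac, hbc, by
      rw [quad_rot, quad_rot, quad_rot]⟩
  · exact ⟨c, b, had, hac, hab, hcd.symm, hbd.symm, hbc.symm, by
      rw [quad_rot, quad_rot, quad_rot, quad_rev]⟩

theorem quad_card {a b c d : V} (hab : a ≠ b) (hac : a ≠ c) (had : a ≠ d) (hbc : b ≠ c)
    (hbd : b ≠ d) (hcd : c ≠ d) : (quad a b c d).card = 4 := by
  unfold quad
  rw [Finset.card_insert_of_notMem, Finset.card_insert_of_notMem,
    Finset.card_insert_of_notMem, Finset.card_singleton]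
  · rw [Finset.mem_singleton]
    intro h2
    rw [Sym2.eq_iff] at h2
    rcases h2 with h2 | h2
    · exact hcd h2.1
    · exact hac h2.1.symm
  · rw [Finset.mem_insert, Finset.mem_singleton]; push Not
    refine ⟨mk_ne hbc hbd, mk_ne hbd hab.symm⟩
  · rw [Finset.mem_insert, Finset.mem_insert, Finset.mem_singleton]; push Not
    refine ⟨mk_ne hab hac, mk_ne hac had, mk_ne' hbd hab.symm⟩

section

variable {S C : Set (Finset (Sym2 V))} {R : Set (Sym2 V)} {ts : List (List V × List V)}

theorem k4_other (hs : Str S) {x y z t : V} (hxy : x ≠ y) (hxz : x ≠ z) (hxt : x ≠ t)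
    (hyz : y ≠ z) (hyt : y ≠ t) (hzt : z ≠ t) (h1 : quad x y z t ∈ S) (h2 : quad x y t z ∈ S)
    {Z : Finset (Sym2 V)} (hZ : Z ∈ S) (he : s(x, y) ∈ Z) :
    Z = quad x y z t ∨ Z = quad x y t z := by
  by_contra hcon
  push Not at hcon
  obtain ⟨p, q, -, hxp, hxq, hyp, hyq, hpq, rfl⟩ := (hs.q Z hZ).at_edge he
  have key : ∀ z t : V, x ≠ z → x ≠ t → y ≠ z → y ≠ t → z ≠ t → quad x y z t ∈ S →
      quad x y p q ≠ quad x y z t → ¬ (p = t ∧ q = z) → p = z ∨ q = t := by
    intro z t hxz hxt hyz hyt hzt h1 hne hn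
    obtain ⟨e', e1, e2, e3⟩ := hs.U _ h1 _ hZ (Ne.symm hne) s(x, y)
      (by rw [mem_quad]; left; rfl) he
    rw [mem_quad] at e1 e2
    rcases e1 with rfl | rfl | rfl | rfl
    · exact absurd rfl e3
    · simp only [Sym2.eq_iff] at e2
      rcases e2 with (h | h) | (h | h) | (h | h) | (h | h)
      · exact absurd h.1.symm hxy
      · exact absurd h.2.symm hxz
      · exact Or.inl h.2.symm
      · exact absurd h.1 hyp
      · exact absurd h.1 hyp
      · exact absurd h.1 hyq
      · exact absurd h.1 hyq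
      · exact absurd h.1.symm hxy
    · simp only [Sym2.eq_iff] at e2
      rcases e2 with (h | h) | (h | h) | (h | h) | (h | h)
      · exact absurd h.1.symm hxz
      · exact absurd h.2.symm hxt
      · exact absurd h.1.symm hyz
      · exact absurd h.2.symm hyt
      · exact Or.inl h.1.symm
      · exact absurd ⟨h.2.symm, h.1.symm⟩ hn
      · exact absurd h.2.symm hxt
      · exact absurd h.1.symm hxz
    · simp only [Sym2.eq_iff] at e2
      rcases e2 with (h | h) | (h | h) | (h | h) | (h | h)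
      · exact absurd h.1.symm hxt
      · exact absurd h.1.symm hyt
      · exact absurd h.1.symm hyt
      · exact absurd h.2 hxy
      · exact absurd h.2 hxq
      · exact absurd h.2 hxp
      · exact Or.inr h.1.symm
      · exact absurd h.1.symm hxt
  have hn1 : ¬ (p = t ∧ q = z) := by rintro ⟨rfl, rfl⟩; exact hcon.2 rfl
  have hn2 : ¬ (p = z ∧ q = t) := by rintro ⟨rfl, rfl⟩; exact hcon.1 rfl
  rcases key z t hxz hxt hyz hyt hzt h1 hcon.1 hn1 with h | h <;>
    rcases key t z hxt hxz hyt hyz hzt.symm h2 hcon.2 hn2 with h' | h'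
  · exact hzt (h.symm.trans h')
  · exact hpq (h.trans h'.symm)
  · exact hpq (h'.trans h.symm)
  · exact hzt (h'.symm.trans h)

theorem stepK4 [Fintype V] (hst : St S R ts) (hs : Str S) {a b c d : V} (hab : a ≠ b)
    (hac : a ≠ c) (had : a ≠ d) (hbc : b ≠ c) (hbd : b ≠ d) (hcd : c ≠ d)
    (h1 : quad a b c d ∈ S) (h2 : quad a b d c ∈ S) : Done S R ts := by
  have h3 := hs.K a b c d hab hac had hbc hbd hcd h1 h2
  set C : Set (Finset (Sym2 V)) := {quad a b c d, quad a b d c, quad a c b d} with hC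
  have hkE : ∀ e, e ∈ kE (true, a, [b, c, d], []) ↔ (e = s(a, b) ∨ e = s(a, c) ∨ e = s(a, d) ∨
      e = s(b, c) ∨ e = s(b, d) ∨ e = s(c, d)) := by
    intro e
    simp only [kE, if_true, Set.mem_setOf_eq, List.mem_cons, List.not_mem_nil, or_false]
    constructor
    · rintro ⟨x, hx, y, hy, hne, rfl⟩
      rcases hx with rfl | rfl | rfl | rfl <;> rcases hy with rfl | rfl | rfl | rfl <;>
        first
          | exact absurd rfl hne
          | (simp only [Sym2.eq_iff]; simp)
    · rintro (rfl | rfl | rfl | rfl | rfl | rfl)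
      · exact ⟨a, by simp, b, by simp, hab, rfl⟩
      · exact ⟨a, by simp, c, by simp, hac, rfl⟩
      · exact ⟨a, by simp, d, by simp, had, rfl⟩
      · exact ⟨b, by simp, c, by simp, hbc, rfl⟩
      · exact ⟨b, by simp, d, by simp, hbd, rfl⟩
      · exact ⟨c, by simp, d, by simp, hcd, rfl⟩
  have mC : ∀ Z, Z ∈ C ↔ Z = quad a b c d ∨ Z = quad a b d c ∨ Z = quad a c b d := by
    intro Z; rw [hC]; simp
  have E1 : ∀ e, e ∈ quad a b c d ↔ e = s(a, b) ∨ e = s(b, c) ∨ e = s(c, d) ∨ e = s(a, d) := by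
    intro e; rw [mem_quad, Sym2.eq_swap (a := d) (b := a)]
  have E2 : ∀ e, e ∈ quad a b d c ↔ e = s(a, b) ∨ e = s(b, d) ∨ e = s(c, d) ∨ e = s(a, c) := by
    intro e; rw [mem_quad, Sym2.eq_swap (a := d) (b := c), Sym2.eq_swap (a := c) (b := a)]
  have E3 : ∀ e, e ∈ quad a c b d ↔ e = s(a, c) ∨ e = s(b, c) ∨ e = s(b, d) ∨ e = s(a, d) := by
    intro e; rw [mem_quad, Sym2.eq_swap (a := c) (b := b), Sym2.eq_swap (a := d) (b := a)]
  have D1 : ∀ v, v = a ∨ v = b ∨ v = c ∨ v = d → dg (quad a b c d) v = 2 := by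
    intro v hv
    rw [dg_quad hab hac had hbc hbd hcd]
    rcases hv with rfl | rfl | rfl | rfl
    · rw [ind_self, ind_ne hab, ind_ne hac, ind_ne had]; ring
    · rw [ind_self, ind_ne hab.symm, ind_ne hbc, ind_ne hbd]; ring
    · rw [ind_self, ind_ne hac.symm, ind_ne hbc.symm, ind_ne hcd]; ring
    · rw [ind_self, ind_ne had.symm, ind_ne hbd.symm, ind_ne hcd.symm]; ring
  have D2 : ∀ v, v = a ∨ v = b ∨ v = c ∨ v = d → dg (quad a b d c) v = 2 := by
    intro v hv
    rw [dg_quad hab had hac hbd hbc hcd.symm]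
    rcases hv with rfl | rfl | rfl | rfl
    · rw [ind_self, ind_ne hab, ind_ne hac, ind_ne had]; ring
    · rw [ind_self, ind_ne hab.symm, ind_ne hbc, ind_ne hbd]; ring
    · rw [ind_self, ind_ne hac.symm, ind_ne hbc.symm, ind_ne hcd]; ring
    · rw [ind_self, ind_ne had.symm, ind_ne hbd.symm, ind_ne hcd.symm]; ring
  have D3 : ∀ v, v = a ∨ v = b ∨ v = c ∨ v = d → dg (quad a c b d) v = 2 := by
    intro v hv
    rw [dg_quad hac hab had hbc.symm hcd hbd]
    rcases hv with rfl | rfl | rfl | rfl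
    · rw [ind_self, ind_ne hab, ind_ne hac, ind_ne had]; ring
    · rw [ind_self, ind_ne hab.symm, ind_ne hbc, ind_ne hbd]; ring
    · rw [ind_self, ind_ne hac.symm, ind_ne hbc.symm, ind_ne hcd]; ring
    · rw [ind_self, ind_ne had.symm, ind_ne hbd.symm, ind_ne hcd.symm]; ring
  have hsub : C ⊆ S := by
    intro Z hZ
    rcases (mC Z).1 hZ with rfl | rfl | rfl <;> assumption
  -- other representations of the three squares
  have r1 : quad c d a b = quad a b c d := by
    ext e; rw [E1, mem_quad, Sym2.eq_swap (a := d) (b := a)]; tauto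
  have r2 : quad c d b a = quad a b d c := by
    ext e; rw [E2, mem_quad, Sym2.eq_swap (a := d) (b := b), Sym2.eq_swap (a := b) (b := a)]; tauto
  have r3 : quad a c d b = quad a b d c := by
    ext e; rw [E2, mem_quad, Sym2.eq_swap (a := d) (b := b), Sym2.eq_swap (a := b) (b := a)]; tauto
  have r4 : quad b d a c = quad a c b d := by
    ext e; rw [E3, mem_quad, Sym2.eq_swap (a := d) (b := a), Sym2.eq_swap (a := c) (b := b)]; tauto
  have r5 : quad b d c a = quad a b d c := by
    ext e; rw [E2, mem_quad, Sym2.eq_swap (a := d) (b := c), Sym2.eq_swap (a := c) (b := a)]; tauto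
  have r6 : quad b c d a = quad a b c d := by
    ext e; rw [E1, mem_quad, Sym2.eq_swap (a := d) (b := a)]; tauto
  have r7 : quad b c a d = quad a c b d := by
    ext e; rw [E3, mem_quad, Sym2.eq_swap (a := c) (b := a), Sym2.eq_swap (a := d) (b := b)]; tauto
  have r8 : quad a d c b = quad a b c d := by
    ext e; rw [E1, mem_quad, Sym2.eq_swap (a := d) (b := c), Sym2.eq_swap (a := c) (b := b),
      Sym2.eq_swap (a := b) (b := a)]; tauto
  have r9 : quad a d b c = quad a c b d := by
    ext e; rw [E3, mem_quad, Sym2.eq_swap (a := d) (b := b), Sym2.eq_swap (a := c) (b := a)]; tauto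
  have hcl : Clus S C (kE (true, a, [b, c, d], [])) := by
    refine ⟨hsub, ?_, ?_, ?_, ?_⟩
    · intro Z hZ hZC e he heZ
      refine hZC ?_
      rcases (hkE e).1 he with rfl | rfl | rfl | rfl | rfl | rfl
      · rcases k4_other hs hab hac had hbc hbd hcd h1 h2 hZ heZ with rfl | rfl
        · exact (mC _).2 (Or.inl rfl)
        · exact (mC _).2 (Or.inr (Or.inl rfl))
      · rcases k4_other hs hac hab had hbc.symm hcd hbd h3 (by rw [r3]; exact h2) hZ heZ with
          rfl | rfl
        · exact (mC _).2 (Or.inr (Or.inr rfl))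
        · exact (mC _).2 (Or.inr (Or.inl r3))
      · rcases k4_other hs had hab hac hbd.symm hcd.symm hbc (by rw [r9]; exact h3)
          (by rw [r8]; exact h1) hZ heZ with rfl | rfl
        · exact (mC _).2 (Or.inr (Or.inr r9))
        · exact (mC _).2 (Or.inl r8)
      · rcases k4_other hs hbc hab.symm hbd hac.symm hcd had (by rw [r7]; exact h3)
          (by rw [r6]; exact h1) hZ heZ with rfl | rfl
        · exact (mC _).2 (Or.inr (Or.inr r7))
        · exact (mC _).2 (Or.inl r6)
      · rcases k4_other hs hbd hab.symm hbc had.symm hcd.symm hac (by rw [r4]; exact h3)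
          (by rw [r5]; exact h2) hZ heZ with rfl | rfl
        · exact (mC _).2 (Or.inr (Or.inr r4))
        · exact (mC _).2 (Or.inr (Or.inl r5))
      · rcases k4_other hs hcd hac.symm hbc.symm had.symm hbd.symm hab (by rw [r1]; exact h1)
          (by rw [r2]; exact h2) hZ heZ with rfl | rfl
        · exact (mC _).2 (Or.inl r1)
        · exact (mC _).2 (Or.inr (Or.inl r2))
    · intro Z hZ e he
      rw [hkE]
      rcases (mC Z).1 hZ with rfl | rfl | rfl
      · rw [E1] at he; tauto
      · rw [E2] at he; tauto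
      · rw [E3] at he; tauto
    · intro Z hZ e he
      have hv : ∃ v ∈ e, v = a ∨ v = b ∨ v = c ∨ v = d := by
        rcases (hkE e).1 he with rfl | rfl | rfl | rfl | rfl | rfl
        · exact ⟨a, Sym2.mem_mk_left _ _, by simp⟩
        · exact ⟨a, Sym2.mem_mk_left _ _, by simp⟩
        · exact ⟨a, Sym2.mem_mk_left _ _, by simp⟩
        · exact ⟨b, Sym2.mem_mk_left _ _, by simp⟩
        · exact ⟨b, Sym2.mem_mk_left _ _, by simp⟩
        · exact ⟨c, Sym2.mem_mk_left _ _, by simp⟩
      obtain ⟨v, hve, hv⟩ := hv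
      refine ⟨v, hve, ?_⟩
      rcases (mC Z).1 hZ with rfl | rfl | rfl
      · exact D1 v hv
      · exact D2 v hv
      · exact D3 v hv
    · intro e he
      rcases (hkE e).1 he with rfl | rfl | rfl | rfl | rfl | rfl
      · exact ⟨_, (mC _).2 (Or.inl rfl), by rw [E1]; simp⟩
      · exact ⟨_, (mC _).2 (Or.inr (Or.inl rfl)), by rw [E2]; simp⟩
      · exact ⟨_, (mC _).2 (Or.inl rfl), by rw [E1]; simp⟩
      · exact ⟨_, (mC _).2 (Or.inl rfl), by rw [E1]; simp⟩
      · exact ⟨_, (mC _).2 (Or.inr (Or.inl rfl)), by rw [E2]; simp⟩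
      · exact ⟨_, (mC _).2 (Or.inl rfl), by rw [E1]; simp⟩
  refine ⟨(true, a, [b, c, d], []), C, ?_, ⟨_, (mC _).2 (Or.inl rfl)⟩, hcl, ?_⟩
  · simp only [iok, if_true]
    refine ⟨?_, rfl⟩
    simp [*]
  · have hit : itoks (true, a, [b, c, d], ([] : List V)) =
        List.replicate 3 ([a, b, c, d], [a, b, c, d]) := by
      simp only [itoks, if_true]
    rw [hit]
    refine hst.step hcl ?_ ?_
    · intro F hF hd hfree
      refine toks_rep 3 F ?_ ?_
      · exact card_le_three hab hac had hbc hbd hcd (fun e he => (hkE e).1 (hF e he)) hd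
          (hfree _ ((mC _).2 (Or.inl rfl))) (hfree _ ((mC _).2 (Or.inr (Or.inl rfl))))
          (hfree _ ((mC _).2 (Or.inr (Or.inr rfl))))
      · intro e he
        have := hF e he
        simp only [kE, if_true, Set.mem_setOf_eq] at this
        exact this
    · intro f hf
      have hL : ∀ v, v ∈ [a, b, c, d] → v ∈ ({a, b, c, d} : Finset V) := by
        intro v hv; simpa using hv
      obtain ⟨g1, g2⟩ := toks_rep_cnt hL 3 hf
      have hLc : ({a, b, c, d} : Finset V).card = 4 := by
        rw [Finset.card_insert_of_notMem, Finset.card_insert_of_notMem,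
          Finset.card_insert_of_notMem, Finset.card_singleton]
        · simp [hcd]
        · simp [hbc, hbd]
        · simp [hab, hac, had]
      refine sepK hLc (QE.js hs.q) (fun f hf z => QE.le hf z) ?_ ?_ hf.nonneg
        (by push_cast at g1; omega) g2
      · have := hcl.seed hst ((mC _).2 (Or.inl rfl))
        have he : (fun z => dg (quad a b c d) z) =
            (fun z => if z ∈ ({a, b, c, d} : Finset V) then 2 else 0) := by
          funext z
          by_cases hz : z ∈ ({a, b, c, d} : Finset V)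
          · rw [if_pos hz]; exact D1 z (by simpa using hz)
          · rw [if_neg hz, dg_quad hab hac had hbc hbd hcd]
            simp only [Finset.mem_insert, Finset.mem_singleton] at hz
            push Not at hz
            rw [ind_ne hz.1, ind_ne hz.2.1, ind_ne hz.2.2.1, ind_ne hz.2.2.2]; ring
        rw [he] at this
        exact this
      · intro F hcard hF
        refine hcl.bad hst ?_ ?_ ?_
        · intro e he
          obtain ⟨x, hx, y, hy, hne, rfl⟩ := hF e he
          simp only [kE, if_true, Set.mem_setOf_eq]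
          exact ⟨x, by simpa using hx, y, by simpa using hy, hne, rfl⟩
        · intro x y hxy
          obtain ⟨x', hx, y', hy, hne, h⟩ := hF _ hxy
          rw [Sym2.eq_iff] at h
          rcases h with ⟨rfl, rfl⟩ | ⟨rfl, rfl⟩
          · exact hne
          · exact hne.symm
        · intro Z hZ hsub'
          have hZ4 : Z.card = 4 := by
            obtain ⟨a', b', c', d', e1, e2, e3, e4, e5, e6, rfl⟩ := hs.q Z (hsub hZ)
            exact quad_card e1 e2 e3 e4 e5 e6
          have := Finset.card_le_card hsub'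
          omega

end

end H999
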