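import Pool.Agent.H999_TwoFactor.ClusterK

/-!
Sunflowers.
-/

namespace H999

open Finset

set_option linter.all false

variable {V : Type*} [DecidableEq V]

/-- the member `u i w j` -/
def HH (S : Set (Finset (Sym2 V))) (u w i j : V) : Prop :=
  i ≠ j ∧ u ≠ i ∧ u ≠ j ∧ w ≠ i ∧ w ≠ j ∧ quad u i w j ∈ S

/-- the member `u i w j` shares an edge with another one of the same kind -/
def EE (S : Set (Finset (Sym2 V))) (u w i j : V) : Prop :=
  HH S u w i j ∧ ∃ k, (k ≠ j ∧ HH S u w i k) ∨ (k ≠ i ∧ HH S u w k j)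

section

variable {S C : Set (Finset (Sym2 V))} {R : Set (Sym2 V)} {ts : List (List V × List V)}

theorem HH.symm {u w i j : V} (h : HH S u w i j) : HH S u w j i :=
  ⟨h.1.symm, h.2.2.1, h.2.1, h.2.2.2.2.1, h.2.2.2.1, by rw [quad_ij]; exact h.2.2.2.2.2⟩

theorem HH.sw {u w i j : V} (h : HH S u w i j) : HH S w u i j :=
  ⟨h.1, h.2.2.2.1, h.2.2.2.2.1, h.2.1, h.2.2.1, by rw [quad_sw]; exact h.2.2.2.2.2⟩

theorem EE.symm {u w i j : V} (h : EE S u w i j) : EE S u w j i := by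
  obtain ⟨h1, k, h2 | h2⟩ := h
  · exact ⟨h1.symm, k, Or.inr ⟨h2.1, h2.2.symm⟩⟩
  · exact ⟨h1.symm, k, Or.inl ⟨h2.1, h2.2.symm⟩⟩

theorem EE.sw {u w i j : V} (h : EE S u w i j) : EE S w u i j := by
  obtain ⟨h1, k, h2 | h2⟩ := h
  · exact ⟨h1.sw, k, Or.inl ⟨h2.1, h2.2.sw⟩⟩
  · exact ⟨h1.sw, k, Or.inr ⟨h2.1, h2.2.sw⟩⟩

theorem Str.U2 (hs : Str S) {Z Z' : Finset (Sym2 V)} (hZ : Z ∈ S) (hZ' : Z' ∈ S) {e : Sym2 V}
    (h1 : e ∈ Z) (h2 : e ∈ Z') : ∃ e' ∈ Z, e' ∈ Z' ∧ e' ≠ e := by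
  by_cases h : Z = Z'
  · subst h
    have hZ4 : Z.card = 4 := by
      obtain ⟨a', b', c', d', e1, e2, e3, e4, e5, e6, rfl⟩ := hs.q Z hZ
      exact quad_card e1 e2 e3 e4 e5 e6
    obtain ⟨e', h3, h4⟩ := Finset.exists_mem_ne (s := Z) (by omega) e
    exact ⟨e', h3, h3, h4⟩
  · exact hs.U Z hZ Z' hZ' h e h1 h2

theorem sun_other (hs : Str S) {u w y z : V} (huw : u ≠ w) (hyz : EE S u w y z)
    {Z : Finset (Sym2 V)} (hZ : Z ∈ S) (he : s(u, y) ∈ Z) :
    ∃ i j, EE S u w i j ∧ Z = quad u i w j := by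
  obtain ⟨p, q, huy, hup, huq, hyp, hyq, hpq, rfl⟩ := (hs.q Z hZ).at_edge he
  obtain ⟨⟨nyz, -, nuz, nwy, nwz, h0⟩, k, hk⟩ := id hyz
  obtain ⟨e', e1, e2, e3⟩ := hs.U2 h0 hZ (e := s(u, y)) (by rw [mem_quad]; left; rfl) he
  have hcase : p = w ∨ (p = z ∧ q = w) ∨ (q = z ∧ p ≠ w) := by
    rw [mem_quad] at e1 e2
    by_cases hpw : p = w
    · exact Or.inl hpw
    right
    rcases e1 with rfl | rfl | rfl | rfl
    · exact absurd rfl e3
    · rcases e2 with h | h | h | h <;> rw [Sym2.eq_iff] at h <;> rcases h with ⟨a, b⟩ | ⟨a, b⟩ <;>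
        subst_vars <;> first | exact absurd rfl ‹_› | tauto
    · rcases e2 with h | h | h | h <;> rw [Sym2.eq_iff] at h <;> rcases h with ⟨a, b⟩ | ⟨a, b⟩ <;>
        subst_vars <;> first | exact absurd rfl ‹_› | tauto
    · rcases e2 with h | h | h | h <;> rw [Sym2.eq_iff] at h <;> rcases h with ⟨a, b⟩ | ⟨a, b⟩ <;>
        subst_vars <;> first | exact absurd rfl ‹_› | tauto
  rcases hcase with rfl | ⟨rfl, rfl⟩ | ⟨rfl, hpw⟩
  · refine ⟨y, q, ?_, rfl⟩
    by_cases hqz : q = z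
    · subst hqz; exact hyz
    · exact ⟨⟨hyq, huy, huq, nwy, hpq, hZ⟩, z, Or.inl ⟨Ne.symm hqz, hyz.1⟩⟩
  · exfalso
    rcases hk with ⟨hkz, nyk, -, nuk, -, nwk, h1⟩ | ⟨hky, nkz, nuk, -, nwk, -, h1⟩
    · obtain ⟨f, f1, f2, f3⟩ := hs.U2 h1 hZ (e := s(u, y)) (by rw [mem_quad]; left; rfl) he
      rw [mem_quad] at f1 f2
      rcases f1 with rfl | rfl | rfl | rfl
      · exact absurd rfl f3
      · rcases f2 with h | h | h | h <;> rw [Sym2.eq_iff] at h <;> rcases h with ⟨a, b⟩ | ⟨a, b⟩ <;>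
          subst_vars <;> first | exact absurd rfl ‹_› | tauto
      · rcases f2 with h | h | h | h <;> rw [Sym2.eq_iff] at h <;> rcases h with ⟨a, b⟩ | ⟨a, b⟩ <;>
          subst_vars <;> first | exact absurd rfl ‹_› | tauto
      · rcases f2 with h | h | h | h <;> rw [Sym2.eq_iff] at h <;> rcases h with ⟨a, b⟩ | ⟨a, b⟩ <;>
          subst_vars <;> first | exact absurd rfl ‹_› | tauto
    · obtain ⟨f, f1, f2, f3⟩ := hs.U2 h1 hZ (e := s(q, p)) (by rw [mem_quad]; simp)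
        (by rw [mem_quad]; right; right; left; exact Sym2.eq_swap)
      rw [mem_quad] at f1 f2
      rcases f1 with rfl | rfl | rfl | rfl
      · rcases f2 with h | h | h | h <;> rw [Sym2.eq_iff] at h <;> rcases h with ⟨a, b⟩ | ⟨a, b⟩ <;>
          subst_vars <;> first | exact absurd rfl ‹_› | tauto
      · rcases f2 with h | h | h | h <;> rw [Sym2.eq_iff] at h <;> rcases h with ⟨a, b⟩ | ⟨a, b⟩ <;>
          subst_vars <;> first | exact absurd rfl ‹_› | tauto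
      · exact absurd rfl f3
      · rcases f2 with h | h | h | h <;> rw [Sym2.eq_iff] at h <;> rcases h with ⟨a, b⟩ | ⟨a, b⟩ <;>
          subst_vars <;> first | exact absurd rfl ‹_› | tauto
  · exfalso
    rcases hk with ⟨hkz, nyk, -, nuk, -, nwk, h1⟩ | ⟨hky, nkz, nuk, -, nwk, -, h1⟩
    · obtain ⟨f, f1, f2, f3⟩ := hs.U2 h1 hZ (e := s(u, y)) (by rw [mem_quad]; left; rfl) he
      rw [mem_quad] at f1 f2
      rcases f1 with rfl | rfl | rfl | rfl
      · exact absurd rfl f3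
      · rcases f2 with h | h | h | h <;> rw [Sym2.eq_iff] at h <;> rcases h with ⟨a, b⟩ | ⟨a, b⟩ <;>
          subst_vars <;> first | exact absurd rfl ‹_› | tauto
      · rcases f2 with h | h | h | h <;> rw [Sym2.eq_iff] at h <;> rcases h with ⟨a, b⟩ | ⟨a, b⟩ <;>
          subst_vars <;> first | exact absurd rfl ‹_› | tauto
      · rcases f2 with h | h | h | h <;> rw [Sym2.eq_iff] at h <;> rcases h with ⟨a, b⟩ | ⟨a, b⟩ <;>
          subst_vars <;> first | exact absurd rfl ‹_› | tauto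
    · obtain ⟨f, f1, f2, f3⟩ := hs.U2 h1 hZ (e := s(q, u)) (by rw [mem_quad]; simp)
        (by rw [mem_quad]; simp)
      rw [mem_quad] at f1 f2
      rcases f1 with rfl | rfl | rfl | rfl
      · rcases f2 with h | h | h | h <;> rw [Sym2.eq_iff] at h <;> rcases h with ⟨a, b⟩ | ⟨a, b⟩ <;>
          subst_vars <;> first | exact absurd rfl ‹_› | tauto
      · rcases f2 with h | h | h | h <;> rw [Sym2.eq_iff] at h <;> rcases h with ⟨a, b⟩ | ⟨a, b⟩ <;>
          subst_vars <;> first | exact absurd rfl ‹_› | tauto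
      · rcases f2 with h | h | h | h <;> rw [Sym2.eq_iff] at h <;> rcases h with ⟨a, b⟩ | ⟨a, b⟩ <;>
          subst_vars <;> first | exact absurd rfl ‹_› | tauto
      · exact absurd rfl f3

end

end H999
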