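import Pool.Agent.H999_TwoFactor.ClusterS

/-!
The step for sunflowers, and the induction.
-/

namespace H999

open Finset

set_option linter.all false

variable {V : Type*} [DecidableEq V]

section

variable {S C : Set (Finset (Sym2 V))} {R : Set (Sym2 V)} {ts : List (List V × List V)}

theorem stepSun [Fintype V] (hst : St S R ts) (hs : Str S) {u w i j k : V} (huw : u ≠ w)
    (hij : HH S u w i j) (hik : HH S u w i k) (hjk : j ≠ k) : Done S R ts := by
  classical
  set Y : Finset V := Finset.univ.filter (fun y => ∃ z, EE S u w y z) with hY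
  have hYm : ∀ y, y ∈ Y ↔ ∃ z, EE S u w y z := fun y => by rw [hY, Finset.mem_filter]; simp
  have hu : u ∉ Y := by rw [hYm]; rintro ⟨z, h⟩; exact h.1.2.1 rfl
  have hw : w ∉ Y := by rw [hYm]; rintro ⟨z, h⟩; exact h.1.2.2.2.1 rfl
  set C : Set (Finset (Sym2 V)) := {Z | ∃ i j, EE S u w i j ∧ Z = quad u i w j} with hC
  have dquad : ∀ {i j}, EE S u w i j → dg (quad u i w j) u = 2 ∧ dg (quad u i w j) w = 2 := by
    intro i j h
    obtain ⟨⟨nij, nui, nuj, nwi, nwj, -⟩, -⟩ := h
    constructor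
    · exact quad_dg_left nui huw nuj nwi.symm nij nwj
    · rw [← quad_sw]; exact quad_dg_left nwi huw.symm nwj nui.symm nij nuj
  have hcl : Clus S C (KY u w Y) := by
    refine ⟨?_, ?_, ?_, ?_, ?_⟩
    · rintro Z ⟨i, j, h, rfl⟩; exact h.1.2.2.2.2.2
    · intro Z hZ hZC e he heZ
      obtain ⟨y, hy, rfl | rfl⟩ := he
      · obtain ⟨z, hz⟩ := (hYm y).1 hy
        exact hZC (sun_other hs huw hz hZ heZ)
      · obtain ⟨z, hz⟩ := (hYm y).1 hy
        obtain ⟨i, j, h1, h2⟩ := sun_other hs huw.symm hz.sw hZ heZ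
        exact hZC ⟨i, j, h1.sw, by rw [h2, quad_sw]⟩
    · rintro Z ⟨i, j, h, rfl⟩ e he
      have hi : i ∈ Y := (hYm i).2 ⟨j, h⟩
      have hj : j ∈ Y := (hYm j).2 ⟨i, h.symm⟩
      rw [mem_quad] at he
      rcases he with rfl | rfl | rfl | rfl
      · exact ⟨i, hi, Or.inl rfl⟩
      · exact ⟨i, hi, Or.inr Sym2.eq_swap⟩
      · exact ⟨j, hj, Or.inr rfl⟩
      · exact ⟨j, hj, Or.inl Sym2.eq_swap⟩
    · rintro Z ⟨i, j, h, rfl⟩ e ⟨y, hy, rfl | rfl⟩
      · exact ⟨u, Sym2.mem_mk_left _ _, (dquad h).1⟩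
      · exact ⟨w, Sym2.mem_mk_left _ _, (dquad h).2⟩
    · rintro e ⟨y, hy, rfl | rfl⟩
      · obtain ⟨z, hz⟩ := (hYm y).1 hy
        exact ⟨_, ⟨y, z, hz, rfl⟩, by rw [mem_quad]; left; rfl⟩
      · obtain ⟨z, hz⟩ := (hYm y).1 hy
        exact ⟨_, ⟨y, z, hz, rfl⟩, by rw [mem_quad]; right; left; exact Sym2.eq_swap⟩
  have hsun : SunEnv (QE S C (KY u w Y) R ts) u w Y (EE S u w) := by
    refine sunEnv hst hs huw hu hw ?_ (fun _ _ h => h.symm) hcl ?_
    · intro i j h; exact ⟨(hYm i).2 ⟨j, h⟩, (hYm j).2 ⟨i, h.symm⟩, h.1.1⟩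
    · intro Z; rfl
  have hCq : ∀ i j, EE S u w i j → quad u i w j ∈ C := fun i j h => ⟨i, j, h, rfl⟩
  have eij : EE S u w i j := ⟨hij, k, Or.inl ⟨hjk.symm, hik⟩⟩
  have eik : EE S u w i k := ⟨hik, j, Or.inl ⟨hjk, hij⟩⟩
  have fin : ∀ {it : Item V}, iok it → kE it = KY u w Y →
      St (S \ C) (R \ KY u w Y) (ts ++ itoks it) → Done S R ts := by
    intro it h1 h2 h3
    exact ⟨it, C, h1, ⟨_, hCq i j eij⟩, by rw [h2]; exact hcl, by rw [h2]; exact h3⟩
  by_cases hstar : ∀ a b, EE S u w a b → a = i ∨ b = i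
  · obtain ⟨it, h1, h2, h3⟩ := itemS hst hcl hsun hCq (c := i) ((hYm i).2 ⟨j, eij⟩) (by
      intro y hy hyi
      obtain ⟨z, hz⟩ := (hYm y).1 hy
      rcases hstar y z hz with h | h
      · exact absurd h hyi
      · subst h; exact hz.symm) hstar (by
      intro y hy
      by_cases hyj : y = j
      · exact ⟨k, by rw [hyj]; exact hjk.symm, eik⟩
      · exact ⟨j, Ne.symm hyj, eij⟩)
    exact fin h1 h2 h3
  · push Not at hstar
    obtain ⟨a, b, hab, hai, hbi⟩ := hstar
    have nab := hab.1.1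
    have nij := hij.1
    have nik := hik.1
    -- triangle i a b
    have claim1 : EE S u w i a ∧ EE S u w i b := by
      have main : ∀ t, EE S u w i t → t ≠ a → t ≠ b → EE S u w i a ∧ EE S u w i b := by
        intro t ht hta htb
        have nit := ht.1.1
        exact ⟨hsun.M ht hab (Ne.symm hai) (Ne.symm hbi) hta htb,
          hsun.M ht hab.symm (Ne.symm hbi) (Ne.symm hai) htb hta⟩
      by_cases h1 : j ≠ a ∧ j ≠ b
      · exact main j eij h1.1 h1.2
      by_cases h2 : k ≠ a ∧ k ≠ b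
      · exact main k eik h2.1 h2.2
      have h1' : j = a ∨ j = b := by tauto
      have h2' : k = a ∨ k = b := by tauto
      rcases h1' with rfl | rfl <;> rcases h2' with rfl | rfl
      · exact absurd rfl hjk
      · exact ⟨eij, eik⟩
      · exact ⟨eik, eij⟩
      · exact absurd rfl hjk
    obtain ⟨eia, eib⟩ := claim1
    have claim2 : ∀ y ∈ Y, y ≠ i → EE S u w i y := by
      intro y hy hyi
      obtain ⟨z, hz⟩ := (hYm y).1 hy
      by_cases hzi : z = i
      · subst hzi; exact hz.symm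
      by_cases h1 : a ≠ y ∧ a ≠ z
      · exact hsun.M eia hz (Ne.symm hyi) (Ne.symm hzi) h1.1 h1.2
      by_cases h2 : b ≠ y ∧ b ≠ z
      · exact hsun.M eib hz (Ne.symm hyi) (Ne.symm hzi) h2.1 h2.2
      by_cases h3 : y = a
      · subst h3; exact eia
      · have h4 : a = z := by by_contra h; exact h1 ⟨Ne.symm h3, h⟩
        have h5 : b = y := by
          by_contra h
          exact h2 ⟨h, fun h' => nab (h4.trans h'.symm)⟩
        subst h5; exact eib
    have claim3 : ∀ x ∈ Y, x ≠ i → x ≠ a → EE S u w a x := by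
      intro x hx hxi hxa
      by_cases hxb : x = b
      · subst hxb; exact hab
      · exact hsun.M hab (claim2 x hx hxi).symm (Ne.symm hxa) hai (Ne.symm hxb) hbi
    have hall : ∀ x ∈ Y, ∀ y ∈ Y, x ≠ y → EE S u w x y := by
      intro x hx y hy hxy
      by_cases hxi : x = i
      · subst hxi; exact claim2 y hy (Ne.symm hxy)
      by_cases hyi : y = i
      · subst hyi; exact (claim2 x hx hxy).symm
      by_cases hxa : x = a
      · subst hxa; exact claim3 y hy hyi (Ne.symm hxy)
      by_cases hya : y = a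
      · subst hya; exact (claim3 x hx hxi hxy).symm
      exact hsun.M (claim3 x hx hxi hxa).symm (claim2 y hy hyi).symm hxy hxi (Ne.symm hya) hai
    by_cases hdw : ∀ y ∈ Y, ¬ QE S C (KY u w Y) R ts (dbl w y)
    · obtain ⟨it, h1, h2, h3⟩ := itemC hst hcl hsun hCq hall hdw
      exact fin h1 h2 h3
    · push Not at hdw
      obtain ⟨y, hy, hqy⟩ := hdw
      have hdu : ∀ x ∈ Y, ¬ QE S C (KY u w Y) R ts (dbl u x) := by
        intro x hx hqx
        by_cases hxy : x = y
        · subst hxy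
          -- two others
          have hothers : ∃ p q, p ∈ Y ∧ q ∈ Y ∧ p ≠ x ∧ q ≠ x ∧ p ≠ q := by
            have hi : i ∈ Y := (hYm i).2 ⟨j, eij⟩
            have ha : a ∈ Y := (hYm a).2 ⟨b, hab⟩
            have hb : b ∈ Y := (hYm b).2 ⟨a, hab.symm⟩
            by_cases h1 : x = i
            · subst h1; exact ⟨a, b, ha, hb, hai, hbi, nab⟩
            by_cases h2 : x = a
            · subst h2; exact ⟨i, b, hi, hb, Ne.symm h1, Ne.symm nab, Ne.symm hbi⟩
            exact ⟨i, a, hi, ha, Ne.symm h1, Ne.symm h2, Ne.symm hai⟩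
          obtain ⟨p, q, hp, hq, hpx, hqx', hpq⟩ := hothers
          exact hsun.S3 (hall x hx p hp (Ne.symm hpx)) (hall x hx q hq (Ne.symm hqx'))
            (hall p hp q hq hpq) hqx hqy
        · exact hsun.S1 (hall x hx y hy hxy) hqx hqy
      have hK : KY w u Y = KY u w Y := KY_swap u w Y
      obtain ⟨it, h1, h2, h3⟩ := itemC (u := w) (w := u) (Y := Y) (E := EE S u w) hst
        (by rw [hK]; exact hcl) (by rw [hK]; exact hsun.swap)
        (fun i j h => by rw [quad_sw]; exact hCq i j h) hall (by rw [hK]; exact hdu)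
      rw [hK] at h2 h3
      exact fin h1 h2 h3

/-- one step -/
theorem step_exists [Fintype V] (hst : St S R ts) (hs : Str S) (hne : S.Nonempty) :
    Done S R ts := by
  obtain ⟨Z, hZ⟩ := hne
  by_cases hex : ∃ Z' ∈ S, Z' ≠ Z ∧ ∃ e ∈ Z, e ∈ Z'
  · obtain ⟨Z', hZ', hne, e, he, he'⟩ := hex
    induction e using Sym2.ind with
    | _ a b =>
    obtain ⟨c, d, hab, hac, had, hbc, hbd, hcd, rfl⟩ := (hs.q Z hZ).at_edge he
    obtain ⟨p, q, -, hap, haq, hbp, hbq, hpq, rfl⟩ := (hs.q Z' hZ').at_edge he'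
    obtain ⟨f, f1, f2, f3⟩ := hs.U _ hZ _ hZ' (Ne.symm hne) _ he he'
    have hcase : p = c ∨ q = d ∨ (p = d ∧ q = c) := by
      rw [mem_quad] at f1 f2
      rcases f1 with rfl | rfl | rfl | rfl
      · exact absurd rfl f3
      · rcases f2 with h | h | h | h <;> rw [Sym2.eq_iff] at h <;> rcases h with ⟨x, y⟩ | ⟨x, y⟩ <;>
          subst_vars <;> first | exact absurd rfl ‹_› | tauto
      · rcases f2 with h | h | h | h <;> rw [Sym2.eq_iff] at h <;> rcases h with ⟨x, y⟩ | ⟨x, y⟩ <;>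
          subst_vars <;> first | exact absurd rfl ‹_› | tauto
      · rcases f2 with h | h | h | h <;> rw [Sym2.eq_iff] at h <;> rcases h with ⟨x, y⟩ | ⟨x, y⟩ <;>
          subst_vars <;> first | exact absurd rfl ‹_› | tauto
    rcases hcase with rfl | rfl | ⟨rfl, rfl⟩
    · have hqd : d ≠ q := by rintro rfl; exact hne rfl
      exact stepSun hst hs hac (i := b) (j := d) (k := q)
        ⟨hbd, hab, had, Ne.symm hbc, hcd, hZ⟩ ⟨hbq, hab, haq, Ne.symm hbc, hpq, hZ'⟩ hqd
    · have hcp : c ≠ p := by rintro rfl; exact hne rfl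
      refine stepSun hst hs hbd (i := a) (j := c) (k := p)
        ⟨hac, Ne.symm hab, hbc, Ne.symm had, Ne.symm hcd, ?_⟩
        ⟨hap, Ne.symm hab, hbp, Ne.symm had, Ne.symm hpq, ?_⟩ hcp
      · rw [← quad_rev]; exact hZ
      · rw [← quad_rev]; exact hZ'
    · exact stepK4 hst hs hab hac had hbc hbd hcd hZ hZ'
  · push Not at hex
    obtain ⟨a, b, c, d, hab, hac, had, hbc, hbd, hcd, rfl⟩ := hs.q Z hZ
    exact stepSingle hst hs hab hac had hbc hbd hcd hZ (fun Z' h1 h2 e h3 => hex Z' h1 h2 e h3)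

end

/-- all edges of the items -/
def kAll (its : List (Item V)) : Set (Sym2 V) := {e | ∃ it ∈ its, e ∈ kE it}

/-- the final token system -/
theorem exists_items [Fintype V] : ∀ (n : ℕ) {S : Set (Finset (Sym2 V))} {R : Set (Sym2 V)}
    {ts : List (List V × List V)}, S.Finite → S.ncard ≤ n → St S R ts → Str S →
    ∃ its : List (Item V), (∀ it ∈ its, iok it) ∧ its.length ≤ n ∧
      ¬ Env ∅ (R \ kAll its) (ts ++ its.flatMap itoks) (fun _ => 2) := by
  intro n
  induction n with
  | zero =>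
    intro S R ts hfin hcard hst hs
    have hS : S = ∅ := by
      rw [Nat.le_zero, Set.ncard_eq_zero hfin] at hcard; exact hcard
    subst hS
    refine ⟨[], by simp, by simp, ?_⟩
    have h1 : kAll ([] : List (Item V)) = ∅ := by ext e; simp [kAll]
    rw [h1, Set.diff_empty]
    simpa using hst.inf
  | succ n ih =>
    intro S R ts hfin hcard hst hs
    by_cases hne : S.Nonempty
    · obtain ⟨it, C, h1, h2, h3, h4⟩ := step_exists hst hs hne
      have hlt : (S \ C).ncard < S.ncard := by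
        refine Set.ncard_lt_ncard ?_ hfin
        refine ⟨Set.diff_subset, fun h => ?_⟩
        obtain ⟨Z, hZ⟩ := h2
        exact (h (h3.sub hZ)).2 hZ
      obtain ⟨its, g1, g2, g3⟩ := ih (hfin.subset Set.diff_subset) (by omega) h4 (hs.sdiff h3)
      refine ⟨it :: its, ?_, by simp; omega, ?_⟩
      · intro it' hit'
        rcases List.mem_cons.1 hit' with rfl | h
        · exact h1
        · exact g1 it' h
      · have e1 : R \ kAll (it :: its) = (R \ kE it) \ kAll its := by
          ext e; simp [kAll]; tauto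
        rw [e1, List.flatMap_cons, ← List.append_assoc]
        exact g3
    · rw [Set.not_nonempty_iff_eq_empty] at hne
      subst hne
      refine ⟨[], by simp, by simp, ?_⟩
      have h1 : kAll ([] : List (Item V)) = ∅ := by ext e; simp [kAll]
      rw [h1, Set.diff_empty]
      simpa using hst.inf

end H999
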