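import Pool.Agent.H999_TwoFactor.Exchange

/-!
Safe completions: adding paths and cycles through isolated vertices to a good 2-matching.
-/

namespace H999

open Finset

set_option linter.unusedSectionVars false
set_option linter.unusedVariables false

variable {V : Type*} [DecidableEq V]

theorem mk_ne {a b c d : V} (h1 : a ≠ c) (h2 : a ≠ d) : s(a, b) ≠ s(c, d) := by
  intro h; rw [Sym2.eq_iff] at h; rcases h with ⟨h, _⟩ | ⟨h, _⟩
  · exact h1 h
  · exact h2 h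

theorem mk_ne' {a b c d : V} (h1 : b ≠ c) (h2 : b ≠ d) : s(a, b) ≠ s(c, d) := by
  intro h; rw [Sym2.eq_iff] at h; rcases h with ⟨_, h⟩ | ⟨_, h⟩
  · exact h2 h
  · exact h1 h

theorem notMem_of_dg {M : Finset (Sym2 V)} {v a : V} (h : dg M v ≤ 0) : s(v, a) ∉ M := by
  intro h1
  have := one_le_dg h1
  omega

theorem notMem_of_dg' {M : Finset (Sym2 V)} {v a : V} (h : dg M v ≤ 0) : s(a, v) ∉ M := by
  rw [Sym2.eq_swap]; exact notMem_of_dg h

theorem swp {M : Finset (Sym2 V)} {a b : V} (h : s(a, b) ∈ M) : s(b, a) ∈ M := by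
  rw [Sym2.eq_swap]; exact h

/-- adding one edge -/
theorem good_insert {S : Set (Finset (Sym2 V))} {M : Finset (Sym2 V)} (hM : Good S M) {x y : V}
    (hxy : x ≠ y) (h : s(x, y) ∉ M) (hx : dg M x ≤ 1) (hy : dg M y ≤ 1)
    (key : ∀ Z ∈ S, Z ⊆ insert s(x, y) M → s(x, y) ∉ Z) : Good S (insert s(x, y) M) := by
  refine ⟨?_, ?_, ?_⟩
  · intro a b hab
    rw [Finset.mem_insert] at hab
    rcases hab with h | h
    · rw [Sym2.eq_iff] at h
      rcases h with ⟨rfl, rfl⟩ | ⟨rfl, rfl⟩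
      · exact hxy
      · exact hxy.symm
    · exact hM.ne h
  · intro z
    rw [dg_insert hxy h]
    have h1 := hM.deg z
    by_cases hz : z = x
    · subst hz; rw [ind_self, ind_ne hxy]; omega
    · by_cases hz' : z = y
      · subst hz'; rw [ind_self, ind_ne hz]; omega
      · rw [ind_ne hz, ind_ne hz']; omega
  · intro Z hZS hZ
    refine hM.free Z hZS (fun e he => ?_)
    rcases Finset.mem_insert.1 (hZ he) with rfl | h1
    · exact absurd he (key Z hZS hZ)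
    · exact h1

theorem dg_insert_le {M : Finset (Sym2 V)} {x y : V} (hxy : x ≠ y) (h : s(x, y) ∉ M)
    (hM : ∀ v, dg M v ≤ 2) (hx : dg M x ≤ 1) (hy : dg M y ≤ 1) (z : V) :
    dg (insert s(x, y) M) z ≤ 2 := by
  rw [dg_insert hxy h]
  have h1 := hM z
  by_cases hz : z = x
  · subst hz; rw [ind_self, ind_ne hxy]; omega
  · by_cases hz' : z = y
    · subst hz'; rw [ind_self, ind_ne hz]; omega
    · rw [ind_ne hz, ind_ne hz']; omega

/-- adding an edge `x y` where `x` starts a path of three edges avoiding `y` -/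
theorem add_far {S : Set (Finset (Sym2 V))} (hS : ∀ Z ∈ S, Short Z) {M : Finset (Sym2 V)}
    (hM : Good S M) {x y p q r : V} (hxy : x ≠ y) (h : s(x, y) ∉ M) (hx : dg M x ≤ 1)
    (hy : dg M y ≤ 1) (h1 : s(x, p) ∈ M) (h2 : s(p, q) ∈ M) (h3 : s(q, r) ∈ M) (hyp : y ≠ p)
    (hyq : y ≠ q) (hyr : y ≠ r) (hxq : x ≠ q) (hpr : p ≠ r) : Good S (insert s(x, y) M) := by
  have hdeg := dg_insert_le hxy h hM.deg hx hy
  refine good_insert hM hxy h hx hy ?_
  intro Z hZS hZ hmem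
  have hZs := hS Z hZS
  have e1 : s(x, p) ∈ Z := hZs.closure hZ (hdeg x) hmem (Finset.mem_insert_of_mem h1)
  have e2 : s(p, q) ∈ Z := hZs.closure hZ (hdeg p) (swp e1) (Finset.mem_insert_of_mem h2)
  have e3 : s(q, r) ∈ Z := hZs.closure hZ (hdeg q) (swp e2) (Finset.mem_insert_of_mem h3)
  have e4 := hZs.path3 (swp hmem) e1 e2 hyp hxq hyq
  have e5 : s(q, y) ∈ Z := by rw [e4, mem_quad]; right; right; right; rfl
  have hqZ : dg Z q ≤ 2 := (dg_mono hZ q).trans (hdeg q)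
  rcases three hqZ (swp e2) e3 e5 with e | e | e
  · exact hpr e
  · exact hyp e.symm
  · exact hyr e.symm

/-- closing a path of three edges to a 4-cycle outside `S` -/
theorem add_close {S : Set (Finset (Sym2 V))} (hS : ∀ Z ∈ S, Short Z) {M : Finset (Sym2 V)}
    (hM : Good S M) {x y p q : V} (hxy : x ≠ y) (h : s(x, y) ∉ M) (hx : dg M x ≤ 1)
    (hy : dg M y ≤ 1) (h1 : s(x, p) ∈ M) (h2 : s(p, q) ∈ M) (hyp : y ≠ p)
    (hyq : y ≠ q) (hxq : x ≠ q) (hnot : quad y x p q ∉ S) : Good S (insert s(x, y) M) := by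
  have hdeg := dg_insert_le hxy h hM.deg hx hy
  refine good_insert hM hxy h hx hy ?_
  intro Z hZS hZ hmem
  have hZs := hS Z hZS
  have e1 : s(x, p) ∈ Z := hZs.closure hZ (hdeg x) hmem (Finset.mem_insert_of_mem h1)
  have e2 : s(p, q) ∈ Z := hZs.closure hZ (hdeg p) (swp e1) (Finset.mem_insert_of_mem h2)
  have e4 := hZs.path3 (swp hmem) e1 e2 hyp hxq hyq
  rw [e4] at hZS
  exact hnot hZS

/-- adding an edge one of whose ends is isolated -/
theorem add_isolated {S : Set (Finset (Sym2 V))} (hS : ∀ Z ∈ S, Short Z) {M : Finset (Sym2 V)}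
    (hM : Good S M) {x y : V} (hxy : x ≠ y) (hx : dg M x ≤ 0) (hy : dg M y ≤ 1) :
    Good S (insert s(x, y) M) := by
  refine good_insert hM hxy (notMem_of_dg hx) (by omega) hy ?_
  intro Z hZS hZ hmem
  obtain ⟨z, hz, hzZ⟩ := (hS Z hZS).next hmem
  have h1 := hZ hzZ
  rcases Finset.mem_insert.1 h1 with h1 | h1
  · rw [Sym2.eq_iff] at h1
    rcases h1 with ⟨_, h1⟩ | ⟨h1, _⟩
    · exact hz h1
    · exact hxy h1
  · exact notMem_of_dg hx h1

/-! ### Paths -/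

/-- add the path `x a b y` -/
def P3 (M : Finset (Sym2 V)) (x a b y : V) : Finset (Sym2 V) :=
  insert s(x, a) (insert s(b, y) (insert s(a, b) M))

theorem mem_P3 {M : Finset (Sym2 V)} {x a b y : V} {e : Sym2 V} :
    e ∈ P3 M x a b y ↔ e = s(x, a) ∨ e = s(b, y) ∨ e = s(a, b) ∨ e ∈ M := by
  simp [P3]

theorem P3_dg {M : Finset (Sym2 V)} {x a b y : V} (ha : dg M a ≤ 0) (hb : dg M b ≤ 0)
    (hxa : x ≠ a) (hxb : x ≠ b) (hxy : x ≠ y) (hab : a ≠ b) (hay : a ≠ y) (hby : b ≠ y) (z : V) :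
    dg (P3 M x a b y) z = dg M z + ind x z + 2 * ind a z + 2 * ind b z + ind y z := by
  unfold P3
  rw [dg_insert hxa, dg_insert hby, dg_insert hab (notMem_of_dg ha)]
  · ring
  · rw [Finset.mem_insert]; push Not
    exact ⟨mk_ne' hay.symm hby.symm, notMem_of_dg hb⟩
  · rw [Finset.mem_insert, Finset.mem_insert]; push Not
    exact ⟨mk_ne hxb hxy, mk_ne hxa hxb, notMem_of_dg' ha⟩

theorem P3_good {S : Set (Finset (Sym2 V))} (hS : ∀ Z ∈ S, Short Z) {M : Finset (Sym2 V)}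
    (hM : Good S M) {x a b y : V} (ha : dg M a ≤ 0) (hb : dg M b ≤ 0)
    (hx : dg M x ≤ 1) (hy : dg M y ≤ 1)
    (hxa : x ≠ a) (hxb : x ≠ b) (hxy : x ≠ y) (hab : a ≠ b) (hay : a ≠ y) (hby : b ≠ y)
    (hxyM : s(x, y) ∉ M) : Good S (P3 M x a b y) := by
  have habM : s(a, b) ∉ M := notMem_of_dg ha
  have hM1 : Good S (insert s(a, b) M) := add_isolated hS hM hab ha (by omega)
  have hbyM : s(b, y) ∉ insert s(a, b) M := by
    rw [Finset.mem_insert]; push Not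
    exact ⟨mk_ne' hay.symm hby.symm, notMem_of_dg hb⟩
  have d1 : ∀ z, dg (insert s(a, b) M) z = dg M z + ind a z + ind b z := dg_insert hab habM
  have hM2 : Good S (insert s(b, y) (insert s(a, b) M)) := by
    have g1 : dg (insert s(a, b) M) b ≤ 1 := by
      rw [d1, ind_ne hab.symm, ind_self]; omega
    have g2 : dg (insert s(a, b) M) y ≤ 1 := by
      rw [d1, ind_ne hay.symm, ind_ne hby.symm]; omega
    have hdeg := dg_insert_le hby hbyM hM1.deg g1 g2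
    refine good_insert hM1 hby hbyM g1 g2 ?_
    intro Z hZS hZ hmem
    have hZs := hS Z hZS
    have e1 : s(b, a) ∈ Z := hZs.closure hZ (hdeg b) hmem
      (swp (Finset.mem_insert_of_mem (Finset.mem_insert_self _ _)))
    obtain ⟨z, hz, hzZ⟩ := hZs.next (swp e1)
    have h1 := hZ hzZ
    rcases Finset.mem_insert.1 h1 with h1 | h1
    · exact mk_ne hab hay h1
    · rcases Finset.mem_insert.1 h1 with h1 | h1
      · rw [Sym2.eq_iff] at h1
        rcases h1 with ⟨_, h1⟩ | ⟨h1, _⟩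
        · exact hz h1
        · exact hab h1
      · exact notMem_of_dg ha h1
  have hxaM : s(x, a) ∉ insert s(b, y) (insert s(a, b) M) := by
    rw [Finset.mem_insert, Finset.mem_insert]; push Not
    exact ⟨mk_ne hxb hxy, mk_ne hxa hxb, notMem_of_dg' ha⟩
  have d2 := dg_insert hby hbyM
  have g1 : dg (insert s(b, y) (insert s(a, b) M)) x ≤ 1 := by
    rw [d2, d1, ind_ne hxa, ind_ne hxb, ind_ne hxy]; omega
  have g2 : dg (insert s(b, y) (insert s(a, b) M)) a ≤ 1 := by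
    rw [d2, d1, ind_self, ind_ne hab, ind_ne hay]; omega
  have hdeg := dg_insert_le hxa hxaM hM2.deg g1 g2
  refine good_insert hM2 hxa hxaM g1 g2 ?_
  intro Z hZS hZ hmem
  have hZs := hS Z hZS
  have e1 : s(a, b) ∈ Z := hZs.closure hZ (hdeg a) (swp hmem)
    (Finset.mem_insert_of_mem (Finset.mem_insert_of_mem (Finset.mem_insert_self _ _)))
  have e2 : s(b, y) ∈ Z := hZs.closure hZ (hdeg b) (swp e1)
    (Finset.mem_insert_of_mem (Finset.mem_insert_self _ _))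
  have e3 := hZs.path3 hmem e1 e2 hxb hay hxy
  have e4 : s(y, x) ∈ Z := by rw [e3, mem_quad]; right; right; right; rfl
  have e5 : s(y, x) ∈ P3 M x a b y := hZ e4
  rw [mem_P3] at e5
  rcases e5 with h | h | h | h
  · exact mk_ne hxy.symm hay.symm h
  · exact mk_ne' hxb hxy h
  · exact mk_ne hay.symm hby.symm h
  · exact hxyM (swp h)

/-- add the path `x a b c y` -/
def P4 (M : Finset (Sym2 V)) (x a b c y : V) : Finset (Sym2 V) :=
  insert s(c, y) (P3 M x a b c)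

theorem mem_P4 {M : Finset (Sym2 V)} {x a b c y : V} {e : Sym2 V} :
    e ∈ P4 M x a b c y ↔
      e = s(c, y) ∨ e = s(x, a) ∨ e = s(b, c) ∨ e = s(a, b) ∨ e ∈ M := by
  simp [P4, mem_P3]

theorem P4_dg {M : Finset (Sym2 V)} {x a b c y : V} (ha : dg M a ≤ 0) (hb : dg M b ≤ 0)
    (hc : dg M c ≤ 0)
    (hxa : x ≠ a) (hxb : x ≠ b) (hxc : x ≠ c) (hab : a ≠ b) (hac : a ≠ c) (hbc : b ≠ c)
    (hya : y ≠ a) (hyb : y ≠ b) (hyc : y ≠ c) (hyx : y ≠ x) (z : V) :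
    dg (P4 M x a b c y) z =
      dg M z + ind x z + 2 * ind a z + 2 * ind b z + 2 * ind c z + ind y z := by
  unfold P4
  rw [dg_insert hyc.symm, P3_dg ha hb hxa hxb hxc hab hac hbc]
  · ring
  · rw [mem_P3]; push Not
    exact ⟨mk_ne' hyx hya, mk_ne' hyb hyc, mk_ne' hya hyb, notMem_of_dg hc⟩

theorem P4_good {S : Set (Finset (Sym2 V))} (hS : ∀ Z ∈ S, Short Z) {M : Finset (Sym2 V)}
    (hM : Good S M) {x a b c y : V} (ha : dg M a ≤ 0) (hb : dg M b ≤ 0)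
    (hc : dg M c ≤ 0) (hx : dg M x ≤ 1) (hy : dg M y ≤ 1)
    (hxa : x ≠ a) (hxb : x ≠ b) (hxc : x ≠ c) (hab : a ≠ b) (hac : a ≠ c) (hbc : b ≠ c)
    (hya : y ≠ a) (hyb : y ≠ b) (hyc : y ≠ c) (hyx : y ≠ x) : Good S (P4 M x a b c y) := by
  have h3 := P3_good hS hM ha hb hx (by omega : dg M c ≤ 1) hxa hxb hxc hab hac hbc
    (notMem_of_dg' hc)
  have d3 := P3_dg (M := M) ha hb hxa hxb hxc hab hac hbc
  refine add_far hS h3 hyc.symm ?_ ?_ ?_ (p := b) (q := a) (r := x) ?_ ?_ ?_ hyb hya hyx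
    hac.symm hxb.symm
  · rw [mem_P3]; push Not
    exact ⟨mk_ne' hyx hya, mk_ne' hyb hyc, mk_ne' hya hyb, notMem_of_dg hc⟩
  · rw [d3, ind_ne hxc.symm, ind_ne hac.symm, ind_ne hbc.symm, ind_self]; omega
  · rw [d3, ind_ne hyx, ind_ne hya, ind_ne hyb, ind_ne hyc]; omega
  · apply swp; rw [mem_P3]; right; left; rfl
  · apply swp; rw [mem_P3]; right; right; left; rfl
  · apply swp; rw [mem_P3]; left; rfl

/-- add the path `x a b c d y` -/
def P5 (M : Finset (Sym2 V)) (x a b c d y : V) : Finset (Sym2 V) :=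
  insert s(d, y) (P4 M x a b c d)

theorem mem_P5 {M : Finset (Sym2 V)} {x a b c d y : V} {e : Sym2 V} :
    e ∈ P5 M x a b c d y ↔
      e = s(d, y) ∨ e = s(c, d) ∨ e = s(x, a) ∨ e = s(b, c) ∨ e = s(a, b) ∨ e ∈ M := by
  simp [P5, mem_P4]

theorem P5_dg {M : Finset (Sym2 V)} {x a b c d y : V} (ha : dg M a ≤ 0) (hb : dg M b ≤ 0)
    (hc : dg M c ≤ 0) (hd : dg M d ≤ 0)
    (hxa : x ≠ a) (hxb : x ≠ b) (hxc : x ≠ c) (hxd : x ≠ d) (hab : a ≠ b) (hac : a ≠ c)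
    (had : a ≠ d) (hbc : b ≠ c) (hbd : b ≠ d) (hcd : c ≠ d)
    (hya : y ≠ a) (hyb : y ≠ b) (hyc : y ≠ c) (hyd : y ≠ d) (hyx : y ≠ x) (z : V) :
    dg (P5 M x a b c d y) z =
      dg M z + ind x z + 2 * ind a z + 2 * ind b z + 2 * ind c z + 2 * ind d z + ind y z := by
  unfold P5
  rw [dg_insert hyd.symm, P4_dg ha hb hc hxa hxb hxc hab hac hbc had.symm hbd.symm hcd.symm
    hxd.symm]
  · ring
  · rw [mem_P4]; push Not
    exact ⟨mk_ne' hyc hyd, mk_ne' hyx hya, mk_ne' hyb hyc, mk_ne' hya hyb, notMem_of_dg hd⟩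

theorem P5_good {S : Set (Finset (Sym2 V))} (hS : ∀ Z ∈ S, Short Z) {M : Finset (Sym2 V)}
    (hM : Good S M) {x a b c d y : V} (ha : dg M a ≤ 0) (hb : dg M b ≤ 0)
    (hc : dg M c ≤ 0) (hd : dg M d ≤ 0) (hx : dg M x ≤ 1) (hy : dg M y ≤ 1)
    (hxa : x ≠ a) (hxb : x ≠ b) (hxc : x ≠ c) (hxd : x ≠ d) (hab : a ≠ b) (hac : a ≠ c)
    (had : a ≠ d) (hbc : b ≠ c) (hbd : b ≠ d) (hcd : c ≠ d)
    (hya : y ≠ a) (hyb : y ≠ b) (hyc : y ≠ c) (hyd : y ≠ d) (hyx : y ≠ x) :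
    Good S (P5 M x a b c d y) := by
  have h4 := P4_good hS hM ha hb hc hx (by omega : dg M d ≤ 1) hxa hxb hxc hab hac hbc
    had.symm hbd.symm hcd.symm hxd.symm
  have d4 := P4_dg (M := M) ha hb hc hxa hxb hxc hab hac hbc had.symm hbd.symm hcd.symm
    hxd.symm
  refine add_far hS h4 hyd.symm ?_ ?_ ?_ (p := c) (q := b) (r := a) ?_ ?_ ?_ hyc hyb hya
    hbd.symm hac.symm
  · rw [mem_P4]; push Not
    exact ⟨mk_ne' hyc hyd, mk_ne' hyx hya, mk_ne' hyb hyc, mk_ne' hya hyb, notMem_of_dg hd⟩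
  · rw [d4, ind_ne hxd.symm, ind_ne had.symm, ind_ne hbd.symm, ind_ne hcd.symm, ind_self]
    omega
  · rw [d4, ind_ne hyx, ind_ne hya, ind_ne hyb, ind_ne hyc, ind_ne hyd]; omega
  · apply swp; rw [mem_P4]; left; rfl
  · apply swp; rw [mem_P4]; right; right; left; rfl
  · apply swp; rw [mem_P4]; right; right; right; left; rfl

/-! ### Cycles -/

/-- add the 4-cycle `a b c d` -/
def C4 (M : Finset (Sym2 V)) (a b c d : V) : Finset (Sym2 V) :=
  insert s(d, a) (P3 M a b c d)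

theorem mem_C4 {M : Finset (Sym2 V)} {a b c d : V} {e : Sym2 V} :
    e ∈ C4 M a b c d ↔
      e = s(d, a) ∨ e = s(a, b) ∨ e = s(c, d) ∨ e = s(b, c) ∨ e ∈ M := by
  simp [C4, mem_P3]

theorem C4_dg {M : Finset (Sym2 V)} {a b c d : V} (ha : dg M a ≤ 0) (hb : dg M b ≤ 0)
    (hc : dg M c ≤ 0) (hd : dg M d ≤ 0)
    (hab : a ≠ b) (hac : a ≠ c) (had : a ≠ d) (hbc : b ≠ c) (hbd : b ≠ d) (hcd : c ≠ d)
    (z : V) :
    dg (C4 M a b c d) z =
      dg M z + 2 * ind a z + 2 * ind b z + 2 * ind c z + 2 * ind d z := by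
  unfold C4
  rw [dg_insert had.symm, P3_dg hb hc hab hac had hbc hbd hcd]
  · ring
  · rw [mem_P3]; push Not
    exact ⟨mk_ne had.symm hbd.symm, mk_ne' hac had, mk_ne' hab hac, notMem_of_dg' ha⟩

theorem C4_good {S : Set (Finset (Sym2 V))} (hS : ∀ Z ∈ S, Short Z) {M : Finset (Sym2 V)}
    (hM : Good S M) {a b c d : V} (ha : dg M a ≤ 0) (hb : dg M b ≤ 0)
    (hc : dg M c ≤ 0) (hd : dg M d ≤ 0)
    (hab : a ≠ b) (hac : a ≠ c) (had : a ≠ d) (hbc : b ≠ c) (hbd : b ≠ d) (hcd : c ≠ d)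
    (hnot : quad a b c d ∉ S) : Good S (C4 M a b c d) := by
  have h3 := P3_good hS hM hb hc (by omega : dg M a ≤ 1) (by omega : dg M d ≤ 1) hab hac had hbc
    hbd hcd (notMem_of_dg ha)
  have d3 := P3_dg (M := M) hb hc hab hac had hbc hbd hcd
  refine add_close hS h3 had.symm ?_ ?_ ?_ (p := c) (q := b) ?_ ?_ hac hab hbd.symm ?_
  · rw [mem_P3]; push Not
    exact ⟨mk_ne had.symm hbd.symm, mk_ne' hac had, mk_ne' hab hac, notMem_of_dg' ha⟩
  · rw [d3, ind_ne had.symm, ind_ne hbd.symm, ind_ne hcd.symm, ind_self]; omega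
  · rw [d3, ind_self, ind_ne hab, ind_ne hac, ind_ne had]; omega
  · apply swp; rw [mem_P3]; right; left; rfl
  · apply swp; rw [mem_P3]; right; right; left; rfl
  · rw [quad_rev, quad_rot]; exact hnot

/-- add the 5-cycle `a b c d e` -/
def C5 (M : Finset (Sym2 V)) (a b c d e : V) : Finset (Sym2 V) :=
  insert s(e, a) (P4 M a b c d e)

theorem mem_C5 {M : Finset (Sym2 V)} {a b c d e : V} {f : Sym2 V} :
    f ∈ C5 M a b c d e ↔
      f = s(e, a) ∨ f = s(d, e) ∨ f = s(a, b) ∨ f = s(c, d) ∨ f = s(b, c) ∨ f ∈ M := by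
  simp [C5, mem_P4]

theorem C5_dg {M : Finset (Sym2 V)} {a b c d e : V} (ha : dg M a ≤ 0) (hb : dg M b ≤ 0)
    (hc : dg M c ≤ 0) (hd : dg M d ≤ 0)
    (hab : a ≠ b) (hac : a ≠ c) (had : a ≠ d) (hae : a ≠ e) (hbc : b ≠ c) (hbd : b ≠ d)
    (hbe : b ≠ e) (hcd : c ≠ d) (hce : c ≠ e) (hde : d ≠ e) (z : V) :
    dg (C5 M a b c d e) z =
      dg M z + 2 * ind a z + 2 * ind b z + 2 * ind c z + 2 * ind d z + 2 * ind e z := by
  unfold C5
  rw [dg_insert hae.symm, P4_dg hb hc hd hab hac had hbc hbd hcd hbe.symm hce.symm hde.symm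
    hae.symm]
  · ring
  · rw [mem_P4]; push Not
    exact ⟨mk_ne' had hae, mk_ne hae.symm hbe.symm, mk_ne' hac had, mk_ne' hab hac,
      notMem_of_dg' ha⟩

theorem C5_good {S : Set (Finset (Sym2 V))} (hS : ∀ Z ∈ S, Short Z) {M : Finset (Sym2 V)}
    (hM : Good S M) {a b c d e : V} (ha : dg M a ≤ 0) (hb : dg M b ≤ 0)
    (hc : dg M c ≤ 0) (hd : dg M d ≤ 0) (he : dg M e ≤ 0)
    (hab : a ≠ b) (hac : a ≠ c) (had : a ≠ d) (hae : a ≠ e) (hbc : b ≠ c) (hbd : b ≠ d)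
    (hbe : b ≠ e) (hcd : c ≠ d) (hce : c ≠ e) (hde : d ≠ e) :
    Good S (C5 M a b c d e) := by
  have h4 := P4_good hS hM hb hc hd (by omega : dg M a ≤ 1) (by omega : dg M e ≤ 1)
    hab hac had hbc hbd hcd hbe.symm hce.symm hde.symm hae.symm
  have d4 := P4_dg (M := M) hb hc hd hab hac had hbc hbd hcd hbe.symm hce.symm hde.symm
    hae.symm
  refine add_far hS h4 hae.symm ?_ ?_ ?_ (p := d) (q := c) (r := b) ?_ ?_ ?_ had hac hab
    hce.symm hbd.symm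
  · rw [mem_P4]; push Not
    exact ⟨mk_ne' had hae, mk_ne hae.symm hbe.symm, mk_ne' hac had, mk_ne' hab hac,
      notMem_of_dg' ha⟩
  · rw [d4, ind_ne hae.symm, ind_ne hbe.symm, ind_ne hce.symm, ind_ne hde.symm, ind_self]; omega
  · rw [d4, ind_self, ind_ne hab, ind_ne hac, ind_ne had, ind_ne hae]; omega
  · apply swp; rw [mem_P4]; left; rfl
  · apply swp; rw [mem_P4]; right; right; left; rfl
  · apply swp; rw [mem_P4]; right; right; right; left; rfl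

/-- add the 6-cycle `a b c d e f` -/
def C6 (M : Finset (Sym2 V)) (a b c d e f : V) : Finset (Sym2 V) :=
  insert s(f, a) (P5 M a b c d e f)

theorem mem_C6 {M : Finset (Sym2 V)} {a b c d e f : V} {g : Sym2 V} :
    g ∈ C6 M a b c d e f ↔
      g = s(f, a) ∨ g = s(e, f) ∨ g = s(d, e) ∨ g = s(a, b) ∨ g = s(c, d) ∨ g = s(b, c) ∨
        g ∈ M := by
  simp [C6, mem_P5]

theorem C6_dg {M : Finset (Sym2 V)} {a b c d e f : V} (ha : dg M a ≤ 0) (hb : dg M b ≤ 0)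
    (hc : dg M c ≤ 0) (hd : dg M d ≤ 0) (he : dg M e ≤ 0)
    (hab : a ≠ b) (hac : a ≠ c) (had : a ≠ d) (hae : a ≠ e) (haf : a ≠ f)
    (hbc : b ≠ c) (hbd : b ≠ d) (hbe : b ≠ e) (hbf : b ≠ f)
    (hcd : c ≠ d) (hce : c ≠ e) (hcf : c ≠ f) (hde : d ≠ e) (hdf : d ≠ f) (hef : e ≠ f)
    (z : V) :
    dg (C6 M a b c d e f) z =
      dg M z + 2 * ind a z + 2 * ind b z + 2 * ind c z + 2 * ind d z + 2 * ind e z
        + 2 * ind f z := by
  unfold C6
  rw [dg_insert haf.symm, P5_dg hb hc hd he hab hac had hae hbc hbd hbe hcd hce hde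
    hbf.symm hcf.symm hdf.symm hef.symm haf.symm]
  · ring
  · rw [mem_P5]; push Not
    exact ⟨mk_ne' hae haf, mk_ne' had hae, mk_ne haf.symm hbf.symm, mk_ne' hac had,
      mk_ne' hab hac, notMem_of_dg' ha⟩

theorem C6_good {S : Set (Finset (Sym2 V))} (hS : ∀ Z ∈ S, Short Z) {M : Finset (Sym2 V)}
    (hM : Good S M) {a b c d e f : V} (ha : dg M a ≤ 0) (hb : dg M b ≤ 0)
    (hc : dg M c ≤ 0) (hd : dg M d ≤ 0) (he : dg M e ≤ 0) (hf : dg M f ≤ 0)
    (hab : a ≠ b) (hac : a ≠ c) (had : a ≠ d) (hae : a ≠ e) (haf : a ≠ f)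
    (hbc : b ≠ c) (hbd : b ≠ d) (hbe : b ≠ e) (hbf : b ≠ f)
    (hcd : c ≠ d) (hce : c ≠ e) (hcf : c ≠ f) (hde : d ≠ e) (hdf : d ≠ f) (hef : e ≠ f) :
    Good S (C6 M a b c d e f) := by
  have h5 := P5_good hS hM hb hc hd he (by omega : dg M a ≤ 1) (by omega : dg M f ≤ 1)
    hab hac had hae hbc hbd hbe hcd hce hde hbf.symm hcf.symm hdf.symm hef.symm haf.symm
  have d5 := P5_dg (M := M) hb hc hd he hab hac had hae hbc hbd hbe hcd hce hde
    hbf.symm hcf.symm hdf.symm hef.symm haf.symm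
  refine add_far hS h5 haf.symm ?_ ?_ ?_ (p := e) (q := d) (r := c) ?_ ?_ ?_ hae had hac
    hdf.symm hce.symm
  · rw [mem_P5]; push Not
    exact ⟨mk_ne' hae haf, mk_ne' had hae, mk_ne haf.symm hbf.symm, mk_ne' hac had,
      mk_ne' hab hac, notMem_of_dg' ha⟩
  · rw [d5, ind_ne haf.symm, ind_ne hbf.symm, ind_ne hcf.symm, ind_ne hdf.symm,
      ind_ne hef.symm, ind_self]; omega
  · rw [d5, ind_self, ind_ne hab, ind_ne hac, ind_ne had, ind_ne hae, ind_ne haf]; omega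
  · apply swp; rw [mem_P5]; left; rfl
  · apply swp; rw [mem_P5]; right; left; rfl
  · apply swp; rw [mem_P5]; right; right; right; left; rfl

end H999
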