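import Pool.Agent.H999_TwoFactor.Prog

/-!
2-factors without cycles of length 4, as graphs and as edge sets.
-/

namespace H999

set_option linter.all false

/-- `G` has a 2-factor without cycles of length 4 -/
def HasSF {V : Type*} (G : SimpleGraph V) : Prop :=
  ∃ N : SimpleGraph V, (N ≤ G ∧ ∀ v, (N.neighborSet v).ncard = 2) ∧
    ∀ (v : V) (p : N.Walk v v), p.IsCycle → p.length ∉ ({4} : Set ℕ)

section

variable {V : Type*}

/-- four edges of a 4-cycle give a walk -/
theorem cycle4 {N : SimpleGraph V} {a b c d : V} (hac : a ≠ c) (hbd : b ≠ d)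
    (h1 : N.Adj a b) (h2 : N.Adj b c) (h3 : N.Adj c d) (h4 : N.Adj d a) :
    ∃ p : N.Walk a a, p.IsCycle ∧ p.length = 4 := by
  refine ⟨.cons h1 (.cons h2 (.cons h3 (.cons h4 .nil))), ?_, rfl⟩
  have := h1.ne
  have := h2.ne
  have := h3.ne
  have := h4.ne
  rw [SimpleGraph.Walk.isCycle_def, SimpleGraph.Walk.isTrail_def]
  refine ⟨?_, by simp, ?_⟩
  · simp only [SimpleGraph.Walk.edges_cons, SimpleGraph.Walk.edges_nil, List.nodup_cons,
      List.mem_cons, List.not_mem_nil, or_false, not_or, Sym2.eq_iff, not_and, List.nodup_nil,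
      and_true, not_false_eq_true]
    refine ⟨⟨⟨?_, ?_⟩, ⟨?_, ?_⟩, ?_, ?_⟩, ⟨⟨?_, ?_⟩, ?_, ?_⟩, ?_, ?_⟩ <;> grind
  · simp only [SimpleGraph.Walk.support_cons, SimpleGraph.Walk.support_nil, List.tail_cons,
      List.nodup_cons, List.mem_cons, List.not_mem_nil, or_false, not_or, List.nodup_nil,
      and_true, not_false_eq_true]
    refine ⟨⟨?_, ?_, ?_⟩, ⟨?_, ?_⟩, ?_⟩ <;> grind

/-- a cycle of length 4 gives four vertices -/
theorem of_cycle4 {N : SimpleGraph V} {a : V} (p : N.Walk a a) (hp : p.IsCycle)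
    (hl : p.length = 4) : ∃ b c d, a ≠ b ∧ a ≠ c ∧ a ≠ d ∧ b ≠ c ∧ b ≠ d ∧ c ≠ d ∧
      N.Adj a b ∧ N.Adj b c ∧ N.Adj c d ∧ N.Adj d a := by
  match p, hp, hl with
  | .cons (v := b) h1 (.cons (v := c) h2 (.cons (v := d) h3 (.cons h4 .nil))), hp, _ =>
    have h := hp.support_nodup
    simp only [SimpleGraph.Walk.support_cons, SimpleGraph.Walk.support_nil, List.tail_cons,
      List.nodup_cons, List.mem_cons, List.not_mem_nil, or_false, not_or, List.nodup_nil,
      and_true, not_false_eq_true] at h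
    obtain ⟨⟨g1, g2, g3⟩, ⟨g4, g5⟩, g6⟩ := h
    exact ⟨b, c, d, Ne.symm g3, Ne.symm g5, Ne.symm g6, g1, g2, g4, h1, h2, h3, h4⟩

variable [Fintype V] [DecidableEq V]

/-- a 2-factor as a finite edge set -/
theorem tf_of_nc {N : SimpleGraph V} [DecidableRel N.Adj]
    (hN : ∀ v, (N.neighborSet v).ncard = 2) : TF N.edgeFinset := by
  refine ⟨?_, ?_⟩
  · intro x y h
    rw [SimpleGraph.mem_edgeFinset, SimpleGraph.mem_edgeSet] at h
    exact h.ne
  · intro v
    unfold dg
    rw [← SimpleGraph.incidenceFinset_eq_filter, SimpleGraph.card_incidenceFinset_eq_degree,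
      ← SimpleGraph.card_neighborSet_eq_degree, ← Nat.card_eq_fintype_card,
      Nat.card_coe_set_eq, hN v]
    rfl

theorem edgeSet_tf {N : Finset (Sym2 V)} (hN : TF N) :
    (SimpleGraph.fromEdgeSet (N : Set (Sym2 V))).edgeSet = (N : Set (Sym2 V)) := by
  rw [SimpleGraph.edgeSet_fromEdgeSet]
  ext e
  simp only [Set.mem_diff, Finset.mem_coe, Set.mem_setOf_eq, and_iff_left_iff_imp]
  intro he
  induction e using Sym2.ind with
  | _ x y =>
    have := hN.ne he
    simpa using this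

theorem nc_of_tf {N : Finset (Sym2 V)} (hN : TF N) (v : V) :
    ((SimpleGraph.fromEdgeSet (N : Set (Sym2 V))).neighborSet v).ncard = 2 := by
  classical
  have h2 : (SimpleGraph.fromEdgeSet (N : Set (Sym2 V))).edgeFinset = N := by
    ext e
    rw [SimpleGraph.mem_edgeFinset, edgeSet_tf hN]
    rfl
  have h3 := hN.deg v
  unfold dg at h3
  rw [← h2, ← SimpleGraph.incidenceFinset_eq_filter,
    SimpleGraph.card_incidenceFinset_eq_degree, ← SimpleGraph.card_neighborSet_eq_degree,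
    ← Nat.card_eq_fintype_card, Nat.card_coe_set_eq] at h3
  exact_mod_cast h3

theorem not_hasSF_iff (G : SimpleGraph V) : ¬ HasSF G ↔ Blk G.edgeSet {Z | IsQuad Z} := by
  classical
  constructor
  · intro h N hN hNG
    by_contra hcon
    push Not at hcon
    refine h ⟨SimpleGraph.fromEdgeSet (N : Set (Sym2 V)), ⟨?_, nc_of_tf hN⟩, ?_⟩
    · rw [← SimpleGraph.edgeSet_subset_edgeSet, edgeSet_tf hN]
      exact fun e he => hNG e he
    · intro v p hp hl
      obtain ⟨b, c, d, h1, h2, h3, h4, h5, h6, g1, g2, g3, g4⟩ := of_cycle4 p hp hl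
      refine hcon (quad v b c d) ⟨v, b, c, d, h1, h2, h3, h4, h5, h6, rfl⟩ ?_
      intro e he
      have mem : ∀ {x y}, (SimpleGraph.fromEdgeSet (N : Set (Sym2 V))).Adj x y → s(x, y) ∈ N := by
        intro x y hxy
        exact (SimpleGraph.fromEdgeSet_adj _ |>.1 hxy).1
      rw [mem_quad] at he
      rcases he with rfl | rfl | rfl | rfl
      · exact mem g1
      · exact mem g2
      · exact mem g3
      · exact mem g4
  · rintro h ⟨N, ⟨hNG, hN⟩, hfree⟩
    obtain ⟨Z, ⟨a, b, c, d, h1, h2, h3, h4, h5, h6, rfl⟩, hsub⟩ := h N.edgeFinset (tf_of_nc hN)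
      (fun e he => SimpleGraph.edgeSet_mono hNG (SimpleGraph.mem_edgeFinset.1 he))
    have mem : ∀ {x y}, s(x, y) ∈ quad a b c d → N.Adj x y := by
      intro x y hxy
      have := hsub hxy
      rwa [SimpleGraph.mem_edgeFinset, SimpleGraph.mem_edgeSet] at this
    obtain ⟨p, hp, hl⟩ := cycle4 (N := N) h2 h5 (mem (by rw [mem_quad]; simp))
      (mem (by rw [mem_quad]; simp)) (mem (by rw [mem_quad]; simp))
      (mem (by rw [mem_quad]; simp))
    exact hfree a p hp hl

end

open Pool.Agent.H622R2 Pool.Agent.NPC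

/-- the polynomial bound -/
noncomputable def certP : Polynomial ℕ :=
  let X : Polynomial ℕ := Polynomial.X
  let mP := X * X + X ^ 4 * (2 * X + 3)
  let wP := 2 * X + 2 * mP
  (X ^ 4 * ((3 + (4 * X + 1) + (X * (4 * X + 2) + 1) + (X * (4 * X + 2) + 1) + 3) + 1) + 1) +
  (X * (8 * wP + 4) + 1) + (mP * (8 * wP + 4) + 1) + ((wP + 1) * (4 * wP + 2) + 1) + 3

theorem certP_eval (n : ℕ) : certP.eval n = certB n := by
  unfold certP certB wB mB
  simp

theorem inCoNPP_SF : InCoNPP (fun M : List (List Bool) => HasSF (matGraph M)) := by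
  refine inCoNPP_of (β := List (Item ℕ) × (List (ℕ × ℕ) × List (ℕ × ℕ) × List ℕ))
    (R := chk) poly_chk certP ?_
  intro M
  rw [not_hasSF_iff]
  constructor
  · intro h
    obtain ⟨w, h1, h2⟩ := chk_complete h
    refine ⟨w, ?_, h2⟩
    rw [← certP_eval] at h1
    exact h1.trans (Pool.Agent.NPC.eval_mono certP (length_lt_sz M).le)
  · rintro ⟨w, -, h⟩
    exact chk_sound h

end H999
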