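import Pool.Agent.H999_TwoFactor.Minimal

/-!
Even jump systems: degree vectors of good matchings, tokens, sums.
-/

namespace H999

open Finset

set_option linter.all false

variable {V : Type*} [DecidableEq V]

/-- even jump system axiom -/
def JS (Q : (V → ℤ) → Prop) : Prop :=
  ∀ x y, Q x → Q y → ∀ (w : V) (σ : ℤ), (σ = 1 ∨ σ = -1) →
    ∃ (v : V) (τ : ℤ), (τ = 1 ∨ τ = -1) ∧ 0 < τ * (y v - x v - σ * ind w v) ∧
      Q (fun z => x z + σ * ind w z + τ * ind v z)

/-- degree vectors of good matchings inside `R` -/
def BaseQ (S : Set (Finset (Sym2 V))) (R : Set (Sym2 V)) (f : V → ℤ) : Prop :=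
  ∃ M : Finset (Sym2 V), Good S M ∧ (∀ e ∈ M, e ∈ R) ∧ ∀ z, dg M z = f z

theorem BaseQ.js {S : Set (Finset (Sym2 V))} (hS : ∀ Z ∈ S, Short Z) {R : Set (Sym2 V)} :
    JS (BaseQ S R) := by
  rintro x y ⟨M, hM, hMR, hd1⟩ ⟨N, hN, hNR, hd2⟩ w σ hσ
  obtain ⟨M', h1, h2, τ, v, hτ, h3, h4⟩ := exch hS hN (dst M N) M
    (fun z => x z + σ * ind w z) w (-σ) rfl hM (by omega) (fun z => by rw [hd1]; ring)
  refine ⟨v, τ, hτ, ?_, M', h1, ?_, ?_⟩
  · rw [← hd2]
    have : dg N v - x v - σ * ind w v = dg N v - (x v + σ * ind w v) := by ring
    rw [this]; exact h4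
  · intro e he
    rcases Finset.mem_union.1 (h2 he) with h | h
    exacts [hMR e h, hNR e h]
  · intro z; rw [h3]

/-- reflection -/
theorem JS.neg {Q : (V → ℤ) → Prop} (hQ : JS Q) (b : V → ℤ) : JS (fun f => Q (fun z => b z - f z)) := by
  intro x y hx hy w σ hσ
  obtain ⟨v, τ, hτ, h1, h2⟩ := hQ _ _ hx hy w (-σ) (by omega)
  refine ⟨v, -τ, by omega, ?_, ?_⟩
  · have : -τ * (y v - x v - σ * ind w v) = τ * (b v - y v - (b v - x v) - -σ * ind w v) := by ring
    rw [this]; exact h1
  · have : (fun z => b z - (x z + σ * ind w z + -τ * ind v z)) =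
        (fun z => b z - x z + -σ * ind w z + τ * ind v z) := by
      funext z; ring
    simp only [this]
    exact h2

/-- sum of two sets of vectors -/
def SumQ (Q T : (V → ℤ) → Prop) (f : V → ℤ) : Prop :=
  ∃ x t, Q x ∧ T t ∧ ∀ z, f z = x z + t z

section Fin
variable [Fintype V]

/-- the distance -/
def dd (x y : V → ℤ) : ℤ := ∑ z, |x z - y z|

theorem dd_nonneg (x y : V → ℤ) : 0 ≤ dd x y := Finset.sum_nonneg fun z _ => abs_nonneg _

theorem sum_ind (w : V) : ∑ z, ind w z = (1 : ℤ) := by
  unfold ind; simp

theorem dd_step {x y : V → ℤ} {w : V} {σ : ℤ} (hσ : σ = 1 ∨ σ = -1)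
    (h : 0 < σ * (y w - x w)) : dd (fun z => x z + σ * ind w z) y = dd x y - 1 := by
  unfold dd
  rw [← sum_ind w, ← Finset.sum_sub_distrib]
  refine Finset.sum_congr rfl fun z _ => ?_
  beta_reduce
  by_cases hz : z = w
  · subst hz
    rw [ind_self]
    rcases hσ with rfl | rfl
    · rw [abs_of_nonpos, abs_of_nonpos] <;> omega
    · rw [abs_of_nonneg, abs_of_nonneg] <;> omega
  · rw [ind_ne hz]
    have : x z + σ * 0 - y z = x z - y z := by ring
    rw [this]; ring

theorem JS.sum {Q T : (V → ℤ) → Prop} (hQ : JS Q) (hT : JS T) : JS (SumQ Q T) := by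
  rintro x' y' ⟨x0, t0, hx0, ht0, e1⟩ ⟨y, s, hy, hs, e2⟩ w σ hσ
  set base : V → ℤ := fun z => x' z + σ * ind w z with hbase
  have key : ∀ (n : ℕ) (x t : V → ℤ) (v : V) (τ : ℤ), dd x y + dd t s ≤ n → Q x → T t →
      (τ = 1 ∨ τ = -1) → (∀ z, x z + t z = base z + τ * ind v z) →
      ∃ (v : V) (τ : ℤ), (τ = 1 ∨ τ = -1) ∧ 0 < τ * (y' v - base v) ∧
        SumQ Q T (fun z => base z + τ * ind v z) := by
    intro n
    induction n with
    | zero =>
      intro x t v τ hn hx ht hτ he
      by_cases hgo : 0 < τ * (y' v - base v)
      · exact ⟨v, τ, hτ, hgo, x, t, hx, ht, fun z => (he z).symm⟩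
      · exfalso
        have hev := he v
        rw [ind_self] at hev
        have e2v := e2 v
        have h0 : dd x y ≤ 0 ∧ dd t s ≤ 0 := by
          have := dd_nonneg x y; have := dd_nonneg t s; push_cast at hn; omega
        have a1 : |x v - y v| ≤ 0 := by
          refine le_trans ?_ h0.1
          exact Finset.single_le_sum (f := fun z => |x z - y z|) (fun z _ => abs_nonneg _)
            (Finset.mem_univ v)
        have a2 : |t v - s v| ≤ 0 := by
          refine le_trans ?_ h0.2
          exact Finset.single_le_sum (f := fun z => |t z - s z|) (fun z _ => abs_nonneg _)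
            (Finset.mem_univ v)
        have b1 := abs_nonpos_iff.1 a1
        have b2 := abs_nonpos_iff.1 a2
        rcases hτ with rfl | rfl <;> omega
    | succ n ih =>
      intro x t v τ hn hx ht hτ he
      by_cases hgo : 0 < τ * (y' v - base v)
      · exact ⟨v, τ, hτ, hgo, x, t, hx, ht, fun z => (he z).symm⟩
      · have hev := he v
        rw [ind_self] at hev
        have e2v := e2 v
        have hor : 0 < -τ * (y v - x v) ∨ 0 < -τ * (s v - t v) := by
          rcases hτ with rfl | rfl <;> omega
        have hτ' : -τ = 1 ∨ -τ = -1 := by omega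
        rcases hor with h | h
        · obtain ⟨v', τ', h1, h2, h3⟩ := hQ x y hx hy v (-τ) hτ'
          have d1 := dd_step hτ' h
          have d2 := dd_step (x := fun z => x z + -τ * ind v z) (y := y) h1
            (by have : y v' - (x v' + -τ * ind v v') = y v' - x v' - -τ * ind v v' := by ring
                rw [this]; exact h2)
          refine ih _ t v' τ' ?_ h3 ht h1 (fun z => ?_)
          · rw [d2, d1]; push_cast at hn; omega
          · have := he z; beta_reduce; linarith
        · obtain ⟨v', τ', h1, h2, h3⟩ := hT t s ht hs v (-τ) hτ'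
          have d1 := dd_step hτ' h
          have d2 := dd_step (x := fun z => t z + -τ * ind v z) (y := s) h1
            (by have : s v' - (t v' + -τ * ind v v') = s v' - t v' - -τ * ind v v' := by ring
                rw [this]; exact h2)
          refine ih x _ v' τ' ?_ hx h3 h1 (fun z => ?_)
          · rw [d2, d1]; push_cast at hn; omega
          · have := he z; beta_reduce; linarith
  obtain ⟨v, τ, h1, h2, h3⟩ := key (dd x0 y + dd t0 s).toNat x0 t0 w (-σ)
    (by rw [Int.toNat_of_nonneg (by have := dd_nonneg x0 y; have := dd_nonneg t0 s; omega)])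
    hx0 ht0 (by omega) (fun z => by rw [← e1 z, hbase]; ring)
  refine ⟨v, τ, h1, ?_, h3⟩
  have : y' v - x' v - σ * ind w v = y' v - base v := by rw [hbase]; ring
  rw [this]; exact h2

end Fin

/-- one token: unused, or an edge between the two lists -/
def TokQ (t : List V × List V) (f : V → ℤ) : Prop :=
  (∀ z, f z = 0) ∨ ∃ x ∈ t.1, ∃ y ∈ t.2, ∀ z, f z = ind x z + ind y z

theorem JS.back {Q : (V → ℤ) → Prop} {x y : V → ℤ} {w : V} {σ : ℤ} (hσ : σ = 1 ∨ σ = -1)
    (hx : Q x) (h : σ * (y w - x w) ≤ 0) :
    ∃ (v : V) (τ : ℤ), (τ = 1 ∨ τ = -1) ∧ 0 < τ * (y v - x v - σ * ind w v) ∧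
      Q (fun z => x z + σ * ind w z + τ * ind v z) := by
  refine ⟨w, -σ, by omega, ?_, ?_⟩
  · rw [ind_self]; rcases hσ with rfl | rfl <;> omega
  · have : (fun z => x z + σ * ind w z + -σ * ind w z) = x := by funext z; ring
    rw [this]; exact hx

theorem TokQ.js (t : List V × List V) : JS (TokQ t) := by
  intro x y hx hy w σ hσ
  by_cases hb : σ * (y w - x w) ≤ 0
  · exact JS.back hσ hx hb
  push Not at hb
  rcases hx with hx | ⟨a, ha, b, hbb, hx⟩
  · rcases hy with hy | ⟨c, hc, d, hd, hy⟩
    · exfalso; rw [hx, hy] at hb; simp at hb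
    · -- from nothing to an edge
      have hw : w = c ∨ w = d := by
        by_contra hcon
        push Not at hcon
        rw [hx, hy, ind_ne hcon.1, ind_ne hcon.2] at hb
        simp at hb
      have hσ1 : σ = 1 := by
        rcases hσ with h | h
        · exact h
        · subst h; rw [hx, hy] at hb
          have := ind_nonneg c w; have := ind_nonneg d w; omega
      subst hσ1
      rcases hw with rfl | rfl
      · refine ⟨d, 1, Or.inl rfl, ?_, Or.inr ⟨w, hc, d, hd, fun z => ?_⟩⟩
        · rw [hx, hy, ind_self]; omega
        · beta_reduce; rw [hx]; ring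
      · refine ⟨c, 1, Or.inl rfl, ?_, Or.inr ⟨c, hc, w, hd, fun z => ?_⟩⟩
        · rw [hx, hy, ind_self]; omega
        · beta_reduce; rw [hx]; ring
  · rcases hy with hy | ⟨c, hc, d, hd, hy⟩
    · have hw : w = a ∨ w = b := by
        by_contra hcon
        push Not at hcon
        rw [hx, hy, ind_ne hcon.1, ind_ne hcon.2] at hb
        simp at hb
      have hσ1 : σ = -1 := by
        rcases hσ with h | h
        · subst h; rw [hx, hy] at hb
          have := ind_nonneg a w; have := ind_nonneg b w; omega
        · exact h
      subst hσ1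
      rcases hw with rfl | rfl
      · refine ⟨b, -1, Or.inr rfl, ?_, Or.inl fun z => ?_⟩
        · rw [hx, hy, ind_self]; omega
        · beta_reduce; rw [hx]; ring
      · refine ⟨a, -1, Or.inr rfl, ?_, Or.inl fun z => ?_⟩
        · rw [hx, hy, ind_self]; omega
        · beta_reduce; rw [hx]; ring
    · -- edge to edge
      have cyc : ∀ p q : V, ind p q = ind q p := by
        intro p q; unfold ind; by_cases h : p = q
        · simp [h]
        · rw [if_neg (fun h' => h h'.symm), if_neg h]
      have val : ∀ p q : V, ind p q = 0 ∨ (ind p q = 1 ∧ p = q) := by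
        intro p q; unfold ind; by_cases h : q = p
        · right; simp [h]
        · left; simp [h]
      rcases hσ with rfl | rfl
      · -- increase w ∈ {c, d}
        have hw : w = c ∨ w = d := by
          by_contra hcon
          push Not at hcon
          rw [hx, hy, ind_ne hcon.1, ind_ne hcon.2] at hb
          have := ind_nonneg a w; have := ind_nonneg b w; omega
        rcases hw with rfl | rfl
        · -- try to replace a
          by_cases hay : y a < x a + ind w a
          · refine ⟨a, -1, Or.inr rfl, by omega, Or.inr ⟨w, hc, b, hbb, fun z => ?_⟩⟩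
            beta_reduce; rw [hx]; ring
          · -- then y = x + ind w - ind b
            rw [hx, hy] at hay
            rw [hx, hy] at hb
            simp only [ind_self] at hay hb
            by_cases hda : d = a
            · subst hda
              simp only [ind_self] at hay hb
              have hbd : b ≠ d := by rintro rfl; simp only [ind_self] at hay; omega
              by_cases hbw : w = b
              · subst hbw; simp only [ind_self] at hb; have := ind_nonneg d w; omega
              · refine ⟨b, -1, Or.inr rfl, ?_, Or.inr ⟨w, hc, d, hd, fun z => ?_⟩⟩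
                · rw [hx, hy]; simp only [ind_self, ind_ne hbd, ind_ne' hbw]; omega
                · beta_reduce; rw [hx]; ring
            · rw [ind_ne' hda] at hay
              have := ind_nonneg b a; omega
        · by_cases hay : y b < x b + ind w b
          · refine ⟨b, -1, Or.inr rfl, by omega, Or.inr ⟨a, ha, w, hd, fun z => ?_⟩⟩
            beta_reduce; rw [hx]; ring
          · rw [hx, hy] at hay
            rw [hx, hy] at hb
            simp only [ind_self] at hay hb
            by_cases hda : c = b
            · subst hda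
              simp only [ind_self] at hay hb
              have hbd : a ≠ c := by rintro rfl; simp only [ind_self] at hay; omega
              by_cases hbw : w = a
              · subst hbw; simp only [ind_self] at hb; have := ind_nonneg c w; omega
              · refine ⟨a, -1, Or.inr rfl, ?_, Or.inr ⟨c, hc, w, hd, fun z => ?_⟩⟩
                · rw [hx, hy]; simp only [ind_self, ind_ne hbd, ind_ne' hbw]; omega
                · beta_reduce; rw [hx]; ring
            · rw [ind_ne' hda] at hay
              have := ind_nonneg a b; omega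
      · -- decrease w ∈ {a, b}
        have hw : w = a ∨ w = b := by
          by_contra hcon
          push Not at hcon
          rw [hx, hy, ind_ne hcon.1, ind_ne hcon.2] at hb
          have := ind_nonneg c w; have := ind_nonneg d w; omega
        rcases hw with rfl | rfl
        · by_cases hay : x c - ind w c < y c
          · refine ⟨c, 1, Or.inl rfl, by omega, Or.inr ⟨c, hc, b, hbb, fun z => ?_⟩⟩
            beta_reduce; rw [hx]; ring
          · rw [hx, hy] at hay
            rw [hx, hy] at hb
            simp only [ind_self] at hay hb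
            by_cases hda : b = c
            · subst hda
              simp only [ind_self] at hay hb
              have hbd : d ≠ b := by rintro rfl; simp only [ind_self] at hay; omega
              by_cases hbw : d = w
              · subst hbw; simp only [ind_self] at hb; have := ind_nonneg b d; omega
              · refine ⟨d, 1, Or.inl rfl, ?_, Or.inr ⟨b, hc, d, hd, fun z => ?_⟩⟩
                · rw [hx, hy]; simp only [ind_self, ind_ne hbd, ind_ne hbw]; omega
                · beta_reduce; rw [hx]; ring
            · rw [ind_ne' hda] at hay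
              have := ind_nonneg d c; omega
        · by_cases hay : x d - ind w d < y d
          · refine ⟨d, 1, Or.inl rfl, by omega, Or.inr ⟨a, ha, d, hd, fun z => ?_⟩⟩
            beta_reduce; rw [hx]; ring
          · rw [hx, hy] at hay
            rw [hx, hy] at hb
            simp only [ind_self] at hay hb
            by_cases hda : a = d
            · subst hda
              simp only [ind_self] at hay hb
              have hbd : c ≠ a := by rintro rfl; simp only [ind_self] at hay; omega
              by_cases hbw : c = w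
              · subst hbw; simp only [ind_self] at hb; have := ind_nonneg a c; omega
              · refine ⟨c, 1, Or.inl rfl, ?_, Or.inr ⟨c, hc, a, hd, fun z => ?_⟩⟩
                · rw [hx, hy]; simp only [ind_self, ind_ne hbd, ind_ne hbw]; omega
                · beta_reduce; rw [hx]; ring
            · rw [ind_ne' hda] at hay
              have := ind_nonneg c d; omega

/-- sums of tokens -/
def Toks : List (List V × List V) → (V → ℤ) → Prop
  | [], f => ∀ z, f z = 0
  | t :: ts, f => SumQ (Toks ts) (TokQ t) f

theorem Toks.js [Fintype V] (ts : List (List V × List V)) : JS (Toks ts) := by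
  induction ts with
  | nil =>
    intro x y hx hy w σ hσ
    exact JS.back hσ hx (by rw [hx, hy]; simp)
  | cons t ts ih => exact ih.sum (TokQ.js t)

theorem Toks.append {ts us : List (List V × List V)} {f : V → ℤ} :
    Toks (ts ++ us) f ↔ ∃ x y, Toks ts x ∧ Toks us y ∧ ∀ z, f z = x z + y z := by
  induction ts generalizing f with
  | nil =>
    constructor
    · intro h; exact ⟨fun _ => 0, f, fun _ => rfl, h, fun z => by ring⟩
    · rintro ⟨x, y, hx, hy, h⟩
      have : f = y := by funext z; rw [h, hx]; ring
      rw [this]; exact hy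
  | cons t ts ih =>
    constructor
    · rintro ⟨x, s, hx, hs, h⟩
      obtain ⟨x1, x2, h1, h2, h3⟩ := ih.1 hx
      exact ⟨fun z => x1 z + s z, x2, ⟨x1, s, h1, hs, fun z => rfl⟩, h2, fun z => by
        rw [h, h3]; ring⟩
    · rintro ⟨x, y, ⟨x1, s, h1, hs, h2⟩, hy, h⟩
      exact ⟨fun z => x1 z + y z, s, ih.2 ⟨x1, y, h1, hy, fun z => rfl⟩, hs, fun z => by
        rw [h, h2]; ring⟩

theorem Toks.nonneg {ts : List (List V × List V)} {f : V → ℤ} (h : Toks ts f) (z : V) :
    0 ≤ f z := by
  induction ts generalizing f with
  | nil => rw [h]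
  | cons t ts ih =>
    obtain ⟨x, s, hx, hs, h⟩ := h
    rw [h]
    have h1 := ih hx
    have h2 : 0 ≤ s z := by
      rcases hs with hs | ⟨a, _, b, _, hs⟩
      · rw [hs]
      · rw [hs]; have := ind_nonneg a z; have := ind_nonneg b z; omega
    omega

/-- the vectors realised by good matchings and tokens -/
def Env (S : Set (Finset (Sym2 V))) (R : Set (Sym2 V)) (ts : List (List V × List V)) :
    (V → ℤ) → Prop := SumQ (BaseQ S R) (Toks ts)

theorem Env.js [Fintype V] {S : Set (Finset (Sym2 V))} (hS : ∀ Z ∈ S, Short Z)
    {R : Set (Sym2 V)} {ts : List (List V × List V)} : JS (Env S R ts) :=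
  (BaseQ.js hS).sum (Toks.js ts)

theorem Env.nonneg {S : Set (Finset (Sym2 V))} {R : Set (Sym2 V)}
    {ts : List (List V × List V)} {f : V → ℤ} (h : Env S R ts f) (z : V) : 0 ≤ f z := by
  obtain ⟨x, s, ⟨M, _, _, hM⟩, hs, h⟩ := h
  have h1 := hs.nonneg z
  have h2 := dg_nonneg M z
  rw [h, ← hM]; omega

end H999
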