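import Pool.Agent.H999_TwoFactor.Basic

/-!
The exchange property of good 2-matchings (degree sequences of simple 2-matchings avoiding a
prescribed family of triangles and 4-cycles form a constant parity jump system), in the form
needed for the uncrossing argument.
-/

namespace H999

open Finset

variable {V : Type*} [DecidableEq V]

theorem swap_dg {M : Finset (Sym2 V)} {u v q : V} (huv : u ≠ v) (hqv : q ≠ v)
    (hM1 : s(u, v) ∉ M) (hq : s(q, v) ∈ M) (z : V) :
    dg (insert s(u, v) (M.erase s(q, v))) z = dg M z + ind u z - ind q z := by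
  rw [dg_insert huv (by simp [hM1]), dg_erase hqv hq]
  omega

theorem ind_le_one (y z : V) : ind y z ≤ 1 := by unfold ind; split_ifs <;> omega
theorem ind_nonneg (y z : V) : 0 ≤ ind y z := by unfold ind; split_ifs <;> omega

theorem good_swap {S : Set (Finset (Sym2 V))} (hS : ∀ Z ∈ S, Short Z) {M : Finset (Sym2 V)}
    (hM : Good S M) {u v q t : V} (huv : u ≠ v) (huq : u ≠ q) (hu : dg M u ≤ 1)
    (hM1 : s(u, v) ∉ M) (hq : s(q, v) ∈ M) (ht : s(q, t) ∈ M) (htv : t ≠ v)
    (key : ∀ Z, Short Z → Z ⊆ insert s(u, v) (M.erase s(q, v)) → s(u, v) ∈ Z → s(q, t) ∈ Z) :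
    Good S (insert s(u, v) (M.erase s(q, v))) := by
  have hqv : q ≠ v := hM.ne hq
  have hd := swap_dg huv hqv hM1 hq
  refine ⟨?_, ?_, ?_⟩
  · intro x y hxy
    rw [Finset.mem_insert] at hxy
    rcases hxy with h | h
    · rw [Sym2.eq_iff] at h
      rcases h with ⟨rfl, rfl⟩ | ⟨rfl, rfl⟩
      · exact huv
      · exact huv.symm
    · exact hM.ne (Finset.mem_of_mem_erase h)
  · intro z
    rw [hd]
    have h1 := hM.deg z
    have h2 := ind_nonneg q z
    by_cases hz : z = u
    · subst hz; rw [ind_self]; omega
    · rw [ind_ne hz]; omega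
  · intro Z hZS hZ
    have hZs := hS Z hZS
    by_cases huvZ : s(u, v) ∈ Z
    · have h1 := key Z hZs hZ huvZ
      obtain ⟨z, hz, hzZ⟩ := hZs.next h1
      have h2 := hZ hzZ
      rw [Finset.mem_insert] at h2
      rcases h2 with h2 | h2
      · rw [Sym2.eq_iff] at h2
        rcases h2 with ⟨h3, _⟩ | ⟨h3, _⟩
        · exact huq h3.symm
        · exact hqv h3
      · rw [Finset.mem_erase] at h2
        rcases three (hM.deg q) ht hq h2.2 with h3 | h3 | h3
        · exact htv h3
        · exact hz h3.symm
        · exact h2.1 (by rw [← h3])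
    · refine hM.free Z hZS (fun e he => ?_)
      have h1 := hZ he
      rw [Finset.mem_insert] at h1
      rcases h1 with rfl | h1
      · exact absurd he huvZ
      · exact Finset.mem_of_mem_erase h1

/-- the basic move along an edge `uv` of `N` missing in `M` -/
theorem step_blue {S : Set (Finset (Sym2 V))} (hS : ∀ Z ∈ S, Short Z) {M N : Finset (Sym2 V)}
    (hM : Good S M) (hN : Good S N) {x : V → ℤ} {u v : V}
    (hx : ∀ z, dg M z = x z - ind u z) (hu : dg M u ≤ 1) (hN1 : s(u, v) ∈ N)
    (hM1 : s(u, v) ∉ M) :
    (∃ M1, Good S M1 ∧ M1 ⊆ M ∪ N ∧ dst M1 N < dst M N ∧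
       ∃ (σ : ℤ) (w : V), (σ = 1 ∨ σ = -1) ∧ ∀ z, dg M1 z = x z + σ * ind w z) ∨
    (∃ q, s(u, q) ∈ M ∧ s(q, v) ∈ M ∧ s(q, v) ∈ N ∧ tri u v q ∈ S ∧ u ≠ q ∧ v ≠ q) ∨
    (∃ q r, s(u, r) ∈ M ∧ s(r, q) ∈ M ∧ s(q, v) ∈ M ∧ s(q, v) ∈ N ∧ quad u v q r ∈ S ∧
        u ≠ q ∧ u ≠ r ∧ v ≠ q ∧ v ≠ r ∧ q ≠ r) := by
  have huv : u ≠ v := hN.ne hN1
  -- once a member of `S` is found using the edge `uv` and otherwise edges of `M`
  have fin : ∀ Z ∈ S, s(u, v) ∈ Z → (∀ e ∈ Z, e ≠ s(u, v) → e ∈ M) →
      ((∃ M1, Good S M1 ∧ M1 ⊆ M ∪ N ∧ dst M1 N < dst M N ∧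
       ∃ (σ : ℤ) (w : V), (σ = 1 ∨ σ = -1) ∧ ∀ z, dg M1 z = x z + σ * ind w z) ∨
    (∃ q, s(u, q) ∈ M ∧ s(q, v) ∈ M ∧ s(q, v) ∈ N ∧ tri u v q ∈ S ∧ u ≠ q ∧ v ≠ q) ∨
    (∃ q r, s(u, r) ∈ M ∧ s(r, q) ∈ M ∧ s(q, v) ∈ M ∧ s(q, v) ∈ N ∧ quad u v q r ∈ S ∧
        u ≠ q ∧ u ≠ r ∧ v ≠ q ∧ v ≠ r ∧ q ≠ r)) := by
    intro Z hZS huvZ hZM
    have hsub : ∀ q, insert s(u, v) (M.erase s(q, v)) ⊆ M ∪ N := by
      intro q e he
      rw [Finset.mem_insert] at he
      rw [Finset.mem_union]
      rcases he with rfl | he
      · exact Or.inr hN1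
      · exact Or.inl (Finset.mem_of_mem_erase he)
    have hdst : ∀ q, s(q, v) ∈ M → s(q, v) ∉ N →
        dst (insert s(u, v) (M.erase s(q, v))) N < dst M N := by
      intro q h1 h2
      have h3 := dst_erase_red h1 h2
      have h4 := dst_insert_blue (M := M.erase s(q, v)) hN1 (by simp [hM1])
      omega
    rcases (hS Z hZS).at_edge huvZ with ⟨q, _, h2, h3, rfl⟩ | ⟨q, r, _, h2, h3, h4, h5, h6, rfl⟩
    · have hvq : s(q, v) ∈ M := by
        apply hZM
        · rw [mem_tri]; right; left; exact Sym2.eq_swap
        · intro h; rw [Sym2.eq_iff] at h; rcases h with ⟨h, _⟩ | ⟨h, _⟩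
          · exact h2 h.symm
          · exact h3 h.symm
      have hqu : s(q, u) ∈ M := by
        apply hZM
        · rw [mem_tri]; right; right; rfl
        · intro h; rw [Sym2.eq_iff] at h; rcases h with ⟨h, _⟩ | ⟨h, _⟩
          · exact h2 h.symm
          · exact h3 h.symm
      by_cases hqN : s(q, v) ∈ N
      · right; left
        exact ⟨q, by rw [Sym2.eq_swap]; exact hqu, hvq, hqN, hZS, h2, h3⟩
      · left
        refine ⟨insert s(u, v) (M.erase s(q, v)), ?_, hsub q, hdst q hvq hqN, -1, q,
          Or.inr rfl, ?_⟩
        · refine good_swap hS hM huv h2 hu hM1 hvq hqu huv ?_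
          intro Z' hZ's hZ' h7
          have h8 : dg (insert s(u, v) (M.erase s(q, v))) u ≤ 2 := by
            rw [swap_dg huv h3.symm hM1 hvq, ind_self, ind_ne h2]; omega
          rw [Sym2.eq_swap]
          refine hZ's.closure hZ' h8 h7 ?_
          rw [Finset.mem_insert, Finset.mem_erase]
          right
          refine ⟨?_, by rw [Sym2.eq_swap]; exact hqu⟩
          intro h; rw [Sym2.eq_iff] at h; rcases h with ⟨h, _⟩ | ⟨h, _⟩
          · exact h2 h
          · exact huv h
        · intro z
          rw [swap_dg huv h3.symm hM1 hvq, hx]; omega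
    · have hvq : s(q, v) ∈ M := by
        apply hZM
        · rw [mem_quad]; right; left; exact Sym2.eq_swap
        · intro h; rw [Sym2.eq_iff] at h; rcases h with ⟨h, _⟩ | ⟨h, _⟩
          · exact h2 h.symm
          · exact h4 h.symm
      have hqr : s(q, r) ∈ M := by
        apply hZM
        · rw [mem_quad]; right; right; left; rfl
        · intro h; rw [Sym2.eq_iff] at h; rcases h with ⟨h, _⟩ | ⟨h, _⟩
          · exact h2 h.symm
          · exact h4 h.symm
      have hru : s(r, u) ∈ M := by
        apply hZM
        · rw [mem_quad]; right; right; right; rfl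
        · intro h; rw [Sym2.eq_iff] at h; rcases h with ⟨h, _⟩ | ⟨h, _⟩
          · exact h3 h.symm
          · exact h5 h.symm
      by_cases hqN : s(q, v) ∈ N
      · right; right
        exact ⟨q, r, by rw [Sym2.eq_swap]; exact hru, by rw [Sym2.eq_swap]; exact hqr, hvq, hqN,
          hZS, h2, h3, h4, h5, h6⟩
      · left
        refine ⟨insert s(u, v) (M.erase s(q, v)), ?_, hsub q, hdst q hvq hqN, -1, q,
          Or.inr rfl, ?_⟩
        · refine good_swap hS hM huv h2 hu hM1 hvq hqr h5.symm ?_
          intro Z' hZ's hZ' h7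
          have h8 : ∀ z, dg (insert s(u, v) (M.erase s(q, v))) z ≤ 2 := by
            intro z
            rw [swap_dg huv h4.symm hM1 hvq]
            have h9 := hM.deg z
            have h10 := ind_nonneg q z
            by_cases hz : z = u
            · subst hz; rw [ind_self]; omega
            · rw [ind_ne hz]; omega
          have h11 : s(u, r) ∈ Z' := by
            refine hZ's.closure hZ' (h8 u) h7 ?_
            rw [Finset.mem_insert, Finset.mem_erase]
            right
            refine ⟨?_, by rw [Sym2.eq_swap]; exact hru⟩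
            intro h; rw [Sym2.eq_iff] at h; rcases h with ⟨h, _⟩ | ⟨h, _⟩
            · exact h2 h
            · exact huv h
          rw [Sym2.eq_swap]
          rw [Sym2.eq_swap] at h11
          refine hZ's.closure hZ' (h8 r) h11 ?_
          rw [Finset.mem_insert, Finset.mem_erase]
          right
          refine ⟨?_, by rw [Sym2.eq_swap]; exact hqr⟩
          intro h; rw [Sym2.eq_iff] at h; rcases h with ⟨h, _⟩ | ⟨h, _⟩
          · exact h6 h.symm
          · exact h5 h.symm
        · intro z
          rw [swap_dg huv h4.symm hM1 hvq, hx]; omega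
  by_cases hv : dg M v ≤ 1
  · by_cases hfree : ∀ Z ∈ S, ¬ Z ⊆ insert s(u, v) M
    · left
      refine ⟨insert s(u, v) M, ⟨?_, ?_, hfree⟩, ?_, ?_, 1, v, Or.inl rfl, ?_⟩
      · intro a b hab
        rw [Finset.mem_insert] at hab
        rcases hab with h | h
        · rw [Sym2.eq_iff] at h
          rcases h with ⟨rfl, rfl⟩ | ⟨rfl, rfl⟩
          · exact huv
          · exact huv.symm
        · exact hM.ne h
      · intro z
        rw [dg_insert huv hM1]
        have h1 := hM.deg z
        by_cases hz : z = u
        · subst hz; rw [ind_self, ind_ne huv]; omega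
        · by_cases hz' : z = v
          · subst hz'; rw [ind_self, ind_ne hz]; omega
          · rw [ind_ne hz, ind_ne hz']; omega
      · intro e he
        rw [Finset.mem_insert] at he
        rw [Finset.mem_union]
        rcases he with rfl | he
        · exact Or.inr hN1
        · exact Or.inl he
      · have := dst_insert_blue hN1 hM1
        omega
      · intro z
        rw [dg_insert huv hM1, hx]; omega
    · push Not at hfree
      obtain ⟨Z, hZS, hZ⟩ := hfree
      apply fin Z hZS
      · by_contra h
        refine hM.free Z hZS (fun e he => ?_)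
        rcases Finset.mem_insert.1 (hZ he) with rfl | h1
        · exact absurd he h
        · exact h1
      · intro e he hne
        exact (Finset.mem_insert.1 (hZ he)).resolve_left hne
  · -- a red edge at `v`
    have h0 : dg (N.erase s(u, v)) v < dg M v := by
      rw [dg_erase huv hN1, ind_self]
      have h1 := hN.deg v
      have h2 := ind_nonneg u v
      omega
    obtain ⟨p, hp1, hp2⟩ := exists_of_dg_lt h0
    have hpN : s(v, p) ∉ N := by
      intro h
      apply hp2
      rw [Finset.mem_erase]
      refine ⟨?_, h⟩
      intro h1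
      rw [h1] at hp1
      exact hM1 hp1
    have hvp : v ≠ p := hM.ne hp1
    have hp1' : s(p, v) ∈ M := by rw [Sym2.eq_swap]; exact hp1
    have hpN' : s(p, v) ∉ N := by rw [Sym2.eq_swap]; exact hpN
    have hd := swap_dg huv hvp.symm hM1 hp1'
    by_cases hfree : ∀ Z ∈ S, ¬ Z ⊆ insert s(u, v) (M.erase s(p, v))
    · left
      refine ⟨insert s(u, v) (M.erase s(p, v)), ⟨?_, ?_, hfree⟩, ?_, ?_, -1, p, Or.inr rfl, ?_⟩
      · intro a b hab
        rw [Finset.mem_insert] at hab
        rcases hab with h | h
        · rw [Sym2.eq_iff] at h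
          rcases h with ⟨rfl, rfl⟩ | ⟨rfl, rfl⟩
          · exact huv
          · exact huv.symm
        · exact hM.ne (Finset.mem_of_mem_erase h)
      · intro z
        rw [hd]
        have h1 := hM.deg z
        have h2 := ind_nonneg p z
        by_cases hz : z = u
        · subst hz; rw [ind_self]; omega
        · rw [ind_ne hz]; omega
      · intro e he
        rw [Finset.mem_insert] at he
        rw [Finset.mem_union]
        rcases he with rfl | he
        · exact Or.inr hN1
        · exact Or.inl (Finset.mem_of_mem_erase he)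
      · have h3 := dst_erase_red hp1' hpN'
        have h4 := dst_insert_blue (M := M.erase s(p, v)) hN1 (by simp [hM1])
        omega
      · intro z
        rw [hd, hx]; omega
    · push Not at hfree
      obtain ⟨Z, hZS, hZ⟩ := hfree
      apply fin Z hZS
      · by_contra h
        refine hM.free Z hZS (fun e he => ?_)
        rcases Finset.mem_insert.1 (hZ he) with rfl | h1
        · exact absurd he h
        · exact Finset.mem_of_mem_erase h1
      · intro e he hne
        exact Finset.mem_of_mem_erase ((Finset.mem_insert.1 (hZ he)).resolve_left hne)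

/-- adding the last edge of a path `v u r q c` -/
theorem good_path {S : Set (Finset (Sym2 V))} (hS : ∀ Z ∈ S, Short Z) {B : Finset (Sym2 V)}
    (hB : Good S B) {u v q r c : V} (huv : s(u, v) ∈ B) (hru : s(r, u) ∈ B) (hqr : s(q, r) ∈ B)
    (hqc : s(q, c) ∉ B) (hq : dg B q ≤ 1) (hc : dg B c ≤ 1) (h1 : q ≠ c) (h2 : c ≠ r)
    (h3 : c ≠ u) (h4 : c ≠ v) (h5 : q ≠ u) (h6 : v ≠ q) (h7 : v ≠ r) :
    Good S (insert s(q, c) B) := by
  have hdeg : ∀ z, dg (insert s(q, c) B) z ≤ 2 := by
    intro z
    rw [dg_insert h1 hqc]
    have h8 := hB.deg z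
    by_cases hz : z = q
    · subst hz; rw [ind_self, ind_ne h1]; omega
    · by_cases hz' : z = c
      · subst hz'; rw [ind_self, ind_ne hz]; omega
      · rw [ind_ne hz, ind_ne hz']; omega
  refine ⟨?_, hdeg, ?_⟩
  · intro a b hab
    rw [Finset.mem_insert] at hab
    rcases hab with h | h
    · rw [Sym2.eq_iff] at h
      rcases h with ⟨rfl, rfl⟩ | ⟨rfl, rfl⟩
      · exact h1
      · exact h1.symm
    · exact hB.ne h
  · intro Z hZS hZ
    have hZs := hS Z hZS
    by_cases hZc : s(q, c) ∈ Z
    · have e1 : s(q, r) ∈ Z := hZs.closure hZ (hdeg q) hZc (Finset.mem_insert_of_mem hqr)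
      have e2 : s(r, u) ∈ Z := by
        refine hZs.closure hZ (hdeg r) (y := q) ?_ (Finset.mem_insert_of_mem hru)
        rw [Sym2.eq_swap]; exact e1
      have e3 : s(u, v) ∈ Z := by
        refine hZs.closure hZ (hdeg u) (y := r) ?_ (Finset.mem_insert_of_mem huv)
        rw [Sym2.eq_swap]; exact e2
      have hcq : s(c, q) ∈ Z := by rw [Sym2.eq_swap]; exact hZc
      have e4 := hZs.path3 hcq e1 e2 h2 h5 h3
      rw [e4, mem_quad] at e3
      have hru' := hB.ne hru
      have huv' := hB.ne huv
      rcases e3 with h | h | h | h <;> rw [Sym2.eq_iff] at h <;> rcases h with ⟨h, h'⟩ | ⟨h, h'⟩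
      · exact h3 h.symm
      · exact h5 h.symm
      · exact h5 h.symm
      · exact h6 h'
      · exact hru' h.symm
      · exact h7 h'
      · exact h4 h'.symm
      · exact h3 h.symm
    · refine hB.free Z hZS (fun e he => ?_)
      rcases Finset.mem_insert.1 (hZ he) with rfl | h8
      · exact absurd he hZc
      · exact h8

/-- the exchange property -/
theorem exch {S : Set (Finset (Sym2 V))} (hS : ∀ Z ∈ S, Short Z) {N : Finset (Sym2 V)}
    (hN : Good S N) : ∀ (n : ℕ) (M : Finset (Sym2 V)) (x : V → ℤ) (w : V) (σ : ℤ),
    dst M N = n → Good S M → (σ = 1 ∨ σ = -1) → (∀ z, dg M z = x z + σ * ind w z) →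
    ∃ M', Good S M' ∧ M' ⊆ M ∪ N ∧ ∃ (τ : ℤ) (v : V), (τ = 1 ∨ τ = -1) ∧
      (∀ z, dg M' z = x z + τ * ind v z) ∧ 0 < τ * (dg N v - x v) := by
  intro n
  induction n using Nat.strong_induction_on with
  | _ n ih =>
  intro M x u σ hn hM hσ hx
  have IH : ∀ M1, Good S M1 → M1 ⊆ M ∪ N → dst M1 N < dst M N →
      (∃ (σ : ℤ) (w : V), (σ = 1 ∨ σ = -1) ∧ ∀ z, dg M1 z = x z + σ * ind w z) →
      ∃ M', Good S M' ∧ M' ⊆ M ∪ N ∧ ∃ (τ : ℤ) (v : V), (τ = 1 ∨ τ = -1) ∧
      (∀ z, dg M' z = x z + τ * ind v z) ∧ 0 < τ * (dg N v - x v) := by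
    rintro M1 h1 h2 h3 ⟨σ', w', h4, h5⟩
    obtain ⟨M', h6, h7, h8⟩ := ih (dst M1 N) (by omega) M1 x w' σ' rfl h1 h4 h5
    exact ⟨M', h6, h7.trans (Finset.union_subset h2 Finset.subset_union_right), h8⟩
  by_cases hval : 0 < σ * (dg N u - x u)
  · exact ⟨M, hM, Finset.subset_union_left, σ, u, hσ, hx, hval⟩
  rcases hσ with rfl | rfl
  · have h1 : dg N u < dg M u := by rw [hx, ind_self]; omega
    obtain ⟨y, hy1, hy2⟩ := exists_of_dg_lt h1
    have hwy := hM.ne hy1
    refine IH (M.erase s(u, y)) (hM.mono (Finset.erase_subset _ _))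
      ((Finset.erase_subset _ _).trans Finset.subset_union_left) ?_
      ⟨-1, y, Or.inr rfl, fun z => by rw [dg_erase hwy hy1, hx]; omega⟩
    have := dst_erase_red hy1 hy2
    omega
  · have hxu := hx u
    rw [ind_self] at hxu
    have h1 : dg M u < dg N u := by omega
    have hu : dg M u ≤ 1 := by have := hN.deg u; omega
    have hx' : ∀ z, dg M z = x z - ind u z := fun z => by rw [hx]; omega
    obtain ⟨v, hv1, hv2⟩ := exists_of_dg_lt h1
    have huv : u ≠ v := hN.ne hv1
    rcases step_blue hS hM hN hx' hu hv1 hv2 with ⟨M1, h2, h3, h4, h5⟩ |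
      ⟨q, huq, hqv, hqvN, hZS, h2, h3⟩ |
      ⟨q, r, hur, hrq, hqv, hqvN, hZS, h2, h3, h4, h5, h6⟩
    · exact IH M1 h2 h3 h4 h5
    · -- a triangle
      have huqN : s(u, q) ∉ N := by
        intro h
        refine hN.free _ hZS (fun e he => ?_)
        rw [mem_tri] at he
        rcases he with rfl | rfl | rfl
        · exact hv1
        · rw [Sym2.eq_swap]; exact hqvN
        · rw [Sym2.eq_swap]; exact h
      have hN2 : 2 ≤ dg N u := by have := one_le_dg huq; omega
      obtain ⟨a, hav, ha⟩ := exists_other (a := v) hN2
      have haq : a ≠ q := by rintro rfl; exact huqN ha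
      have hua : u ≠ a := hN.ne ha
      have haM : s(u, a) ∉ M := fun h => haq (two hu h huq)
      rcases step_blue hS hM hN hx' hu ha haM with ⟨M1, g2, g3, g4, g5⟩ |
        ⟨q', guq, gqv, gqvN, gZS, g2, g3⟩ |
        ⟨q', r', gur, grq, gqv, gqvN, gZS, g2, g3, g4, g5, g6⟩
      · exact IH M1 g2 g3 g4 g5
      · exfalso
        have e1 := two hu guq huq
        subst e1
        have e2 : s(q', u) ∈ M := by rw [Sym2.eq_swap]; exact guq
        rcases three (hM.deg q') e2 hqv gqv with e | e | e
        · exact huv e
        · exact hua e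
        · exact hav e.symm
      · exfalso
        have e1 := two hu gur huq
        subst e1
        have e2 : s(r', u) ∈ M := by rw [Sym2.eq_swap]; exact gur
        rcases three (hM.deg r') e2 hqv grq with e | e | e
        · exact huv e
        · exact g2 e
        · subst e
          have e3 : s(v, u) ∈ N := by rw [Sym2.eq_swap]; exact hv1
          have e4 : s(v, r') ∈ N := by rw [Sym2.eq_swap]; exact hqvN
          rcases three (hN.deg v) e3 e4 gqvN with e | e | e
          · exact h2 e
          · exact hua e
          · exact haq e.symm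
    · -- a 4-cycle
      have hru : s(r, u) ∈ M := by rw [Sym2.eq_swap]; exact hur
      have hqr : s(q, r) ∈ M := by rw [Sym2.eq_swap]; exact hrq
      have hM2 : Good S (insert s(u, v) (M.erase s(q, v))) := by
        refine good_swap hS hM huv h2 hu hv2 hqv hqr h5.symm ?_
        intro Z' hZ's hZ' h7
        have h8 : ∀ z, dg (insert s(u, v) (M.erase s(q, v))) z ≤ 2 := by
          intro z
          rw [swap_dg huv h4.symm hv2 hqv]
          have h9 := hM.deg z
          have h10 := ind_nonneg q z
          by_cases hz : z = u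
          · subst hz; rw [ind_self]; omega
          · rw [ind_ne hz]; omega
        have h11 : s(u, r) ∈ Z' := by
          refine hZ's.closure hZ' (h8 u) h7 ?_
          rw [Finset.mem_insert, Finset.mem_erase]
          right
          refine ⟨?_, hur⟩
          intro h; rw [Sym2.eq_iff] at h; rcases h with ⟨h, _⟩ | ⟨h, _⟩
          · exact h2 h
          · exact huv h
        rw [Sym2.eq_swap]
        rw [Sym2.eq_swap] at h11
        refine hZ's.closure hZ' (h8 r) h11 ?_
        rw [Finset.mem_insert, Finset.mem_erase]
        right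
        refine ⟨?_, hrq⟩
        intro h; rw [Sym2.eq_iff] at h; rcases h with ⟨h, _⟩ | ⟨h, _⟩
        · exact h6 h.symm
        · exact h5 h.symm
      have hd2 := swap_dg huv h4.symm hv2 hqv
      have hsub2 : insert s(u, v) (M.erase s(q, v)) ⊆ M ∪ N := by
        intro e he
        rw [Finset.mem_insert] at he
        rw [Finset.mem_union]
        rcases he with rfl | he
        · exact Or.inr hv1
        · exact Or.inl (Finset.mem_of_mem_erase he)
      by_cases hurN : s(u, r) ∈ N
      · have hrqN : s(r, q) ∉ N := by
          intro h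
          refine hN.free _ hZS (fun e he => ?_)
          rw [mem_quad] at he
          rcases he with rfl | rfl | rfl | rfl
          · exact hv1
          · rw [Sym2.eq_swap]; exact hqvN
          · rw [Sym2.eq_swap]; exact h
          · rw [Sym2.eq_swap]; exact hurN
        by_cases hqN : dg N q ≤ 1
        · refine ⟨_, hM2, hsub2, -1, q, Or.inr rfl, fun z => ?_, ?_⟩
          · rw [hd2, hx']; omega
          · have g1 := two_le_dg h5.symm hqr hqv
            have g2 := hx' q
            rw [ind_ne' h2] at g2
            omega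
        · obtain ⟨c, hcv, hc⟩ := exists_other (N := N) (v := q) (a := v) (by omega)
          have hqc : q ≠ c := hN.ne hc
          have hcr : c ≠ r := by
            rintro rfl
            exact hrqN (by rw [Sym2.eq_swap]; exact hc)
          have hcu : c ≠ u := by
            rintro rfl
            have g1 : s(c, q) ∈ N := by rw [Sym2.eq_swap]; exact hc
            rcases three (hN.deg c) hv1 hurN g1 with e | e | e
            · exact h5 e
            · exact h4 e
            · exact h6 e.symm
          have hcM : s(q, c) ∉ M := by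
            intro g1
            rcases three (hM.deg q) hqr hqv g1 with e | e | e
            · exact h5 e.symm
            · exact hcr e.symm
            · exact hcv e.symm
          have hcM2 : s(q, c) ∉ insert s(u, v) (M.erase s(q, v)) := by
            intro g1
            rcases Finset.mem_insert.1 g1 with g1 | g1
            · rw [Sym2.eq_iff] at g1
              rcases g1 with ⟨g1, _⟩ | ⟨g1, _⟩
              · exact h2 g1.symm
              · exact h4 g1.symm
            · exact hcM (Finset.mem_of_mem_erase g1)
          have hq2 : dg (insert s(u, v) (M.erase s(q, v))) q ≤ 1 := by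
            rw [hd2, ind_self, ind_ne' h2]
            have := hM.deg q
            omega
          have m1 : s(u, v) ∈ insert s(u, v) (M.erase s(q, v)) := Finset.mem_insert_self _ _
          have m2 : s(r, u) ∈ insert s(u, v) (M.erase s(q, v)) := by
            apply Finset.mem_insert_of_mem
            rw [Finset.mem_erase]
            refine ⟨?_, hru⟩
            intro h; rw [Sym2.eq_iff] at h; rcases h with ⟨h, _⟩ | ⟨h, _⟩
            · exact h6 h.symm
            · exact h5 h.symm
          have m3 : s(q, r) ∈ insert s(u, v) (M.erase s(q, v)) := by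
            apply Finset.mem_insert_of_mem
            rw [Finset.mem_erase]
            refine ⟨?_, hqr⟩
            intro h; rw [Sym2.eq_iff] at h; rcases h with ⟨_, h⟩ | ⟨h, _⟩
            · exact h5 h.symm
            · exact h4 h.symm
          have d1 := dst_erase_common hqv hqvN
          have d2 := dst_insert_blue (M := M.erase s(q, v)) hv1 (by simp [hv2])
          by_cases hcd : dg M c ≤ 1
          · refine IH (insert s(q, c) (insert s(u, v) (M.erase s(q, v)))) ?_ ?_ ?_
              ⟨1, c, Or.inl rfl, fun z => ?_⟩
            · refine good_path hS hM2 m1 m2 m3 hcM2 hq2 ?_ hqc hcr hcu hcv h2.symm h4 h5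
              rw [hd2, ind_ne hcu, ind_ne hqc.symm]; omega
            · intro e he
              rcases Finset.mem_insert.1 he with rfl | he
              · exact Finset.mem_union_right _ hc
              · exact hsub2 he
            · have d3 := dst_insert_blue hc hcM2
              omega
            · rw [dg_insert hqc hcM2, hd2, hx']; omega
          · -- a red edge at `c`
            have g0 : dg (N.erase s(q, c)) c < dg M c := by
              rw [dg_erase hqc hc, ind_self]
              have g1 := hN.deg c
              have g2 := ind_nonneg q c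
              omega
            obtain ⟨p, hp1, hp2⟩ := exists_of_dg_lt g0
            have hpN : s(c, p) ∉ N := by
              intro h
              apply hp2
              rw [Finset.mem_erase]
              refine ⟨?_, h⟩
              intro g1
              rw [g1] at hp1
              exact hcM hp1
            have hcp : c ≠ p := hM.ne hp1
            have hne : ∀ {a b : V}, c ≠ a → c ≠ b → s(a, b) ≠ s(c, p) := by
              intro a b g1 g2 g3
              rw [Sym2.eq_iff] at g3
              rcases g3 with ⟨g3, _⟩ | ⟨_, g3⟩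
              · exact g1 g3.symm
              · exact g2 g3.symm
            have hpM2 : s(c, p) ∈ insert s(u, v) (M.erase s(q, v)) := by
              apply Finset.mem_insert_of_mem
              rw [Finset.mem_erase]
              exact ⟨(hne hqc.symm hcv).symm, hp1⟩
            have hcM3 : s(q, c) ∉ (insert s(u, v) (M.erase s(q, v))).erase s(c, p) :=
              fun h => hcM2 (Finset.mem_of_mem_erase h)
            have hd3 := dg_erase hcp hpM2
            refine IH (insert s(q, c) ((insert s(u, v) (M.erase s(q, v))).erase s(c, p))) ?_ ?_ ?_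
              ⟨-1, p, Or.inr rfl, fun z => ?_⟩
            · refine good_path hS (hM2.mono (Finset.erase_subset _ _)) (v := v) (u := u) (r := r)
                ?_ ?_ ?_ hcM3 ?_ ?_ hqc hcr hcu hcv h2.symm h4 h5
              · exact Finset.mem_erase.2 ⟨hne hcu hcv, m1⟩
              · exact Finset.mem_erase.2 ⟨hne hcr hcu, m2⟩
              · exact Finset.mem_erase.2 ⟨hne hqc.symm hcr, m3⟩
              · rw [hd3]
                have := ind_nonneg c q
                have := ind_nonneg p q
                omega
              · rw [hd3, hd2, ind_ne hcu, ind_ne hqc.symm, ind_self]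
                have := ind_nonneg p c
                have := hM.deg c
                omega
            · intro e he
              rcases Finset.mem_insert.1 he with rfl | he
              · exact Finset.mem_union_right _ hc
              · exact hsub2 (Finset.mem_of_mem_erase he)
            · have d3 := dst_erase_red hpM2 hpN
              have d4 := dst_insert_blue hc hcM3
              omega
            · rw [dg_insert hqc hcM3, hd3, hd2, hx']; omega
      · have hN2 : 2 ≤ dg N u := by have := one_le_dg hur; omega
        obtain ⟨a, hav, ha⟩ := exists_other (a := v) hN2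
        have har : a ≠ r := by rintro rfl; exact hurN ha
        have hua : u ≠ a := hN.ne ha
        have haM : s(u, a) ∉ M := fun h => har (two hu h hur)
        rcases step_blue hS hM hN hx' hu ha haM with ⟨M1, g2, g3, g4, g5⟩ |
          ⟨q', guq, gqv, gqvN, gZS, g2, g3⟩ |
          ⟨q', r', gur, grq, gqv, gqvN, gZS, g2, g3, g4, g5, g6⟩
        · exact IH M1 g2 g3 g4 g5
        · exfalso
          have e1 := two hu guq hur
          subst e1
          rcases three (hM.deg q') hru hrq gqv with e | e | e
          · exact h2 e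
          · exact hua e
          · subst e
            have e3 : s(q, u) ∈ N := by rw [Sym2.eq_swap]; exact ha
            have e4 : s(q, q') ∈ N := by rw [Sym2.eq_swap]; exact gqvN
            rcases three (hN.deg q) hqvN e3 e4 with e | e | e
            · exact huv e.symm
            · exact h5 e
            · exact h3 e
        · exfalso
          have e1 := two hu gur hur
          subst e1
          rcases three (hM.deg r') hru hrq grq with e | e | e
          · exact h2 e
          · exact g2 e
          · subst e
            rcases three (hM.deg q) hqr hqv gqv with e | e | e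
            · exact h5 e.symm
            · exact har e.symm
            · exact hav e.symm

end H999
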