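import Pool.Agent.H999_TwoFactor.Complete

/-!
The jump system step in four coordinates, and the derivations of safe deficit vectors.
-/

namespace H999

open Finset

set_option linter.unusedSectionVars false
set_option linter.unusedVariables false

variable {V : Type*} [DecidableEq V]

/-- there is a good matching inside `R` with degrees `B` minus the deficits `p q r s` at
`c d e f` -/
def JD (S : Set (Finset (Sym2 V))) (R : Finset (Sym2 V)) (B : V → ℤ) (c d e f : V)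
    (p q r s : ℤ) : Prop :=
  ∃ M, Good S M ∧ M ⊆ R ∧
    ∀ z, dg M z = B z - p * ind c z - q * ind d z - r * ind e z - s * ind f z

/-- the step axiom in the first coordinate -/
def Step1 (P : ℤ → ℤ → ℤ → ℤ → Prop) : Prop :=
  ∀ p q r s p' q' r' s' : ℤ, P p q r s → P p' q' r' s' → ∀ σ : ℤ, (σ = 1 ∨ σ = -1) →
    (∃ τ : ℤ, (τ = 1 ∨ τ = -1) ∧ 0 < τ * (p' - (p + σ)) ∧ P (p + σ + τ) q r s) ∨
    (∃ τ : ℤ, (τ = 1 ∨ τ = -1) ∧ 0 < τ * (q' - q) ∧ P (p + σ) (q + τ) r s) ∨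
    (∃ τ : ℤ, (τ = 1 ∨ τ = -1) ∧ 0 < τ * (r' - r) ∧ P (p + σ) q (r + τ) s) ∨
    (∃ τ : ℤ, (τ = 1 ∨ τ = -1) ∧ 0 < τ * (s' - s) ∧ P (p + σ) q r (s + τ))

theorem JD.step {S : Set (Finset (Sym2 V))} (hS : ∀ Z ∈ S, Short Z) {R : Finset (Sym2 V)}
    {B : V → ℤ} {c d e f : V} (hcd : c ≠ d) (hce : c ≠ e) (hcf : c ≠ f) (hde : d ≠ e)
    (hdf : d ≠ f) (hef : e ≠ f) : Step1 (JD S R B c d e f) := by
  rintro p q r s p' q' r' s' ⟨M, hM, hMR, hd1⟩ ⟨M', hM', hMR', hd2⟩ σ hσ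
  obtain ⟨M'', h1, h2, τ, v, hτ, h3, h4⟩ := exch hS hM' (dst M M') M
    (fun z => B z - (p + σ) * ind c z - q * ind d z - r * ind e z - s * ind f z) c σ rfl hM hσ
    (fun z => by rw [hd1]; ring)
  have h5 : M'' ⊆ R := h2.trans (Finset.union_subset hMR hMR')
  simp only [hd2] at h4
  have hτ' : -τ = 1 ∨ -τ = -1 := by rcases hτ with h | h <;> omega
  by_cases hc : v = c
  · subst hc
    left
    refine ⟨-τ, hτ', ?_, M'', h1, h5, fun z => ?_⟩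
    · rw [ind_self, ind_ne hcd, ind_ne hce, ind_ne hcf] at h4
      rcases hτ with rfl | rfl <;> omega
    · rw [h3]; ring
  by_cases hd : v = d
  · subst hd
    right; left
    refine ⟨-τ, hτ', ?_, M'', h1, h5, fun z => ?_⟩
    · rw [ind_self, ind_ne hc, ind_ne hde, ind_ne hdf] at h4
      rcases hτ with rfl | rfl <;> omega
    · rw [h3]; ring
  by_cases he : v = e
  · subst he
    right; right; left
    refine ⟨-τ, hτ', ?_, M'', h1, h5, fun z => ?_⟩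
    · rw [ind_self, ind_ne hc, ind_ne hd, ind_ne hef] at h4
      rcases hτ with rfl | rfl <;> omega
    · rw [h3]; ring
  by_cases hf : v = f
  · subst hf
    right; right; right
    refine ⟨-τ, hτ', ?_, M'', h1, h5, fun z => ?_⟩
    · rw [ind_self, ind_ne hc, ind_ne hd, ind_ne he] at h4
      rcases hτ with rfl | rfl <;> omega
    · rw [h3]; ring
  · exfalso
    rw [ind_ne hc, ind_ne hd, ind_ne he, ind_ne hf] at h4
    rcases hτ with rfl | rfl <;> omega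

theorem JD.perm2 {S : Set (Finset (Sym2 V))} {R : Finset (Sym2 V)}
    {B : V → ℤ} {c d e f : V} {p q r s : ℤ} :
    JD S R B c d e f p q r s ↔ JD S R B d c e f q p r s := by
  unfold JD
  constructor <;> rintro ⟨M, h1, h2, h3⟩ <;> exact ⟨M, h1, h2, fun z => by rw [h3]; ring⟩

theorem JD.perm3 {S : Set (Finset (Sym2 V))} {R : Finset (Sym2 V)}
    {B : V → ℤ} {c d e f : V} {p q r s : ℤ} :
    JD S R B c d e f p q r s ↔ JD S R B e d c f r q p s := by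
  unfold JD
  constructor <;> rintro ⟨M, h1, h2, h3⟩ <;> exact ⟨M, h1, h2, fun z => by rw [h3]; ring⟩

theorem JD.perm4 {S : Set (Finset (Sym2 V))} {R : Finset (Sym2 V)}
    {B : V → ℤ} {c d e f : V} {p q r s : ℤ} :
    JD S R B c d e f p q r s ↔ JD S R B f d e c s q r p := by
  unfold JD
  constructor <;> rintro ⟨M, h1, h2, h3⟩ <;> exact ⟨M, h1, h2, fun z => by rw [h3]; ring⟩

/-- all four step axioms -/
structure Step4 (P : ℤ → ℤ → ℤ → ℤ → Prop) : Prop where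
  c : Step1 P
  d : Step1 (fun q p r s => P p q r s)
  e : Step1 (fun r q p s => P p q r s)
  f : Step1 (fun s q r p => P p q r s)

theorem JD.step4 {S : Set (Finset (Sym2 V))} (hS : ∀ Z ∈ S, Short Z) {R : Finset (Sym2 V)}
    {B : V → ℤ} {c d e f : V} (hcd : c ≠ d) (hce : c ≠ e) (hcf : c ≠ f) (hde : d ≠ e)
    (hdf : d ≠ f) (hef : e ≠ f) : Step4 (JD S R B c d e f) := by
  refine ⟨JD.step hS hcd hce hcf hde hdf hef, ?_, ?_, ?_⟩
  · have h := JD.step hS (S := S) (R := R) (B := B) hcd.symm hde hdf hce hcf hef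
    have h2 : (fun q p r s => JD S R B c d e f p q r s) = JD S R B d c e f := by
      funext q p r s; exact propext JD.perm2
    rw [h2]; exact h
  · have h := JD.step hS (S := S) (R := R) (B := B) hde.symm hce.symm hef hcd.symm hdf hcf
    have h2 : (fun r q p s => JD S R B c d e f p q r s) = JD S R B e d c f := by
      funext r q p s; exact propext JD.perm3
    rw [h2]; exact h
  · have h := JD.step hS (S := S) (R := R) (B := B) hdf.symm hef.symm hcf.symm hde hcd.symm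
      hce.symm
    have h2 : (fun s q r p => JD S R B c d e f p q r s) = JD S R B f d e c := by
      funext s q r p; exact propext JD.perm4
    rw [h2]; exact h

/-- two moving coordinates -/
theorem derive2 {P : ℤ → ℤ → ℤ → ℤ → Prop} (hP : Step4 P) {r s : ℤ} (hA : P 2 0 r s)
    (hB : P 0 2 r s) : P 1 1 r s ∨ P 2 2 r s := by
  rcases hP.d 0 2 r s 2 0 r s hA hB 1 (Or.inl rfl) with ⟨τ, hτ, h1, h2⟩ | ⟨τ, hτ, h1, h2⟩ |
    ⟨τ, hτ, h1, h2⟩ | ⟨τ, hτ, h1, h2⟩ <;> rcases hτ with rfl | rfl <;> norm_num at h1 <;> (try norm_num at h2) <;>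
    simp_all

/-- three moving coordinates (triangle and 4-cycle) -/
theorem derive3 {P : ℤ → ℤ → ℤ → ℤ → Prop} (hP : Step4 P) {s : ℤ} (hA : P 2 0 0 s)
    (hB : P 0 2 2 s) : P 1 1 0 s ∨ P 1 0 1 s ∨ P 2 2 2 s ∨ P 2 1 1 s := by
  by_contra hcon
  push Not at hcon
  obtain ⟨n1, n2, n3, n4⟩ := hcon
  have h1 : P 2 2 0 s := by
    rcases hP.d 0 2 0 s 2 0 2 s hA hB 1 (Or.inl rfl) with ⟨τ, hτ, h1, h2⟩ | ⟨τ, hτ, h1, h2⟩ |
      ⟨τ, hτ, h1, h2⟩ | ⟨τ, hτ, h1, h2⟩ <;> rcases hτ with rfl | rfl <;> norm_num at h1 <;> (try norm_num at h2) <;>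
      simp_all
  have h2 : P 2 0 2 s := by
    rcases hP.e 0 0 2 s 2 2 0 s hA hB 1 (Or.inl rfl) with ⟨τ, hτ, h1, h2⟩ | ⟨τ, hτ, h1, h2⟩ |
      ⟨τ, hτ, h1, h2⟩ | ⟨τ, hτ, h1, h2⟩ <;> rcases hτ with rfl | rfl <;> norm_num at h1 <;> (try norm_num at h2) <;>
      simp_all
  rcases hP.e 0 2 2 s 2 0 2 s h1 h2 1 (Or.inl rfl) with
    ⟨τ, hτ, h1, h2⟩ | ⟨τ, hτ, h1, h2⟩ |
      ⟨τ, hτ, h1, h2⟩ | ⟨τ, hτ, h1, h2⟩ <;> rcases hτ with rfl | rfl <;> norm_num at h1 <;> (try norm_num at h2) <;>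
      simp_all

/-- four moving coordinates (two 4-cycles sharing one edge) -/
theorem derive4 {P : ℤ → ℤ → ℤ → ℤ → Prop} (hP : Step4 P) (hA : P 2 2 0 0)
    (hB : P 0 0 2 2) :
    P 1 1 0 0 ∨ P 0 1 1 0 ∨ P 1 0 0 1 ∨ P 0 0 1 1 ∨ P 2 2 2 2 ∨ P 1 2 1 0 ∨ P 2 1 0 1 ∨
    P 0 1 2 1 ∨ P 1 0 1 2 ∨ P 2 2 1 1 ∨ P 1 1 2 2 ∨ P 1 1 1 1 := by
  by_contra hcon
  push Not at hcon
  obtain ⟨n1, n2, n3, n4, n5, n6, n7, n8, n9, n10, n11, n12⟩ := hcon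
  -- the case `2 1 1 0`
  have caseX : P 0 0 2 0 → ¬ P 2 1 1 0 := by
    intro hX hY
    have h1 : P 0 1 1 2 := by
      rcases hP.d 0 0 2 2 1 2 1 0 hB hY 1 (Or.inl rfl) with ⟨τ, hτ, h1, h2⟩ | ⟨τ, hτ, h1, h2⟩ |
        ⟨τ, hτ, h1, h2⟩ | ⟨τ, hτ, h1, h2⟩ <;> rcases hτ with rfl | rfl <;> norm_num at h1 <;>
        (try norm_num at h2) <;> simp_all
    rcases hP.f 2 1 1 0 0 0 2 0 h1 hX (-1) (Or.inr rfl) with ⟨τ, hτ, h1, h2⟩ |
        ⟨τ, hτ, h1, h2⟩ |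
        ⟨τ, hτ, h1, h2⟩ | ⟨τ, hτ, h1, h2⟩ <;> rcases hτ with rfl | rfl <;> norm_num at h1 <;>
        (try norm_num at h2) <;> simp_all
  have s1 : P 0 0 2 0 ∨ P 1 0 2 1 := by
    rcases hP.f 2 0 2 0 0 2 0 2 hB hA (-1) (Or.inr rfl) with ⟨τ, hτ, h1, h2⟩ |
        ⟨τ, hτ, h1, h2⟩ |
        ⟨τ, hτ, h1, h2⟩ | ⟨τ, hτ, h1, h2⟩ <;> rcases hτ with rfl | rfl <;> norm_num at h1 <;>
        (try norm_num at h2) <;> simp_all
  have s2 : P 2 0 2 2 ∨ P 1 0 2 1 := by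
    rcases hP.c 0 0 2 2 2 2 0 0 hB hA 1 (Or.inl rfl) with ⟨τ, hτ, h1, h2⟩ |
        ⟨τ, hτ, h1, h2⟩ |
        ⟨τ, hτ, h1, h2⟩ | ⟨τ, hτ, h1, h2⟩ <;> rcases hτ with rfl | rfl <;> norm_num at h1 <;>
        (try norm_num at h2) <;> simp_all
  by_cases h1021 : P 1 0 2 1
  · have h1 : P 1 2 0 1 := by
      rcases hP.c 2 2 0 0 1 0 2 1 hA h1021 (-1) (Or.inr rfl) with ⟨τ, hτ, h1, h2⟩ |
        ⟨τ, hτ, h1, h2⟩ |
        ⟨τ, hτ, h1, h2⟩ | ⟨τ, hτ, h1, h2⟩ <;> rcases hτ with rfl | rfl <;> norm_num at h1 <;>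
        (try norm_num at h2) <;> simp_all
    rcases hP.d 2 1 0 1 0 1 2 1 h1 h1021 (-1) (Or.inr rfl) with ⟨τ, hτ, h1, h2⟩ |
        ⟨τ, hτ, h1, h2⟩ |
        ⟨τ, hτ, h1, h2⟩ | ⟨τ, hτ, h1, h2⟩ <;> rcases hτ with rfl | rfl <;> norm_num at h1 <;>
        (try norm_num at h2) <;> simp_all
  · have h0020 : P 0 0 2 0 := by tauto
    have h2022 : P 2 0 2 2 := by tauto
    have hX := caseX h0020
    have s3 : P 2 2 2 0 := by
      rcases hP.e 0 2 2 0 2 0 0 0 hA h0020 1 (Or.inl rfl) with ⟨τ, hτ, h1, h2⟩ |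
        ⟨τ, hτ, h1, h2⟩ |
        ⟨τ, hτ, h1, h2⟩ | ⟨τ, hτ, h1, h2⟩ <;> rcases hτ with rfl | rfl <;> norm_num at h1 <;>
        (try norm_num at h2) <;> simp_all
    have s4 : P 2 1 2 1 := by
      rcases hP.d 0 2 2 2 2 2 2 0 h2022 s3 1 (Or.inl rfl) with ⟨τ, hτ, h1, h2⟩ |
        ⟨τ, hτ, h1, h2⟩ |
        ⟨τ, hτ, h1, h2⟩ | ⟨τ, hτ, h1, h2⟩ <;> rcases hτ with rfl | rfl <;> norm_num at h1 <;>
        (try norm_num at h2) <;> simp_all
    rcases hP.d 2 2 0 0 1 2 2 1 hA s4 (-1) (Or.inr rfl) with ⟨τ, hτ, h1, h2⟩ |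
        ⟨τ, hτ, h1, h2⟩ |
        ⟨τ, hτ, h1, h2⟩ | ⟨τ, hτ, h1, h2⟩ <;> rcases hτ with rfl | rfl <;> norm_num at h1 <;>
        (try norm_num at h2) <;> simp_all

end H999
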