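import Pool.Agent.H999_TwoFactor.MaxRed
import Pool.Agent.H622R2.CoNP

/-!
The threshold problem for square-free 2-matchings is in coNP.
-/

namespace H999

set_option linter.all false

open Pool.Agent.H622R2 Pool.Agent.NPC

theorem hasSF_of_iso {V W : Type*} {G : SimpleGraph V} {H : SimpleGraph W} (e : G ≃g H)
    (h : HasSF G) : HasSF H := by
  rw [hasSF_iff] at h ⊢
  obtain ⟨N, h1, h2, h3⟩ := h
  refine ⟨N.comap e.symm, ?_, ?_, ?_⟩
  · intro a b hab
    have := h1 hab
    exact e.symm.map_adj_iff.1 this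
  · intro w
    have : (N.comap e.symm).neighborSet w = e '' N.neighborSet (e.symm w) := by
      ext x
      simp only [SimpleGraph.mem_neighborSet, SimpleGraph.comap_adj, Set.mem_image]
      constructor
      · intro h; exact ⟨e.symm x, h, e.apply_symm_apply x⟩
      · rintro ⟨y, hy, rfl⟩
        rw [e.symm_apply_apply]; exact hy
    rw [this, Set.ncard_image_of_injective _ e.injective, h2]
  · intro a b c d hac hbd g1 g2 g3 g4
    exact h3 _ _ _ _ (fun h => hac (e.symm.injective h)) (fun h => hbd (e.symm.injective h))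
      g1 g2 g3 g4

theorem hasSF_iso {V W : Type*} {G : SimpleGraph V} {H : SimpleGraph W} (e : G ≃g H) :
    HasSF G ↔ HasSF H := ⟨hasSF_of_iso e, hasSF_of_iso e.symm⟩

/-- the labels of the larger graph -/
def labs (n k : ℕ) : List (ℕ × ℕ) :=
  (List.range n).map (fun v => (0, v)) ++
    ((List.range n).filter (fun j => decide (k ≤ j))).flatMap
      (fun j => [(1, j), (2, j), (3, j), (4, j)])

theorem mem_labs {n k : ℕ} {x : ℕ × ℕ} : x ∈ labs n k ↔
    (x.1 = 0 ∧ x.2 < n) ∨ (1 ≤ x.1 ∧ x.1 ≤ 4 ∧ k ≤ x.2 ∧ x.2 < n) := by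
  obtain ⟨i, v⟩ := x
  simp only [labs, List.mem_append, List.mem_map, List.mem_range, Prod.mk.injEq,
    List.mem_flatMap, List.mem_filter, decide_eq_true_eq, List.mem_cons, List.not_mem_nil,
    or_false]
  constructor
  · rintro (⟨a, ha, rfl, rfl⟩ | ⟨a, ⟨ha, hk⟩, h⟩)
    · exact Or.inl ⟨rfl, ha⟩
    · right
      rcases h with ⟨rfl, rfl⟩ | ⟨rfl, rfl⟩ | ⟨rfl, rfl⟩ | ⟨rfl, rfl⟩ <;> omega
  · rintro (⟨rfl, h⟩ | ⟨h1, h2, h3, h4⟩)
    · exact Or.inl ⟨v, h, rfl, rfl⟩
    · right
      refine ⟨v, ⟨h4, h3⟩, ?_⟩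
      omega

theorem labs_nodup (n k : ℕ) : (labs n k).Nodup := by
  unfold labs
  rw [List.nodup_append]
  refine ⟨?_, ?_, ?_⟩
  · refine List.Nodup.map ?_ List.nodup_range
    intro a b h
    exact (Prod.mk.inj h).2
  · refine nodup_flatMap_of Prod.snd (List.nodup_range.filter _) ?_ ?_
    · intro a _; simp
    · intro a _ b hb
      simp only [List.mem_cons, List.not_mem_nil, or_false] at hb
      rcases hb with rfl | rfl | rfl | rfl <;> rfl
  · intro a ha b hb hab
    subst hab
    simp only [List.mem_map, List.mem_range] at ha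
    obtain ⟨v, -, rfl⟩ := ha
    simp only [List.mem_flatMap, List.mem_cons, Prod.mk.injEq, List.not_mem_nil, or_false] at hb
    obtain ⟨w, -, h⟩ := hb
    omega

/-- adjacency of labels -/
def adjX (M : List (List Bool)) (a b : ℕ × ℕ) : Bool :=
  (decide (a.1 = 0) && decide (b.1 = 0) && entry M a.2 b.2) ||
  (decide (a.1 = 0) && (decide (b.1 = 1) || decide (b.1 = 4))) ||
  (!decide (a.1 = 0) && decide (b.1 = a.1 + 1) && decide (a.2 = b.2))

theorem adjX_iff {M : List (List Bool)} {a b : ℕ × ℕ} : adjX M a b = true ↔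
    (a.1 = 0 ∧ b.1 = 0 ∧ entry M a.2 b.2 = true) ∨ (a.1 = 0 ∧ (b.1 = 1 ∨ b.1 = 4)) ∨
    (a.1 ≠ 0 ∧ b.1 = a.1 + 1 ∧ a.2 = b.2) := by
  simp only [adjX, Bool.or_eq_true, Bool.and_eq_true, decide_eq_true_eq, Bool.not_eq_true',
    decide_eq_false_iff_not]
  tauto

/-- the isomorphism with the larger graph -/
noncomputable def labIso (M : List (List Bool)) (k : ℕ) :
    Ext (matGraph M) {j : Fin M.length // k ≤ j.1} ≃g labGraph (labs M.length k) (adjX M) where
  toEquiv := Equiv.ofBijective
    (fun x => match x with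
      | .inl v => ⟨(0, v.1), mem_labs.2 (Or.inl ⟨rfl, v.2⟩)⟩
      | .inr q => ⟨(q.2.1 + 1, q.1.1.1), mem_labs.2 (Or.inr ⟨by simp, by
          have := q.2.2
          show q.2.1 + 1 ≤ 4
          omega, q.1.2, q.1.1.2⟩)⟩) (by
    constructor
    · rintro (v | ⟨⟨j, hj⟩, i⟩) (w | ⟨⟨j', hj'⟩, i'⟩) h
      · simp only [Subtype.mk.injEq, Prod.mk.injEq, true_and] at h
        exact congrArg _ (Fin.ext h)
      · simp at h
      · simp at h
      · simp only [Subtype.mk.injEq, Prod.mk.injEq, add_left_inj] at h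
        obtain ⟨h1, h2⟩ := h
        have h1' := Fin.ext h1
        have h2' := Fin.ext h2
        subst h1' h2'
        rfl
    · rintro ⟨⟨i, v⟩, hx⟩
      rcases mem_labs.1 hx with ⟨h1, h2⟩ | ⟨h1, h2, h3, h4⟩
      · simp only at h1 h2
        subst h1
        exact ⟨.inl ⟨v, h2⟩, rfl⟩
      · simp only at h1 h2 h3 h4
        refine ⟨.inr (⟨⟨v, h4⟩, h3⟩, ⟨i - 1, by omega⟩), ?_⟩
        simp only [Subtype.mk.injEq, Prod.mk.injEq, and_true]
        omega)
  map_rel_iff' := by
    rintro (v | ⟨⟨j, hj⟩, i⟩) (w | ⟨⟨j', hj'⟩, i'⟩)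
    · simp only [Equiv.ofBijective_apply, labGraph, adjX_iff, ext_ll, matGraph, ne_eq,
        Subtype.mk.injEq, Prod.mk.injEq, true_and, Fin.ext_iff]
      constructor
      · rintro ⟨h1, h2⟩
        refine ⟨h1, ?_⟩
        rcases h2 with h2 | h2 <;> rcases h2 with h2 | h2 | h2 <;> first | omega | tauto
      · rintro ⟨h1, h2⟩
        exact ⟨h1, by tauto⟩
    · simp only [Equiv.ofBijective_apply, labGraph, adjX_iff, ext_lr, ne_eq,
        Subtype.mk.injEq, Prod.mk.injEq]
      have := i'.2
      constructor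
      · rintro ⟨h1, h2⟩
        rcases h2 with h2 | h2 <;> omega
      · rintro h1
        refine ⟨fun h => by omega, Or.inl (Or.inr (Or.inl ⟨trivial, ?_⟩))⟩
        change i'.1 = 0 ∨ i'.1 = 3 at h1
        omega
    · simp only [Equiv.ofBijective_apply, labGraph, adjX_iff, ext_rl, ne_eq,
        Subtype.mk.injEq, Prod.mk.injEq]
      have := i.2
      constructor
      · rintro ⟨h1, h2⟩
        rcases h2 with h2 | h2 <;> omega
      · rintro h1
        refine ⟨fun h => by omega, Or.inr (Or.inr (Or.inl ⟨trivial, ?_⟩))⟩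
        change i.1 = 0 ∨ i.1 = 3 at h1
        omega
    · simp only [Equiv.ofBijective_apply, labGraph, adjX_iff, ext_rr, ne_eq,
        Subtype.mk.injEq, Prod.mk.injEq, Fin.ext_iff]
      constructor
      · rintro ⟨h1, h2⟩
        rcases h2 with h2 | h2 <;> omega
      · rintro ⟨h1, h2⟩
        refine ⟨by omega, ?_⟩
        rcases h2 with h2 | h2
        · left; right; right; omega
        · right; right; right; omega

/-- the reduction -/
def redF (x : List (List Bool) × ℕ) : List (List Bool) :=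
  if x.2 ≤ x.1.length then mat (labs x.1.length x.2) (adjX x.1) else [[false]]

theorem poly_redF : Poly redF := by
  unfold redF
  refine Pool.Agent.NPC.Poly.ite ?_ (mat_poly ?_ ?_) (Pool.Agent.NPC.Poly.const _)
  · fun_prop
  · unfold labs
    fun_prop
  · unfold adjX
    fun_prop

/-- `G` has a square-free 2-matching with at least `k` edges -/
def HasTM {V : Type*} (G : SimpleGraph V) (k : ℕ) : Prop :=
  ∃ N : SimpleGraph V, (N ≤ G ∧ ∀ v, (N.neighborSet v).ncard ≤ 2) ∧ NoC4 N ∧ k ≤ N.edgeSet.ncard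

theorem redF_iff (x : List (List Bool) × ℕ) : HasTM (matGraph x.1) x.2 ↔
    HasSF (matGraph (redF x)) := by
  obtain ⟨M, k⟩ := x
  have hT : HasTM (matGraph M) k ↔ ∃ N : SimpleGraph (Fin M.length), N ≤ matGraph M ∧
      (∀ v, (N.neighborSet v).ncard ≤ 2) ∧ SF4 N ∧ k ≤ N.edgeSet.ncard := by
    unfold HasTM
    simp only [noC4_iff, and_assoc]
  rw [hT]
  unfold redF
  simp only
  by_cases hk : k ≤ M.length
  · rw [if_pos hk, hasSF_iso (matIso _ _ (labs_nodup _ _)), ← hasSF_iso (labIso M k)]
    have hc : k + Fintype.card {j : Fin M.length // k ≤ j.1} = Fintype.card (Fin M.length) := by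
      rw [Fintype.card_subtype, Fintype.card_fin]
      have : (Finset.univ.filter fun j : Fin M.length => k ≤ j.1).card = M.length - k := by
        rcases Nat.eq_or_lt_of_le hk with h | h
        · rw [Finset.card_eq_zero.2]
          · omega
          · rw [Finset.filter_eq_empty_iff]
            intro j _
            have := j.2
            omega
        · have h2 : (Finset.univ.filter fun j : Fin M.length => k ≤ j.1)
              = Finset.Ici (⟨k, h⟩ : Fin M.length) := by
            ext j
            simp [Fin.le_def]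
          rw [h2, Fin.card_Ici]
      omega
    exact (ext_iff (J := {j : Fin M.length // k ≤ j.1}) hc).symm
  · rw [if_neg hk]
    constructor
    · rintro ⟨N, h1, h2, h3, h4⟩
      exfalso
      have h5 := sum_deg N
      have h6 : ∑ v, (N.neighborSet v).ncard ≤ ∑ v : Fin M.length, 2 :=
        Finset.sum_le_sum fun v _ => h2 v
      simp only [Finset.sum_const, Finset.card_univ, smul_eq_mul, Fintype.card_fin] at h6
      omega
    · intro h
      exfalso
      obtain ⟨N, h1, h2, h3⟩ := (hasSF_iff _).1 h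
      have h4 := h2 ⟨0, by simp⟩
      have h5 : N.neighborSet (⟨0, by simp⟩ : Fin [[false]].length) = ∅ := by
        rw [Set.eq_empty_iff_forall_notMem]
        intro w hw
        have := (h1 hw).1
        apply this
        have := w.2
        apply Fin.ext
        simp at this ⊢
      rw [h5] at h4
      simp at h4

theorem inCoNPP_TM :
    InCoNPP (fun x : List (List Bool) × ℕ => HasTM (matGraph x.1) x.2) :=
  InNP.of_reduces (Reduces.compl (reduces_lang poly_redF redF_iff)) inCoNPP_SF

end H999
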