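import Pool.Agent.H999_TwoFactor.Conv

/-!
Square-free 2-matchings with a given number of edges, and square-free 2-factors of a larger graph:
one path with four vertices is added for each two units of the total deficit, and its end points
are joined to all old vertices.
-/

namespace H999

set_option linter.all false

/-- no cycle of length 4 -/
def NoC4 {V : Type*} (N : SimpleGraph V) : Prop :=
  ∀ (v : V) (p : N.Walk v v), p.IsCycle → p.length ≠ 4

/-- no four vertices forming a 4-cycle -/
def SF4 {V : Type*} (N : SimpleGraph V) : Prop :=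
  ∀ a b c d, a ≠ c → b ≠ d → N.Adj a b → N.Adj b c → N.Adj c d → N.Adj d a → False

theorem noC4_iff {V : Type*} (N : SimpleGraph V) : NoC4 N ↔ SF4 N := by
  constructor
  · intro h a b c d hac hbd h1 h2 h3 h4
    obtain ⟨p, hp, hl⟩ := cycle4 hac hbd h1 h2 h3 h4
    exact h a p hp hl
  · intro h v p hp hl
    obtain ⟨b, c, d, -, h2, -, -, h5, -, g1, g2, g3, g4⟩ := of_cycle4 p hp hl
    exact h v b c d h2 h5 g1 g2 g3 g4

theorem hasSF_iff {V : Type*} (G : SimpleGraph V) : HasSF G ↔
    ∃ N : SimpleGraph V, N ≤ G ∧ (∀ v, (N.neighborSet v).ncard = 2) ∧ SF4 N := by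
  constructor
  · rintro ⟨N, ⟨h1, h2⟩, h3⟩
    exact ⟨N, h1, h2, (noC4_iff N).1 fun v p hp hl => h3 v p hp (by simpa using hl)⟩
  · rintro ⟨N, h1, h2, h3⟩
    exact ⟨N, ⟨h1, h2⟩, fun v p hp hl => (noC4_iff N).2 h3 v p hp (by simpa using hl)⟩

/-- the graph with the added paths -/
def Ext {V : Type*} (G : SimpleGraph V) (J : Type*) : SimpleGraph (V ⊕ (J × Fin 4)) where
  Adj x y := match x, y with
    | .inl u, .inl v => G.Adj u v
    | .inl _, .inr q => q.2.1 = 0 ∨ q.2.1 = 3
    | .inr p, .inl _ => p.2.1 = 0 ∨ p.2.1 = 3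
    | .inr p, .inr q => p.1 = q.1 ∧ (p.2.1 + 1 = q.2.1 ∨ q.2.1 + 1 = p.2.1)
  symm := ⟨by
    rintro (u | p) (v | q) h
    · exact G.adj_symm h
    · exact h
    · exact h
    · exact ⟨h.1.symm, h.2.symm⟩⟩
  loopless := ⟨by
    rintro (u | p) h
    · exact G.loopless.irrefl u h
    · obtain ⟨-, h⟩ := h
      omega⟩

section

variable {V : Type*} {G : SimpleGraph V} {J : Type*}

@[simp] theorem ext_ll {u v : V} : (Ext G J).Adj (.inl u) (.inl v) ↔ G.Adj u v := Iff.rfl
@[simp] theorem ext_lr {u : V} {q : J × Fin 4} :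
    (Ext G J).Adj (.inl u) (.inr q) ↔ (q.2.1 = 0 ∨ q.2.1 = 3) := Iff.rfl
@[simp] theorem ext_rl {u : V} {q : J × Fin 4} :
    (Ext G J).Adj (.inr q) (.inl u) ↔ (q.2.1 = 0 ∨ q.2.1 = 3) := Iff.rfl
@[simp] theorem ext_rr {p q : J × Fin 4} :
    (Ext G J).Adj (.inr p) (.inr q) ↔ (p.1 = q.1 ∧ (p.2.1 + 1 = q.2.1 ∨ q.2.1 + 1 = p.2.1)) :=
  Iff.rfl

/-- the neighbours of the second vertex of an added path -/
theorem nb1 {N : SimpleGraph (V ⊕ (J × Fin 4))} (hN : N ≤ Ext G J)
    (h2 : ∀ v, (N.neighborSet v).ncard = 2) (j : J) :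
    N.neighborSet (.inr (j, 1)) = {.inr (j, 0), .inr (j, 2)} := by
  have hsub : N.neighborSet (.inr (j, 1)) ⊆ {.inr (j, 0), .inr (j, 2)} := by
    rintro (v | ⟨j', i⟩) hv
    · have := hN hv
      simp at this
    · have := hN hv
      simp only [ext_rr] at this
      obtain ⟨rfl, h⟩ := this
      fin_cases i <;> simp at h ⊢
  refine Set.eq_of_subset_of_ncard_le hsub ?_ (by simp)
  rw [h2]
  exact Set.ncard_insert_le _ _ |>.trans (by simp)

theorem nb2 {N : SimpleGraph (V ⊕ (J × Fin 4))} (hN : N ≤ Ext G J)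
    (h2 : ∀ v, (N.neighborSet v).ncard = 2) (j : J) :
    N.neighborSet (.inr (j, 2)) = {.inr (j, 1), .inr (j, 3)} := by
  have hsub : N.neighborSet (.inr (j, 2)) ⊆ {.inr (j, 1), .inr (j, 3)} := by
    rintro (v | ⟨j', i⟩) hv
    · have := hN hv
      simp at this
    · have := hN hv
      simp only [ext_rr] at this
      obtain ⟨rfl, h⟩ := this
      fin_cases i <;> simp at h ⊢
  refine Set.eq_of_subset_of_ncard_le hsub ?_ (by simp)
  rw [h2]
  exact Set.ncard_insert_le _ _ |>.trans (by simp)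

/-- an end point of an added path has exactly one old neighbour -/
theorem nb0 {N : SimpleGraph (V ⊕ (J × Fin 4))} (hN : N ≤ Ext G J)
    (h2 : ∀ v, (N.neighborSet v).ncard = 2) (j : J) (b : Bool) :
    ∃! v : V, N.Adj (.inr (j, if b then 3 else 0)) (.inl v) := by
  obtain ⟨i, i', hi, hadj, hother⟩ : ∃ i i' : Fin 4, i = (if b then 3 else 0) ∧
      N.Adj (.inr (j, i)) (.inr (j, i')) ∧
      ∀ q : J × Fin 4, N.Adj (.inr (j, i)) (.inr q) → q = (j, i') := by
    cases b with
    | false =>
      refine ⟨0, 1, rfl, ?_, ?_⟩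
      · have : (.inr (j, 0) : V ⊕ (J × Fin 4)) ∈ N.neighborSet (.inr (j, 1)) := by
          rw [nb1 hN h2]; simp
        exact N.adj_symm this
      · rintro ⟨j', i'⟩ hq
        have := hN hq
        simp only [ext_rr] at this
        obtain ⟨rfl, h⟩ := this
        fin_cases i' <;> simp at h ⊢
    | true =>
      refine ⟨3, 2, rfl, ?_, ?_⟩
      · have : (.inr (j, 3) : V ⊕ (J × Fin 4)) ∈ N.neighborSet (.inr (j, 2)) := by
          rw [nb2 hN h2]; simp
        exact N.adj_symm this
      · rintro ⟨j', i'⟩ hq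
        have := hN hq
        simp only [ext_rr] at this
        obtain ⟨rfl, h⟩ := this
        fin_cases i' <;> simp at h ⊢
  rw [← hi]
  obtain ⟨x, y, hxy, hs⟩ := Set.ncard_eq_two.1 (h2 (.inr (j, i)))
  have hmem : ∀ z, N.Adj (.inr (j, i)) z ↔ z = x ∨ z = y := by
    intro z
    rw [← SimpleGraph.mem_neighborSet, hs]
    simp
  -- one of x, y is the inner vertex, the other one is old
  have key : ∀ x y : V ⊕ (J × Fin 4), x ≠ y → (∀ z, N.Adj (.inr (j, i)) z ↔ z = x ∨ z = y) →
      x = .inr (j, i') → ∃! v : V, N.Adj (.inr (j, i)) (.inl v) := by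
    intro x y hxy hmem hx
    rcases y with v | q
    · refine ⟨v, (hmem _).2 (Or.inr rfl), fun w hw => ?_⟩
      rcases (hmem _).1 hw with h | h
      · rw [hx] at h; cases h
      · cases h; rfl
    · exfalso
      have := hother q ((hmem _).2 (Or.inr rfl))
      rw [this] at hxy
      exact hxy hx
  rcases (hmem _).1 hadj with h | h
  · exact key x y hxy hmem h.symm
  · exact key y x hxy.symm (fun z => by rw [hmem z]; exact or_comm) h.symm

/-- no 4-cycles through the added paths -/
theorem sf4_ext {N : SimpleGraph (V ⊕ (J × Fin 4))} (hN : N ≤ Ext G J)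
    (h1 : SF4 (N.comap Sum.inl))
    (h2 : ∀ (q : J × Fin 4) (v w : V), N.Adj (.inr q) (.inl v) → N.Adj (.inr q) (.inl w) →
      v = w) : SF4 N := by
  have h2' : ∀ (q : J × Fin 4) (v w : V), N.Adj (.inl v) (.inr q) → N.Adj (.inl w) (.inr q) →
      v = w := fun q v w h h' => h2 q v w (N.adj_symm h) (N.adj_symm h')
  have hr : ∀ p q : J × Fin 4, N.Adj (.inr p) (.inr q) →
      p.1 = q.1 ∧ (p.2.1 + 1 = q.2.1 ∨ q.2.1 + 1 = p.2.1) := fun p q h => ext_rr.1 (hN h)
  have hl : ∀ (v : V) (q : J × Fin 4), N.Adj (.inl v) (.inr q) → q.2.1 = 0 ∨ q.2.1 = 3 :=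
    fun v q h => ext_lr.1 (hN h)
  have hl' : ∀ (v : V) (q : J × Fin 4), N.Adj (.inr q) (.inl v) → q.2.1 = 0 ∨ q.2.1 = 3 :=
    fun v q h => ext_rl.1 (hN h)
  have hne : ∀ p q : J × Fin 4, (Sum.inr p : V ⊕ (J × Fin 4)) ≠ .inr q → p.1 = q.1 →
      p.2.1 ≠ q.2.1 := by
    intro p q h h' h''
    exact h (by rw [Prod.ext h' (Fin.ext h'')])
  rintro (a | a) (b | b) (c | c) (d | d) hac hbd g1 g2 g3 g4
  · exact h1 a b c d (fun h => hac (by rw [h])) (fun h => hbd (by rw [h])) g1 g2 g3 g4
  · exact hac (congrArg _ (h2 d a c g4 (N.adj_symm g3)))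
  · exact hbd (congrArg _ (h2 c b d (N.adj_symm g2) g3))
  · have := hr _ _ g3; have := hl _ _ g2; have := hl' _ _ g4; omega
  · exact hac (congrArg _ (h2' b a c g1 (N.adj_symm g2)))
  · have := hl _ _ g1; exact absurd rfl (fun _ : (1 : ℕ) = 1 => hac (congrArg _ (h2' b a c g1 (N.adj_symm g2))))
  · have := hr _ _ g2; have := hl _ _ g1; have := hl' _ _ g3; omega
  · have e1 := hr _ _ g2; have e2 := hr _ _ g3; have e3 := hl _ _ g1; have e4 := hl' _ _ g4
    have e5 := hne _ _ hbd (e1.1.trans e2.1)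
    omega
  · exact hbd (congrArg _ (h2 a b d g1 (N.adj_symm g4)))
  · have := hr _ _ g4; have := hl' _ _ g1; have := hl _ _ g3; omega
  · exact hbd (congrArg _ (h2 c b d (N.adj_symm g2) g3))
  · have e1 := hr _ _ g3; have e2 := hr _ _ g4; have e3 := hl _ _ g2; have e4 := hl' _ _ g1
    have e5 := hne _ _ (Ne.symm hac) (e1.1.trans e2.1)
    omega
  · have := hr _ _ g1; have := hl' _ _ g2; have := hl _ _ g4; omega
  · have e1 := hr _ _ g4; have e2 := hr _ _ g1; have e3 := hl _ _ g3; have e4 := hl' _ _ g2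
    have e5 := hne _ _ (Ne.symm hbd) (e1.1.trans e2.1)
    omega
  · have e1 := hr _ _ g1; have e2 := hr _ _ g2; have e3 := hl _ _ g4; have e4 := hl' _ _ g3
    have e5 := hne _ _ hac (e1.1.trans e2.1)
    omega
  · have e1 := hr _ _ g1; have e2 := hr _ _ g2; have e3 := hr _ _ g3; have e4 := hr _ _ g4
    have e5 := hne _ _ hac (e1.1.trans e2.1)
    have e6 := hne _ _ hbd (e2.1.trans e3.1)
    omega

/-- the vertex number of an end of an added path -/
def endI (b : Bool) : Fin 4 := if b then 3 else 0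

/-- the old degree and the number of path ends at an old vertex -/
theorem deg_split [Finite V] [Finite J] {N : SimpleGraph (V ⊕ (J × Fin 4))} (hN : N ≤ Ext G J)
    (e : J × Bool → V)
    (he : ∀ j b v, N.Adj (.inr (j, endI b)) (.inl v) ↔ e (j, b) = v) (v : V) :
    (N.neighborSet (.inl v)).ncard =
      ((N.comap Sum.inl).neighborSet v).ncard + (e ⁻¹' {v}).ncard := by
  have hs : N.neighborSet (.inl v) = Sum.inl '' ((N.comap Sum.inl).neighborSet v) ∪
      (fun p : J × Bool => (Sum.inr (p.1, endI p.2) : V ⊕ (J × Fin 4))) '' (e ⁻¹' {v}) := by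
    ext x
    rcases x with w | ⟨j, i⟩
    · simp
    · simp only [SimpleGraph.mem_neighborSet, Set.mem_union, Set.mem_image, reduceCtorEq,
        and_false, exists_false, Set.mem_preimage, Set.mem_singleton_iff, Sum.inr.injEq,
        Prod.mk.injEq, Prod.exists, false_or]
      constructor
      · intro h
        have h3 : i.1 = 0 ∨ i.1 = 3 := ext_lr.1 (hN h)
        rcases h3 with h3 | h3
        · have hi : i = endI false := Fin.ext h3
          refine ⟨j, false, ?_, rfl, hi.symm⟩
          rw [hi] at h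
          exact (he j false v).1 (N.adj_symm h)
        · have hi : i = endI true := Fin.ext h3
          refine ⟨j, true, ?_, rfl, hi.symm⟩
          rw [hi] at h
          exact (he j true v).1 (N.adj_symm h)
      · rintro ⟨j', b, h, rfl, rfl⟩
        exact N.adj_symm ((he _ _ _).2 h)
  rw [hs, Set.ncard_union_eq, Set.ncard_image_of_injective _ Sum.inl_injective,
    Set.ncard_image_of_injective]
  · rintro ⟨j, b⟩ ⟨j', b'⟩ h
    simp only [Sum.inr.injEq, Prod.mk.injEq] at h
    obtain ⟨rfl, h⟩ := h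
    cases b <;> cases b' <;> simp [endI] at h ⊢
  · rw [Set.disjoint_left]
    rintro x ⟨y, -, rfl⟩ ⟨z, -, h⟩
    simp at h

theorem sum_fib [Fintype V] [Fintype J] (e : J × Bool → V) :
    ∑ v, (e ⁻¹' {v}).ncard = 2 * Fintype.card J := by
  classical
  have h := Finset.card_eq_sum_card_fiberwise (f := e) (s := Finset.univ) (t := Finset.univ)
    (by simp)
  rw [Finset.card_univ, Fintype.card_prod, Fintype.card_bool] at h
  rw [mul_comm, h]
  refine Finset.sum_congr rfl fun v _ => ?_
  rw [Set.ncard_eq_toFinset_card']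
  congr 1
  ext x
  simp

theorem sum_deg [Fintype V] (N : SimpleGraph V) :
    ∑ v, (N.neighborSet v).ncard = 2 * N.edgeSet.ncard := by
  classical
  have h := N.sum_degrees_eq_twice_card_edges
  rw [Set.ncard_eq_toFinset_card' N.edgeSet]
  have h3 : N.edgeSet.toFinset = N.edgeFinset := by
    ext x; simp
  rw [h3, ← h]
  refine Finset.sum_congr rfl fun v _ => ?_
  rw [Set.ncard_eq_toFinset_card', ← SimpleGraph.card_neighborFinset_eq_degree]
  congr 1

/-- 2-factors of the larger graph give 2-matchings -/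
theorem ext_forward [Fintype V] [Fintype J] (h : HasSF (Ext G J)) :
    ∃ N : SimpleGraph V, N ≤ G ∧ (∀ v, (N.neighborSet v).ncard ≤ 2) ∧ SF4 N ∧
      N.edgeSet.ncard + Fintype.card J = Fintype.card V := by
  obtain ⟨N, h1, h2, h3⟩ := (hasSF_iff _).1 h
  have h4 := fun j b => nb0 h1 h2 j b
  choose e he he' using h4
  have hsp := deg_split h1 (fun p => e p.1 p.2) (fun j b v => by
    show N.Adj (.inr (j, if b then 3 else 0)) (.inl v) ↔ e j b = v
    constructor
    · intro h; exact (he' j b v h).symm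
    · rintro rfl; exact he j b)
  have hsum : ∑ v : V, 2 = ∑ v, (((N.comap Sum.inl).neighborSet v).ncard +
      ((fun p : J × Bool => e p.1 p.2) ⁻¹' {v}).ncard) :=
    Finset.sum_congr rfl fun v _ => by rw [← hsp v, h2]
  rw [Finset.sum_add_distrib, sum_fib, sum_deg] at hsum
  refine ⟨N.comap Sum.inl, ?_, fun v => ?_, ?_, ?_⟩
  · intro u v huv
    exact ext_ll.1 (h1 huv)
  · have := hsp v
    rw [h2] at this
    omega
  · intro a b c d hac hbd g1 g2 g3 g4
    exact h3 (.inl a) (.inl b) (.inl c) (.inl d) (by simpa using hac) (by simpa using hbd)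
      g1 g2 g3 g4
  · simp only [Finset.sum_const, Finset.card_univ, smul_eq_mul] at hsum
    omega

/-- the 2-factor of the larger graph -/
def Lift (N : SimpleGraph V) (e : J × Bool → V) : SimpleGraph (V ⊕ (J × Fin 4)) where
  Adj x y := match x, y with
    | .inl u, .inl v => N.Adj u v
    | .inl u, .inr q => (q.2.1 = 0 ∧ e (q.1, false) = u) ∨ (q.2.1 = 3 ∧ e (q.1, true) = u)
    | .inr q, .inl u => (q.2.1 = 0 ∧ e (q.1, false) = u) ∨ (q.2.1 = 3 ∧ e (q.1, true) = u)
    | .inr p, .inr q => p.1 = q.1 ∧ (p.2.1 + 1 = q.2.1 ∨ q.2.1 + 1 = p.2.1)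
  symm := ⟨by
    rintro (u | p) (v | q) h
    · exact N.adj_symm h
    · exact h
    · exact h
    · exact ⟨h.1.symm, h.2.symm⟩⟩
  loopless := ⟨by
    rintro (u | p) h
    · exact N.loopless.irrefl u h
    · obtain ⟨-, h⟩ := h
      omega⟩

@[simp] theorem lift_ll {N : SimpleGraph V} {e : J × Bool → V} {u v : V} :
    (Lift N e).Adj (.inl u) (.inl v) ↔ N.Adj u v := Iff.rfl
@[simp] theorem lift_rl {N : SimpleGraph V} {e : J × Bool → V} {u : V} {q : J × Fin 4} :
    (Lift N e).Adj (.inr q) (.inl u) ↔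
      (q.2.1 = 0 ∧ e (q.1, false) = u) ∨ (q.2.1 = 3 ∧ e (q.1, true) = u) := Iff.rfl
@[simp] theorem lift_lr {N : SimpleGraph V} {e : J × Bool → V} {u : V} {q : J × Fin 4} :
    (Lift N e).Adj (.inl u) (.inr q) ↔
      (q.2.1 = 0 ∧ e (q.1, false) = u) ∨ (q.2.1 = 3 ∧ e (q.1, true) = u) := Iff.rfl
@[simp] theorem lift_rr {N : SimpleGraph V} {e : J × Bool → V} {p q : J × Fin 4} :
    (Lift N e).Adj (.inr p) (.inr q) ↔
      (p.1 = q.1 ∧ (p.2.1 + 1 = q.2.1 ∨ q.2.1 + 1 = p.2.1)) := Iff.rfl

theorem ext_backward [Fintype V] [Fintype J] {N : SimpleGraph V} (h1 : N ≤ G)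
    (h2 : ∀ v, (N.neighborSet v).ncard ≤ 2) (h3 : SF4 N)
    (h4 : N.edgeSet.ncard + Fintype.card J = Fintype.card V) : HasSF (Ext G J) := by
  classical
  -- the distribution of the ends
  have hcard : Fintype.card (J × Bool) = Fintype.card (Σ v : V, Fin (2 - (N.neighborSet v).ncard)) := by
    rw [Fintype.card_prod, Fintype.card_bool, Fintype.card_sigma]
    simp only [Fintype.card_fin]
    have h5 : ∑ v, ((2 - (N.neighborSet v).ncard) + (N.neighborSet v).ncard) = ∑ v : V, 2 :=
      Finset.sum_congr rfl fun v _ => by have := h2 v; omega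
    rw [Finset.sum_add_distrib, sum_deg] at h5
    simp only [Finset.sum_const, Finset.card_univ, smul_eq_mul] at h5
    omega
  let E := Fintype.equivOfCardEq hcard
  let e : J × Bool → V := fun p => (E p).1
  have hfib : ∀ v, (e ⁻¹' {v}).ncard = 2 - (N.neighborSet v).ncard := by
    intro v
    have h6 : e ⁻¹' {v} = E.symm '' (Sigma.mk v '' (Set.univ : Set (Fin (2 - (N.neighborSet v).ncard)))) := by
      ext p
      simp only [Set.mem_preimage, Set.mem_singleton_iff, Set.image_univ, Set.mem_image,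
        Set.mem_range, exists_exists_eq_and]
      constructor
      · rintro rfl
        exact ⟨(E p).2, by
          show E.symm (E p) = p
          simp⟩
      · rintro ⟨i, rfl⟩
        show (E (E.symm ⟨v, i⟩)).1 = v
        simp
    rw [h6, Set.ncard_image_of_injective _ E.symm.injective,
      Set.ncard_image_of_injective _ sigma_mk_injective, Set.ncard_univ, Nat.card_eq_fintype_card,
      Fintype.card_fin]
  have hle : Lift N e ≤ Ext G J := by
    rintro (u | p) (v | q) h
    · exact h1 h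
    · simp only [lift_lr] at h
      simp only [ext_lr]
      tauto
    · simp only [lift_rl] at h
      simp only [ext_rl]
      tauto
    · exact h
  rw [hasSF_iff]
  refine ⟨Lift N e, hle, ?_, ?_⟩
  · rintro (v | ⟨j, i⟩)
    · have h7 := deg_split (N := Lift N e) hle e (fun j b v => by
        cases b <;> simp [endI]) v
      rw [h7, hfib]
      have h8 : (Lift N e).comap Sum.inl = N := by
        ext u v; simp
      rw [h8]
      have := h2 v
      omega
    · rw [Set.ncard_eq_two]
      fin_cases i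
      · refine ⟨.inr (j, 1), .inl (e (j, false)), by simp, ?_⟩
        ext x
        rcases x with w | ⟨j', i'⟩
        · simp [eq_comm]
        · simp only [SimpleGraph.mem_neighborSet, lift_rr, Set.mem_insert_iff, Sum.inr.injEq,
            Prod.mk.injEq, Set.mem_singleton_iff, reduceCtorEq, or_false]
          fin_cases i' <;> simp [eq_comm]
      · refine ⟨.inr (j, 0), .inr (j, 2), by simp, ?_⟩
        ext x
        rcases x with w | ⟨j', i'⟩
        · simp
        · simp only [SimpleGraph.mem_neighborSet, lift_rr, Set.mem_insert_iff, Sum.inr.injEq,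
            Prod.mk.injEq, Set.mem_singleton_iff, reduceCtorEq, or_false]
          fin_cases i' <;> simp [eq_comm]
      · refine ⟨.inr (j, 1), .inr (j, 3), by simp, ?_⟩
        ext x
        rcases x with w | ⟨j', i'⟩
        · simp
        · simp only [SimpleGraph.mem_neighborSet, lift_rr, Set.mem_insert_iff, Sum.inr.injEq,
            Prod.mk.injEq, Set.mem_singleton_iff, reduceCtorEq, or_false]
          fin_cases i' <;> simp [eq_comm]
      · refine ⟨.inr (j, 2), .inl (e (j, true)), by simp, ?_⟩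
        ext x
        rcases x with w | ⟨j', i'⟩
        · simp [eq_comm]
        · simp only [SimpleGraph.mem_neighborSet, lift_rr, Set.mem_insert_iff, Sum.inr.injEq,
            Prod.mk.injEq, Set.mem_singleton_iff, reduceCtorEq, or_false]
          fin_cases i' <;> simp [eq_comm]
  · refine sf4_ext hle ?_ ?_
    · have h8 : (Lift N e).comap Sum.inl = N := by
        ext u v; simp
      rw [h8]; exact h3
    · intro q v w h h'
      simp only [lift_rl] at h h'
      rcases h with ⟨h, rfl⟩ | ⟨h, rfl⟩ <;> rcases h' with ⟨h', rfl⟩ | ⟨h', rfl⟩ <;>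
        first | rfl | omega

/-- square-free 2-matchings with at least `k` edges -/
theorem ext_iff [Fintype V] [Fintype J] {k : ℕ} (hk : k + Fintype.card J = Fintype.card V) :
    HasSF (Ext G J) ↔ ∃ N : SimpleGraph V, N ≤ G ∧ (∀ v, (N.neighborSet v).ncard ≤ 2) ∧
      SF4 N ∧ k ≤ N.edgeSet.ncard := by
  classical
  constructor
  · intro h
    obtain ⟨N, h1, h2, h3, h4⟩ := ext_forward h
    exact ⟨N, h1, h2, h3, by omega⟩
  · rintro ⟨N, h1, h2, h3, h4⟩
    obtain ⟨S, hS, hSc⟩ := Set.exists_subset_card_eq h4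
    have hES : (SimpleGraph.fromEdgeSet S).edgeSet = S := by
      rw [SimpleGraph.edgeSet_fromEdgeSet]
      ext x
      simp only [Set.mem_diff, Set.mem_setOf_eq, and_iff_left_iff_imp]
      intro hx
      exact N.not_isDiag_of_mem_edgeSet (hS hx)
    have hle : SimpleGraph.fromEdgeSet S ≤ N := by
      rw [← SimpleGraph.edgeSet_subset_edgeSet, hES]
      exact hS
    refine ext_backward (N := SimpleGraph.fromEdgeSet S) (hle.trans h1) (fun v => ?_) ?_ ?_
    · refine le_trans (Set.ncard_le_ncard ?_) (h2 v)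
      intro w hw
      exact hle hw
    · intro a b c d hac hbd g1 g2 g3 g4
      exact h3 a b c d hac hbd (hle g1) (hle g2) (hle g3) (hle g4)
    · rw [hES, hSc]
      exact hk

end

end H999
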