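import Pool.Agent.H999_TwoFactor.Uncross

/-!
Minimal blocking families of triangles and 4-cycles are uncrossed.
-/

namespace H999

open Finset

set_option linter.all false

variable {V : Type*} [DecidableEq V]

theorem card_ne_one_of {A B : Finset (Sym2 V)} {e f : Sym2 V} (h1 : e ∈ A) (h2 : e ∈ B)
    (h3 : f ∈ A) (h4 : f ∈ B) (hne : e ≠ f) : (A ∩ B).card ≠ 1 := by
  intro h
  rw [Finset.card_eq_one] at h
  obtain ⟨g, hg⟩ := h
  have e1 : e ∈ A ∩ B := Finset.mem_inter.2 ⟨h1, h2⟩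
  have e2 : f ∈ A ∩ B := Finset.mem_inter.2 ⟨h3, h4⟩
  rw [hg, Finset.mem_singleton] at e1 e2
  exact hne (e1.trans e2.symm)

theorem Res.symm {S : Set (Finset (Sym2 V))} {N1 N2 : Finset (Sym2 V)} (h : Res S N1 N2) :
    Res S N2 N1 := by
  obtain ⟨N, h1, h2, h3⟩ := h
  exact ⟨N, h1, by rw [Finset.union_comm]; exact h2, h3⟩

/-- two 4-cycles sharing exactly one edge -/
theorem uncross_quads {S : Set (Finset (Sym2 V))} (hS : ∀ Z ∈ S, Short Z)
    {N1 N2 : Finset (Sym2 V)} (t1 : TF N1) (t2 : TF N2) {a b c d e f : V}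
    (hab : a ≠ b) (hac : a ≠ c) (had : a ≠ d) (hbc : b ≠ c) (hbd : b ≠ d) (hcd : c ≠ d)
    (hae : a ≠ e) (haf : a ≠ f) (hbe : b ≠ e) (hbf : b ≠ f) (hef : e ≠ f)
    (q1 : quad a b c d ⊆ N1) (q2 : quad a b e f ⊆ N2)
    (o1 : ∀ Z ∈ S, Z ⊆ N1 → Z = quad a b c d) (o2 : ∀ Z ∈ S, Z ⊆ N2 → Z = quad a b e f)
    (h : (quad a b c d ∩ quad a b e f).card = 1) : Res S N1 N2 := by
  have hce : c ≠ e := by
    rintro rfl
    refine card_ne_one_of (e := s(a, b)) (f := s(b, c)) ?_ ?_ ?_ ?_ (mk_ne hab hac) h <;>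
      rw [mem_quad] <;> simp
  have hdf : d ≠ f := by
    rintro rfl
    refine card_ne_one_of (e := s(a, b)) (f := s(d, a)) ?_ ?_ ?_ ?_ (mk_ne' hbd hab.symm) h <;>
      rw [mem_quad] <;> simp
  by_cases hcf : c = f
  · subst hcf
    by_cases hde : d = e
    · subst hde
      exfalso
      refine card_ne_one_of (e := s(a, b)) (f := s(c, d)) ?_ ?_ ?_ ?_ (mk_ne hac had) h <;>
        rw [mem_quad]
      · simp
      · simp
      · simp
      · right; right; left; exact Sym2.eq_swap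
    · exact uncrossC hS t1 t2 hab hac had hae hbc hbd hbe hcd hce hde q1 q2 o1 o2
  · by_cases hde : d = e
    · subst hde
      rw [quad_rev] at q1 q2
      rw [quad_rev a b d f] at o2
      rw [quad_rev a b c d] at o1
      exact uncrossC hS t1 t2 hab.symm hbd hbc hbf had hac haf hcd.symm hef hcf q1 q2 o1 o2
    · exact uncrossD hS t1 t2 hab hac had hae haf hbc hbd hbe hbf hcd hce hcf hde hdf hef
        q1 q2 o1 o2

theorem symmDiff_tri {a b c d : V} (hab : a ≠ b) (hac : a ≠ c) (had : a ≠ d) (hbc : b ≠ c)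
    (hbd : b ≠ d) (hcd : c ≠ d) : symmDiff (tri a b c) (tri a b d) = quad c a d b := by
  ext g
  rw [Finset.mem_symmDiff, mem_tri, mem_tri, mem_quad]
  have n1 : s(b, c) ≠ s(a, b) := mk_ne' hac.symm hbc.symm
  have n2 : s(c, a) ≠ s(a, b) := mk_ne hac.symm hbc.symm
  have n3 : s(b, d) ≠ s(a, b) := mk_ne' had.symm hbd.symm
  have n4 : s(d, a) ≠ s(a, b) := mk_ne had.symm hbd.symm
  have n5 : s(b, c) ≠ s(b, d) := mk_ne' hbc.symm hcd
  have n6 : s(b, c) ≠ s(d, a) := mk_ne hbd hab.symm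
  have n7 : s(c, a) ≠ s(b, d) := mk_ne hbc.symm hcd
  have n8 : s(c, a) ≠ s(d, a) := mk_ne hcd hac.symm
  have w1 : s(d, b) = s(b, d) := Sym2.eq_swap
  have w2 : s(a, d) = s(d, a) := Sym2.eq_swap
  rw [w1, w2]
  constructor
  · rintro (⟨h1 | h1 | h1, h2⟩ | ⟨h1 | h1 | h1, h2⟩)
    · exact absurd (Or.inl h1) h2
    · right; right; right; exact h1
    · left; exact h1
    · exact absurd (Or.inl h1) h2
    · right; right; left; exact h1
    · right; left; exact h1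
  · rintro (rfl | rfl | rfl | rfl)
    · left; exact ⟨Or.inr (Or.inr rfl), by push Not; exact ⟨n2, n7, n8⟩⟩
    · right; exact ⟨Or.inr (Or.inr rfl), by push Not; exact ⟨n4, n6.symm, n8.symm⟩⟩
    · right; exact ⟨Or.inr (Or.inl rfl), by push Not; exact ⟨n3, n5.symm, n7.symm⟩⟩
    · left; exact ⟨Or.inr (Or.inl rfl), by push Not; exact ⟨n1, n5, n6⟩⟩

/-- triangle, as a property of edge sets -/
def IsTri (Z : Finset (Sym2 V)) : Prop := ∃ a b c, a ≠ b ∧ a ≠ c ∧ b ≠ c ∧ Z = tri a b c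

/-- In an irredundant blocking family of triangles and 4-cycles two members sharing exactly one
edge are triangles whose symmetric difference belongs to the family. -/
theorem uncrossed_of_irredundant {T : Set (Finset (Sym2 V))} (hT : ∀ Z ∈ T, Short Z)
    {G : Set (Sym2 V)}
    (hblock : ∀ N : Finset (Sym2 V), TF N → (∀ g ∈ N, g ∈ G) → ∃ Z ∈ T, Z ⊆ N)
    (hirr : ∀ Z ∈ T, ∃ N : Finset (Sym2 V), TF N ∧ (∀ g ∈ N, g ∈ G) ∧
      ∀ W ∈ T, W ⊆ N → W = Z)
    {Z Z' : Finset (Sym2 V)} (hZ : Z ∈ T) (hZ' : Z' ∈ T) (hne : Z ≠ Z')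
    (hcard : (Z ∩ Z').card = 1) : IsTri Z ∧ IsTri Z' ∧ symmDiff Z Z' ∈ T := by
  have hno : ∀ N1 N2 : Finset (Sym2 V), (∀ g ∈ N1, g ∈ G) → (∀ g ∈ N2, g ∈ G) →
      ¬ Res T N1 N2 := by
    rintro N1 N2 g1 g2 ⟨N, h1, h2, h3⟩
    obtain ⟨W, hW, hWN⟩ := hblock N h3 (fun g hg => by
      rcases Finset.mem_union.1 (h2 hg) with h | h
      · exact g1 g h
      · exact g2 g h)
    exact h1.free W hW hWN
  obtain ⟨N1, t1, g1, o1⟩ := hirr Z hZ
  obtain ⟨N2, t2, g2, o2⟩ := hirr Z' hZ'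
  have q1 : Z ⊆ N1 := by
    obtain ⟨W, hW, hWN⟩ := hblock N1 t1 g1
    rw [← o1 W hW hWN]; exact hWN
  have q2 : Z' ⊆ N2 := by
    obtain ⟨W, hW, hWN⟩ := hblock N2 t2 g2
    rw [← o2 W hW hWN]; exact hWN
  have hex : ∃ g, g ∈ Z ∩ Z' := by
    rw [Finset.card_eq_one] at hcard
    obtain ⟨g, hg⟩ := hcard
    exact ⟨g, by rw [hg]; simp⟩
  obtain ⟨g, hg⟩ := hex
  induction g using Sym2.ind with
  | _ a b =>
  rw [Finset.mem_inter] at hg
  rcases (hT Z hZ).at_edge hg.1 with ⟨c, hab, hac, hbc, rfl⟩ |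
    ⟨c, d, hab, hac, had, hbc, hbd, hcd, rfl⟩
  · rcases (hT Z' hZ').at_edge hg.2 with ⟨d, _, had, hbd, rfl⟩ |
      ⟨e, f, _, hae, haf, hbe, hbf, hef, rfl⟩
    · have hcd : c ≠ d := by rintro rfl; exact hne rfl
      refine ⟨⟨a, b, c, hab, hac, hbc, rfl⟩, ⟨a, b, d, hab, had, hbd, rfl⟩, ?_⟩
      rw [symmDiff_tri hab hac had hbc hbd hcd]
      by_contra hnot
      exact hno N1 N2 g1 g2 (uncrossF hT t1 t2 hab hac had hbc hbd hcd q1 q2 hnot o1 o2)
    · exfalso
      have hce : c ≠ e := by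
        rintro rfl
        refine card_ne_one_of (e := s(a, b)) (f := s(b, c)) ?_ ?_ ?_ ?_ (mk_ne hab hac) hcard
        · rw [mem_tri]; simp
        · rw [mem_quad]; simp
        · rw [mem_tri]; simp
        · rw [mem_quad]; simp
      have hcf : c ≠ f := by
        rintro rfl
        refine card_ne_one_of (e := s(a, b)) (f := s(c, a)) ?_ ?_ ?_ ?_
          (mk_ne' hbc hab.symm) hcard
        · rw [mem_tri]; simp
        · rw [mem_quad]; simp
        · rw [mem_tri]; simp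
        · rw [mem_quad]; simp
      exact hno N1 N2 g1 g2
        (uncrossE hT t1 t2 hab hac hae haf hbc hbe hbf hce hcf hef q1 q2 o1 o2)
  · rcases (hT Z' hZ').at_edge hg.2 with ⟨e, _, hae, hbe, rfl⟩ |
      ⟨e, f, _, hae, haf, hbe, hbf, hef, rfl⟩
    · exfalso
      have hce : c ≠ e := by
        rintro rfl
        refine card_ne_one_of (e := s(a, b)) (f := s(b, c)) ?_ ?_ ?_ ?_ (mk_ne hab hac) hcard
        · rw [mem_quad]; simp
        · rw [mem_tri]; simp
        · rw [mem_quad]; simp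
        · rw [mem_tri]; simp
      have hde : d ≠ e := by
        rintro rfl
        refine card_ne_one_of (e := s(a, b)) (f := s(d, a)) ?_ ?_ ?_ ?_
          (mk_ne' hbd hab.symm) hcard
        · rw [mem_quad]; simp
        · rw [mem_tri]; simp
        · rw [mem_quad]; simp
        · rw [mem_tri]; simp
      exact hno N2 N1 g2 g1
        (uncrossE hT t2 t1 hab hae hac had hbe hbc hbd hce.symm hde.symm hcd q2 q1 o2 o1)
    · exfalso
      exact hno N1 N2 g1 g2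
        (uncross_quads hT t1 t2 hab hac had hbc hbd hcd hae haf hbe hbf hef q1 q2 o1 o2 hcard)

end H999
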