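import Pool.Agent.H999_TwoFactor.Sep

/-!
Realisation of degree vectors by tokens.
-/

namespace H999

open Finset

set_option linter.all false

variable {V : Type*} [DecidableEq V]

theorem toks_own {L : List V} (hL : L.Nodup) {Nb : V → List V} (own : Sym2 V → V) :
    ∀ (F : Finset (Sym2 V)), (∀ e ∈ F, own e ∈ L ∧ ∃ x ∈ Nb (own e), e = s(own e, x) ∧ own e ≠ x) →
    (∀ e ∈ F, ∀ e' ∈ F, own e = own e' → e = e') →
    Toks (L.map (fun v => ([v], Nb v))) (dg F) := by
  induction L with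
  | nil =>
    intro F h1 h2
    have : F = ∅ := by
      rw [Finset.eq_empty_iff_forall_notMem]
      intro e he; simpa using (h1 e he).1
    subst this
    intro z; simp [dg]
  | cons v L ih =>
    intro F h1 h2
    rw [List.nodup_cons] at hL
    rw [List.map_cons]
    by_cases hex : ∃ e ∈ F, own e = v
    · obtain ⟨e, he, hev⟩ := hex
      obtain ⟨-, x, hx, hex, hne⟩ := h1 e he
      rw [hev] at hx hex hne
      refine ⟨dg (F.erase e), fun z => ind v z + ind x z, ?_, ?_, ?_⟩
      · refine ih hL.2 _ ?_ ?_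
        · intro e' he'
          rw [Finset.mem_erase] at he'
          obtain ⟨h3, h4⟩ := h1 e' he'.2
          refine ⟨?_, h4⟩
          rcases List.mem_cons.1 h3 with h | h
          · exact absurd (h2 e' he'.2 e he (h.trans hev.symm)) he'.1
          · exact h
        · intro a ha b hb hab
          exact h2 a (Finset.mem_of_mem_erase ha) b (Finset.mem_of_mem_erase hb) hab
      · exact Or.inr ⟨v, by simp, x, hx, fun z => rfl⟩
      · intro z
        rw [hex] at he ⊢
        rw [dg_erase hne he]; ring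
    · push Not at hex
      refine ⟨dg F, fun _ => 0, ?_, Or.inl fun _ => rfl, fun z => by ring⟩
      refine ih hL.2 _ ?_ h2
      intro e he
      obtain ⟨h3, h4⟩ := h1 e he
      refine ⟨?_, h4⟩
      rcases List.mem_cons.1 h3 with h | h
      · exact absurd h (hex e he)
      · exact h

/-- tokens of an item with special vertex -/
def stoks (s : V) (A B : List V) : List (List V × List V) :=
  A.map (fun a => ([a], s :: B)) ++ B.map (fun b => ([b], A))

theorem stoks_eq {s : V} {A B : List V} (h : (s :: (A ++ B)).Nodup) :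
    stoks s A B = (A ++ B).map (fun v => ([v], if v ∈ A then s :: B else A)) := by
  unfold stoks
  rw [List.map_append]
  congr 1
  · refine List.map_congr_left fun a ha => ?_
    rw [if_pos ha]
  · refine List.map_congr_left fun b hb => ?_
    rw [List.nodup_cons, List.nodup_append] at h
    rw [if_neg (fun ha => h.2.2.2 b ha b hb rfl)]

/-- edges of an item with special vertex -/
def sE (s : V) (A B : List V) : Set (Sym2 V) :=
  {e | ∃ a ∈ A, e = s(s, a) ∨ ∃ b ∈ B, e = s(a, b)}

theorem orient1 {s b : V} {A : List V} (h : (s :: (A ++ [b])).Nodup) {F : Finset (Sym2 V)}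
    (hF : ∀ e ∈ F, e ∈ sE s A [b])
    (hfree : ∀ a ∈ A, ∀ a' ∈ A, a ≠ a' → ¬ quad s a b a' ⊆ F) :
    Toks (stoks s A [b]) (dg F) := by
  rw [stoks_eq h]
  rw [List.nodup_cons, List.nodup_append] at h
  obtain ⟨hs, hA, -, hAb⟩ := h
  rw [List.mem_append] at hs
  push Not at hs
  have hsb : s ≠ b := by have := hs.2; simpa using this
  have hAb' : ∀ a ∈ A, a ≠ b := fun a ha => hAb a ha b (by simp)
  have hAs : ∀ a ∈ A, a ≠ s := fun a ha h => hs.1 (h ▸ ha)
  have hbA : b ∉ A := fun h => hAb' b h rfl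
  have hex : ∀ e : Sym2 V, ∃ v, e ∈ F → ((∃ a ∈ A, e = s(s, a) ∧ v = a) ∨
      (∃ a ∈ A, e = s(a, b) ∧ s(s, a) ∉ F ∧ v = a) ∨
      (∃ a ∈ A, e = s(a, b) ∧ s(s, a) ∈ F ∧ v = b)) := by
    intro e
    by_cases he : e ∈ F
    · obtain ⟨a, ha, h | ⟨b', hb', h⟩⟩ := hF e he
      · exact ⟨a, fun _ => Or.inl ⟨a, ha, h, rfl⟩⟩
      · rw [List.mem_singleton] at hb'
        subst hb'
        by_cases h2 : s(s, a) ∈ F
        · exact ⟨b', fun _ => Or.inr (Or.inr ⟨a, ha, h, h2, rfl⟩)⟩
        · exact ⟨a, fun _ => Or.inr (Or.inl ⟨a, ha, h, h2, rfl⟩)⟩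
    · exact ⟨s, fun h => absurd h he⟩
  choose own hown using hex
  refine toks_own (List.nodup_append.2 ⟨hA, by simp, hAb⟩) own F ?_ ?_
  · intro e he
    rcases hown e he with ⟨a, ha, h1, h2⟩ | ⟨a, ha, h1, -, h2⟩ | ⟨a, ha, h1, -, h2⟩
    · rw [h2]
      refine ⟨List.mem_append_left _ ha, s, ?_, ?_, hAs a ha⟩
      · rw [if_pos ha]; simp
      · rw [h1, Sym2.eq_swap]
    · rw [h2]
      refine ⟨List.mem_append_left _ ha, b, ?_, h1, hAb' a ha⟩
      rw [if_pos ha]; simp
    · rw [h2]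
      refine ⟨List.mem_append_right _ (by simp), a, ?_, ?_, (hAb' a ha).symm⟩
      · rw [if_neg hbA]; exact ha
      · rw [h1, Sym2.eq_swap]
  · intro e he e' he' heq
    rcases hown e he with ⟨a, ha, h1, h2⟩ | ⟨a, ha, h1, h3, h2⟩ | ⟨a, ha, h1, h3, h2⟩ <;>
      rcases hown e' he' with ⟨a', ha', h1', h2'⟩ | ⟨a', ha', h1', h3', h2'⟩ |
        ⟨a', ha', h1', h3', h2'⟩ <;> rw [h2, h2'] at heq
    · rw [h1, h1', heq]
    · rw [h1, heq] at he; exact absurd he h3'
    · exact absurd heq (hAb' a ha)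
    · rw [h1', ← heq] at he'; exact absurd he' h3
    · rw [h1, h1', heq]
    · exact absurd heq (hAb' a ha)
    · exact absurd heq.symm (hAb' a' ha')
    · exact absurd heq.symm (hAb' a' ha')
    · by_cases haa : a = a'
      · rw [h1, h1', haa]
      · exfalso
        refine hfree a ha a' ha' haa ?_
        intro g hg
        rw [mem_quad] at hg
        rcases hg with rfl | rfl | rfl | rfl
        · exact h3
        · exact h1 ▸ he
        · rw [Sym2.eq_swap]; exact h1' ▸ he'
        · rw [Sym2.eq_swap]; exact h3'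

theorem orient2 {s u w : V} {B : List V} (h : (s :: ([u, w] ++ B)).Nodup)
    {F : Finset (Sym2 V)} (hF : ∀ e ∈ F, e ∈ sE s [u, w] B) (hd : ∀ v, dg F v ≤ 2)
    (hfree : ∀ b ∈ B, ¬ quad s u b w ⊆ F) :
    Toks (stoks s [u, w] B) (dg F) := by
  rw [stoks_eq h]
  have hnd := h
  rw [List.nodup_cons, List.nodup_append] at h
  obtain ⟨hs, hA, hB, hAB⟩ := h
  rw [List.mem_append] at hs
  push Not at hs
  have huw : u ≠ w := by simpa using hA
  have hsu : s ≠ u := by have := hs.1; simp at this; exact this.1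
  have hsw : s ≠ w := by have := hs.1; simp at this; exact this.2
  have huB : ∀ b ∈ B, u ≠ b := fun b hb => hAB u (by simp) b hb
  have hwB : ∀ b ∈ B, w ≠ b := fun b hb => hAB w (by simp) b hb
  have hsB : ∀ b ∈ B, s ≠ b := fun b hb h => hs.2 (h ▸ hb)
  have claim : ∃ x ∈ s :: B, ∃ y ∈ s :: B, (s(s, u) ∈ F → x = s) ∧ (s(s, w) ∈ F → y = s) ∧
      ∀ b ∈ B, s(u, b) ∈ F → b ≠ x → s(w, b) ∈ F → b ≠ y → False := by
    by_cases h0 : ∃ b ∈ B, s(u, b) ∈ F ∧ s(w, b) ∈ F
    · obtain ⟨b0, hb0, hu0, hw0⟩ := h0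
      by_cases hcu : s(s, u) ∈ F
      · have hcw : s(s, w) ∉ F := by
          intro hcw
          refine hfree b0 hb0 ?_
          intro g hg
          rw [mem_quad] at hg
          rcases hg with rfl | rfl | rfl | rfl
          · exact hcu
          · exact hu0
          · rw [Sym2.eq_swap]; exact hw0
          · rw [Sym2.eq_swap]; exact hcw
        refine ⟨s, by simp, b0, by simp [hb0], fun _ => rfl, fun h => absurd h hcw, ?_⟩
        intro b hb h1 h2 h3 h4
        have h5 : s(u, s) ∈ F := by rw [Sym2.eq_swap]; exact hcu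
        rcases three (hd u) h5 hu0 h1 with h | h | h
        · exact hsB b0 hb0 h
        · exact hsB b hb h
        · exact h4 h.symm
      · by_cases h1 : ∃ b ∈ B, b ≠ b0 ∧ s(u, b) ∈ F ∧ s(w, b) ∈ F
        · obtain ⟨b1, hb1, hne, hu1, hw1⟩ := h1
          refine ⟨b0, by simp [hb0], b1, by simp [hb1], fun h => absurd h hcu, ?_, ?_⟩
          · intro hcw
            have h5 : s(w, s) ∈ F := by rw [Sym2.eq_swap]; exact hcw
            rcases three (hd w) h5 hw0 hw1 with h | h | h
            · exact absurd h (hsB b0 hb0)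
            · exact absurd h (hsB b1 hb1)
            · exact absurd h.symm hne
          · intro b hb h1 h2 h3 h4
            rcases three (hd u) hu0 hu1 h1 with h | h | h
            · exact hne h.symm
            · exact h2 h.symm
            · exact h4 h.symm
        · refine ⟨b0, by simp [hb0], s, by simp, fun h => absurd h hcu, fun _ => rfl, ?_⟩
          intro b hb h1' h2 h3 h4
          exact h1 ⟨b, hb, h2, h1', h3⟩
    · refine ⟨s, by simp, s, by simp, fun _ => rfl, fun _ => rfl, ?_⟩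
      intro b hb h1 h2 h3 h4
      exact h0 ⟨b, hb, h1, h3⟩
  obtain ⟨x, hx, y, hy, hsx, hsy, hcl⟩ := claim
  have hux : u ≠ x := by
    rcases List.mem_cons.1 hx with rfl | hx
    · exact hsu.symm
    · exact huB x hx
  have hwy : w ≠ y := by
    rcases List.mem_cons.1 hy with rfl | hy
    · exact hsw.symm
    · exact hwB y hy
  have hex : ∀ e : Sym2 V, ∃ v, e ∈ F → ((e = s(u, x) ∧ v = u) ∨ (e = s(w, y) ∧ v = w) ∨
      (∃ b ∈ B, e = s(u, b) ∧ b ≠ x ∧ v = b) ∨ (∃ b ∈ B, e = s(w, b) ∧ b ≠ y ∧ v = b)) := by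
    intro e
    by_cases he : e ∈ F
    · obtain ⟨a, ha, h | ⟨b, hb, h⟩⟩ := hF e he
      · simp only [List.mem_cons, List.not_mem_nil, or_false] at ha
        rcases ha with rfl | rfl
        · refine ⟨a, fun _ => Or.inl ⟨?_, rfl⟩⟩
          rw [h] at he
          rw [h, hsx he, Sym2.eq_swap]
        · refine ⟨a, fun _ => Or.inr (Or.inl ⟨?_, rfl⟩)⟩
          rw [h] at he
          rw [h, hsy he, Sym2.eq_swap]
      · simp only [List.mem_cons, List.not_mem_nil, or_false] at ha
        rcases ha with rfl | rfl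
        · by_cases hbx : b = x
          · subst hbx; exact ⟨a, fun _ => Or.inl ⟨h, rfl⟩⟩
          · exact ⟨b, fun _ => Or.inr (Or.inr (Or.inl ⟨b, hb, h, hbx, rfl⟩))⟩
        · by_cases hbx : b = y
          · subst hbx; exact ⟨a, fun _ => Or.inr (Or.inl ⟨h, rfl⟩)⟩
          · exact ⟨b, fun _ => Or.inr (Or.inr (Or.inr ⟨b, hb, h, hbx, rfl⟩))⟩
    · exact ⟨s, fun h => absurd h he⟩
  choose own hown using hex
  refine toks_own (List.nodup_append.2 ⟨hA, hB, hAB⟩) own F ?_ ?_
  · intro e he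
    have hBA : ∀ b ∈ B, b ∉ [u, w] := by
      intro b hb h
      simp only [List.mem_cons, List.not_mem_nil, or_false] at h
      rcases h with rfl | rfl
      · exact huB b hb rfl
      · exact hwB b hb rfl
    rcases hown e he with ⟨h1, h2⟩ | ⟨h1, h2⟩ | ⟨b, hb, h1, -, h2⟩ | ⟨b, hb, h1, -, h2⟩
    · rw [h2]
      exact ⟨by simp, x, by rw [if_pos (by simp)]; exact hx, h1, hux⟩
    · rw [h2]
      exact ⟨by simp, y, by rw [if_pos (by simp)]; exact hy, h1, hwy⟩
    · rw [h2]
      refine ⟨List.mem_append_right _ hb, u, by rw [if_neg (hBA b hb)]; simp, ?_,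
        (huB b hb).symm⟩
      rw [h1, Sym2.eq_swap]
    · rw [h2]
      refine ⟨List.mem_append_right _ hb, w, by rw [if_neg (hBA b hb)]; simp, ?_,
        (hwB b hb).symm⟩
      rw [h1, Sym2.eq_swap]
  · intro e he e' he' heq
    rcases hown e he with ⟨h1, h2⟩ | ⟨h1, h2⟩ | ⟨b, hb, h1, h3, h2⟩ | ⟨b, hb, h1, h3, h2⟩ <;>
      rcases hown e' he' with ⟨h1', h2'⟩ | ⟨h1', h2'⟩ | ⟨b', hb', h1', h3', h2'⟩ |
        ⟨b', hb', h1', h3', h2'⟩ <;> rw [h2, h2'] at heq
    · rw [h1, h1']
    · exact absurd heq huw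
    · exact absurd heq (huB b' hb')
    · exact absurd heq (huB b' hb')
    · exact absurd heq.symm huw
    · rw [h1, h1']
    · exact absurd heq (hwB b' hb')
    · exact absurd heq (hwB b' hb')
    · exact absurd heq.symm (huB b hb)
    · exact absurd heq.symm (hwB b hb)
    · rw [h1, h1', heq]
    · subst heq
      exact (hcl b hb (h1 ▸ he) h3 (h1' ▸ he') h3').elim
    · exact absurd heq.symm (huB b hb)
    · exact absurd heq.symm (hwB b hb)
    · subst heq
      exact (hcl b hb (h1' ▸ he') h3' (h1 ▸ he) h3).elim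
    · rw [h1, h1', heq]

/-- `k` tokens on one list -/
theorem toks_rep {L : List V} : ∀ (k : ℕ) (F : Finset (Sym2 V)), F.card ≤ k →
    (∀ e ∈ F, ∃ x ∈ L, ∃ y ∈ L, x ≠ y ∧ e = s(x, y)) →
    Toks (List.replicate k (L, L)) (dg F) := by
  intro k
  induction k with
  | zero =>
    intro F hk _
    have : F = ∅ := by simpa using hk
    subst this
    intro z; simp [dg]
  | succ k ih =>
    intro F hk hF
    rw [List.replicate_succ]
    by_cases hF0 : F = ∅
    · subst hF0
      exact ⟨dg ∅, fun _ => 0, ih ∅ (by simp) (by simp), Or.inl fun _ => rfl, fun z => by ring⟩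
    · obtain ⟨e, he⟩ := Finset.nonempty_of_ne_empty hF0
      obtain ⟨x, hx, y, hy, hne, rfl⟩ := hF e he
      refine ⟨dg (F.erase s(x, y)), fun z => ind x z + ind y z, ih _ ?_ ?_,
        Or.inr ⟨x, hx, y, hy, fun _ => rfl⟩, fun z => by rw [dg_erase hne he]; ring⟩
      · rw [Finset.card_erase_of_mem he]; omega
      · intro e' he'; exact hF e' (Finset.mem_of_mem_erase he')

/-- a square-free 2-matching on four vertices has at most three edges -/
theorem card_le_three {a b c d : V} (hab : a ≠ b) (hac : a ≠ c) (had : a ≠ d) (hbc : b ≠ c)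
    (hbd : b ≠ d) (hcd : c ≠ d) {F : Finset (Sym2 V)}
    (hF : ∀ e ∈ F, e = s(a, b) ∨ e = s(a, c) ∨ e = s(a, d) ∨ e = s(b, c) ∨ e = s(b, d) ∨
      e = s(c, d)) (hd : ∀ v, dg F v ≤ 2) (h1 : ¬ quad a b c d ⊆ F) (h2 : ¬ quad a b d c ⊆ F)
    (h3 : ¬ quad a c b d ⊆ F) : F.card ≤ 3 := by
  by_contra hcon
  push Not at hcon
  -- degrees
  have da := hd a
  have db := hd b
  have dc := hd c
  have dd' := hd d
  set x1 : ℤ := if s(a, b) ∈ F then 1 else 0 with hx1
  set x2 : ℤ := if s(a, c) ∈ F then 1 else 0 with hx2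
  set x3 : ℤ := if s(a, d) ∈ F then 1 else 0 with hx3
  set x4 : ℤ := if s(b, c) ∈ F then 1 else 0 with hx4
  set x5 : ℤ := if s(b, d) ∈ F then 1 else 0 with hx5
  set x6 : ℤ := if s(c, d) ∈ F then 1 else 0 with hx6
  have e12 : s(a, b) ≠ s(a, c) := by rw [Ne, Sym2.eq_iff]; tauto
  have e13 : s(a, b) ≠ s(a, d) := by rw [Ne, Sym2.eq_iff]; tauto
  have e14 : s(a, b) ≠ s(b, c) := mk_ne hab hac
  have e15 : s(a, b) ≠ s(b, d) := mk_ne hab had
  have e16 : s(a, b) ≠ s(c, d) := mk_ne hac had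
  have e23 : s(a, c) ≠ s(a, d) := by rw [Ne, Sym2.eq_iff]; tauto
  have e24 : s(a, c) ≠ s(b, c) := mk_ne hab hac
  have e25 : s(a, c) ≠ s(b, d) := mk_ne hab had
  have e26 : s(a, c) ≠ s(c, d) := mk_ne hac had
  have e34 : s(a, d) ≠ s(b, c) := mk_ne hab hac
  have e35 : s(a, d) ≠ s(b, d) := mk_ne hab had
  have e36 : s(a, d) ≠ s(c, d) := mk_ne hac had
  have e45 : s(b, c) ≠ s(b, d) := by rw [Ne, Sym2.eq_iff]; tauto
  have e46 : s(b, c) ≠ s(c, d) := mk_ne hbc hbd
  have e56 : s(b, d) ≠ s(c, d) := mk_ne hbc hbd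
  have hsum : ∀ p : Sym2 V → Prop, ∀ [DecidablePred p], ((F.filter p).card : ℤ) =
      (if p s(a, b) then x1 else 0) + (if p s(a, c) then x2 else 0) +
      (if p s(a, d) then x3 else 0) + (if p s(b, c) then x4 else 0) +
      (if p s(b, d) then x5 else 0) + (if p s(c, d) then x6 else 0) := by
    intro p _
    have h1 : (F.filter p) = ({s(a, b), s(a, c), s(a, d), s(b, c), s(b, d), s(c, d)} :
      Finset (Sym2 V)).filter (fun e => e ∈ F ∧ p e) := by
      ext e
      simp only [Finset.mem_filter, Finset.mem_insert, Finset.mem_singleton]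
      constructor
      · intro h; exact ⟨hF e h.1, h⟩
      · exact fun h => h.2
    rw [h1, Finset.card_filter]
    rw [Finset.sum_insert (by simp only [Finset.mem_insert, Finset.mem_singleton, e12, e13, e14, e15, e16, e23, e24, e25, e26, e34, e35, e36, e45, e46, e56, or_false, not_false_eq_true]),
      Finset.sum_insert (by simp only [Finset.mem_insert, Finset.mem_singleton, e12, e13, e14, e15, e16, e23, e24, e25, e26, e34, e35, e36, e45, e46, e56, or_false, not_false_eq_true]),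
      Finset.sum_insert (by simp only [Finset.mem_insert, Finset.mem_singleton, e12, e13, e14, e15, e16, e23, e24, e25, e26, e34, e35, e36, e45, e46, e56, or_false, not_false_eq_true]),
      Finset.sum_insert (by simp only [Finset.mem_insert, Finset.mem_singleton, e12, e13, e14, e15, e16, e23, e24, e25, e26, e34, e35, e36, e45, e46, e56, or_false, not_false_eq_true]),
      Finset.sum_insert (by simp only [Finset.mem_insert, Finset.mem_singleton, e12, e13, e14, e15, e16, e23, e24, e25, e26, e34, e35, e36, e45, e46, e56, or_false, not_false_eq_true]), Finset.sum_singleton]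
    have key : ∀ (P R : Prop) [Decidable P] [Decidable R], (((if P ∧ R then 1 else 0 : ℕ)) : ℤ) =
        if R then (if P then 1 else 0) else 0 := by
      intro P R _ _
      by_cases hP : P <;> by_cases hR : R <;> simp [hP, hR]
    push_cast [key]
    ring
  have hda : dg F a = x1 + x2 + x3 := by
    unfold dg; rw [hsum]; simp [hab, hac, had]
  have hdb : dg F b = x1 + x4 + x5 := by
    unfold dg; rw [hsum]; simp [hab.symm, hbc, hbd]
  have hdc : dg F c = x2 + x4 + x6 := by
    unfold dg; rw [hsum]; simp [hac.symm, hbc.symm, hcd]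
  have hdd : dg F d = x3 + x5 + x6 := by
    unfold dg; rw [hsum]; simp [had.symm, hbd.symm, hcd.symm]
  have hcard : (F.card : ℤ) = x1 + x2 + x3 + x4 + x5 + x6 := by
    have h := hsum (fun _ => True)
    simp only [if_true] at h
    rw [← h]
    congr 2
    ext e; simp
  have b1 : x1 = 0 ∨ x1 = 1 := by rw [hx1]; split_ifs <;> simp
  have b2 : x2 = 0 ∨ x2 = 1 := by rw [hx2]; split_ifs <;> simp
  have b3 : x3 = 0 ∨ x3 = 1 := by rw [hx3]; split_ifs <;> simp
  have b4 : x4 = 0 ∨ x4 = 1 := by rw [hx4]; split_ifs <;> simp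
  have b5 : x5 = 0 ∨ x5 = 1 := by rw [hx5]; split_ifs <;> simp
  have b6 : x6 = 0 ∨ x6 = 1 := by rw [hx6]; split_ifs <;> simp
  have m1 : x1 = 1 → s(a, b) ∈ F := by rw [hx1]; split_ifs <;> simp [*]
  have m2 : x2 = 1 → s(a, c) ∈ F := by rw [hx2]; split_ifs <;> simp [*]
  have m3 : x3 = 1 → s(a, d) ∈ F := by rw [hx3]; split_ifs <;> simp [*]
  have m4 : x4 = 1 → s(b, c) ∈ F := by rw [hx4]; split_ifs <;> simp [*]
  have m5 : x5 = 1 → s(b, d) ∈ F := by rw [hx5]; split_ifs <;> simp [*]
  have m6 : x6 = 1 → s(c, d) ∈ F := by rw [hx6]; split_ifs <;> simp [*]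
  clear_value x1 x2 x3 x4 x5 x6
  have g1 : ¬ (x1 = 1 ∧ x4 = 1 ∧ x6 = 1 ∧ x3 = 1) := by
    rintro ⟨p1, p2, p3, p4⟩
    refine h1 fun g hg => ?_
    rw [mem_quad] at hg
    rcases hg with rfl | rfl | rfl | rfl
    · exact m1 p1
    · exact m4 p2
    · exact m6 p3
    · rw [Sym2.eq_swap]; exact m3 p4
  have g2 : ¬ (x1 = 1 ∧ x5 = 1 ∧ x6 = 1 ∧ x2 = 1) := by
    rintro ⟨p1, p2, p3, p4⟩
    refine h2 fun g hg => ?_
    rw [mem_quad] at hg
    rcases hg with rfl | rfl | rfl | rfl
    · exact m1 p1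
    · exact m5 p2
    · rw [Sym2.eq_swap]; exact m6 p3
    · rw [Sym2.eq_swap]; exact m2 p4
  have g3 : ¬ (x2 = 1 ∧ x4 = 1 ∧ x5 = 1 ∧ x3 = 1) := by
    rintro ⟨p1, p2, p3, p4⟩
    refine h3 fun g hg => ?_
    rw [mem_quad] at hg
    rcases hg with rfl | rfl | rfl | rfl
    · exact m2 p1
    · rw [Sym2.eq_swap]; exact m4 p2
    · exact m5 p3
    · rw [Sym2.eq_swap]; exact m3 p4
  rcases b1 with rfl | rfl <;> rcases b2 with rfl | rfl <;> rcases b3 with rfl | rfl <;> omega

end H999
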