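import Pool.Agent.H999_TwoFactor.Check3
import Pool.Agent.H622R2.Base

/-!
The verifier runs in polynomial time.
-/

namespace H999

open Pool.Agent.H622R2 Pool.Agent.NPC

set_option linter.all false

section

variable {α β γ : Type} [TEnc α] [TEnc β] [TEnc γ]

theorem ddup_eq_iff {β : Type} [DecidableEq β] : ∀ l : List β, ddup l = l ↔ l.Nodup
  | [] => by simp [ddup]
  | a :: l => by
    constructor
    · intro h; rw [← h]; exact ddup_nodup _
    · intro h
      rw [List.nodup_cons] at h
      have ih := (ddup_eq_iff l).2 h.2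
      unfold ddup at *
      rw [List.foldr_cons, ih, if_neg h.1]

@[fun_prop]
theorem poly_nodup [DecidableEq β] {l : α → List β} (hl : Poly l) :
    Poly (fun a => decide (l a).Nodup) :=
  (Poly.decide_eq (ddup_poly hl) hl).congr fun a => by
    rw [decide_eq_decide]; exact ddup_eq_iff _

@[fun_prop]
theorem poly_range {l : α → List β} (hl : Poly l) : Poly (fun a => List.range (l a).length) :=
  Poly.range_length hl

@[fun_prop]
theorem poly_entry {M : α → List (List Bool)} {i j : α → ℕ} (hM : Poly M) (hi : Poly i)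
    (hj : Poly j) : Poly (fun a => entry (M a) (i a) (j a)) := by
  unfold entry; fun_prop

@[fun_prop]
theorem poly_adjB {M : α → List (List Bool)} {i j : α → ℕ} (hM : Poly M) (hi : Poly i)
    (hj : Poly j) : Poly (fun a => adjB (M a) (i a) (j a)) := by
  unfold adjB; fun_prop

@[fun_prop]
theorem poly_inKB {it : α → Bool × ℕ × List ℕ × List ℕ} {x y : α → ℕ} (hit : Poly it)
    (hx : Poly x) (hy : Poly y) : Poly (fun a => inKB (it a) (x a) (y a)) := by
  unfold inKB; fun_prop

@[fun_prop]
theorem poly_okB {it : α → Bool × ℕ × List ℕ × List ℕ} (hit : Poly it) :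
    Poly (fun a => okB (it a)) := by
  unfold okB; fun_prop

@[fun_prop]
theorem poly_edL {M : α → List (List Bool)} {its : α → List (Bool × ℕ × List ℕ × List ℕ)}
    (hM : Poly M) (hits : Poly its) : Poly (fun a => edL (M a) (its a)) := by
  unfold edL; fun_prop

@[fun_prop]
theorem poly_itoks {it : α → Bool × ℕ × List ℕ × List ℕ} (hit : Poly it) :
    Poly (fun a => itoks (it a)) := by
  unfold itoks stoks
  simp only [List.replicate]
  fun_prop

@[fun_prop]
theorem poly_TTl {M : α → List (List Bool)} {its : α → List (Bool × ℕ × List ℕ × List ℕ)}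
    (hM : Poly M) (hits : Poly its) : Poly (fun a => TTl (M a) (its a)) := by
  unfold TTl; fun_prop

@[fun_prop]
theorem poly_cmp {x y : α → ℕ} (hx : Poly x) (hy : Poly y) : Poly (fun a => cmp (x a) (y a)) := by
  unfold cmp; fun_prop

@[fun_prop]
theorem poly_cmpV {lv : α → List (ℕ × ℕ)} {x y : α → ℕ} (hlv : Poly lv) (hx : Poly x)
    (hy : Poly y) : Poly (fun a => cmpV (lv a) (x a) (y a)) := by
  unfold cmpV; fun_prop

@[fun_prop]
theorem poly_chkTok {lv : α → List (ℕ × ℕ)} {p : α → (List ℕ × List ℕ) × ℕ × ℕ} (hlv : Poly lv)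
    (hp : Poly p) : Poly (fun a => chkTok (lv a) (p a)) := by
  unfold chkTok; fun_prop

@[fun_prop]
theorem poly_flat {l : α → List (ℕ × ℕ)} (hl : Poly l) : Poly (fun a => flat (l a)) := by
  unfold flat; fun_prop

@[fun_prop]
theorem poly_cnt {l : α → List ℕ} {c : α → ℕ} (hl : Poly l) (hc : Poly c) :
    Poly (fun a => cnt (l a) (c a)) := by
  unfold cnt; fun_prop

theorem poly_chk : Poly chk := by
  unfold chk chkLab; fun_prop

end

end H999
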