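import Pool.Agent.H999_TwoFactor.Orient

/-!
The vectors realised by tokens avoid the environment.
-/

namespace H999

open Finset

set_option linter.all false

variable {V : Type*} [DecidableEq V]

theorem sum_ind_mem {X : Finset V} {a : V} (h : a ∈ X) : ∑ z ∈ X, ind a z = (1 : ℤ) := by
  unfold ind; simp [h]

theorem sum_ind_not {X : Finset V} {a : V} (h : a ∉ X) : ∑ z ∈ X, ind a z = (0 : ℤ) := by
  unfold ind; simp [h]

theorem toks_cnt {L : List V} (hL : L.Nodup) {Nb : V → List V} {X Y : Finset V}
    (hXY : Disjoint X Y)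
    (hN : ∀ v ∈ L, ∀ x ∈ Nb v, (v ∈ X ∧ x ∈ Y) ∨ (v ∈ Y ∧ x ∈ X)) :
    ∀ {f : V → ℤ}, Toks (L.map (fun v => ([v], Nb v))) f →
    ∃ k : ℕ, k ≤ (L.toFinset.filter (fun v => 0 < f v)).card ∧ ∑ x ∈ X, f x = k ∧
      ∑ y ∈ Y, f y = k ∧ ∀ z, z ∉ X → z ∉ Y → f z = 0 := by
  induction L with
  | nil =>
    intro f h
    have h : ∀ z, f z = 0 := h
    exact ⟨0, by simp, by simp [h], by simp [h], fun z _ _ => h z⟩
  | cons v L ih =>
    intro f h
    rw [List.nodup_cons] at hL
    rw [List.map_cons] at h
    obtain ⟨x, t, hx, ht, hf⟩ := h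
    obtain ⟨k, h1, h2, h3, h4⟩ := ih hL.2 (fun v' hv' => hN v' (List.mem_cons_of_mem _ hv')) hx
    rcases ht with ht | ⟨a, ha, b, hb, ht⟩
    · have hfx : f = x := by funext z; rw [hf, ht]; ring
      subst hfx
      refine ⟨k, h1.trans (Finset.card_le_card ?_), h2, h3, h4⟩
      intro z hz
      rw [Finset.mem_filter, List.mem_toFinset] at hz ⊢
      exact ⟨List.mem_cons_of_mem _ hz.1, hz.2⟩
    · rw [List.mem_singleton] at ha
      subst ha
      have hxn := hx.nonneg
      have hft : ∀ z, f z = x z + (ind a z + ind b z) := fun z => by rw [hf, ht]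
      have hsum : ∀ Z : Finset V, ∑ z ∈ Z, f z = ∑ z ∈ Z, x z + (∑ z ∈ Z, ind a z +
          ∑ z ∈ Z, ind b z) := by
        intro Z
        rw [← Finset.sum_add_distrib, ← Finset.sum_add_distrib]
        exact Finset.sum_congr rfl fun z _ => hft z
      refine ⟨k + 1, ?_, ?_, ?_, ?_⟩
      · have : insert a (L.toFinset.filter (fun v => 0 < x v)) ⊆
            (a :: L).toFinset.filter (fun v => 0 < f v) := by
          intro z hz
          rw [Finset.mem_insert] at hz
          rw [Finset.mem_filter, List.mem_toFinset]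
          have i1 := ind_nonneg a z
          have i2 := ind_nonneg b z
          rcases hz with rfl | hz
          · refine ⟨by simp, ?_⟩
            rw [hft]; have := hxn z; rw [ind_self] at *; omega
          · rw [Finset.mem_filter, List.mem_toFinset] at hz
            exact ⟨List.mem_cons_of_mem _ hz.1, by rw [hft]; omega⟩
        refine le_trans ?_ (Finset.card_le_card this)
        rw [Finset.card_insert_of_notMem]
        · omega
        · rw [Finset.mem_filter, List.mem_toFinset]; exact fun h => hL.1 h.1
      · rw [hsum, h2]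
        rcases hN a (by simp) b hb with ⟨g1, g2⟩ | ⟨g1, g2⟩
        · rw [sum_ind_mem g1, sum_ind_not (fun h => Finset.disjoint_left.1 hXY h g2)]
          push_cast; ring
        · rw [sum_ind_mem g2, sum_ind_not (fun h => Finset.disjoint_left.1 hXY h g1)]
          push_cast; ring
      · rw [hsum, h3]
        rcases hN a (by simp) b hb with ⟨g1, g2⟩ | ⟨g1, g2⟩
        · rw [sum_ind_mem g2, sum_ind_not (fun h => Finset.disjoint_left.1 hXY g1 h)]
          push_cast; ring
        · rw [sum_ind_mem g1, sum_ind_not (fun h => Finset.disjoint_left.1 hXY g2 h)]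
          push_cast; ring
      · intro z hzX hzY
        rw [hft, h4 z hzX hzY]
        rcases hN a (by simp) b hb with ⟨g1, g2⟩ | ⟨g1, g2⟩
        · rw [ind_ne (by rintro rfl; exact hzX g1), ind_ne (by rintro rfl; exact hzY g2)]; ring
        · rw [ind_ne (by rintro rfl; exact hzY g1), ind_ne (by rintro rfl; exact hzX g2)]; ring

/-- counting values -/
theorem cnt_values {Y : Finset V} {f : V → ℤ} (h0 : ∀ z, 0 ≤ f z) (h2 : ∀ z, f z ≤ 2) :
    ∑ y ∈ Y, f y = (Y.filter (fun y => f y = 1)).card + 2 * (Y.filter (fun y => f y = 2)).card ∧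
    (Y.filter (fun y => 0 < f y)).card =
      (Y.filter (fun y => f y = 1)).card + (Y.filter (fun y => f y = 2)).card := by
  rw [Finset.card_filter, Finset.card_filter, Finset.card_filter]
  constructor
  · push_cast
    rw [Finset.mul_sum, ← Finset.sum_add_distrib]
    refine Finset.sum_congr rfl fun y _ => ?_
    have := h0 y
    have := h2 y
    have h3 : f y = 0 ∨ f y = 1 ∨ f y = 2 := by omega
    rcases h3 with h | h | h <;> rw [h] <;> simp
  · rw [← Finset.sum_add_distrib]
    refine Finset.sum_congr rfl fun y _ => ?_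
    have := h0 y
    have := h2 y
    have h3 : f y = 0 ∨ f y = 1 ∨ f y = 2 := by omega
    rcases h3 with h | h | h <;> rw [h] <;> simp

/-- realisation without 4-cycles -/
theorem exists_KF {u w : V} (huw : u ≠ w) {Y : Finset V} (hu : u ∉ Y) (hw : w ∉ Y) {f : V → ℤ}
    (h0 : ∀ z, 0 ≤ f z) (h2 : ∀ z, f z ≤ 2) (hsupp : ∀ z, z ≠ u → z ≠ w → z ∉ Y → f z = 0)
    (hsum : f u + f w = ∑ y ∈ Y, f y) (t1 : (Y.filter (fun y => f y = 2)).card ≤ 1)
    (tu : ((Y.filter (fun y => f y = 2)).card : ℤ) ≤ f u)
    (tw : ((Y.filter (fun y => f y = 2)).card : ℤ) ≤ f w) :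
    ∃ P R : Finset V, P ⊆ Y ∧ R ⊆ Y ∧ (P ∩ R).card ≤ 1 ∧ ∀ z, dg (KF u w P R) z = f z := by
  obtain ⟨c1, c2⟩ := cnt_values (Y := Y) h0 h2
  set Y1 := Y.filter (fun y => f y = 1) with hY1
  set Y2 := Y.filter (fun y => f y = 2) with hY2
  have hdis : Disjoint Y1 Y2 := by
    rw [Finset.disjoint_left]
    intro z hz hz'
    rw [hY1, Finset.mem_filter] at hz
    rw [hY2, Finset.mem_filter] at hz'
    omega
  obtain ⟨A, hA, hAc⟩ := Finset.exists_subset_card_eq (s := Y1) (n := (f u).toNat - Y2.card)
    (by have := h0 u; have := h0 w; omega)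
  have hAd : Disjoint A Y2 := hdis.mono_left hA
  have hAd' : Disjoint (Y1 \ A) Y2 := hdis.mono_left Finset.sdiff_subset
  have hY1s : Y1 ⊆ Y := Finset.filter_subset _ _
  have hY2s : Y2 ⊆ Y := Finset.filter_subset _ _
  have hP : A ∪ Y2 ⊆ Y := Finset.union_subset (hA.trans hY1s) hY2s
  have hR : (Y1 \ A) ∪ Y2 ⊆ Y := Finset.union_subset (Finset.sdiff_subset.trans hY1s) hY2s
  refine ⟨A ∪ Y2, (Y1 \ A) ∪ Y2, hP, hR, ?_, ?_⟩
  · refine le_trans (Finset.card_le_card (t := Y2) ?_) t1
    intro z hz
    rw [Finset.mem_inter, Finset.mem_union, Finset.mem_union, Finset.mem_sdiff] at hz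
    tauto
  · intro z
    rw [dg_KF huw (fun h => hu (hP h)) (fun h => hu (hR h)) (fun h => hw (hP h))
      (fun h => hw (hR h)), Finset.card_union_of_disjoint hAd, Finset.card_union_of_disjoint hAd',
      Finset.card_sdiff_of_subset hA]
    have hle := Finset.card_le_card hA
    by_cases hzu : z = u
    · subst hzu
      rw [if_neg (fun h => hu (hP h)), if_neg (fun h => hu (hR h)), ind_self, ind_ne huw]
      have := h0 z; omega
    · by_cases hzw : z = w
      · subst hzw
        rw [if_neg (fun h => hw (hP h)), if_neg (fun h => hw (hR h)), ind_self,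
          ind_ne hzu]
        have := h0 z; have := h0 u; omega
      · rw [ind_ne hzu, ind_ne hzw]
        by_cases hzY : z ∈ Y
        · have h3 : f z = 0 ∨ f z = 1 ∨ f z = 2 := by
            have := h0 z; have := h2 z; omega
          have m1 : z ∈ Y1 ↔ f z = 1 := by rw [hY1, Finset.mem_filter]; tauto
          have m2 : z ∈ Y2 ↔ f z = 2 := by rw [hY2, Finset.mem_filter]; tauto
          have mA : z ∈ A → f z = 1 := fun h => m1.1 (hA h)
          rcases h3 with h | h | h
          · rw [if_neg, if_neg, h]
            · ring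
            · simp only [Finset.mem_union, Finset.mem_sdiff, m1, m2]; omega
            · simp only [Finset.mem_union, m2]; rintro (h' | h')
              · have := mA h'; omega
              · omega
          · by_cases hzA : z ∈ A
            · rw [if_pos (Finset.mem_union_left _ hzA), if_neg, h]
              · ring
              · simp only [Finset.mem_union, Finset.mem_sdiff, m2]; rintro (h' | h')
                · exact h'.2 hzA
                · omega
            · rw [if_neg, if_pos, h]
              · ring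
              · simp only [Finset.mem_union, Finset.mem_sdiff, m1]; left; exact ⟨h, hzA⟩
              · simp only [Finset.mem_union, m2]; rintro (h' | h')
                · exact hzA h'
                · omega
          · rw [if_pos, if_pos, h]
            · ring
            · simp only [Finset.mem_union, m2]; right; exact h
            · simp only [Finset.mem_union, m2]; right; exact h
        · rw [if_neg (fun h => hzY (hP h)), if_neg (fun h => hzY (hR h)), hsupp z hzu hzw hzY]
          ring

variable {Q : (V → ℤ) → Prop} {u w : V} {Y : Finset V} {E : V → V → Prop}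

theorem SunEnv.not_of_le (h : SunEnv Q u w Y E) {f : V → ℤ} (h0 : ∀ z, 0 ≤ f z)
    (hsupp : ∀ z, z ≠ u → z ≠ w → z ∉ Y → f z = 0)
    (hsum : f u + f w = ∑ y ∈ Y, f y) (t1 : (Y.filter (fun y => f y = 2)).card ≤ 1)
    (tu : ((Y.filter (fun y => f y = 2)).card : ℤ) ≤ f u)
    (tw : ((Y.filter (fun y => f y = 2)).card : ℤ) ≤ f w) : ¬ Q f := by
  intro hQ
  obtain ⟨P, R, h1, h2, h3, h4⟩ := exists_KF h.huw h.hu h.hw h0 (h.le f hQ) hsupp hsum t1 tu tw
  have h5 : f = fun z => dg (KF u w P R) z := by funext z; rw [h4]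
  rw [h5] at hQ
  refine h.bad P R h1 h2 ?_ hQ
  intro i hi j hj hij
  exact (h.mem i j hij).2.2 (Finset.card_le_one.1 h3 i hi j hj)

/-- a vector equal to a double edge -/
theorem eq_dbl {u w : V} (huw : u ≠ w) {Y : Finset V} (hu : u ∉ Y) (hw : w ∉ Y) {f : V → ℤ}
    (h0 : ∀ z, 0 ≤ f z)
    (hsupp : ∀ z, z ≠ u → z ≠ w → z ∉ Y → f z = 0) {y : V} (hy : y ∈ Y) (hfy : f y = 2)
    (hsum : ∑ y ∈ Y, f y = 2) (hfu : f u = 0) (hfw : f w = 2) : f = dbl w y := by
  have hwy : w ≠ y := by rintro rfl; exact hw hy
  funext z
  unfold dbl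
  by_cases hzw : z = w
  · subst hzw; rw [hfw, ind_self, ind_ne hwy]; ring
  · by_cases hzy : z = y
    · subst hzy; rw [hfy, ind_self, ind_ne hzw]; ring
    · rw [ind_ne hzw, ind_ne hzy]
      by_cases hzu : z = u
      · rw [hzu, hfu]; ring
      · by_cases hzY : z ∈ Y
        · have h1 : f z ≤ ∑ x ∈ Y.erase y, f x :=
            Finset.single_le_sum (fun x _ => h0 x) (Finset.mem_erase.2 ⟨hzy, hzY⟩)
          have h2 := Finset.add_sum_erase Y f hy
          have := h0 z
          omega
        · rw [hsupp z hzu hzw hzY]; ring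

/-- complete sunflowers -/
theorem SunEnv.sepC (h : SunEnv Q u w Y E) {A : List V} (hA : A.Nodup) (hAY : A.toFinset = Y)
    (hdw : ∀ y ∈ Y, ¬ Q (dbl w y)) {f : V → ℤ} (hf : Toks (stoks u A [w]) f) : ¬ Q f := by
  intro hQ
  have hmem : ∀ a, a ∈ A ↔ a ∈ Y := fun a => by rw [← hAY, List.mem_toFinset]
  have hwA : w ∉ A := fun h' => h.hw ((hmem w).1 h')
  have hnd : (u :: (A ++ [w])).Nodup := by
    rw [List.nodup_cons, List.nodup_append, List.mem_append, List.mem_singleton]
    refine ⟨?_, hA, by simp, ?_⟩
    · rintro (h' | h')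
      · exact h.hu ((hmem u).1 h')
      · exact h.huw h'
    · rintro a ha b hb rfl
      rw [List.mem_singleton] at hb
      subst hb
      exact hwA ha
  rw [stoks_eq hnd] at hf
  have hdis : Disjoint ({u, w} : Finset V) Y := by
    rw [Finset.disjoint_left]
    intro z hz
    rw [Finset.mem_insert, Finset.mem_singleton] at hz
    rcases hz with rfl | rfl
    · exact h.hu
    · exact h.hw
  have h0 := hf.nonneg
  have h2 := h.le f hQ
  obtain ⟨k, hk, hX, hY, hout⟩ := toks_cnt (List.nodup_cons.1 hnd).2 hdis (by
    intro v hv x hx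
    rw [List.mem_append] at hv
    by_cases hvA : v ∈ A
    · rw [if_pos hvA] at hx
      right
      exact ⟨(hmem v).1 hvA, by simpa using hx⟩
    · rw [if_neg hvA] at hx
      left
      rcases hv with hv | hv
      · exact absurd hv hvA
      · rw [List.mem_singleton] at hv
        subst hv
        exact ⟨by simp, (hmem x).1 hx⟩) hf
  rw [Finset.sum_pair h.huw] at hX
  obtain ⟨c1, c2⟩ := cnt_values (Y := Y) h0 h2
  have hsupp : ∀ z, z ≠ u → z ≠ w → z ∉ Y → f z = 0 := fun z h1 h2 h3 =>
    hout z (by simp [h1, h2]) h3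
  have hk' : k ≤ (Y.filter (fun v => 0 < f v)).card + (if 0 < f w then 1 else 0) := by
    refine hk.trans ?_
    have : (A ++ [w]).toFinset = insert w Y := by
      rw [List.toFinset_append, hAY]; ext z; simp [or_comm]
    rw [this, Finset.filter_insert]
    split_ifs with hw
    · exact Finset.card_insert_le _ _
    · simp
  set t := (Y.filter (fun y => f y = 2)).card with ht
  set n1 := (Y.filter (fun y => f y = 1)).card with hn1
  have htw : t ≤ (if 0 < f w then 1 else 0) := by omega
  by_cases ht0 : t = 0
  · exact h.not_of_le h0 hsupp (by omega) (by omega) (by have := h0 u; omega)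
      (by have := h0 w; omega) hQ
  · have hfw : 0 < f w := by
      by_contra hc
      rw [if_neg hc] at htw; omega
    rw [if_pos hfw] at htw
    by_cases hfu : 0 < f u
    · exact h.not_of_le h0 hsupp (by omega) (by omega) (by omega) (by omega) hQ
    · have e1 : f u = 0 := by have := h0 u; omega
      have e2 := h2 w
      have e3 : t = 1 := by omega
      have e4 : f w = 2 := by omega
      have e5 : ∑ y ∈ Y, f y = 2 := by omega
      obtain ⟨y, hy⟩ : (Y.filter (fun y => f y = 2)).Nonempty :=
        Finset.card_pos.1 (by omega)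
      rw [Finset.mem_filter] at hy
      have := eq_dbl h.huw h.hu h.hw h0 hsupp hy.1 hy.2 e5 e1 e4
      rw [this] at hQ
      exact hdw y hy.1 hQ

/-- stars -/
theorem SunEnv.sepS (h : SunEnv Q u w Y E) {c : V} {B : List V} (hc : c ∈ Y) (hB : B.Nodup)
    (hBY : ∀ b, b ∈ B ↔ b ∈ Y ∧ b ≠ c) (hEB : ∀ b ∈ B, ∀ b' ∈ B, ¬ E b b')
    (hdu : ∀ b ∈ B, ¬ Q (dbl u b)) (hdw : ∀ b ∈ B, ¬ Q (dbl w b)) {f : V → ℤ}
    (hf : Toks (stoks c [u, w] B) f) : ¬ Q f := by
  intro hQ
  have huB : u ∉ B := fun h' => h.hu ((hBY u).1 h').1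
  have hwB : w ∉ B := fun h' => h.hw ((hBY w).1 h').1
  have hcu : c ≠ u := fun e => h.hu (e ▸ hc)
  have hcw : c ≠ w := fun e => h.hw (e ▸ hc)
  have hcB : c ∉ B := fun h' => ((hBY c).1 h').2 rfl
  have hnd : (c :: ([u, w] ++ B)).Nodup := by
    simp only [List.cons_append, List.nil_append, List.nodup_cons, List.mem_cons]
    exact ⟨by push Not; exact ⟨hcu, hcw, hcB⟩, by push Not; exact ⟨h.huw, huB⟩, hwB, hB⟩
  rw [stoks_eq hnd] at hf
  have hdis : Disjoint ({u, w} : Finset V) Y := by
    rw [Finset.disjoint_left]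
    intro z hz
    rw [Finset.mem_insert, Finset.mem_singleton] at hz
    rcases hz with rfl | rfl
    · exact h.hu
    · exact h.hw
  have h0 := hf.nonneg
  have h2 := h.le f hQ
  obtain ⟨k, hk, hX, hY, hout⟩ := toks_cnt (List.nodup_cons.1 hnd).2 hdis (by
    intro v hv x hx
    by_cases hvA : v ∈ [u, w]
    · rw [if_pos hvA] at hx
      left
      refine ⟨by simpa using hvA, ?_⟩
      rcases List.mem_cons.1 hx with rfl | hx
      · exact hc
      · exact ((hBY x).1 hx).1
    · rw [if_neg hvA] at hx
      right
      rcases List.mem_append.1 hv with hv | hv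
      · exact absurd hv hvA
      · exact ⟨((hBY v).1 hv).1, by simpa using hx⟩) hf
  rw [Finset.sum_pair h.huw] at hX
  obtain ⟨c1, c2⟩ := cnt_values (Y := Y) h0 h2
  have hsupp : ∀ z, z ≠ u → z ≠ w → z ∉ Y → f z = 0 := fun z h1 h2 h3 =>
    hout z (by simp [h1, h2]) h3
  have hk' : k + (if 0 < f c then 1 else 0) ≤ (Y.filter (fun v => 0 < f v)).card +
      ((if 0 < f u then 1 else 0) + (if 0 < f w then 1 else 0)) := by
    have e1 : ([u, w] ++ B).toFinset = insert u (insert w (Y.erase c)) := by
      ext z
      simp only [List.cons_append, List.nil_append, List.toFinset_cons, Finset.mem_insert,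
        List.mem_toFinset, hBY, Finset.mem_erase]
      tauto
    rw [e1, Finset.filter_insert, Finset.filter_insert] at hk
    have e2 : ((Y.erase c).filter (fun v => 0 < f v)).card + (if 0 < f c then 1 else 0) =
        (Y.filter (fun v => 0 < f v)).card := by
      rw [Finset.filter_erase]
      by_cases hfc : 0 < f c
      · rw [if_pos hfc]
        exact Finset.card_erase_add_one (Finset.mem_filter.2 ⟨hc, hfc⟩)
      · rw [if_neg hfc, Finset.erase_eq_of_notMem]
        · rfl
        · rw [Finset.mem_filter]; exact fun h => hfc h.2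
    have e3 : (if 0 < f u then insert u (if 0 < f w then insert w
        ((Y.erase c).filter (fun v => 0 < f v)) else ((Y.erase c).filter (fun v => 0 < f v)))
        else (if 0 < f w then insert w
        ((Y.erase c).filter (fun v => 0 < f v)) else
        ((Y.erase c).filter (fun v => 0 < f v)))).card ≤
        ((Y.erase c).filter (fun v => 0 < f v)).card + ((if 0 < f u then 1 else 0) +
        (if 0 < f w then 1 else 0)) := by
      have i1 := Finset.card_insert_le w ((Y.erase c).filter (fun v => 0 < f v))
      split_ifs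
      · have := Finset.card_insert_le u (insert w ((Y.erase c).filter (fun v => 0 < f v)))
        omega
      · have := Finset.card_insert_le u ((Y.erase c).filter (fun v => 0 < f v))
        omega
      · omega
      · omega
    omega
  set t := (Y.filter (fun y => f y = 2)).card with ht
  set n1 := (Y.filter (fun y => f y = 1)).card with hn1
  have htw : t + (if 0 < f c then 1 else 0) ≤ (if 0 < f u then 1 else 0) +
    (if 0 < f w then 1 else 0) := by omega
  have hu0 := h0 u
  have hw0 := h0 w
  have hu2 := h2 u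
  have hw2 := h2 w
  by_cases ht0 : t = 0
  · exact h.not_of_le h0 hsupp (by omega) (by omega) (by omega) (by omega) hQ
  · obtain ⟨y, hy⟩ : (Y.filter (fun y => f y = 2)).Nonempty := Finset.card_pos.1 (by omega)
    rw [Finset.mem_filter] at hy
    by_cases ht1 : t = 1
    · by_cases hfu : 0 < f u
      · by_cases hfw : 0 < f w
        · exact h.not_of_le h0 hsupp (by omega) (by omega) (by omega) (by omega) hQ
        · rw [if_pos hfu, if_neg hfw] at htw
          have hfc : ¬ 0 < f c := by intro hfc; rw [if_pos hfc] at htw; omega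
          have hyc : y ≠ c := by rintro rfl; omega
          have := eq_dbl h.huw.symm h.hw h.hu h0 (fun z a b => hsupp z b a) hy.1 hy.2
            (by omega) (by omega) (by omega)
          rw [this] at hQ
          exact hdu y ((hBY y).2 ⟨hy.1, hyc⟩) hQ
      · have hfw : 0 < f w := by
          by_contra hfw
          rw [if_neg hfu, if_neg hfw] at htw; omega
        rw [if_neg hfu, if_pos hfw] at htw
        have hfc : ¬ 0 < f c := by intro hfc; rw [if_pos hfc] at htw; omega
        have hyc : y ≠ c := by rintro rfl; omega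
        have := eq_dbl h.huw h.hu h.hw h0 hsupp hy.1 hy.2
          (by omega) (by omega) (by omega)
        rw [this] at hQ
        exact hdw y ((hBY y).2 ⟨hy.1, hyc⟩) hQ
    · have hfu : 0 < f u := by
        by_contra hfu; rw [if_neg hfu] at htw; split_ifs at htw <;> omega
      have hfw : 0 < f w := by
        by_contra hfw; rw [if_neg hfw] at htw; split_ifs at htw <;> omega
      rw [if_pos hfu, if_pos hfw] at htw
      have hfc : ¬ 0 < f c := by intro hfc; rw [if_pos hfc] at htw; omega
      have ht2 : t = 2 := by omega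
      have hn10 : n1 = 0 := by omega
      have hcard : (Y.filter (fun y => f y = 2)).card = 2 := by omega
      obtain ⟨i, j, hij, hYij⟩ := Finset.card_eq_two.1 hcard
      have hi : i ∈ Y.filter (fun y => f y = 2) := by rw [hYij]; simp
      have hj : j ∈ Y.filter (fun y => f y = 2) := by rw [hYij]; simp
      rw [Finset.mem_filter] at hi hj
      have hic : i ≠ c := by rintro rfl; omega
      have hjc : j ≠ c := by rintro rfl; omega
      refine h.sq_not hi.1 hj.1 hij (hEB i ((hBY i).2 ⟨hi.1, hic⟩) j ((hBY j).2 ⟨hj.1, hjc⟩)) ?_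
      have : f = fun z => 2 * ind u z + 2 * ind w z + 2 * ind i z + 2 * ind j z := by
        funext z
        have hui : u ≠ i := fun e => h.hu (e ▸ hi.1)
        have huj : u ≠ j := fun e => h.hu (e ▸ hj.1)
        have hwi : w ≠ i := fun e => h.hw (e ▸ hi.1)
        have hwj : w ≠ j := fun e => h.hw (e ▸ hj.1)
        by_cases hzu : z = u
        · rw [hzu, ind_self, ind_ne h.huw, ind_ne hui, ind_ne huj]; omega
        by_cases hzw : z = w
        · rw [hzw, ind_self, ind_ne h.huw.symm, ind_ne hwi, ind_ne hwj]; omega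
        by_cases hzi : z = i
        · rw [hzi, ind_self, ind_ne hui.symm, ind_ne hwi.symm, ind_ne hij]; omega
        by_cases hzj : z = j
        · rw [hzj, ind_self, ind_ne huj.symm, ind_ne hwj.symm, ind_ne hij.symm]; omega
        rw [ind_ne hzu, ind_ne hzw, ind_ne hzi, ind_ne hzj]
        by_cases hzY : z ∈ Y
        · have n2 : f z ≠ 2 := by
            intro he
            have : z ∈ Y.filter (fun y => f y = 2) := Finset.mem_filter.2 ⟨hzY, he⟩
            rw [hYij] at this
            simp [hzi, hzj] at this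
          have n1' : f z ≠ 1 := by
            intro he
            have : z ∈ Y.filter (fun y => f y = 1) := Finset.mem_filter.2 ⟨hzY, he⟩
            have := Finset.card_pos.2 ⟨z, this⟩
            omega
          have := h0 z
          have := h2 z
          omega
        · rw [hsupp z hzu hzw hzY]; ring
      rw [this] at hQ
      exact hQ

end H999
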