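import Pool.Agent.H999_TwoFactor.Relax

/-!
The vectors realised by the tokens of a `K_4` avoid the environment.
-/

namespace H999

open Finset

set_option linter.all false

variable {V : Type*} [DecidableEq V]

theorem toks_rep_cnt {l : List V} {L : Finset V} (hl : ∀ v, v ∈ l → v ∈ L) :
    ∀ (k : ℕ) {f : V → ℤ}, Toks (List.replicate k (l, l)) f →
    ∑ x ∈ L, f x ≤ 2 * k ∧ ∀ z, z ∉ L → f z = 0 := by
  intro k
  induction k with
  | zero =>
    intro f h
    have h : ∀ z, f z = 0 := h
    exact ⟨by simp [h], fun z _ => h z⟩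
  | succ k ih =>
    intro f h
    rw [List.replicate_succ] at h
    obtain ⟨x, t, hx, ht, hf⟩ := h
    obtain ⟨h1, h2⟩ := ih hx
    have hsum : ∑ z ∈ L, f z = ∑ z ∈ L, x z + ∑ z ∈ L, t z := by
      rw [← Finset.sum_add_distrib]
      exact Finset.sum_congr rfl fun z _ => hf z
    rcases ht with ht | ⟨a, ha, b, hb, ht⟩
    · refine ⟨?_, fun z hz => ?_⟩
      · rw [hsum]; simp only [ht]; push_cast; simp; omega
      · rw [hf, h2 z hz, ht]; ring
    · have e1 : ∑ z ∈ L, t z = 2 := by
        simp only [ht]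
        rw [Finset.sum_add_distrib, sum_ind_mem (hl a ha), sum_ind_mem (hl b hb)]; rfl
      refine ⟨?_, fun z hz => ?_⟩
      · rw [hsum, e1]; push_cast; omega
      · rw [hf, h2 z hz, ht, ind_ne (by rintro rfl; exact hz (hl _ ha)),
          ind_ne (by rintro rfl; exact hz (hl _ hb))]; ring

theorem card_ins3 {α : Type*} [DecidableEq α] (a b c : α) : (insert a (insert b {c}) : Finset α).card ≤ 3 := by
  refine (Finset.card_insert_le _ _).trans ?_
  have := Finset.card_insert_le b ({c} : Finset α)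
  simp at this ⊢
  omega

theorem sepK {Q : (V → ℤ) → Prop} {L : Finset V} (hL : L.card = 4) (hQ : JS Q)
    (hle : ∀ f, Q f → ∀ z, f z ≤ 2) (seed : Q (fun z => if z ∈ L then 2 else 0))
    (bad : ∀ F : Finset (Sym2 V), F.card ≤ 3 →
      (∀ e ∈ F, ∃ x ∈ L, ∃ y ∈ L, x ≠ y ∧ e = s(x, y)) → ¬ Q (fun z => dg F z))
    {f : V → ℤ} (h0 : ∀ z, 0 ≤ f z) (hsum : ∑ x ∈ L, f x ≤ 6) (hout : ∀ z, z ∉ L → f z = 0) :
    ¬ Q f := by
  intro hf
  have h2 := hle f hf
  obtain ⟨w, hw, hfw⟩ : ∃ w ∈ L, f w < 2 := by
    by_contra hcon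
    push Not at hcon
    have : ∑ x ∈ L, (2 : ℤ) ≤ ∑ x ∈ L, f x := Finset.sum_le_sum hcon
    rw [Finset.sum_const, hL] at this
    simp at this; omega
  obtain ⟨v, τ, hτ, h3, h4⟩ := hQ _ _ seed hf w (-1) (Or.inr rfl)
  have hv : v ∈ L := by
    by_contra hv
    have hvw : v ≠ w := by rintro rfl; exact hv hw
    rw [if_neg hv, hout v hv, ind_ne hvw] at h3
    simp at h3
  rw [if_pos hv] at h3
  have hempty : ∀ z : V, dg (∅ : Finset (Sym2 V)) z = 0 := fun z => by simp [dg]
  by_cases hvw : v = w
  · subst hvw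
    rw [ind_self] at h3
    have hτ1 : τ = -1 := by
      rcases hτ with rfl | rfl
      · omega
      · rfl
    subst hτ1
    have hc : (L.erase v).card = 3 := by rw [Finset.card_erase_of_mem hv]; omega
    obtain ⟨x, y, t, hxy, hxt, hyt, hLe⟩ := Finset.card_eq_three.1 hc
    have mx : x ∈ L.erase v := by rw [hLe]; simp
    have my : y ∈ L.erase v := by rw [hLe]; simp
    have mt : t ∈ L.erase v := by rw [hLe]; simp
    rw [Finset.mem_erase] at mx my mt
    refine bad {s(x, y), s(y, t), s(x, t)} (card_ins3 _ _ _) ?_ ?_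
    · intro e he
      simp only [Finset.mem_insert, Finset.mem_singleton] at he
      rcases he with rfl | rfl | rfl
      · exact ⟨x, mx.2, y, my.2, hxy, rfl⟩
      · exact ⟨y, my.2, t, mt.2, hyt, rfl⟩
      · exact ⟨x, mx.2, t, mt.2, hxt, rfl⟩
    · have : (fun z => dg ({s(x, y), s(y, t), s(x, t)} : Finset (Sym2 V)) z) =
          (fun z => (if z ∈ L then 2 else 0) + -1 * ind v z + -1 * ind v z) := by
        funext z
        have n1 : s(x, y) ∉ ({s(y, t), s(x, t)} : Finset (Sym2 V)) := by
          rw [Finset.mem_insert, Finset.mem_singleton]; push Not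
          exact ⟨mk_ne hxy hxt, mk_ne' hxy.symm hyt⟩
        have n2 : s(y, t) ∉ ({s(x, t)} : Finset (Sym2 V)) := by
          rw [Finset.mem_singleton]; exact mk_ne hxy.symm hyt
        rw [dg_insert hxy n1, dg_insert hyt n2,
          ← Finset.insert_empty, dg_insert hxt (Finset.notMem_empty _), hempty]
        have hz : (z ∈ L) ↔ (z = v ∨ z = x ∨ z = y ∨ z = t) := by
          rw [← Finset.insert_erase hv, hLe]; simp
        by_cases hzL : z ∈ L
        · rw [if_pos hzL]
          rcases hz.1 hzL with rfl | rfl | rfl | rfl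
          · rw [ind_self, ind_ne mx.1.symm, ind_ne my.1.symm, ind_ne mt.1.symm]; ring
          · rw [ind_self, ind_ne hxy, ind_ne hxt, ind_ne mx.1]; ring
          · rw [ind_self, ind_ne hxy.symm, ind_ne hyt, ind_ne my.1]; ring
          · rw [ind_self, ind_ne hxt.symm, ind_ne hyt.symm, ind_ne mt.1]; ring
        · rw [if_neg hzL]
          have : z ≠ v ∧ z ≠ x ∧ z ≠ y ∧ z ≠ t := by
            constructor
            · rintro rfl; exact hzL hv
            refine ⟨?_, ?_, ?_⟩
            · rintro rfl; exact hzL mx.2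
            · rintro rfl; exact hzL my.2
            · rintro rfl; exact hzL mt.2
          rw [ind_ne this.1, ind_ne this.2.1, ind_ne this.2.2.1, ind_ne this.2.2.2]; ring
      rw [this]
      exact h4
  · rw [ind_ne hvw] at h3
    have hv2 := h2 v
    have hτ1 : τ = -1 := by
      rcases hτ with rfl | rfl
      · omega
      · rfl
    subst hτ1
    have hwv : v ∈ L.erase w := Finset.mem_erase.2 ⟨hvw, hv⟩
    have hc : ((L.erase w).erase v).card = 2 := by
      rw [Finset.card_erase_of_mem hwv, Finset.card_erase_of_mem hw]; omega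
    obtain ⟨x, y, hxy, hLe⟩ := Finset.card_eq_two.1 hc
    have mx : x ∈ (L.erase w).erase v := by rw [hLe]; simp
    have my : y ∈ (L.erase w).erase v := by rw [hLe]; simp
    rw [Finset.mem_erase, Finset.mem_erase] at mx my
    obtain ⟨hxv, hxw, hxL⟩ := mx
    obtain ⟨hyv, hyw, hyL⟩ := my
    refine bad {s(w, x), s(x, y), s(y, v)} (card_ins3 _ _ _) ?_ ?_
    · intro e he
      simp only [Finset.mem_insert, Finset.mem_singleton] at he
      rcases he with rfl | rfl | rfl
      · exact ⟨w, hw, x, hxL, hxw.symm, rfl⟩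
      · exact ⟨x, hxL, y, hyL, hxy, rfl⟩
      · exact ⟨y, hyL, v, hv, hyv, rfl⟩
    · have : (fun z => dg ({s(w, x), s(x, y), s(y, v)} : Finset (Sym2 V)) z) =
          (fun z => (if z ∈ L then 2 else 0) + -1 * ind w z + -1 * ind v z) := by
        funext z
        have n1 : s(w, x) ∉ ({s(x, y), s(y, v)} : Finset (Sym2 V)) := by
          rw [Finset.mem_insert, Finset.mem_singleton]; push Not
          exact ⟨mk_ne hxw.symm hyw.symm, mk_ne hyw.symm (Ne.symm hvw)⟩
        have n2 : s(x, y) ∉ ({s(y, v)} : Finset (Sym2 V)) := by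
          rw [Finset.mem_singleton]; exact mk_ne hxy hxv
        rw [dg_insert hxw.symm n1, dg_insert hxy n2,
          ← Finset.insert_empty, dg_insert hyv (Finset.notMem_empty _), hempty]
        have hz : (z ∈ L) ↔ (z = w ∨ z = v ∨ z = x ∨ z = y) := by
          rw [← Finset.insert_erase hw, ← Finset.insert_erase hwv, hLe]; simp
        by_cases hzL : z ∈ L
        · rw [if_pos hzL]
          rcases hz.1 hzL with rfl | rfl | rfl | rfl
          · rw [ind_self, ind_ne hxw.symm, ind_ne hyw.symm, ind_ne (Ne.symm hvw)]; ring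
          · rw [ind_self, ind_ne hvw, ind_ne hxv.symm, ind_ne hyv.symm]; ring
          · rw [ind_self, ind_ne hxw, ind_ne hxy, ind_ne hxv]; ring
          · rw [ind_self, ind_ne hyw, ind_ne hxy.symm, ind_ne hyv]; ring
        · rw [if_neg hzL]
          have : z ≠ w ∧ z ≠ v ∧ z ≠ x ∧ z ≠ y := by
            constructor
            · rintro rfl; exact hzL hw
            refine ⟨?_, ?_, ?_⟩
            · rintro rfl; exact hzL hv
            · rintro rfl; exact hzL hxL
            · rintro rfl; exact hzL hyL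
          rw [ind_ne this.1, ind_ne this.2.1, ind_ne this.2.2.1, ind_ne this.2.2.2]; ring
      rw [this]
      exact h4

end H999
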