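import Pool.Agent.H999_TwoFactor.Vf

/-!
Separation lemmas for sunflowers of 4-cycles `u i w j`.
-/

namespace H999

open Finset

set_option linter.all false

variable {V : Type*} [DecidableEq V]

/-- the environment of a family of 4-cycles `u i w j` -/
structure SunEnv (Q : (V → ℤ) → Prop) (u w : V) (Y : Finset V) (E : V → V → Prop) : Prop where
  js : JS Q
  huw : u ≠ w
  hu : u ∉ Y
  hw : w ∉ Y
  le : ∀ f, Q f → ∀ z, f z ≤ 2
  mem : ∀ i j, E i j → i ∈ Y ∧ j ∈ Y ∧ i ≠ j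
  symm : ∀ i j, E i j → E j i
  seed : ∀ i j, E i j → Q (fun z => 2 * ind u z + 2 * ind w z + 2 * ind i z + 2 * ind j z)
  bad : ∀ P R : Finset V, P ⊆ Y → R ⊆ Y → (∀ i ∈ P ∩ R, ∀ j ∈ P ∩ R, ¬ E i j) →
    ¬ Q (fun z => dg (KF u w P R) z)

/-- double edge -/
def dbl (a b : V) (z : V) : ℤ := 2 * ind a z + 2 * ind b z

variable {Q : (V → ℤ) → Prop} {u w : V} {Y : Finset V} {E : V → V → Prop}

theorem SunEnv.swap (h : SunEnv Q u w Y E) : SunEnv Q w u Y E where
  js := h.js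
  huw := h.huw.symm
  hu := h.hw
  hw := h.hu
  le := h.le
  mem := h.mem
  symm := h.symm
  seed i j hij := by
    have : (fun z => 2 * ind w z + 2 * ind u z + 2 * ind i z + 2 * ind j z) =
        (fun z => 2 * ind u z + 2 * ind w z + 2 * ind i z + 2 * ind j z) := by
      funext z; ring
    rw [this]; exact h.seed i j hij
  bad P R hP hR hPR := by
    rw [KF_swap]
    exact h.bad R P hR hP (by rw [Finset.inter_comm]; exact hPR)

theorem SunEnv.notNeg (h : SunEnv Q u w Y E) {ys : List V} (hys : ∀ y ∈ ys, y ∈ Y)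
    (hnd : ys.Nodup) {X : List ℤ} (hlen : X.length = (u :: w :: ys).length)
    (hX : negD X = true) : ¬ Q (vf (u :: w :: ys) X) := by
  have hnd' : (u :: w :: ys).Nodup := by
    rw [List.nodup_cons, List.nodup_cons, List.mem_cons]
    push Not
    exact ⟨⟨h.huw, fun h' => h.hu (hys u h')⟩, fun h' => h.hw (hys w h'), hnd⟩
  obtain ⟨P, R, h1, h2, h3, h4⟩ := negD_spec hnd' hlen hX
  have h5 : vf (u :: w :: ys) X = fun z => dg (KF u w P R) z := by funext z; rw [h4]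
  rw [h5]
  refine h.bad P R (fun y hy => hys y (h1 y hy)) (fun y hy => hys y (h2 y hy)) ?_
  intro i hi j hj hij
  exact (h.mem i j hij).2.2 (Finset.card_le_one.1 h3 i hi j hj)

theorem SunEnv.sq_not (h : SunEnv Q u w Y E) {j k : V} (hj : j ∈ Y) (hk : k ∈ Y) (hjk : j ≠ k)
    (hE : ¬ E j k) : ¬ Q (fun z => 2 * ind u z + 2 * ind w z + 2 * ind j z + 2 * ind k z) := by
  have hsub : ({j, k} : Finset V) ⊆ Y := by
    intro y hy; simp only [Finset.mem_insert, Finset.mem_singleton] at hy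
    rcases hy with rfl | rfl <;> assumption
  have hb := h.bad {j, k} {j, k} hsub hsub (by
    intro a ha b hb hab
    simp only [Finset.inter_self, Finset.mem_insert, Finset.mem_singleton] at ha hb
    have hne := (h.mem a b hab).2.2
    rcases ha with rfl | rfl <;> rcases hb with rfl | rfl
    · exact hne rfl
    · exact hE hab
    · exact hE (h.symm _ _ hab)
    · exact hne rfl)
  have he : (fun z => dg (KF u w {j, k} {j, k}) z) =
      (fun z => 2 * ind u z + 2 * ind w z + 2 * ind j z + 2 * ind k z) := by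
    funext z
    rw [dg_KF h.huw (fun h' => h.hu (hsub h')) (fun h' => h.hu (hsub h'))
      (fun h' => h.hw (hsub h')) (fun h' => h.hw (hsub h')), Finset.card_pair hjk]
    have e1 : (if z ∈ ({j, k} : Finset V) then (1 : ℤ) else 0) = ind j z + ind k z := by
      unfold ind
      by_cases h1 : z = j
      · subst h1; simp [hjk]
      · by_cases h2 : z = k
        · subst h2; simp [h1]
        · simp [h1, h2]
    rw [e1]; push_cast; ring
  rw [he] at hb
  exact hb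

def dS1 : Der :=
    .one [2, 2, 2, 2] [2, 0, 2, 0] 1 false <|
    .one [2, 2, 2, 2] [2, 0, 2, 0] 3 false <|
    .one [2, 2, 2, 2] [0, 2, 0, 2] 0 false <|
    .one [2, 2, 2, 2] [0, 2, 0, 2] 2 false <|
    .one [2, 0, 2, 2] [2, 2, 0, 2] 2 false <|
    .one [2, 0, 2, 0] [2, 0, 0, 2] 2 false <|
    .one [0, 2, 0, 2] [2, 0, 0, 2] 1 false <|
    .one [2, 2, 2, 0] [0, 2, 2, 2] 0 false <|
    .one [2, 0, 2, 0] [0, 2, 2, 0] 0 false <|
    .one [0, 2, 0, 2] [0, 2, 2, 0] 3 false <|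
    .one [2, 0, 0, 0] [0, 2, 0, 2] 0 false <|
    .one [2, 2, 2, 2] [1, 1, 0, 0] 0 false <|
    .one [2, 0, 2, 0] [1, 1, 0, 0] 0 false .stop

def dS2 : Der :=
    .one [2, 2, 2, 2, 0] [2, 2, 2, 0, 2] 3 false <|
    .one [2, 2, 2, 2, 0] [2, 2, 2, 0, 2] 4 true <|
    .one [2, 2, 2, 2, 0] [2, 0, 0, 2, 0] 1 false <|
    .one [2, 2, 2, 2, 0] [2, 0, 0, 2, 0] 2 false <|
    .one [2, 2, 2, 0, 0] [2, 0, 2, 2, 0] 1 false <|
    .one [2, 2, 2, 0, 2] [2, 0, 2, 0, 0] 1 false <|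
    .one [2, 0, 0, 2, 0] [2, 0, 2, 0, 0] 3 false <|
    .one [2, 2, 2, 2, 2] [2, 0, 0, 2, 0] 2 false <|
    .one [2, 2, 2, 2, 0] [2, 1, 1, 2, 2] 1 false <|
    .one [2, 2, 2, 2, 0] [2, 1, 1, 2, 2] 2 false .stop

def dS3 : Der :=
    .one [2, 2, 2, 2, 0] [2, 2, 2, 0, 2] 3 false <|
    .one [2, 2, 2, 2, 0] [2, 2, 2, 0, 2] 4 true <|
    .one [2, 2, 2, 2, 0] [2, 2, 0, 2, 2] 2 false <|
    .one [2, 2, 2, 2, 0] [2, 0, 2, 0, 0] 1 false <|
    .one [2, 2, 2, 2, 0] [0, 2, 2, 0, 0] 0 false <|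
    .one [2, 2, 2, 0, 2] [2, 2, 0, 2, 2] 2 false <|
    .one [2, 2, 2, 0, 2] [2, 0, 2, 0, 0] 1 false <|
    .one [2, 2, 2, 0, 2] [0, 2, 2, 0, 0] 0 false <|
    .one [2, 0, 2, 0, 0] [0, 2, 2, 0, 0] 0 false <|
    .one [2, 2, 0, 2, 0] [2, 0, 2, 2, 0] 1 false <|
    .one [2, 2, 0, 2, 2] [2, 0, 0, 2, 0] 1 false <|
    .one [2, 0, 2, 0, 0] [2, 0, 0, 2, 0] 2 false <|
    .one [2, 2, 0, 2, 0] [0, 2, 2, 2, 0] 0 false <|
    .one [2, 2, 0, 2, 2] [0, 2, 0, 2, 0] 0 false <|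
    .one [0, 2, 2, 0, 0] [0, 2, 0, 2, 0] 2 false <|
    .one [2, 2, 0, 0, 2] [2, 0, 2, 0, 2] 1 false <|
    .one [2, 2, 0, 0, 2] [0, 2, 2, 0, 2] 0 false <|
    .one [0, 0, 2, 0, 0] [2, 2, 0, 2, 0] 2 false <|
    .one [2, 2, 2, 2, 0] [0, 0, 1, 1, 0] 2 false <|
    .one [2, 2, 2, 0, 2] [0, 0, 1, 1, 0] 2 false <|
    .one [2, 2, 2, 2, 0] [2, 2, 1, 0, 1] 4 true .stop

def dM : Der :=
    .two [2, 2, 2, 2, 0, 0] [2, 2, 0, 0, 2, 2] 2 false
    (.one [2, 2, 0, 0, 2, 2] [2, 2, 0, 2, 0, 0] 3 true <|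
    .one [2, 2, 0, 2, 0, 0] [2, 2, 0, 2, 2, 2] 4 true <|
    .one [2, 2, 2, 2, 0, 0] [2, 2, 0, 2, 2, 0] 4 true <|
    .one [2, 2, 0, 0, 2, 2] [2, 2, 0, 2, 2, 0] 5 false <|
    .one [2, 2, 0, 2, 0, 0] [2, 2, 0, 2, 2, 2] 5 true <|
    .one [2, 2, 2, 2, 0, 0] [2, 2, 0, 2, 0, 2] 5 true <|
    .one [2, 2, 0, 0, 2, 2] [2, 2, 0, 2, 0, 2] 4 false <|
    .one [2, 2, 2, 2, 2, 0] [2, 2, 0, 0, 2, 2] 3 false <|
    .one [2, 2, 2, 2, 0, 0] [2, 2, 2, 1, 2, 1] 3 false .stop)
    (.one [2, 2, 0, 0, 2, 2] [2, 2, 1, 1, 0, 0] 2 true <|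
    .one [2, 2, 1, 1, 0, 0] [2, 2, 1, 1, 2, 2] 4 true .stop)


theorem chk1 : run negD 4 dS1 [[2, 2, 2, 2], [2, 0, 2, 0], [0, 2, 0, 2]] = true := by decide

theorem chk2 : run (fun X => negD X || decide (X = [2, 2, 0, 2, 2])) 5 dS2
    [[2, 2, 2, 2, 0], [2, 2, 2, 0, 2], [2, 0, 0, 2, 0]] = true := by decide

theorem chk3 : run negD 5 dS3
    [[2, 2, 2, 2, 0], [2, 2, 2, 0, 2], [2, 2, 0, 2, 2], [2, 0, 2, 0, 0], [0, 2, 2, 0, 0]] =
    true := by decide

theorem chk4 : run (fun X => negD X || decide (X = [2, 2, 2, 0, 2, 0])) 6 dM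
    [[2, 2, 2, 2, 0, 0], [2, 2, 0, 0, 2, 2]] = true := by decide

/-- opposite double edges -/
theorem SunEnv.S1 (h : SunEnv Q u w Y E) {i j : V} (hij : E i j) (h1 : Q (dbl u i))
    (h2 : Q (dbl w j)) : False := by
  obtain ⟨hi, hj, hne⟩ := h.mem i j hij
  have hys : ∀ y ∈ [i, j], y ∈ Y := by
    intro y hy; simp only [List.mem_cons, List.not_mem_nil, or_false] at hy
    rcases hy with rfl | rfl <;> assumption
  have hnd : [i, j].Nodup := by simp [hne]
  have hnd' : (u :: w :: [i, j]).Nodup := by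
    have := h.huw
    have a1 : u ≠ i := fun e => h.hu (e ▸ hi)
    have a2 : u ≠ j := fun e => h.hu (e ▸ hj)
    have a3 : w ≠ i := fun e => h.hw (e ▸ hi)
    have a4 : w ≠ j := fun e => h.hw (e ▸ hj)
    simp [*]
  refine run_sound h.js hnd' (neg := negD) (fun Z hZ hn => h.notNeg hys hnd hZ hn) dS1
    [[2, 2, 2, 2], [2, 0, 2, 0], [0, 2, 0, 2]] ?_ chk1
  intro X hX
  simp only [List.mem_cons, List.not_mem_nil, or_false] at hX
  rcases hX with rfl | rfl | rfl
  · refine ⟨rfl, ?_⟩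
    have : vf [u, w, i, j] [2, 2, 2, 2] =
        (fun z => 2 * ind u z + 2 * ind w z + 2 * ind i z + 2 * ind j z) := by
      funext z; simp only [vf]; ring
    rw [this]; exact h.seed i j hij
  · refine ⟨rfl, ?_⟩
    have : vf [u, w, i, j] [2, 0, 2, 0] = dbl u i := by
      funext z; simp only [vf, dbl]; ring
    rw [this]; exact h1
  · refine ⟨rfl, ?_⟩
    have : vf [u, w, i, j] [0, 2, 0, 2] = dbl w j := by
      funext z; simp only [vf, dbl]; ring
    rw [this]; exact h2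

/-- stars -/
theorem SunEnv.S2 (h : SunEnv Q u w Y E) {s j k : V} (hsj : E s j) (hsk : E s k) (hjk : j ≠ k)
    (hE : ¬ E j k) : ¬ Q (dbl u j) := by
  intro h1
  obtain ⟨hs, hj, hne⟩ := h.mem s j hsj
  obtain ⟨-, hk, hne'⟩ := h.mem s k hsk
  have hys : ∀ y ∈ [s, j, k], y ∈ Y := by
    intro y hy; simp only [List.mem_cons, List.not_mem_nil, or_false] at hy
    rcases hy with rfl | rfl | rfl <;> assumption
  have hnd : [s, j, k].Nodup := by simp [hne, hne', hjk]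
  have hnd' : (u :: w :: [s, j, k]).Nodup := by
    have := h.huw
    have a1 : u ≠ s := fun e => h.hu (e ▸ hs)
    have a2 : u ≠ j := fun e => h.hu (e ▸ hj)
    have a2' : u ≠ k := fun e => h.hu (e ▸ hk)
    have a3 : w ≠ s := fun e => h.hw (e ▸ hs)
    have a4 : w ≠ j := fun e => h.hw (e ▸ hj)
    have a4' : w ≠ k := fun e => h.hw (e ▸ hk)
    simp [*]
  have hq := h.sq_not hj hk hjk hE
  refine run_sound h.js hnd' (neg := fun X => negD X || decide (X = [2, 2, 0, 2, 2])) ?_ dS2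
    [[2, 2, 2, 2, 0], [2, 2, 2, 0, 2], [2, 0, 0, 2, 0]] ?_ chk2
  · intro Z hZ hn
    rw [Bool.or_eq_true] at hn
    rcases hn with hn | hn
    · exact h.notNeg hys hnd hZ hn
    · rw [decide_eq_true_eq] at hn
      subst hn
      have : vf [u, w, s, j, k] [2, 2, 0, 2, 2] =
          (fun z => 2 * ind u z + 2 * ind w z + 2 * ind j z + 2 * ind k z) := by
        funext z; simp only [vf]; ring
      rw [this]; exact hq
  intro X hX
  simp only [List.mem_cons, List.not_mem_nil, or_false] at hX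
  rcases hX with rfl | rfl | rfl
  · refine ⟨rfl, ?_⟩
    have : vf [u, w, s, j, k] [2, 2, 2, 2, 0] =
        (fun z => 2 * ind u z + 2 * ind w z + 2 * ind s z + 2 * ind j z) := by
      funext z; simp only [vf]; ring
    rw [this]; exact h.seed s j hsj
  · refine ⟨rfl, ?_⟩
    have : vf [u, w, s, j, k] [2, 2, 2, 0, 2] =
        (fun z => 2 * ind u z + 2 * ind w z + 2 * ind s z + 2 * ind k z) := by
      funext z; simp only [vf]; ring
    rw [this]; exact h.seed s k hsk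
  · refine ⟨rfl, ?_⟩
    have : vf [u, w, s, j, k] [2, 0, 0, 2, 0] = dbl u j := by
      funext z; simp only [vf, dbl]; ring
    rw [this]; exact h1

/-- three 4-cycles on a triangle -/
theorem SunEnv.S3 (h : SunEnv Q u w Y E) {i k l : V} (hik : E i k) (hil : E i l) (hkl : E k l)
    (h1 : Q (dbl u i)) (h2 : Q (dbl w i)) : False := by
  obtain ⟨hi, hk, hne⟩ := h.mem i k hik
  obtain ⟨-, hl, hne'⟩ := h.mem i l hil
  obtain ⟨-, -, hne''⟩ := h.mem k l hkl
  have hys : ∀ y ∈ [i, k, l], y ∈ Y := by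
    intro y hy; simp only [List.mem_cons, List.not_mem_nil, or_false] at hy
    rcases hy with rfl | rfl | rfl <;> assumption
  have hnd : [i, k, l].Nodup := by simp [hne, hne', hne'']
  have hnd' : (u :: w :: [i, k, l]).Nodup := by
    have := h.huw
    have a1 : u ≠ i := fun e => h.hu (e ▸ hi)
    have a2 : u ≠ k := fun e => h.hu (e ▸ hk)
    have a2' : u ≠ l := fun e => h.hu (e ▸ hl)
    have a3 : w ≠ i := fun e => h.hw (e ▸ hi)
    have a4 : w ≠ k := fun e => h.hw (e ▸ hk)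
    have a4' : w ≠ l := fun e => h.hw (e ▸ hl)
    simp [*]
  refine run_sound h.js hnd' (neg := negD) (fun Z hZ hn => h.notNeg hys hnd hZ hn) dS3
    [[2, 2, 2, 2, 0], [2, 2, 2, 0, 2], [2, 2, 0, 2, 2], [2, 0, 2, 0, 0], [0, 2, 2, 0, 0]] ?_
    chk3
  intro X hX
  simp only [List.mem_cons, List.not_mem_nil, or_false] at hX
  rcases hX with rfl | rfl | rfl | rfl | rfl
  · refine ⟨rfl, ?_⟩
    have : vf [u, w, i, k, l] [2, 2, 2, 2, 0] =
        (fun z => 2 * ind u z + 2 * ind w z + 2 * ind i z + 2 * ind k z) := by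
      funext z; simp only [vf]; ring
    rw [this]; exact h.seed i k hik
  · refine ⟨rfl, ?_⟩
    have : vf [u, w, i, k, l] [2, 2, 2, 0, 2] =
        (fun z => 2 * ind u z + 2 * ind w z + 2 * ind i z + 2 * ind l z) := by
      funext z; simp only [vf]; ring
    rw [this]; exact h.seed i l hil
  · refine ⟨rfl, ?_⟩
    have : vf [u, w, i, k, l] [2, 2, 0, 2, 2] =
        (fun z => 2 * ind u z + 2 * ind w z + 2 * ind k z + 2 * ind l z) := by
      funext z; simp only [vf]; ring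
    rw [this]; exact h.seed k l hkl
  · refine ⟨rfl, ?_⟩
    have : vf [u, w, i, k, l] [2, 0, 2, 0, 0] = dbl u i := by
      funext z; simp only [vf, dbl]; ring
    rw [this]; exact h1
  · refine ⟨rfl, ?_⟩
    have : vf [u, w, i, k, l] [0, 2, 2, 0, 0] = dbl w i := by
      funext z; simp only [vf, dbl]; ring
    rw [this]; exact h2

/-- two disjoint edges -/
theorem SunEnv.M (h : SunEnv Q u w Y E) {i j k l : V} (hij : E i j) (hkl : E k l) (hik : i ≠ k)
    (hil : i ≠ l) (hjk : j ≠ k) (hjl : j ≠ l) : E i k := by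
  by_contra hE
  obtain ⟨hi, hj, hne⟩ := h.mem i j hij
  obtain ⟨hk, hl, hne'⟩ := h.mem k l hkl
  have hys : ∀ y ∈ [i, j, k, l], y ∈ Y := by
    intro y hy; simp only [List.mem_cons, List.not_mem_nil, or_false] at hy
    rcases hy with rfl | rfl | rfl | rfl <;> assumption
  have hnd : [i, j, k, l].Nodup := by simp [*]
  have hnd' : (u :: w :: [i, j, k, l]).Nodup := by
    have := h.huw
    have a1 : u ≠ i := fun e => h.hu (e ▸ hi)
    have a2 : u ≠ j := fun e => h.hu (e ▸ hj)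
    have a2' : u ≠ k := fun e => h.hu (e ▸ hk)
    have a2'' : u ≠ l := fun e => h.hu (e ▸ hl)
    have a3 : w ≠ i := fun e => h.hw (e ▸ hi)
    have a4 : w ≠ j := fun e => h.hw (e ▸ hj)
    have a4' : w ≠ k := fun e => h.hw (e ▸ hk)
    have a4'' : w ≠ l := fun e => h.hw (e ▸ hl)
    simp [*]
  have hq := h.sq_not hi hk hik hE
  refine run_sound h.js hnd' (neg := fun X => negD X || decide (X = [2, 2, 2, 0, 2, 0])) ?_ dM
    [[2, 2, 2, 2, 0, 0], [2, 2, 0, 0, 2, 2]] ?_ chk4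
  · intro Z hZ hn
    rw [Bool.or_eq_true] at hn
    rcases hn with hn | hn
    · exact h.notNeg hys hnd hZ hn
    · rw [decide_eq_true_eq] at hn
      subst hn
      have : vf [u, w, i, j, k, l] [2, 2, 2, 0, 2, 0] =
          (fun z => 2 * ind u z + 2 * ind w z + 2 * ind i z + 2 * ind k z) := by
        funext z; simp only [vf]; ring
      rw [this]; exact hq
  intro X hX
  simp only [List.mem_cons, List.not_mem_nil, or_false] at hX
  rcases hX with rfl | rfl
  · refine ⟨rfl, ?_⟩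
    have : vf [u, w, i, j, k, l] [2, 2, 2, 2, 0, 0] =
        (fun z => 2 * ind u z + 2 * ind w z + 2 * ind i z + 2 * ind j z) := by
      funext z; simp only [vf]; ring
    rw [this]; exact h.seed i j hij
  · refine ⟨rfl, ?_⟩
    have : vf [u, w, i, j, k, l] [2, 2, 0, 0, 2, 2] =
        (fun z => 2 * ind u z + 2 * ind w z + 2 * ind k z + 2 * ind l z) := by
      funext z; simp only [vf]; ring
    rw [this]; exact h.seed k l hkl

end H999
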