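import Pool.Agent.H999_TwoFactor.ClusterT

/-!
The initial state, and the good characterisation in terms of items and tokens.
-/

namespace H999

open Finset

set_option linter.all false

variable {V : Type*} [DecidableEq V]

/-- every 2-factor inside `R` contains a member of `T` -/
def Blk (R : Set (Sym2 V)) (T : Set (Finset (Sym2 V))) : Prop :=
  ∀ N : Finset (Sym2 V), TF N → (∀ e ∈ N, e ∈ R) → ∃ Z ∈ T, Z ⊆ N

theorem tri_card_le (a b c : V) : (tri a b c).card ≤ 3 := card_ins3 _ _ _

theorem start [Fintype V] {R : Set (Sym2 V)} (h : Blk R {Z | IsQuad Z}) :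
    ∃ T : Set (Finset (Sym2 V)), T.ncard ≤ Fintype.card V ^ 4 ∧ St T R [] ∧ Str T := by
  obtain ⟨T, hTsub, hmin⟩ := (Set.toFinite {T : Set (Finset (Sym2 V)) | Blk R T}).exists_le_minimal h
  have hblk : Blk R T := hmin.prop
  have hq : ∀ Z ∈ T, IsQuad Z := fun Z hZ => hTsub hZ
  have hirr : ∀ Z ∈ T, ∃ N : Finset (Sym2 V), TF N ∧ (∀ g ∈ N, g ∈ R) ∧
      ∀ W ∈ T, W ⊆ N → W = Z := by
    intro Z hZ
    have h1 : ¬ Blk R (T \ {Z}) := by
      intro h
      have h2 := hmin.le_of_le h Set.sdiff_subset hZ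
      exact h2.2 rfl
    unfold Blk at h1
    push Not at h1
    obtain ⟨N, h2, h3, h4⟩ := h1
    refine ⟨N, h2, h3, fun W hW hsub => ?_⟩
    by_contra hne
    exact h4 W ⟨hW, hne⟩ hsub
  have hshort : ∀ Z ∈ T, Short Z := fun Z hZ => (hq Z hZ).short
  refine ⟨T, ?_, ?_, ?_⟩
  · have h1 : T ⊆ (fun p : V × V × V × V => quad p.1 p.2.1 p.2.2.1 p.2.2.2) '' Set.univ := by
      intro Z hZ
      obtain ⟨a, b, c, d, -, -, -, -, -, -, rfl⟩ := hq Z hZ
      exact ⟨(a, b, c, d), Set.mem_univ _, rfl⟩
    refine (Set.ncard_le_ncard h1 (Set.toFinite _)).trans ((Set.ncard_image_le).trans ?_)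
    rw [Set.ncard_univ, Nat.card_eq_fintype_card]
    simp only [Fintype.card_prod]
    apply le_of_eq; ring
  · refine ⟨?_, ?_⟩
    · intro henv
      obtain ⟨M, t, h1, h2, h3, h4⟩ := henv.bound
      have h3 : ∀ z, t z = 0 := h3
      obtain ⟨Z, hZ, hsub⟩ := hblk M ⟨fun h => h1.ne h, fun v => by
        have := h4 v; rw [h3] at this; omega⟩ h2
      exact h1.free Z hZ hsub
    · intro Z hZ
      obtain ⟨N, h1, h2, h3⟩ := hirr Z hZ
      refine ⟨dg N, fun _ => 0, ⟨N, ⟨fun h => h1.ne h, fun v => (h1.deg v).le, ?_⟩, h2,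
        fun z => rfl⟩, fun _ => rfl, fun z => ?_⟩
      · intro W hW hsub
        exact hW.2 (h3 W hW.1 hsub)
      · rw [h1.deg]; ring
  · refine ⟨hq, ?_, ?_⟩
    · intro Z hZ Z' hZ' hne e he he'
      have hcard : (Z ∩ Z').card ≠ 1 := by
        intro hc
        obtain ⟨⟨a, b, c, -, -, -, h1⟩, -⟩ :=
          uncrossed_of_irredundant (G := R) hshort hblk hirr hZ hZ' hne hc
        obtain ⟨a', b', c', d', e1, e2, e3, e4, e5, e6, h2⟩ := hq Z hZ
        have h3 := quad_card e1 e2 e3 e4 e5 e6
        rw [← h2, h1] at h3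
        have := tri_card_le a b c
        omega
      have hpos : 0 < (Z ∩ Z').card := Finset.card_pos.2 ⟨e, Finset.mem_inter.2 ⟨he, he'⟩⟩
      obtain ⟨e', h1, h2⟩ := Finset.exists_mem_ne (s := Z ∩ Z') (by omega) e
      rw [Finset.mem_inter] at h1
      exact ⟨e', h1.1, h1.2, h2⟩
    · intro a b c d hab hac had hbc hbd hcd h1 h2
      by_contra hnot
      obtain ⟨N1, t1, g1, o1⟩ := hirr _ h1
      obtain ⟨N2, t2, g2, o2⟩ := hirr _ h2
      have q1 : quad a b c d ⊆ N1 := by
        obtain ⟨W, hW, hWN⟩ := hblk N1 t1 g1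
        rw [← o1 W hW hWN]; exact hWN
      have q2 : quad a b d c ⊆ N2 := by
        obtain ⟨W, hW, hWN⟩ := hblk N2 t2 g2
        rw [← o2 W hW hWN]; exact hWN
      have hMd := rmQ_dg hab hac had hbc hbd hcd q1
      have hMG : Good T (rmQ N1 a b c d) := good_rm t1 o1 rmQ_sub (by rw [mem_quad]; left; rfl)
        rmQ_not
      have ha : dg (rmQ N1 a b c d) a ≤ 0 := by
        rw [hMd, t1.deg, ind_self, ind_ne hab, ind_ne hac, ind_ne had]; omega
      have hb : dg (rmQ N1 a b c d) b ≤ 0 := by
        rw [hMd, t1.deg, ind_self, ind_ne hab.symm, ind_ne hbc, ind_ne hbd]; omega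
      have hc : dg (rmQ N1 a b c d) c ≤ 0 := by
        rw [hMd, t1.deg, ind_self, ind_ne hac.symm, ind_ne hbc.symm, ind_ne hcd]; omega
      have hd : dg (rmQ N1 a b c d) d ≤ 0 := by
        rw [hMd, t1.deg, ind_self, ind_ne had.symm, ind_ne hbd.symm, ind_ne hcd.symm]; omega
      have hG := C4_good hshort hMG ha hc hb hd hac hab had hbc.symm hcd hbd hnot
      obtain ⟨W, hW, hWN⟩ := hblk (C4 (rmQ N1 a b c d) a c b d) ⟨fun h => hG.ne h, fun v => by
        rw [C4_dg ha hc hb hd hac hab had hbc.symm hcd hbd, hMd, t1.deg]; ring⟩ (by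
        intro e he
        rw [mem_C4] at he
        rcases he with rfl | rfl | rfl | rfl | he
        · exact g1 _ (q1 (by rw [mem_quad]; simp))
        · exact g2 _ (q2 (by rw [mem_quad]; right; right; right; exact Sym2.eq_swap))
        · exact g2 _ (q2 (by rw [mem_quad]; simp))
        · exact g1 _ (q1 (by rw [mem_quad]; right; left; exact Sym2.eq_swap))
        · exact g1 _ (rmQ_sub he))
      exact hG.free W hW hWN

/-- good characterisation, necessity -/
theorem char_items [Fintype V] {R : Set (Sym2 V)} (h : Blk R {Z | IsQuad Z}) :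
    ∃ its : List (Item V), (∀ it ∈ its, iok it) ∧ its.length ≤ Fintype.card V ^ 4 ∧
      ¬ Env ∅ (R \ kAll its) (its.flatMap itoks) (fun _ => 2) := by
  obtain ⟨T, h1, h2, h3⟩ := start h
  obtain ⟨its, h4, h5, h6⟩ := exists_items _ (Set.toFinite T) h1 h2 h3
  exact ⟨its, h4, h5, by simpa using h6⟩

/-- tokens of the items realise square-free 2-matchings -/
theorem realise {R : Set (Sym2 V)} : ∀ its : List (Item V), (∀ it ∈ its, iok it) → ∀ N : Finset (Sym2 V),
    (∀ {x y : V}, s(x, y) ∈ N → x ≠ y) → (∀ v, dg N v ≤ 2) → (∀ Z, IsQuad Z → ¬ Z ⊆ N) →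
    (∀ e ∈ N, e ∈ R) →
    ∃ M t, M ⊆ N ∧ (∀ e ∈ M, e ∈ R \ kAll its) ∧ Toks (its.flatMap itoks) t ∧
      ∀ z, dg M z + t z = dg N z := by
  classical
  intro its
  induction its with
  | nil =>
    intro _ N _ _ _ hNR
    refine ⟨N, fun _ => 0, Finset.Subset.refl _, ?_, fun _ => rfl, fun z => by ring⟩
    intro e he
    exact ⟨hNR e he, by simp [kAll]⟩
  | cons it its ih =>
    intro hok N hne hdeg hfree hNR
    set F := N.filter (fun e => e ∈ kE it) with hF
    set N' := N.filter (fun e => e ∉ kE it) with hN'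
    have hFN : F ⊆ N := Finset.filter_subset _ _
    have hNN : N' ⊆ N := Finset.filter_subset _ _
    have hdg : ∀ z, dg F z + dg N' z = dg N z := by
      intro z
      rw [← dg_union (Finset.disjoint_filter_filter_not N N (fun e => e ∈ kE it)),
        Finset.filter_union_filter_not_eq]
    obtain ⟨M, t, h1, h2, h3, h4⟩ := ih (fun it' h => hok it' (List.mem_cons_of_mem _ h)) N'
      (fun h => hne (hNN h)) (fun v => (dg_mono hNN v).trans (hdeg v))
      (fun Z hZ hsub => hfree Z hZ (hsub.trans hNN)) (fun e he => hNR e (hNN he))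
    have htk : Toks (itoks it) (dg F) := by
      have hFd : ∀ v, dg F v ≤ 2 := fun v => (dg_mono hFN v).trans (hdeg v)
      have hFf : ∀ Z, IsQuad Z → ¬ Z ⊆ F := fun Z hZ hsub => hfree Z hZ (hsub.trans hFN)
      have hFk : ∀ e ∈ F, e ∈ kE it := fun e he => (Finset.mem_filter.1 he).2
      have hit := hok it (by simp)
      obtain ⟨fl, s, A, B⟩ := it
      cases fl with
      | true =>
        simp only [iok, if_true] at hit
        obtain ⟨hnd, hlen⟩ := hit
        obtain ⟨b, c, d, rfl⟩ := List.length_eq_three.1 hlen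
        simp only [List.nodup_cons, List.mem_cons, List.not_mem_nil, or_false, not_or] at hnd
        obtain ⟨⟨hab, hac, had⟩, ⟨hbc, hbd⟩, hcd, -⟩ := hnd
        simp only [itoks, if_true]
        refine toks_rep 3 F ?_ ?_
        · refine card_le_three hab hac had hbc hbd hcd ?_ hFd
            (hFf _ ⟨s, b, c, d, hab, hac, had, hbc, hbd, hcd, rfl⟩)
            (hFf _ ⟨s, b, d, c, hab, had, hac, hbd, hbc, Ne.symm hcd, rfl⟩)
            (hFf _ ⟨s, c, b, d, hac, hab, had, Ne.symm hbc, hcd, hbd, rfl⟩)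
          intro e he
          have := hFk e he
          simp only [kE, if_true, Set.mem_setOf_eq, List.mem_cons, List.not_mem_nil,
            or_false] at this
          obtain ⟨x, hx, y, hy, hne, rfl⟩ := this
          rcases hx with rfl | rfl | rfl | rfl <;> rcases hy with rfl | rfl | rfl | rfl <;>
            first
              | exact absurd rfl hne
              | (simp only [Sym2.eq_iff]; simp)
        · intro e he
          have := hFk e he
          simp only [kE, if_true, Set.mem_setOf_eq] at this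
          exact this
      | false =>
        simp only [iok, Bool.false_eq_true, if_false] at hit
        obtain ⟨hnd, hlen⟩ := hit
        simp only [kE, Bool.false_eq_true, if_false] at hFk
        simp only [itoks, Bool.false_eq_true, if_false]
        rcases hlen with hlen | hlen
        · obtain ⟨u, w, rfl⟩ := List.length_eq_two.1 hlen
          refine orient2 hnd hFk hFd ?_
          intro b hb
          simp only [List.cons_append, List.nil_append, List.nodup_cons, List.mem_cons,
            not_or] at hnd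
          obtain ⟨⟨hsu, hsw, hsB⟩, ⟨huw, huB⟩, hwB, -⟩ := hnd
          refine hFf _ ⟨s, u, b, w, hsu, ?_, hsw, ?_, huw, ?_, rfl⟩
          · rintro rfl; exact hsB hb
          · rintro rfl; exact huB hb
          · rintro rfl; exact hwB hb
        · obtain ⟨b, rfl⟩ := List.length_eq_one_iff.1 hlen
          refine orient1 hnd hFk ?_
          intro a ha a' ha' hne'
          rw [List.nodup_cons, List.nodup_append, List.mem_append] at hnd
          obtain ⟨hs, hA, -, hAb⟩ := hnd
          push Not at hs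
          refine hFf _ ⟨s, a, b, a', ?_, ?_, ?_, ?_, hne', ?_, rfl⟩
          · rintro rfl; exact hs.1 ha
          · rintro rfl; exact hs.2 (by simp)
          · rintro rfl; exact hs.1 ha'
          · exact hAb a ha b (by simp)
          · exact (hAb a' ha' b (by simp)).symm
    refine ⟨M, fun z => dg F z + t z, h1.trans hNN, ?_, ?_, fun z => ?_⟩
    · intro e he
      obtain ⟨h5, h6⟩ := h2 e he
      refine ⟨h5, ?_⟩
      rintro ⟨it', hit', he'⟩
      rcases List.mem_cons.1 hit' with rfl | h
      · exact (Finset.mem_filter.1 (h1 he)).2 he'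
      · exact h6 ⟨it', h, he'⟩
    · rw [List.flatMap_cons]
      exact Toks.append.2 ⟨dg F, t, htk, h3, fun z => rfl⟩
    · beta_reduce
      have := hdg z
      have := h4 z
      omega

/-- good characterisation, sufficiency -/
theorem char_items_conv {R : Set (Sym2 V)} {its : List (Item V)} (hok : ∀ it ∈ its, iok it)
    (h : ¬ Env ∅ (R \ kAll its) (its.flatMap itoks) (fun _ => 2)) : Blk R {Z | IsQuad Z} := by
  classical
  intro N hN hNR
  by_contra hcon
  push Not at hcon
  have hfree : ∀ Z, IsQuad Z → ¬ Z ⊆ N := fun Z hZ => hcon Z hZ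
  obtain ⟨M, t, h1, h2, h3, h4⟩ := realise its hok N (fun h => hN.ne h)
    (fun v => (hN.deg v).le) hfree hNR
  refine h ⟨dg M, t, ⟨M, ⟨fun h => hN.ne (h1 h), fun v => (dg_mono h1 v).trans (hN.deg v).le,
    by simp⟩, h2, fun z => rfl⟩, h3, fun z => ?_⟩
  have := h4 z
  have := hN.deg z
  beta_reduce
  omega

end H999
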