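import Pool.Agent.H999_TwoFactor.RelaxK

/-!
Infeasible irredundant states and the replacement step.
-/

namespace H999

open Finset

set_option linter.all false

variable {V : Type*} [DecidableEq V]

/-- infeasible and irredundant -/
structure St (S : Set (Finset (Sym2 V))) (R : Set (Sym2 V)) (ts : List (List V × List V)) :
    Prop where
  inf : ¬ Env S R ts (fun _ => 2)
  wit : ∀ Z ∈ S, Env (S \ {Z}) R ts (fun _ => 2)

/-- a closed part of the family -/
structure Clus (S C : Set (Finset (Sym2 V))) (K : Set (Sym2 V)) : Prop where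
  sub : C ⊆ S
  dis : ∀ Z ∈ S, Z ∉ C → ∀ e ∈ K, e ∉ Z
  CK : ∀ Z ∈ C, ∀ e ∈ Z, e ∈ K
  cov : ∀ Z ∈ C, ∀ e ∈ K, ∃ v ∈ e, dg Z v = 2
  KC : ∀ e ∈ K, ∃ Z ∈ C, e ∈ Z

theorem dg_union {A B : Finset (Sym2 V)} (h : Disjoint A B) (z : V) :
    dg (A ∪ B) z = dg A z + dg B z := by
  unfold dg
  rw [Finset.filter_union, Finset.card_union_of_disjoint]
  · push_cast; rfl
  · exact Finset.disjoint_filter_filter h

theorem dg_quad {a b c d : V} (hab : a ≠ b) (hac : a ≠ c) (had : a ≠ d) (hbc : b ≠ c)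
    (hbd : b ≠ d) (hcd : c ≠ d) (z : V) :
    dg (quad a b c d) z = 2 * ind a z + 2 * ind b z + 2 * ind c z + 2 * ind d z := by
  have h := rmQ_dg hab hac had hbc hbd hcd (Finset.Subset.refl (quad a b c d)) z
  have h2 : rmQ (quad a b c d) a b c d = ∅ := by
    ext e
    simp only [rmQ, Finset.mem_erase, mem_quad, Finset.notMem_empty, iff_false]
    tauto
  rw [h2] at h
  have h3 : dg (∅ : Finset (Sym2 V)) z = 0 := by simp [dg]
  rw [h3] at h
  omega

theorem Good.mono' {S S' : Set (Finset (Sym2 V))} {M : Finset (Sym2 V)} (h : Good S M)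
    (hS : S' ⊆ S) : Good S' M :=
  ⟨h.ne, h.deg, fun Z hZ => h.free Z (hS hZ)⟩

/-- 4-cycles -/
def IsQuad (Z : Finset (Sym2 V)) : Prop :=
  ∃ a b c d, a ≠ b ∧ a ≠ c ∧ a ≠ d ∧ b ≠ c ∧ b ≠ d ∧ c ≠ d ∧ Z = quad a b c d

theorem IsQuad.short {Z : Finset (Sym2 V)} (h : IsQuad Z) : Short Z := Or.inr h

theorem Env.bound {S : Set (Finset (Sym2 V))} {R : Set (Sym2 V)}
    {ts : List (List V × List V)} (h : Env S R ts (fun _ => 2)) :
    ∃ M t, Good S M ∧ (∀ e ∈ M, e ∈ R) ∧ Toks ts t ∧ ∀ z, dg M z + t z = 2 := by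
  obtain ⟨x, t, ⟨M, h1, h2, h3⟩, h4, h5⟩ := h
  exact ⟨M, t, h1, h2, h4, fun z => by rw [h3]; have h6 : (2 : ℤ) = x z + t z := h5 z; omega⟩

section Step
variable {S C : Set (Finset (Sym2 V))} {K R : Set (Sym2 V)} {ts : List (List V × List V)}

/-- the environment of a part -/
def QE (S C : Set (Finset (Sym2 V))) (K R : Set (Sym2 V)) (ts : List (List V × List V))
    (f : V → ℤ) : Prop := Env (S \ C) (R \ K) ts (fun z => 2 - f z)

theorem QE.js [Fintype V] (hq : ∀ Z ∈ S, IsQuad Z) : JS (QE S C K R ts) :=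
  (Env.js (S := S \ C) (fun Z hZ => (hq Z hZ.1).short)).neg (fun _ => 2)

theorem QE.le {f : V → ℤ} (h : QE S C K R ts f) (z : V) : f z ≤ 2 := by
  have := Env.nonneg h z
  omega

theorem St.mem_R (hst : St S R ts) {Z : Finset (Sym2 V)} (hZ : Z ∈ S) :
    ∃ M t, Good (S \ {Z}) M ∧ (∀ e ∈ M, e ∈ R) ∧ Toks ts t ∧ (∀ z, dg M z + t z = 2) ∧ Z ⊆ M := by
  obtain ⟨M, t, h1, h2, h3, h4⟩ := (hst.wit Z hZ).bound
  refine ⟨M, t, h1, h2, h3, h4, ?_⟩
  by_contra hcon
  refine hst.inf ⟨dg M, t, ⟨M, ⟨h1.ne, h1.deg, ?_⟩, h2, fun z => rfl⟩, h3, fun z => (h4 z).symm⟩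
  intro Z' hZ' hsub
  by_cases h : Z' = Z
  · subst h; exact hcon hsub
  · exact h1.free Z' ⟨hZ', h⟩ hsub

theorem Clus.K_sub_R (hc : Clus S C K) (hst : St S R ts) {e : Sym2 V} (he : e ∈ K) : e ∈ R := by
  obtain ⟨Z, hZ, heZ⟩ := hc.KC e he
  obtain ⟨M, t, h1, h2, h3, h4, h5⟩ := hst.mem_R (hc.sub hZ)
  exact h2 e (h5 heZ)

theorem Clus.seed (hc : Clus S C K) (hst : St S R ts) {Z : Finset (Sym2 V)} (hZ : Z ∈ C) :
    QE S C K R ts (fun z => dg Z z) := by
  obtain ⟨M, t, h1, h2, h3, h4, h5⟩ := hst.mem_R (hc.sub hZ)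
  have hdg : ∀ z, dg (M \ Z) z + dg Z z = dg M z := by
    intro z
    rw [← dg_union Finset.sdiff_disjoint, Finset.sdiff_union_of_subset h5]
  refine ⟨dg (M \ Z), t, ⟨M \ Z, ?_, ?_, fun z => rfl⟩, h3, fun z => ?_⟩
  · refine ⟨fun h => h1.ne (Finset.sdiff_subset h), fun v =>
      (dg_mono Finset.sdiff_subset v).trans (h1.deg v), ?_⟩
    intro Z' hZ' hsub
    refine h1.free Z' ⟨hZ'.1, ?_⟩ (hsub.trans Finset.sdiff_subset)
    rintro rfl
    exact hZ'.2 hZ
  · intro e he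
    refine ⟨h2 e (Finset.sdiff_subset he), fun heK => ?_⟩
    obtain ⟨v, hv, hd⟩ := hc.cov Z hZ e heK
    have h6 := hdg v
    have h7 := h1.deg v
    have h8 : 1 ≤ dg (M \ Z) v := by
      obtain ⟨b, rfl⟩ := Sym2.mem_iff_exists.mp hv
      exact one_le_dg he
    omega
  · beta_reduce
    have := hdg z
    have := h4 z
    omega

theorem Clus.bad (hc : Clus S C K) (hst : St S R ts) {F : Finset (Sym2 V)}
    (hF : ∀ e ∈ F, e ∈ K) (hne : ∀ {x y : V}, s(x, y) ∈ F → x ≠ y) (hfree : ∀ Z ∈ C, ¬ Z ⊆ F) :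
    ¬ QE S C K R ts (fun z => dg F z) := by
  rintro ⟨x, t, ⟨M, h1, h2, h3⟩, h4, h5⟩
  have hdis : Disjoint F M := by
    rw [Finset.disjoint_left]
    intro e he he'
    exact (h2 e he').2 (hF e he)
  have hdg : ∀ z, dg (F ∪ M) z + t z = 2 := by
    intro z
    rw [dg_union hdis, h3]
    have h6 : 2 - dg F z = x z + t z := h5 z
    omega
  refine hst.inf ⟨dg (F ∪ M), t, ⟨F ∪ M, ⟨?_, ?_, ?_⟩, ?_, fun z => rfl⟩, h4,
    fun z => (hdg z).symm⟩
  · intro x y hxy
    rcases Finset.mem_union.1 hxy with h | h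
    · exact hne h
    · exact h1.ne h
  · intro v
    have := hdg v
    have := h4.nonneg v
    omega
  · intro Z hZ hsub
    by_cases hZC : Z ∈ C
    · refine hfree Z hZC ?_
      intro e he
      rcases Finset.mem_union.1 (hsub he) with h | h
      · exact h
      · exact absurd (hc.CK Z hZC e he) (h2 e h).2
    · refine h1.free Z ⟨hZ, hZC⟩ ?_
      intro e he
      rcases Finset.mem_union.1 (hsub he) with h | h
      · exact absurd he (hc.dis Z hZ hZC e (hF e h))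
      · exact h
  · intro e he
    rcases Finset.mem_union.1 he with h | h
    · exact hc.K_sub_R hst (hF e h)
    · exact (h2 e h).1

/-- replacing a part by tokens -/
theorem St.step (hst : St S R ts) (hc : Clus S C K) {tk : List (List V × List V)}
    (hrel : ∀ F : Finset (Sym2 V), (∀ e ∈ F, e ∈ K) → (∀ v, dg F v ≤ 2) → (∀ Z ∈ C, ¬ Z ⊆ F) →
      Toks tk (dg F))
    (hsep : ∀ f, Toks tk f → ¬ QE S C K R ts f) : St (S \ C) (R \ K) (ts ++ tk) := by
  classical
  refine ⟨?_, ?_⟩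
  · rintro ⟨x, t, hx, ht, h⟩
    obtain ⟨t1, t2, h1, h2, h3⟩ := Toks.append.1 ht
    refine hsep t2 h2 ⟨x, t1, hx, h1, fun z => ?_⟩
    have h6 : (2 : ℤ) = x z + t z := h z
    have := h3 z
    beta_reduce
    omega
  · intro Z hZ
    obtain ⟨M, t, h1, h2, h3, h4⟩ := (hst.wit Z hZ.1).bound
    set F := M.filter (fun e => e ∈ K) with hF
    set M' := M.filter (fun e => e ∉ K) with hM'
    have hFM : F ⊆ M := Finset.filter_subset _ _
    have hMM : M' ⊆ M := Finset.filter_subset _ _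
    have hdg : ∀ z, dg F z + dg M' z = dg M z := by
      intro z
      rw [← dg_union (Finset.disjoint_filter_filter_not M M (fun e => e ∈ K)),
        Finset.filter_union_filter_not_eq]
    have htk := hrel F (fun e he => (Finset.mem_filter.1 he).2)
      (fun v => (dg_mono hFM v).trans (h1.deg v)) (fun Z' hZ' hsub =>
        h1.free Z' ⟨hc.sub hZ', by rintro rfl; exact hZ.2 hZ'⟩ (hsub.trans hFM))
    refine ⟨dg M', fun z => t z + dg F z, ⟨M', ?_, ?_, fun z => rfl⟩,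
      Toks.append.2 ⟨t, dg F, h3, htk, fun z => rfl⟩, fun z => ?_⟩
    · refine (h1.mono hMM).mono' ?_
      intro Z' hZ'
      exact ⟨hZ'.1.1, hZ'.2⟩
    · intro e he
      rw [hM', Finset.mem_filter] at he
      exact ⟨h2 e he.1, he.2⟩
    · beta_reduce
      have := hdg z
      have := h4 z
      omega

end Step

end H999
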