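import Pool.Agent.H999_TwoFactor.TStart
import Pool.Agent.H999_TwoFactor.Check3

/-!
The verifier for 2-factors without triangles and 4-cycles.
-/

namespace H999

open Finset Pool.Agent.H622R2 Pool.Agent.NPC

set_option linter.all false

/-- is `xy` an edge of the item? -/
def inJB (it : List ℕ × List ℕ × List ℕ) (x y : ℕ) : Bool :=
  !decide (x = y) && ((decide (x ∈ it.1) && decide (y ∈ it.1 ++ it.2.1)) ||
    (decide (y ∈ it.1) && decide (x ∈ it.1 ++ it.2.1)))

/-- validity test of an item -/
def okJB (it : List ℕ × List ℕ × List ℕ) : Bool :=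
  decide (it.1 ++ it.2.1).Nodup && decide it.2.2.Nodup &&
    it.2.2.all (fun x => decide (x ∈ it.1 ++ it.2.1)) &&
    ((decide (it.1.length = 4) && decide (it.2.1.length = 0) && decide (1 ≤ it.2.2.length)) ||
      (decide (it.1.length = 2) && decide (it.2.2.length = 1)))

/-- the remaining edges -/
def edT (M : List (List Bool)) (jts : List (List ℕ × List ℕ × List ℕ))
    (its : List (Bool × ℕ × List ℕ × List ℕ)) : List (ℕ × ℕ) :=
  (edL M its).filter fun p => jts.all fun it => !inJB it p.1 p.2

/-- all tokens -/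
def TTT (M : List (List Bool)) (jts : List (List ℕ × List ℕ × List ℕ))
    (its : List (Bool × ℕ × List ℕ × List ℕ)) : List (List ℕ × List ℕ) :=
  (edT M jts its).map (fun p => ([p.1], [p.2])) ++ (jts.flatMap jtoks ++ its.flatMap itoks)

/-- certificates -/
abbrev CertT := (List (List ℕ × List ℕ × List ℕ) × List (Bool × ℕ × List ℕ × List ℕ)) ×
  (List (ℕ × ℕ) × List (ℕ × ℕ) × List ℕ)

/-- the verifier -/
def chkT (p : List (List Bool) × CertT) : Bool :=
  p.2.1.1.all okJB && (p.2.1.2.all okB &&
    chkLab p.1.length (TTT p.1 p.2.1.1 p.2.1.2) p.2.2.1 p.2.2.2.1 p.2.2.2.2)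

theorem mem_jE {V : Type*} [DecidableEq V] (it : Jtem V) (x y : V) : s(x, y) ∈ jE it ↔
    x ≠ y ∧ ((x ∈ it.1 ∧ y ∈ it.1 ++ it.2.1) ∨ (y ∈ it.1 ∧ x ∈ it.1 ++ it.2.1)) := by
  simp only [jE, Set.mem_setOf_eq]
  constructor
  · rintro ⟨a, ha, b, hb, hne, h⟩
    rw [Sym2.eq_iff] at h
    rcases h with ⟨rfl, rfl⟩ | ⟨rfl, rfl⟩
    · exact ⟨hne, Or.inl ⟨ha, hb⟩⟩
    · exact ⟨hne.symm, Or.inr ⟨ha, hb⟩⟩
  · rintro ⟨hne, ⟨h1, h2⟩ | ⟨h1, h2⟩⟩
    · exact ⟨x, h1, y, h2, hne, rfl⟩
    · exact ⟨y, h1, x, h2, hne.symm, Sym2.eq_swap⟩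

theorem inJB_iff (it : Jtem ℕ) (x y : ℕ) : inJB it x y = true ↔ s(x, y) ∈ jE it := by
  rw [mem_jE]
  simp only [inJB, Bool.and_eq_true, Bool.or_eq_true, Bool.not_eq_true', decide_eq_true_eq,
    decide_eq_false_iff_not]

theorem okJB_iff (it : Jtem ℕ) : okJB it = true ↔ jok it := by
  simp only [okJB, jok, Bool.and_eq_true, Bool.or_eq_true, decide_eq_true_eq, List.all_eq_true,
    List.length_eq_zero_iff, and_assoc]

theorem mem_edT {M : List (List Bool)} {jts : List (Jtem ℕ)} {its : List (Item ℕ)} {p : ℕ × ℕ} :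
    p ∈ edT M jts its ↔ p.2 < M.length ∧ p.1 < p.2 ∧ adjB M p.1 p.2 = true ∧
      s(p.1, p.2) ∉ kJ jts ∧ s(p.1, p.2) ∉ kAll its := by
  unfold edT
  rw [List.mem_filter, mem_edL]
  simp only [List.all_eq_true, Bool.not_eq_true']
  constructor
  · rintro ⟨⟨h1, h2, h3, h4⟩, h5⟩
    refine ⟨h1, h2, h3, ?_, h4⟩
    rintro ⟨it, hit, he⟩
    have := h5 it hit
    rw [(inJB_iff it _ _).2 he] at this
    cases this
  · rintro ⟨h1, h2, h3, h4, h5⟩
    refine ⟨⟨h1, h2, h3, h5⟩, ?_⟩
    intro it hit
    by_contra hc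
    have hc' : inJB it p.1 p.2 = true := by simpa using hc
    exact h4 ⟨it, hit, (inJB_iff it _ _).1 hc'⟩

theorem edT_nodup (M : List (List Bool)) (jts : List (Jtem ℕ)) (its : List (Item ℕ)) :
    ((edT M jts its).map (fun p => s(p.1, p.2))).Nodup := by
  have h1 := edL_nodup M its
  unfold edT
  exact h1.sublist (List.filter_sublist.map _)

theorem edT_len (M : List (List Bool)) (jts : List (Jtem ℕ)) (its : List (Item ℕ)) :
    (edT M jts its).length ≤ M.length * M.length := by
  unfold edT
  exact (List.length_filter_le _ _).trans (edL_len M its)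

theorem short_up {n : ℕ} {N : Finset (Sym2 (Fin n))} {Z : Finset (Sym2 ℕ)} (hZ : Short Z)
    (hsub : Z ⊆ up N) : ∃ Z' : Finset (Sym2 (Fin n)), Short Z' ∧ Z' ⊆ N := by
  rcases hZ with ⟨a, b, c, hab, hac, hbc, rfl⟩ | ⟨a, b, c, d, hab, hac, had, hbc, hbd, hcd, rfl⟩
  · obtain ⟨x, y, e1, rfl, rfl⟩ := mem_up.1 (hsub (show s(a, b) ∈ tri a b c by rw [mem_tri]; simp))
    obtain ⟨y', z, e2, h5, rfl⟩ := mem_up.1 (hsub (show s(y.val, c) ∈ tri x.val y.val c by rw [mem_tri]; simp))
    obtain ⟨z', x', e3, h6, h7⟩ := mem_up.1 (hsub (show s(z.val, x.val) ∈ tri x.val y.val z.val by rw [mem_tri]; simp))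
    have g1 : y = y' := Fin.ext h5
    have g2 : z = z' := Fin.ext h6
    have g3 : x = x' := Fin.ext h7
    subst g1 g2 g3
    refine ⟨tri x y z, Or.inl ⟨x, y, z, ?_, ?_, ?_, rfl⟩, ?_⟩
    · rintro rfl; exact hab rfl
    · rintro rfl; exact hac rfl
    · rintro rfl; exact hbc rfl
    · intro e he
      rw [mem_tri] at he
      rcases he with rfl | rfl | rfl
      · exact e1
      · exact e2
      · exact e3
  · obtain ⟨x, y, e1, rfl, rfl⟩ := mem_up.1 (hsub (show s(a, b) ∈ quad a b c d by rw [mem_quad]; simp))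
    obtain ⟨y', z, e2, h5, rfl⟩ := mem_up.1 (hsub (show s(y.val, c) ∈ quad x.val y.val c d by rw [mem_quad]; simp))
    obtain ⟨z', w, e3, h6, rfl⟩ := mem_up.1 (hsub (show s(z.val, d) ∈ quad x.val y.val z.val d by rw [mem_quad]; simp))
    obtain ⟨w', x', e4, h7, h8⟩ := mem_up.1 (hsub (show s(w.val, x.val) ∈ quad x.val y.val z.val w.val by rw [mem_quad]; simp))
    have g1 : y = y' := Fin.ext h5
    have g2 : z = z' := Fin.ext h6
    have g3 : w = w' := Fin.ext h7
    have g4 : x = x' := Fin.ext h8
    subst g1 g2 g3 g4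
    refine ⟨quad x y z w, Or.inr ⟨x, y, z, w, ?_, ?_, ?_, ?_, ?_, ?_, rfl⟩, ?_⟩
    · rintro rfl; exact hab rfl
    · rintro rfl; exact hac rfl
    · rintro rfl; exact had rfl
    · rintro rfl; exact hbc rfl
    · rintro rfl; exact hbd rfl
    · rintro rfl; exact hcd rfl
    · intro e he
      rw [mem_quad] at he
      rcases he with rfl | rfl | rfl | rfl
      · exact e1
      · exact e2
      · exact e3
      · exact e4

theorem chkT_sound {M : List (List Bool)} {w : CertT} (h : chkT (M, w) = true) :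
    Blk (matGraph M).edgeSet {Z | Short Z} := by
  obtain ⟨⟨jts, its⟩, lv, lt, cs⟩ := w
  simp only [chkT, Bool.and_eq_true, List.all_eq_true] at h
  obtain ⟨hj, hi, hlab⟩ := h
  intro N hN hNG
  by_contra hcon
  push Not at hcon
  have hadj : ∀ {x y : Fin M.length}, s(x, y) ∈ N → (matGraph M).Adj x y := by
    intro x y hxy
    exact hNG _ hxy
  obtain ⟨K, t, h1, h2, h3, h4⟩ := realiseT (R := Set.univ)
    (fun it hit => (okJB_iff it).1 (hj it hit)) (fun it hit => (okB_iff it).1 (hi it hit))
    (up N) (by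
      intro a b hab
      obtain ⟨x, y, hxy, rfl, rfl⟩ := mem_up.1 hab
      exact fun h => hN.ne hxy (Fin.ext h)) (by
      intro z
      by_cases hz : z < M.length
      · have := dg_up (N := N) ⟨z, hz⟩
        simp only at this
        rw [this, hN.deg]
      · rw [dg_up_ge (by omega)]; omega) (by
      intro Z hZ hsub
      obtain ⟨Z', hZ', hsub'⟩ := short_up hZ hsub
      exact hcon Z' hZ' hsub') (fun e _ => Set.mem_univ _)
  have hT : Toks (TTT M jts its) (fun z => dg K z + t z) := by
    unfold TTT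
    refine Toks.append.2 ⟨dg K, t, toks_edges _ K ?_ ?_, h3, fun z => rfl⟩
    · intro e he
      have h5 := h2 e he
      induction e using Sym2.ind with
      | _ a b =>
      obtain ⟨x, y, hxy, rfl, rfl⟩ := mem_up.1 (h1 he)
      have hA := hadj hxy
      have hne : x ≠ y := hA.1
      have hk : s(x.val, y.val) ∉ kAll its := h5.2
      have hk' : s(x.val, y.val) ∉ kJ jts := h5.1.2
      rcases lt_or_gt_of_ne (fun h : x.val = y.val => hne (Fin.ext h)) with hlt | hlt
      · refine ⟨(x.val, y.val), mem_edT.2 ⟨y.2, hlt, ?_, hk', hk⟩, rfl⟩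
        have := hA.2
        simp only [adjB, Bool.or_eq_true]
        exact this
      · refine ⟨(y.val, x.val), mem_edT.2 ⟨x.2, hlt, ?_, ?_, ?_⟩, Sym2.eq_swap⟩
        · have := hA.2
          simp only [adjB, Bool.or_eq_true]
          exact this.symm
        · rw [Sym2.eq_swap]; exact hk'
        · rw [Sym2.eq_swap]; exact hk
    · intro p hp
      have := (mem_edT.1 hp).2.1
      omega
  refine chkLab_sound hlab hT ?_
  intro z
  beta_reduce
  rw [h4 z]
  by_cases hz : z < M.length
  · rw [if_pos hz]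
    have := dg_up (N := N) ⟨z, hz⟩
    simp only at this
    rw [this, hN.deg]
  · rw [if_neg hz, dg_up_ge (by omega)]

/-- items on `Fin n` as items on `ℕ` -/
def mapJ {n : ℕ} (it : Jtem (Fin n)) : Jtem ℕ :=
  (it.1.map Fin.val, it.2.1.map Fin.val, it.2.2.map Fin.val)

theorem mapJ_ok {n : ℕ} {it : Jtem (Fin n)} (h : jok it) : jok (mapJ it) := by
  obtain ⟨h1, h2, h3, h4⟩ := h
  refine ⟨?_, h2.map Fin.val_injective, ?_, ?_⟩
  · have := h1.map Fin.val_injective
    simpa [mapJ] using this
  · intro x hx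
    simp only [mapJ] at hx ⊢
    rw [List.mem_map] at hx
    obtain ⟨v, hv, rfl⟩ := hx
    rw [← List.map_append, mem_mapv]
    exact h3 v hv
  · simp only [mapJ, List.length_map]
    rcases h4 with ⟨a, b, c⟩ | h
    · exact Or.inl ⟨a, by rw [b]; rfl, c⟩
    · exact Or.inr h

theorem mapJ_jE {n : ℕ} {it : Jtem (Fin n)} {x y : Fin n} :
    s(x.val, y.val) ∈ jE (mapJ it) ↔ s(x, y) ∈ jE it := by
  rw [mem_jE, mem_jE]
  simp only [mapJ]
  rw [← List.map_append, mem_mapv, mem_mapv, mem_mapv, mem_mapv, Ne, Ne, Fin.ext_iff]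

theorem mapJ_toks {n : ℕ} (it : Jtem (Fin n)) : jtoks (mapJ it) = (jtoks it).map mapTok := by
  obtain ⟨P, Y, S0⟩ := it
  have h0 : jtoks (mapJ (P, Y, S0)) =
      ((P.map Fin.val ++ Y.map Fin.val).filter (fun x => !decide (x ∈ S0.map Fin.val))).map
        (fun x => ([x], P.map Fin.val ++ Y.map Fin.val)) ++
      List.replicate ((S0.map Fin.val).length - 1)
        (P.map Fin.val ++ Y.map Fin.val, P.map Fin.val ++ Y.map Fin.val) := rfl
  have h2 : jtoks (P, Y, S0) =
      ((P ++ Y).filter (fun x => !decide (x ∈ S0))).map (fun x => ([x], P ++ Y)) ++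
      List.replicate (S0.length - 1) (P ++ Y, P ++ Y) := rfl
  rw [h0, h2, List.map_append, ← List.map_append, List.filter_map, List.map_map, List.map_map,
    List.length_map, List.map_replicate]
  have h1 : ∀ x ∈ P ++ Y, ((fun x : ℕ => !decide (x ∈ S0.map Fin.val)) ∘ Fin.val) x =
      (fun x : Fin n => !decide (x ∈ S0)) x := by
    intro x _
    simp only [Function.comp]
    congr 1
    rw [decide_eq_decide]
    exact mem_mapv
  rw [List.filter_congr h1]
  congr 1

/-- bound of the number of items -/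
def iB (n : ℕ) : ℕ := n ^ 4 + n ^ 3

/-- bound of the number of tokens -/
def mT (n : ℕ) : ℕ := n * n + iB n * (2 * n + 3)

/-- bound of the labels -/
def wT (n : ℕ) : ℕ := 2 * n + 2 * mT n

/-- bound of the certificate size -/
def certT (n : ℕ) : ℕ :=
  (iB n * (3 * (n * (4 * n + 2) + 1) + 2 + 1) + 1) +
  (iB n * ((3 + (4 * n + 1) + (n * (4 * n + 2) + 1) + (n * (4 * n + 2) + 1) + 3) + 1) + 1) +
  (n * (8 * wT n + 4) + 1) + (mT n * (8 * wT n + 4) + 1) + ((wT n + 1) * (4 * wT n + 2) + 1) + 4

theorem sz_nodup {n : ℕ} {l : List (Fin n)} (hl : l.Nodup) :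
    sz (l.map Fin.val) ≤ n * (4 * n + 2) + 1 := by
  have h1 := sz_le_length_mul (l.map Fin.val) (4 * n + 1) (by
    intro a ha
    rw [List.mem_map] at ha
    obtain ⟨x, -, rfl⟩ := ha
    have := sz_nat_lin x.val
    have := x.2
    omega)
  have h2 : (l.map Fin.val).length ≤ n := by
    rw [List.length_map]
    have := hl.length_le_card
    simpa using this
  refine h1.trans ?_
  have : (l.map Fin.val).length * (4 * n + 1 + 1) ≤ n * (4 * n + 2) := Nat.mul_le_mul_right _ h2
  omega

theorem sz_jtem {n : ℕ} {it : Jtem (Fin n)} (h : jok it) :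
    sz (mapJ it) ≤ 3 * (n * (4 * n + 2) + 1) + 2 := by
  obtain ⟨h1, h2, -⟩ := h
  have e1 := sz_nodup (List.nodup_append.1 h1).1
  have e2 := sz_nodup (List.nodup_append.1 h1).2.1
  have e3 := sz_nodup h2
  simp only [mapJ, sz_pair]
  omega

theorem jtoks_len {n : ℕ} {it : Jtem (Fin n)} (h : jok it) : (jtoks it).length ≤ 2 * n + 3 := by
  obtain ⟨h1, h2, -⟩ := h
  have e1 := h1.length_le_card
  have e2 := h2.length_le_card
  simp only [Fintype.card_fin] at e1 e2
  simp only [jtoks, List.length_append, List.length_map, List.length_replicate]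
  have e3 := List.length_filter_le (fun x => !decide (x ∈ it.2.2)) (it.1 ++ it.2.1)
  omega

theorem chkT_complete {M : List (List Bool)} (h : Blk (matGraph M).edgeSet {Z | Short Z}) :
    ∃ w : CertT, sz w ≤ certT M.length ∧ chkT (M, w) = true := by
  classical
  obtain ⟨jts, its, hjok, hiok, hlen, hinf⟩ := char_jtems h
  rw [Fintype.card_fin] at hlen
  set its' := its.map mapIt with hits'
  set jts' := jts.map mapJ with hjts'
  obtain ⟨L', hL'⟩ : ∃ L' : List (Fin M.length × Fin M.length),
      L'.map (fun p => (p.1.val, p.2.val)) = edT M jts' its' := by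
    refine exists_lift _ _ ?_
    intro p hp
    rw [mem_edT] at hp
    exact ⟨(⟨p.1, by omega⟩, ⟨p.2, hp.1⟩), rfl⟩
  have hL'm : ∀ p ∈ L', p.1.val < p.2.val ∧ adjB M p.1 p.2 = true ∧ s(p.1, p.2) ∉ kJ jts ∧
      s(p.1, p.2) ∉ kAll its := by
    intro p hp
    have h1 : (p.1.val, p.2.val) ∈ edT M jts' its' := by
      rw [← hL']; exact List.mem_map.2 ⟨p, hp, rfl⟩
    rw [mem_edT] at h1
    obtain ⟨-, h2, h3, h4, h5⟩ := h1
    refine ⟨h2, h3, ?_, ?_⟩
    · rintro ⟨it, hit, he⟩
      refine h4 ⟨mapJ it, List.mem_map.2 ⟨it, hit, rfl⟩, mapJ_jE.2 he⟩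
    · rintro ⟨it, hit, he⟩
      refine h5 ⟨mapIt it, List.mem_map.2 ⟨it, hit, rfl⟩, mapIt_kE.2 he⟩
  have hL'nd : (L'.map (fun p => s(p.1, p.2))).Nodup := by
    have h1 := edT_nodup M jts' its'
    rw [← hL', List.map_map] at h1
    have h2 : ((fun p : ℕ × ℕ => s(p.1, p.2)) ∘ fun p : Fin M.length × Fin M.length =>
        (p.1.val, p.2.val)) = (Sym2.map Fin.val) ∘ (fun p => s(p.1, p.2)) := by
      funext p; simp [Sym2.map_mk]
    rw [h2, ← List.map_map] at h1
    exact List.Nodup.of_map _ h1
  set TT' : List (List (Fin M.length) × List (Fin M.length)) :=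
    L'.map (fun p => ([p.1], [p.2])) ++ (jts.flatMap jtoks ++ its.flatMap itoks) with hTT'
  have hTT : TTT M jts' its' = TT'.map mapTok := by
    unfold TTT
    rw [hTT', List.map_append, List.map_append, ← hL', List.map_map, List.map_map]
    congr 1
    rw [hits', hjts', List.flatMap_map, List.flatMap_map, List.map_flatMap, List.map_flatMap]
    congr 1
    · exact List.flatMap_congr fun it _ => mapJ_toks it
    · exact List.flatMap_congr fun it _ => mapIt_toks it
  have hno : ¬ Toks TT' (fun _ => 2) := by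
    intro hT
    obtain ⟨x, y, hx, hy, hxy⟩ := Toks.append.1 hT
    obtain ⟨K, hK1, hK2⟩ := toks_edges_conv L' x hL'nd (fun p hp => by
      have := (hL'm p hp).1
      intro h; rw [h] at this; omega) hx
    have hy0 := hy.nonneg
    refine hinf ⟨x, y, ⟨K, ⟨?_, ?_, by simp⟩, ?_, hK2⟩, hy, hxy⟩
    · intro a b hab
      obtain ⟨p, hp, he⟩ := hK1 _ hab
      have := (hL'm p hp).1
      rw [Sym2.eq_iff] at he
      rcases he with ⟨rfl, rfl⟩ | ⟨rfl, rfl⟩
      · intro h; rw [h] at this; omega
      · intro h; rw [h] at this; omega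
    · intro v
      rw [hK2]
      have h1 : (2 : ℤ) = x v + y v := hxy v
      have := hy0 v
      omega
    · intro e he
      obtain ⟨p, hp, rfl⟩ := hK1 e he
      obtain ⟨h1, h2, h3, h4⟩ := hL'm p hp
      refine ⟨⟨?_, h3⟩, h4⟩
      simp only [adjB, Bool.or_eq_true] at h2
      exact ⟨fun h => by have h' : p.1 = p.2 := h; rw [h'] at h1; omega, h2⟩
  obtain ⟨lab, cs, hlab, hadj, hcs, hcard⟩ := labels_of_no_pm (tgraph TT')
    (fun Mm hMm => hno (toks_of_pm TT' Mm hMm))
  set lv : List (ℕ × ℕ) :=
    List.ofFn (fun v : Fin M.length => (lab (.inl (v, false)), lab (.inl (v, true)))) with hlv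
  set lt : List (ℕ × ℕ) :=
    List.ofFn (fun i : Fin TT'.length => (lab (.inr (i, false)), lab (.inr (i, true)))) with hlt
  have hcount : ∀ c, cnt (flat lv ++ flat lt) c =
      (Finset.univ.filter (fun x => lab x = c)).card := by
    intro c
    rw [cnt_append, hlv, hlt, cnt_flat_ofFn, cnt_flat_ofFn, Finset.card_filter,
      Fintype.sum_sum_type, Fintype.sum_prod_type, Fintype.sum_prod_type]
    congr 1
    · refine Finset.sum_congr rfl fun i _ => ?_
      rw [Fintype.sum_bool]; simp only [add_comm]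
    · refine Finset.sum_congr rfl fun i _ => ?_
      rw [Fintype.sum_bool]; simp only [add_comm]
  have cmp_iff : ∀ a b, cmp a b = true ↔ (a = 0 ∨ b = 0 ∨ a = b) := by
    intro a b; simp [cmp, or_assoc]
  have hgetD : ∀ v : Fin M.length, lv.getD v.val (0, 0) =
      (lab (.inl (v, false)), lab (.inl (v, true))) := by
    intro v
    rw [hlv, List.getD_eq_getElem?_getD, List.getElem?_ofFn]
    simp
  have hlj : jts.length ≤ iB M.length := by unfold iB; omega
  have hli : its.length ≤ iB M.length := by unfold iB; omega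
  have hm : TT'.length ≤ mT M.length := by
    rw [hTT', List.length_append, List.length_append, List.length_map]
    have h1 := edT_len M jts' its'
    rw [← hL', List.length_map] at h1
    have h2 := flatMap_len_le itoks (2 * M.length + 3) its (fun it hit => itoks_len (hiok it hit))
    have h3 := flatMap_len_le jtoks (2 * M.length + 3) jts (fun it hit => jtoks_len (hjok it hit))
    have h4 : jts.length * (2 * M.length + 3) + its.length * (2 * M.length + 3) ≤
        iB M.length * (2 * M.length + 3) := by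
      rw [← Nat.add_mul]
      exact Nat.mul_le_mul_right _ hlen
    unfold mT
    omega
  have hW : Fintype.card ((Fin M.length × Bool) ⊕ (Fin TT'.length × Bool)) ≤ wT M.length := by
    simp only [Fintype.card_sum, Fintype.card_prod, Fintype.card_fin, Fintype.card_bool]
    unfold wT
    omega
  have hlabB : ∀ x, sz (lab x) ≤ 4 * wT M.length + 1 := by
    intro x
    have h1 := sz_nat_lin (lab x)
    have h2 := hlab x
    omega
  refine ⟨((jts', its'), lv, lt, cs.toList), ?_, ?_⟩
  · -- size
    have s0 : sz jts' ≤ iB M.length * (3 * (M.length * (4 * M.length + 2) + 1) + 2 + 1) + 1 := by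
      refine (sz_le_length_mul jts' (3 * (M.length * (4 * M.length + 2) + 1) + 2)
          (fun it hit => ?_)).trans ?_
      · rw [hjts', List.mem_map] at hit
        obtain ⟨it', hit', rfl⟩ := hit
        exact sz_jtem (hjok it' hit')
      · rw [hjts', List.length_map]
        exact Nat.add_le_add_right (Nat.mul_le_mul_right _ hlj) 1
    have s1 : sz its' ≤ iB M.length * ((3 + (4 * M.length + 1) +
        (M.length * (4 * M.length + 2) + 1) + (M.length * (4 * M.length + 2) + 1) + 3) + 1) + 1 := by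
      refine (sz_le_length_mul its' (3 + (4 * M.length + 1) +
          (M.length * (4 * M.length + 2) + 1) + (M.length * (4 * M.length + 2) + 1) + 3)
          (fun it hit => ?_)).trans ?_
      · rw [hits', List.mem_map] at hit
        obtain ⟨it', hit', rfl⟩ := hit
        exact sz_item (hiok it' hit')
      · rw [hits', List.length_map]
        exact Nat.add_le_add_right (Nat.mul_le_mul_right _ hli) 1
    have s2 : sz lv ≤ M.length * (8 * wT M.length + 4) + 1 := by
      refine (sz_le_length_mul lv (8 * wT M.length + 3) (fun p hp => ?_)).trans ?_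
      · rw [hlv, List.mem_ofFn] at hp
        obtain ⟨v, rfl⟩ := hp
        have h1 := hlabB (.inl (v, false))
        have h2 := hlabB (.inl (v, true))
        simp only [sz_pair]
        omega
      · rw [hlv, List.length_ofFn]
    have s3 : sz lt ≤ mT M.length * (8 * wT M.length + 4) + 1 := by
      refine (sz_le_length_mul lt (8 * wT M.length + 3) (fun p hp => ?_)).trans ?_
      · rw [hlt, List.mem_ofFn] at hp
        obtain ⟨v, rfl⟩ := hp
        have h1 := hlabB (.inr (v, false))
        have h2 := hlabB (.inr (v, true))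
        simp only [sz_pair]
        omega
      · rw [hlt, List.length_ofFn]
        have := Nat.mul_le_mul_right (8 * wT M.length + 3 + 1) hm
        exact Nat.add_le_add_right this 1
    have s4 : sz cs.toList ≤ (wT M.length + 1) * (4 * wT M.length + 2) + 1 := by
      refine (sz_le_length_mul cs.toList (4 * wT M.length + 1) (fun c hc => ?_)).trans ?_
      · rw [Finset.mem_toList] at hc
        have h1 := (hcs c hc).2.1
        have h2 := sz_nat_lin c
        omega
      · rw [Finset.length_toList]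
        have h1 : cs.card ≤ wT M.length + 1 := by
          have h2 : cs ⊆ Finset.range (wT M.length + 1) := by
            intro c hc
            rw [Finset.mem_range]
            have := (hcs c hc).2.1
            omega
          have := Finset.card_le_card h2
          rwa [Finset.card_range] at this
        have := Nat.mul_le_mul_right (4 * wT M.length + 1 + 1) h1
        exact Nat.add_le_add_right this 1
    simp only [sz_pair]
    unfold certT
    omega
  · -- acceptance
    simp only [chkT, Bool.and_eq_true, List.all_eq_true]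
    refine ⟨?_, ?_, ?_⟩
    · intro it hit
      rw [hjts', List.mem_map] at hit
      obtain ⟨it', hit', rfl⟩ := hit
      exact (okJB_iff _).2 (mapJ_ok (hjok it' hit'))
    · intro it hit
      rw [hits', List.mem_map] at hit
      obtain ⟨it', hit', rfl⟩ := hit
      exact (okB_iff _).2 (mapIt_ok (hiok it' hit'))
    · simp only [chkLab, Bool.and_eq_true, decide_eq_true_eq, List.all_eq_true, Bool.not_eq_true',
        decide_eq_false_iff_not]
      refine ⟨⟨⟨⟨⟨?_, ?_⟩, ?_⟩, Finset.nodup_toList _⟩, ?_⟩, ?_⟩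
      · rw [hlv, List.length_ofFn]
      · rw [hlt, List.length_ofFn, hTT, List.length_map]
      · intro p hp
        rw [hTT] at hp
        obtain ⟨i, hi, hpi⟩ := List.mem_iff_getElem.1 hp
        rw [List.length_zip, List.length_map] at hi
        have hi' : i < TT'.length := by omega
        rw [List.getElem_zip, List.getElem_map] at hpi
        have hlti : lt[i]'(by rw [hlt, List.length_ofFn]; exact hi') =
            (lab (.inr (⟨i, hi'⟩, false)), lab (.inr (⟨i, hi'⟩, true))) := by
          simp only [hlt, List.getElem_ofFn]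
        rw [hlti] at hpi
        subst hpi
        simp only [chkTok, Bool.and_eq_true, List.all_eq_true, mapTok]
        refine ⟨⟨?_, ?_⟩, ?_⟩
        · rw [cmp_iff]
          exact hadj (.inr (⟨i, hi'⟩, false)) (.inr (⟨i, hi'⟩, true)) ⟨rfl, by simp⟩
        · intro a ha
          rw [List.mem_map] at ha
          obtain ⟨v, hv, rfl⟩ := ha
          simp only [cmpV, Bool.and_eq_true]
          rw [hgetD, cmp_iff, cmp_iff]
          refine ⟨hadj (.inr (⟨i, hi'⟩, false)) (.inl (v, false)) ?_,
            hadj (.inr (⟨i, hi'⟩, false)) (.inl (v, true)) ?_⟩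
          · exact hv
          · exact hv
        · intro a ha
          rw [List.mem_map] at ha
          obtain ⟨v, hv, rfl⟩ := ha
          simp only [cmpV, Bool.and_eq_true]
          rw [hgetD, cmp_iff, cmp_iff]
          refine ⟨hadj (.inr (⟨i, hi'⟩, true)) (.inl (v, false)) ?_,
            hadj (.inr (⟨i, hi'⟩, true)) (.inl (v, true)) ?_⟩
          · exact hv
          · exact hv
      · intro c hc
        rw [Finset.mem_toList] at hc
        obtain ⟨h1, h2, h3⟩ := hcs c hc
        refine ⟨h1, ?_⟩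
        rw [hcount]
        exact Nat.odd_iff.1 h3
      · rw [hcount, Finset.length_toList]
        exact hcard

end H999
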