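import Pool.Agent.H999_TwoFactor.TK4

/-!
Families of triangles and 4-cycles: structure, and the general step.
-/

namespace H999

open Finset

set_option linter.all false

variable {V : Type*} [DecidableEq V]

/-- structure of the family -/
structure StrT (S : Set (Finset (Sym2 V))) : Prop where
  q : ∀ Z ∈ S, Short Z
  U : ∀ Z ∈ S, ∀ Z' ∈ S, Z ≠ Z' → ∀ e ∈ Z, e ∈ Z' →
    (∃ e' ∈ Z, e' ∈ Z' ∧ e' ≠ e) ∨ (IsTri Z ∧ IsTri Z' ∧ symmDiff Z Z' ∈ S)
  K : ∀ a b c d, a ≠ b → a ≠ c → a ≠ d → b ≠ c → b ≠ d → c ≠ d → quad a b c d ∈ S →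
    quad a b d c ∈ S → quad a c b d ∈ S

theorem tri_card {a b c : V} (hab : a ≠ b) (hac : a ≠ c) (hbc : b ≠ c) :
    (tri a b c).card = 3 := by
  unfold tri
  rw [Finset.card_insert_of_notMem, Finset.card_insert_of_notMem, Finset.card_singleton]
  · rw [Finset.mem_singleton]; exact mk_ne hbc hab.symm
  · rw [Finset.mem_insert, Finset.mem_singleton]; push Not
    exact ⟨mk_ne hab hac, mk_ne' hbc hab.symm⟩

theorem IsTri.card {Z : Finset (Sym2 V)} (h : IsTri Z) : Z.card = 3 := by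
  obtain ⟨a, b, c, h1, h2, h3, rfl⟩ := h
  exact tri_card h1 h2 h3

theorem IsQuad.card {Z : Finset (Sym2 V)} (h : IsQuad Z) : Z.card = 4 := by
  obtain ⟨a, b, c, d, h1, h2, h3, h4, h5, h6, rfl⟩ := h
  exact quad_card h1 h2 h3 h4 h5 h6

theorem Short.card {Z : Finset (Sym2 V)} (h : Short Z) : 3 ≤ Z.card := by
  rcases h with h | h
  · have := IsTri.card (Z := Z) h; omega
  · have := IsQuad.card (Z := Z) h; omega

theorem not_tri_quad {Z : Finset (Sym2 V)} (h : IsTri Z) (h' : IsQuad Z) : False := by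
  have := h.card; have := h'.card; omega

theorem Short.eq_tri {Z : Finset (Sym2 V)} (h : Short Z) {a b c : V} (hsub : Z ⊆ tri a b c) :
    Z = tri a b c := by
  refine Finset.eq_of_subset_of_card_le hsub ?_
  have := h.card
  have := tri_card_le a b c
  omega

theorem StrT.sdiff {S C : Set (Finset (Sym2 V))} {K : Set (Sym2 V)} (h : StrT S)
    (hc : Clus S C K) : StrT (S \ C) where
  q Z hZ := h.q Z hZ.1
  U Z hZ Z' hZ' hne e he he' := by
    rcases h.U Z hZ.1 Z' hZ'.1 hne e he he' with h1 | ⟨h1, h2, h3⟩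
    · exact Or.inl h1
    · by_cases hother : ∃ e' ∈ Z, e' ∈ Z' ∧ e' ≠ e
      · exact Or.inl hother
      right
      refine ⟨h1, h2, h3, fun hC => ?_⟩
      -- an edge of the symmetric difference lies in `Z`
      have hc3 := h1.card
      obtain ⟨f, hf, hfe⟩ := Finset.exists_mem_ne (s := Z) (by omega) e
      have hf' : f ∉ Z' := fun h' => hother ⟨f, hf, h', hfe⟩
      have hmem : f ∈ symmDiff Z Z' := by
        rw [Finset.mem_symmDiff]; exact Or.inl ⟨hf, hf'⟩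
      exact hc.dis Z hZ.1 hZ.2 f (hc.CK _ hC _ hmem) hf
  K a b c d h1 h2 h3 h4 h5 h6 hq hq' := by
    refine ⟨h.K a b c d h1 h2 h3 h4 h5 h6 hq.1 hq'.1, fun hC => ?_⟩
    refine hc.dis _ hq'.1 hq'.2 s(a, c) (hc.CK _ hC _ ?_) ?_
    · rw [mem_quad]; left; rfl
    · rw [mem_quad]; right; right; right; exact Sym2.eq_swap

/-- the 4-cycles of the family -/
def SQ (S : Set (Finset (Sym2 V))) : Set (Finset (Sym2 V)) := {Z | Z ∈ S ∧ IsQuad Z}

theorem StrT.sq {S : Set (Finset (Sym2 V))} (h : StrT S) : Str (SQ S) where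
  q Z hZ := hZ.2
  U Z hZ Z' hZ' hne e he he' := by
    rcases h.U Z hZ.1 Z' hZ'.1 hne e he he' with h1 | ⟨h1, h2, h3⟩
    · exact h1
    · exact (not_tri_quad h1 hZ.2).elim
  K a b c d h1 h2 h3 h4 h5 h6 hq hq' :=
    ⟨h.K a b c d h1 h2 h3 h4 h5 h6 hq.1 hq'.1,
      ⟨a, c, b, d, h2, h1, h3, h4.symm, h6, h5, rfl⟩⟩

section

variable {S C : Set (Finset (Sym2 V))} {R : Set (Sym2 V)} {ts : List (List V × List V)}

/-- the conclusion of one step -/
def DoneT (S : Set (Finset (Sym2 V))) (R : Set (Sym2 V)) (ts : List (List V × List V)) : Prop :=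
  ∃ (it : Jtem V) (C : Set (Finset (Sym2 V))), jok it ∧ C.Nonempty ∧ Clus S C (jE it) ∧
    St (S \ C) (R \ jE it) (ts ++ jtoks it)

theorem doneT_of (hst : St S R ts) {it : Jtem V} (hok : jok it)
    (hne : C.Nonempty) (hc : Clus S C (jE it))
    (hN : ∀ F : Finset (Sym2 V), (∀ e ∈ F, e ∈ jE it) → (∀ Z ∈ C, ¬ Z ⊆ F) →
      (∀ v, dg F v = 0 ∨ dg F v = 2) → ∃ s ∈ it.2.2, dg F s = 0)
    (hQ : ∀ f, QE S C (jE it) R ts f → (∀ z, 0 ≤ f z) → (∀ z, z ∉ it.1 ++ it.2.1 → f z = 0) →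
      (∀ x, f x = 0 ∨ f x = 2) ∧ ∀ x ∈ it.2.2, f x = 2) : DoneT S R ts := by
  refine ⟨it, C, hok, hne, hc, hst.step hc ?_ ?_⟩
  · intro F hF hd hfree
    refine jtoks_of hok hF hd ?_
    intro F' hF' hreg
    exact hN F' (fun e he => hF e (hF' he)) (fun Z hZ h => hfree Z hZ (h.trans hF')) hreg
  · intro f hf hq
    obtain ⟨h1, h2⟩ := hQ f hq hf.nonneg (fun z hz => jtoks_out hok hf hz)
    exact jtoks_sep hok hf (fun x _ => h1 x) h2

/-- the edges of a pole item -/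
theorem jE_pole {u w : V} {Y : Finset V} (huw : u ≠ w) (hu : u ∉ Y) (hw : w ∉ Y) (s : List V) :
    jE ([u, w], Y.toList, s) = KP u w Y := by
  ext e
  simp only [jE, KP, Set.mem_setOf_eq, List.mem_cons, List.not_mem_nil, or_false,
    List.mem_append, Finset.mem_toList]
  constructor
  · rintro ⟨x, hx, y, hy, hne, rfl⟩
    rcases hx with rfl | rfl <;> rcases hy with (rfl | rfl) | hy
    · exact absurd rfl hne
    · exact Or.inl rfl
    · exact Or.inr ⟨y, hy, Or.inl rfl⟩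
    · exact Or.inl Sym2.eq_swap
    · exact absurd rfl hne
    · exact Or.inr ⟨y, hy, Or.inr rfl⟩
  · rintro (rfl | ⟨y, hy, rfl | rfl⟩)
    · exact ⟨u, Or.inl rfl, w, Or.inl (Or.inr rfl), huw, rfl⟩
    · exact ⟨u, Or.inl rfl, y, Or.inr hy, fun h => hu (h ▸ hy), rfl⟩
    · exact ⟨w, Or.inr rfl, y, Or.inr hy, fun h => hw (h ▸ hy), rfl⟩

theorem jok_pole {u w s : V} {Y : Finset V} (huw : u ≠ w) (hu : u ∉ Y) (hw : w ∉ Y)
    (hs : s = u ∨ s = w ∨ s ∈ Y) : jok ([u, w], Y.toList, [s]) := by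
  refine ⟨?_, by simp, ?_, Or.inr ⟨rfl, rfl⟩⟩
  · simp only [List.cons_append, List.nil_append, List.nodup_cons, List.mem_cons,
      Finset.mem_toList]
    exact ⟨by push Not; exact ⟨huw, hu⟩, hw, Finset.nodup_toList Y⟩
  · intro x hx
    rw [List.mem_singleton] at hx
    subst hx
    simpa using hs

theorem pEnv [Fintype V] (hst : St S R ts) (hs : StrT S) {u w : V} {Y : Finset V}
    (huw : u ≠ w) (hu : u ∉ Y) (hw : w ∉ Y) (hc : Clus S C (KP u w Y)) :
    PEnv (QE S C (KP u w Y) R ts) u w Y where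
  js := QE.js' hs.q
  huw := huw
  hu := hu
  hw := hw
  le f hf z := QE.le hf z
  path l h1 h2 f h3 := path_not hc hst hs.q l h1 h2 h3

/-- edges at a vertex of a 2-regular graph -/
theorem reg_two {F : Finset (Sym2 V)} (hreg : ∀ v, dg F v = 0 ∨ dg F v = 2) {x y : V}
    (h : s(x, y) ∈ F) : ∃ b, b ≠ y ∧ s(x, b) ∈ F := by
  refine exists_other ?_
  have := one_le_dg h
  rcases hreg x with h1 | h1 <;> omega

section pole

variable {u w : V} {Y : Finset V} {F : Finset (Sym2 V)}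

theorem KP_nb_u (huw : u ≠ w) (hu : u ∉ Y) (hF : ∀ e ∈ F, e ∈ KP u w Y) {b : V}
    (h : s(u, b) ∈ F) : b = w ∨ b ∈ Y := by
  rcases hF _ h with h1 | ⟨y, hy, h1 | h1⟩ <;> rw [Sym2.eq_iff] at h1
  · rcases h1 with ⟨-, rfl⟩ | ⟨h1, -⟩
    · exact Or.inl rfl
    · exact absurd h1 huw
  · rcases h1 with ⟨-, rfl⟩ | ⟨rfl, -⟩
    · exact Or.inr hy
    · exact absurd hy hu
  · rcases h1 with ⟨h1, -⟩ | ⟨rfl, -⟩
    · exact absurd h1 huw
    · exact absurd hy hu

theorem KP_nb_y (hu : u ∉ Y) (hw : w ∉ Y) (hF : ∀ e ∈ F, e ∈ KP u w Y) {y b : V} (hy : y ∈ Y)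
    (h : s(y, b) ∈ F) : b = u ∨ b = w := by
  rcases hF _ h with h1 | ⟨x, hx, h1 | h1⟩ <;> rw [Sym2.eq_iff] at h1
  · rcases h1 with ⟨rfl, -⟩ | ⟨rfl, -⟩
    · exact absurd hy hu
    · exact absurd hy hw
  · rcases h1 with ⟨rfl, -⟩ | ⟨-, rfl⟩
    · exact absurd hy hu
    · exact Or.inl rfl
  · rcases h1 with ⟨rfl, -⟩ | ⟨-, rfl⟩
    · exact absurd hy hw
    · exact Or.inr rfl

theorem KP_other (hu : u ∉ Y) (hw : w ∉ Y) (hF : ∀ e ∈ F, e ∈ KP u w Y)
    (hreg : ∀ v, dg F v = 0 ∨ dg F v = 2) {y : V} (hy : y ∈ Y) (h : s(u, y) ∈ F) :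
    s(w, y) ∈ F := by
  rw [Sym2.eq_swap] at h
  obtain ⟨b, hb, hbF⟩ := reg_two hreg h
  rcases KP_nb_y hu hw hF hy hbF with rfl | rfl
  · exact absurd rfl hb
  · rw [Sym2.eq_swap]; exact hbF

/-- a 2-regular subgraph of the complete pole type touching `u` -/
theorem KP_reg (huw : u ≠ w) (hu : u ∉ Y) (hw : w ∉ Y) (hF : ∀ e ∈ F, e ∈ KP u w Y)
    (hreg : ∀ v, dg F v = 0 ∨ dg F v = 2) (hd : dg F u ≠ 0) :
    (∃ y ∈ Y, tri u w y ⊆ F) ∨ ∃ y ∈ Y, ∃ x ∈ Y, y ≠ x ∧ quad u y w x ⊆ F := by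
  have h2 : 2 ≤ dg F u := by rcases hreg u with h | h <;> omega
  obtain ⟨b1, -, h1⟩ := exists_other (a := u) h2
  obtain ⟨b2, hne, h3⟩ := exists_other (a := b1) h2
  have main : ∀ y, y ∈ Y → s(u, w) ∈ F → s(u, y) ∈ F → tri u w y ⊆ F := by
    intro y hy e1 e2 g hg
    have e3 := KP_other hu hw hF hreg hy e2
    rw [mem_tri] at hg
    rcases hg with rfl | rfl | rfl
    · exact e1
    · exact e3
    · rw [Sym2.eq_swap]; exact e2
  rcases KP_nb_u huw hu hF h1 with rfl | hb1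
  · rcases KP_nb_u huw hu hF h3 with rfl | hb2
    · exact absurd rfl hne
    · exact Or.inl ⟨b2, hb2, main b2 hb2 h1 h3⟩
  · rcases KP_nb_u huw hu hF h3 with rfl | hb2
    · exact Or.inl ⟨b1, hb1, main b1 hb1 h3 h1⟩
    · right
      refine ⟨b1, hb1, b2, hb2, hne.symm, ?_⟩
      intro g hg
      rw [mem_quad] at hg
      rcases hg with rfl | rfl | rfl | rfl
      · exact h1
      · rw [Sym2.eq_swap]; exact KP_other hu hw hF hreg hb1 h1
      · exact KP_other hu hw hF hreg hb2 h3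
      · rw [Sym2.eq_swap]; exact h3

/-- a 2-regular subgraph of the pole type touching the petal `c` -/
theorem KP_regc (huw : u ≠ w) (hu : u ∉ Y) (hw : w ∉ Y) (hF : ∀ e ∈ F, e ∈ KP u w Y)
    (hreg : ∀ v, dg F v = 0 ∨ dg F v = 2) {c : V} (hc : c ∈ Y) (hd : dg F c ≠ 0) :
    (tri u w c ⊆ F) ∨ ∃ y ∈ Y, y ≠ c ∧ quad u c w y ⊆ F := by
  have h2 : 2 ≤ dg F c := by rcases hreg c with h | h <;> omega
  obtain ⟨b1, hb1, h1⟩ := exists_other (a := w) h2
  obtain ⟨b2, hb2, h3⟩ := exists_other (a := u) h2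
  have h1' : s(c, u) ∈ F := by
    rcases KP_nb_y hu hw hF hc h1 with rfl | rfl
    · exact h1
    · exact absurd rfl hb1
  have h3' : s(c, w) ∈ F := by
    rcases KP_nb_y hu hw hF hc h3 with rfl | rfl
    · exact absurd rfl hb2
    · exact h3
  have h4 : s(u, c) ∈ F := by rw [Sym2.eq_swap]; exact h1'
  obtain ⟨b, hbc, hb⟩ := reg_two hreg h4
  rcases KP_nb_u huw hu hF hb with rfl | hbY
  · left
    intro g hg
    rw [mem_tri] at hg
    rcases hg with rfl | rfl | rfl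
    · exact hb
    · rw [Sym2.eq_swap]; exact h3'
    · exact h1'
  · right
    refine ⟨b, hbY, hbc, ?_⟩
    intro g hg
    rw [mem_quad] at hg
    rcases hg with rfl | rfl | rfl | rfl
    · exact h4
    · exact h3'
    · exact KP_other hu hw hF hreg hbY hb
    · rw [Sym2.eq_swap]; exact hb

end pole

/-- a set of pairs `i j` with their 4-cycles, and a set of petals with triangles -/
structure PC (S C : Set (Finset (Sym2 V))) (u w : V) (Y : Finset V) (T : V → Prop)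
    (E : V → V → Prop) : Prop where
  huw : u ≠ w
  hu : u ∉ Y
  hw : w ∉ Y
  pT : ∀ y, T y → y ∈ Y ∧ tri u w y ∈ C
  pT' : ∀ y ∈ Y, ¬ T y → tri u w y ∉ C
  pE : ∀ i j, E i j → i ∈ Y ∧ j ∈ Y ∧ i ≠ j ∧ E j i ∧ quad u i w j ∈ C
  pTT : ∀ i j, T i → T j → i ≠ j → E i j
  pY : ∀ y ∈ Y, T y ∨ ∃ z, E y z
  cl : Clus S C (KP u w Y)

theorem PC.swap {u w : V} {Y : Finset V} {T : V → Prop} {E : V → V → Prop}
    (h : PC S C u w Y T E) : PC S C w u Y T E where
  huw := h.huw.symm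
  hu := h.hw
  hw := h.hu
  pT y hy := ⟨(h.pT y hy).1, by rw [tri_swap]; exact (h.pT y hy).2⟩
  pT' y hy hn := by rw [tri_swap]; exact h.pT' y hy hn
  pE i j hij := by
    obtain ⟨h1, h2, h3, h4, h5⟩ := h.pE i j hij
    exact ⟨h1, h2, h3, h4, by rw [quad_sw]; exact h5⟩
  pTT := h.pTT
  pY := h.pY
  cl := by rw [KP_swap]; exact h.cl

section

variable {u w : V} {Y : Finset V} {T : V → Prop} {E : V → V → Prop}

theorem PC.seed3 (h : PC S C u w Y T E) (hst : St S R ts) {y : V} (hy : T y) :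
    QE S C (KP u w Y) R ts (t3 u w y) := by
  obtain ⟨h1, h2⟩ := h.pT y hy
  have h3 := h.cl.seed hst h2
  have he : t3 u w y = fun z => dg (tri u w y) z := by
    funext z
    rw [dg_tri h.huw (fun e => h.hu (e ▸ h1)) (fun e => h.hw (e ▸ h1))]
    rfl
  rw [he]; exact h3

theorem PC.seed4 (h : PC S C u w Y T E) (hst : St S R ts) {i j : V} (hij : E i j) :
    QE S C (KP u w Y) R ts (t4 u w i j) := by
  obtain ⟨h1, h2, h3, -, h4⟩ := h.pE i j hij
  have h5 := h.cl.seed hst h4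
  have he : t4 u w i j = fun z => dg (quad u i w j) z := by
    funext z
    have a1 : u ≠ i := by rintro rfl; exact h.hu h1
    have a2 : u ≠ j := by rintro rfl; exact h.hu h2
    have a3 : i ≠ w := by rintro rfl; exact h.hw h1
    have a4 : w ≠ j := by rintro rfl; exact h.hw h2
    rw [dg_quad a1 h.huw a2 a3 h3 a4]
    unfold t4; ring
  rw [he]; exact h5

theorem PC.not3 (h : PC S C u w Y T E) (hst : St S R ts) (hs : StrT S) {y : V} (hy : y ∈ Y)
    (hn : ¬ T y) : ¬ QE S C (KP u w Y) R ts (t3 u w y) := by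
  have huy : u ≠ y := fun e => h.hu (e ▸ hy)
  have hwy : w ≠ y := fun e => h.hw (e ▸ hy)
  have he : t3 u w y = fun z => dg (tri u w y) z := by
    funext z; rw [dg_tri h.huw huy hwy]; rfl
  rw [he]
  refine h.cl.bad hst ?_ ?_ ?_
  · intro e he
    rw [mem_tri] at he
    rcases he with rfl | rfl | rfl
    · exact KP.uw
    · exact KP.wy hy
    · exact KP.yu hy
  · intro a b hab
    exact Short.ne (Or.inl ⟨u, w, y, h.huw, huy, hwy, rfl⟩) hab
  · intro Z hZ hsub
    have h1 := (hs.q Z (h.cl.sub hZ)).eq_tri hsub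
    subst h1
    exact h.pT' y hy hn hZ

theorem PC.env [Fintype V] (h : PC S C u w Y T E) (hst : St S R ts) (hs : StrT S) :
    PEnv (QE S C (KP u w Y) R ts) u w Y :=
  pEnv hst hs h.huw h.hu h.hw h.cl

/-- complete type, special pole `u` -/
theorem PC.doneC [Fintype V] (h : PC S C u w Y T E) (hst : St S R ts) (hs : StrT S)
    (hT : ∀ y ∈ Y, T y) {y0 : V} (hy0 : y0 ∈ Y)
    (hn : ¬ QE S C (KP u w Y) R ts (dbl w y0)) : DoneT S R ts := by
  have hE := jE_pole h.huw h.hu h.hw [u]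
  refine doneT_of (it := ([u, w], Y.toList, [u])) (C := C) hst
    (jok_pole h.huw h.hu h.hw (Or.inl rfl)) ⟨_, (h.pT y0 (hT y0 hy0)).2⟩
    (by rw [hE]; exact h.cl) ?_ ?_
  · intro F hF hfree hreg
    rw [hE] at hF
    refine ⟨u, by simp, ?_⟩
    by_contra hd
    rcases KP_reg h.huw h.hu h.hw hF hreg hd with ⟨y, hy, h1⟩ | ⟨y, hy, x, hx, hyx, h1⟩
    · exact hfree _ (h.pT y (hT y hy)).2 h1
    · exact hfree _ (h.pE y x (h.pTT y x (hT y hy) (hT x hx) hyx)).2.2.2.2 h1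
  · intro f hf h0 hout
    rw [hE] at hf
    have hsupp : ∀ z, z ≠ u → z ≠ w → z ∉ Y → f z = 0 := by
      intro z a b c
      exact hout z (by simp [a, b, c])
    obtain ⟨h1, h2⟩ := (h.env hst hs).all (fun y hy => h.seed3 hst (hT y hy)) hy0 hn hf hsupp h0
    exact ⟨h2, fun x hx => by rw [List.mem_singleton] at hx; subst hx; exact h1⟩

/-- star type -/
theorem PC.doneS [Fintype V] (h : PC S C u w Y T E) (hst : St S R ts) (hs : StrT S) {c b : V}
    (hc : T c) (honly : ∀ y, T y → y = c) (hall : ∀ y ∈ Y, y ≠ c → E c y) (hb : b ∈ Y)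
    (hbc : b ≠ c) : DoneT S R ts := by
  have hcY := (h.pT c hc).1
  have hE := jE_pole h.huw h.hu h.hw [c]
  refine doneT_of (it := ([u, w], Y.toList, [c])) (C := C) hst
    (jok_pole h.huw h.hu h.hw (Or.inr (Or.inr hcY))) ⟨_, (h.pT c hc).2⟩
    (by rw [hE]; exact h.cl) ?_ ?_
  · intro F hF hfree hreg
    rw [hE] at hF
    refine ⟨c, by simp, ?_⟩
    by_contra hd
    rcases KP_regc h.huw h.hu h.hw hF hreg hcY hd with h1 | ⟨y, hy, hyc, h1⟩
    · exact hfree _ (h.pT c hc).2 h1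
    · exact hfree _ (h.pE c y (hall y hy hyc)).2.2.2.2 h1
  · intro f hf h0 hout
    rw [hE] at hf
    have hsupp : ∀ z, z ≠ u → z ≠ w → z ∉ Y → f z = 0 := by
      intro z a b c
      exact hout z (by simp [a, b, c])
    obtain ⟨h1, h2⟩ := (h.env hst hs).star hcY hb hbc (h.seed3 hst hc)
      (h.seed4 hst (hall b hb hbc))
      (h.not3 hst hs hb (fun hT => hbc (honly b hT))) hf hsupp h0
    exact ⟨h2, fun x hx => by rw [List.mem_singleton] at hx; subst hx; exact h1⟩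

/-- the step for a triangle sharing an edge with other members -/
theorem PC.done [Fintype V] (h : PC S C u w Y T E) (hst : St S R ts) (hs : StrT S) {c b : V}
    (hc : T c) (hcb : E c b) : DoneT S R ts := by
  have hcY := (h.pT c hc).1
  have henv := h.env hst hs
  have prop : ∀ x y z, T x → E y z → x ≠ y → x ≠ z → T y := by
    intro x y z hx hyz hxy hxz
    by_contra hn
    obtain ⟨hy, hz, hne, hzy, -⟩ := h.pE y z hyz
    exact henv.prop (h.pT x hx).1 hy hz hxy hxz hne (h.seed3 hst hx) (h.seed4 hst hzy)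
      (h.not3 hst hs hy hn)
  by_cases honly : ∀ y, T y → y = c
  · refine h.doneS hst hs hc honly ?_ (h.pE c b hcb).2.1 (h.pE c b hcb).2.2.1.symm
    intro y hy hyc
    rcases h.pY y hy with h1 | ⟨z, hz⟩
    · exact absurd (honly y h1) hyc
    · by_cases hzc : z = c
      · subst hzc; exact (h.pE y z hz).2.2.2.1
      · exact absurd (honly y (prop c y z hc hz (Ne.symm hyc) (Ne.symm hzc))) hyc
  · push Not at honly
    obtain ⟨c', hc', hne⟩ := honly
    have hall : ∀ y ∈ Y, T y := by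
      intro y hy
      rcases h.pY y hy with h1 | ⟨z, hz⟩
      · exact h1
      · by_cases hyc : y = c
        · subst hyc; exact hc
        by_cases hzc : z = c
        · subst hzc
          by_cases hyc' : y = c'
          · subst hyc'; exact hc'
          · exact prop c' y z hc' hz (Ne.symm hyc') hne
        · exact prop c y z hc hz (Ne.symm hyc) (Ne.symm hzc)
    by_cases hq : QE S C (KP u w Y) R ts (dbl w c)
    · refine h.swap.doneC hst hs hall hcY ?_
      rw [KP_swap]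
      intro hq'
      exact henv.two hcY (h.pT c' hc').1 hne (h.seed3 hst hc') hq hq'
    · exact h.doneC hst hs hall hcY hq

end

end

end H999
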