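import Pool.Agent.H999_TwoFactor.TCheck
import Pool.Agent.H999_TwoFactor.Conv

/-!
Deciding whether a graph has a 2-factor without triangles and 4-cycles is in `coNP`.
-/

namespace H999

open Pool.Agent.H622R2 Pool.Agent.NPC

set_option linter.all false

section

variable {α β γ : Type} [TEnc α] [TEnc β] [TEnc γ]

@[fun_prop]
theorem poly_inJB {it : α → List ℕ × List ℕ × List ℕ} {x y : α → ℕ} (hit : Poly it)
    (hx : Poly x) (hy : Poly y) : Poly (fun a => inJB (it a) (x a) (y a)) := by
  unfold inJB; fun_prop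

@[fun_prop]
theorem poly_okJB {it : α → List ℕ × List ℕ × List ℕ} (hit : Poly it) :
    Poly (fun a => okJB (it a)) := by
  unfold okJB; fun_prop

@[fun_prop]
theorem poly_edT {M : α → List (List Bool)} {jts : α → List (List ℕ × List ℕ × List ℕ)}
    {its : α → List (Bool × ℕ × List ℕ × List ℕ)}
    (hM : Poly M) (hjts : Poly jts) (hits : Poly its) :
    Poly (fun a => edT (M a) (jts a) (its a)) := by
  unfold edT; fun_prop

theorem replicate_eq_tail {β γ : Type} (l : List β) (c : γ) :
    List.replicate (l.length - 1) c = l.tail.map (fun _ => c) := by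
  rw [List.map_const', List.length_tail]

/-- the tokens of an item, as a program -/
def jtoks' (it : List ℕ × List ℕ × List ℕ) : List (List ℕ × List ℕ) :=
  ((it.1 ++ it.2.1).filter (fun x => !decide (x ∈ it.2.2))).map (fun x => ([x], it.1 ++ it.2.1)) ++
    it.2.2.tail.map (fun _ => (it.1 ++ it.2.1, it.1 ++ it.2.1))

theorem jtoks_eq (it : List ℕ × List ℕ × List ℕ) : jtoks it = jtoks' it := by
  unfold jtoks jtoks'
  rw [replicate_eq_tail]

@[fun_prop]
theorem poly_jtoks' {it : α → List ℕ × List ℕ × List ℕ} (hit : Poly it) :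
    Poly (fun a => jtoks' (it a)) := by
  unfold jtoks'
  fun_prop

@[fun_prop]
theorem poly_jtoks {it : α → List ℕ × List ℕ × List ℕ} (hit : Poly it) :
    Poly (fun a => jtoks (it a)) :=
  (poly_jtoks' hit).congr fun a => (jtoks_eq _).symm

@[fun_prop]
theorem poly_TTT {M : α → List (List Bool)} {jts : α → List (List ℕ × List ℕ × List ℕ)}
    {its : α → List (Bool × ℕ × List ℕ × List ℕ)}
    (hM : Poly M) (hjts : Poly jts) (hits : Poly its) :
    Poly (fun a => TTT (M a) (jts a) (its a)) := by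
  unfold TTT; fun_prop

theorem poly_chkT : Poly chkT := by
  unfold chkT chkLab; fun_prop

end

/-- `G` has a 2-factor without cycles of length 3 or 4 -/
def HasST {V : Type*} (G : SimpleGraph V) : Prop :=
  ∃ N : SimpleGraph V, (N ≤ G ∧ ∀ v, (N.neighborSet v).ncard = 2) ∧
    ∀ (v : V) (p : N.Walk v v), p.IsCycle → p.length ∉ ({3, 4} : Set ℕ)

section

variable {V : Type*}

/-- three edges of a triangle give a walk -/
theorem cycle3 {N : SimpleGraph V} {a b c : V}
    (h1 : N.Adj a b) (h2 : N.Adj b c) (h3 : N.Adj c a) :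
    ∃ p : N.Walk a a, p.IsCycle ∧ p.length = 3 := by
  refine ⟨.cons h1 (.cons h2 (.cons h3 .nil)), ?_, rfl⟩
  have := h1.ne
  have := h2.ne
  have := h3.ne
  rw [SimpleGraph.Walk.isCycle_def, SimpleGraph.Walk.isTrail_def]
  refine ⟨?_, by simp, ?_⟩
  · simp only [SimpleGraph.Walk.edges_cons, SimpleGraph.Walk.edges_nil, List.nodup_cons,
      List.mem_cons, List.not_mem_nil, or_false, not_or, Sym2.eq_iff, not_and, List.nodup_nil,
      and_true, not_false_eq_true]
    refine ⟨⟨⟨?_, ?_⟩, ?_, ?_⟩, ?_, ?_⟩ <;> grind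
  · simp only [SimpleGraph.Walk.support_cons, SimpleGraph.Walk.support_nil, List.tail_cons,
      List.nodup_cons, List.mem_cons, List.not_mem_nil, or_false, not_or, List.nodup_nil,
      and_true, not_false_eq_true]
    refine ⟨⟨?_, ?_⟩, ?_⟩ <;> grind

/-- a cycle of length 3 gives three vertices -/
theorem of_cycle3 {N : SimpleGraph V} {a : V} (p : N.Walk a a) (hp : p.IsCycle)
    (hl : p.length = 3) : ∃ b c, a ≠ b ∧ a ≠ c ∧ b ≠ c ∧ N.Adj a b ∧ N.Adj b c ∧ N.Adj c a := by
  match p, hp, hl with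
  | .cons (v := b) h1 (.cons (v := c) h2 (.cons h3 .nil)), hp, _ =>
    exact ⟨b, c, h1.ne, h3.ne.symm, h2.ne, h1, h2, h3⟩

variable [Fintype V] [DecidableEq V]

theorem not_hasST_iff (G : SimpleGraph V) : ¬ HasST G ↔ Blk G.edgeSet {Z | Short Z} := by
  classical
  constructor
  · intro h N hN hNG
    by_contra hcon
    push Not at hcon
    have mem : ∀ {x y}, (SimpleGraph.fromEdgeSet (N : Set (Sym2 V))).Adj x y → s(x, y) ∈ N := by
      intro x y hxy
      exact (SimpleGraph.fromEdgeSet_adj _ |>.1 hxy).1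
    refine h ⟨SimpleGraph.fromEdgeSet (N : Set (Sym2 V)), ⟨?_, nc_of_tf hN⟩, ?_⟩
    · rw [← SimpleGraph.edgeSet_subset_edgeSet, edgeSet_tf hN]
      exact fun e he => hNG e he
    · intro v p hp hl
      simp only [Set.mem_insert_iff, Set.mem_singleton_iff] at hl
      rcases hl with hl | hl
      · obtain ⟨b, c, h1, h2, h3, g1, g2, g3⟩ := of_cycle3 p hp hl
        refine hcon (tri v b c) (Or.inl ⟨v, b, c, h1, h2, h3, rfl⟩) ?_
        intro e he
        rw [mem_tri] at he
        rcases he with rfl | rfl | rfl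
        · exact mem g1
        · exact mem g2
        · exact mem g3
      · obtain ⟨b, c, d, h1, h2, h3, h4, h5, h6, g1, g2, g3, g4⟩ := of_cycle4 p hp hl
        refine hcon (quad v b c d) (Or.inr ⟨v, b, c, d, h1, h2, h3, h4, h5, h6, rfl⟩) ?_
        intro e he
        rw [mem_quad] at he
        rcases he with rfl | rfl | rfl | rfl
        · exact mem g1
        · exact mem g2
        · exact mem g3
        · exact mem g4
  · rintro h ⟨N, ⟨hNG, hN⟩, hfree⟩
    obtain ⟨Z, hZ, hsub⟩ := h N.edgeFinset (tf_of_nc hN)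
      (fun e he => SimpleGraph.edgeSet_mono hNG (SimpleGraph.mem_edgeFinset.1 he))
    have mem : ∀ {x y}, s(x, y) ∈ Z → N.Adj x y := by
      intro x y hxy
      have := hsub hxy
      rwa [SimpleGraph.mem_edgeFinset, SimpleGraph.mem_edgeSet] at this
    rcases hZ with ⟨a, b, c, h1, h2, h3, rfl⟩ | ⟨a, b, c, d, h1, h2, h3, h4, h5, h6, rfl⟩
    · obtain ⟨p, hp, hl⟩ := cycle3 (N := N) (a := a) (b := b) (c := c)
        (mem (by rw [mem_tri]; simp))
        (mem (by rw [mem_tri]; simp)) (mem (by rw [mem_tri]; simp))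
      exact hfree a p hp (by rw [hl]; simp)
    · obtain ⟨p, hp, hl⟩ := cycle4 (N := N) h2 h5 (mem (by rw [mem_quad]; simp))
        (mem (by rw [mem_quad]; simp)) (mem (by rw [mem_quad]; simp))
        (mem (by rw [mem_quad]; simp))
      exact hfree a p hp (by rw [hl]; simp)

end

/-- the polynomial bound -/
noncomputable def certTP : Polynomial ℕ :=
  let X : Polynomial ℕ := Polynomial.X
  let iP := X ^ 4 + X ^ 3
  let mP := X * X + iP * (2 * X + 3)
  let wP := 2 * X + 2 * mP
  (iP * (3 * (X * (4 * X + 2) + 1) + 2 + 1) + 1) +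
  (iP * ((3 + (4 * X + 1) + (X * (4 * X + 2) + 1) + (X * (4 * X + 2) + 1) + 3) + 1) + 1) +
  (X * (8 * wP + 4) + 1) + (mP * (8 * wP + 4) + 1) + ((wP + 1) * (4 * wP + 2) + 1) + 4

theorem certTP_eval (n : ℕ) : certTP.eval n = certT n := by
  unfold certTP certT wT mT iB
  simp

theorem inCoNPP_ST : InCoNPP (fun M : List (List Bool) => HasST (matGraph M)) := by
  refine inCoNPP_of (β := CertT) (R := chkT) poly_chkT certTP ?_
  intro M
  rw [not_hasST_iff]
  constructor
  · intro h
    obtain ⟨w, h1, h2⟩ := chkT_complete h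
    refine ⟨w, ?_, h2⟩
    rw [← certTP_eval] at h1
    exact h1.trans (Pool.Agent.NPC.eval_mono certTP (length_lt_sz M).le)
  · rintro ⟨w, -, h⟩
    exact chkT_sound h

end H999
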