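import Pool.Agent.H999_TwoFactor.Start

/-!
Items for parts with triangles: realisation by tokens (Hall's theorem) and separation by counting.
-/

namespace H999

open Finset

set_option linter.all false

variable {V : Type*} [DecidableEq V]

theorem sum_dg {W : Finset V} : ∀ F : Finset (Sym2 V),
    (∀ e ∈ F, ∃ x ∈ W, ∃ y ∈ W, x ≠ y ∧ e = s(x, y)) → ∑ v ∈ W, dg F v = 2 * F.card := by
  intro F
  induction F using Finset.induction_on with
  | empty => intro _; simp [dg]
  | insert e F he ih =>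
    intro h
    obtain ⟨x, hx, y, hy, hne, rfl⟩ := h e (by simp)
    have h1 := ih (fun e' he' => h e' (Finset.mem_insert_of_mem he'))
    rw [Finset.card_insert_of_notMem he]
    have e1 : ∑ v ∈ W, dg (insert s(x, y) F) v = ∑ v ∈ W, (dg F v + (ind x v + ind y v)) :=
      Finset.sum_congr rfl fun v _ => by rw [dg_insert hne he]; ring
    rw [e1, Finset.sum_add_distrib, Finset.sum_add_distrib, sum_ind_mem hx, sum_ind_mem hy, h1]
    push_cast; ring

theorem dg_out {W : Finset V} {F : Finset (Sym2 V)}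
    (hF : ∀ e ∈ F, ∃ x ∈ W, ∃ y ∈ W, x ≠ y ∧ e = s(x, y)) {v : V} (hv : v ∉ W) : dg F v = 0 := by
  unfold dg
  have : F.filter (fun e => v ∈ e) = ∅ := by
    rw [Finset.filter_eq_empty_iff]
    intro e he hve
    obtain ⟨x, hx, y, hy, -, rfl⟩ := hF e he
    rw [Sym2.mem_iff] at hve
    rcases hve with rfl | rfl
    · exact hv hx
    · exact hv hy
  rw [this]; simp

theorem hall_cnt {W X S0 : Finset V} (hW : W ⊆ X ∪ S0) (hS0 : S0.Nonempty)
    {F : Finset (Sym2 V)} (hF : ∀ e ∈ F, ∃ x ∈ W, ∃ y ∈ W, x ≠ y ∧ e = s(x, y))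
    (hd : ∀ v, dg F v ≤ 2)
    (hN : (∀ v, dg F v = 0 ∨ dg F v = 2) → ∃ s ∈ S0, dg F s = 0) :
    F.card ≤ (X.filter (fun v => 0 < dg F v)).card + (S0.card - 1) := by
  obtain ⟨c1, c2⟩ := cnt_values (Y := W) (dg_nonneg F) hd
  rw [sum_dg F hF] at c1
  have hA : (W.filter (fun y => 0 < dg F y)).card ≤ (X.filter (fun v => 0 < dg F v)).card +
      (S0.filter (fun v => 0 < dg F v)).card := by
    refine (Finset.card_le_card ?_).trans (Finset.card_union_le _ _)
    intro v hv
    rw [Finset.mem_filter] at hv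
    rw [Finset.mem_union, Finset.mem_filter, Finset.mem_filter]
    rcases Finset.mem_union.1 (hW hv.1) with h | h
    · exact Or.inl ⟨h, hv.2⟩
    · exact Or.inr ⟨h, hv.2⟩
  have hpos : 0 < S0.card := Finset.card_pos.2 hS0
  by_cases hall : ∀ v, dg F v = 0 ∨ dg F v = 2
  · obtain ⟨s, hs, hs0⟩ := hN hall
    have h1 : (S0.filter (fun v => 0 < dg F v)).card ≤ S0.card - 1 := by
      rw [← Finset.card_erase_of_mem hs]
      refine Finset.card_le_card ?_
      intro v hv
      rw [Finset.mem_filter] at hv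
      rw [Finset.mem_erase]
      refine ⟨?_, hv.1⟩
      rintro rfl
      omega
    have h2 : (W.filter (fun y => dg F y = 1)).card = 0 := by
      rw [Finset.card_eq_zero, Finset.filter_eq_empty_iff]
      intro v _ hv
      rcases hall v with h | h <;> omega
    omega
  · push Not at hall
    obtain ⟨v, hv0, hv2⟩ := hall
    have hv1 : dg F v = 1 := by
      have := hd v; have := dg_nonneg F v; omega
    have hvW : v ∈ W := by
      by_contra h
      exact hv0 (dg_out hF h)
    have h2 : 0 < (W.filter (fun y => dg F y = 1)).card :=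
      Finset.card_pos.2 ⟨v, Finset.mem_filter.2 ⟨hvW, hv1⟩⟩
    have h3 : (S0.filter (fun v => 0 < dg F v)).card ≤ S0.card :=
      Finset.card_le_card (Finset.filter_subset _ _)
    omega

/-- realisation by tokens -/
theorem toks_hall {W X S0 : List V} (hX : X.Nodup) (hS : S0.Nodup) (hS0 : S0 ≠ [])
    (hW : ∀ v ∈ W, v ∈ X ∨ v ∈ S0) (F : Finset (Sym2 V))
    (hF : ∀ e ∈ F, ∃ x ∈ W, ∃ y ∈ W, x ≠ y ∧ e = s(x, y)) (hd : ∀ v, dg F v ≤ 2)
    (hN : ∀ F' ⊆ F, (∀ v, dg F' v = 0 ∨ dg F' v = 2) → ∃ s ∈ S0, dg F' s = 0) :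
    Toks (X.map (fun x => ([x], W)) ++ List.replicate (S0.length - 1) (W, W)) (dg F) := by
  classical
  set k := S0.length - 1 with hk
  have hScard : S0.toFinset.card = S0.length := List.toFinset_card_of_nodup hS
  have hSne : S0.toFinset.Nonempty := by
    obtain ⟨s, hs⟩ := List.exists_mem_of_ne_nil _ hS0
    exact ⟨s, List.mem_toFinset.2 hs⟩
  obtain ⟨g, hg1, hg2⟩ := (Finset.all_card_le_biUnion_card_iff_exists_injective
    (fun e : {e // e ∈ F} => (X.toFinset.filter (fun v => v ∈ e.1)).disjSum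
      (Finset.univ : Finset (Fin k)))).1 (by
    intro s
    by_cases hs : s = ∅
    · subst hs; simp
    obtain ⟨e0, he0⟩ := Finset.nonempty_of_ne_empty hs
    set F' : Finset (Sym2 V) := s.image Subtype.val with hF'
    have hF'F : F' ⊆ F := by
      intro e he
      rw [hF', Finset.mem_image] at he
      obtain ⟨e', -, rfl⟩ := he
      exact e'.2
    have hcard : F'.card = s.card := Finset.card_image_of_injective _ Subtype.val_injective
    have h1 := hall_cnt (W := W.toFinset) (X := X.toFinset) (S0 := S0.toFinset) (F := F')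
      (by
        intro v hv
        rw [List.mem_toFinset] at hv
        rw [Finset.mem_union, List.mem_toFinset, List.mem_toFinset]
        exact hW v hv) hSne
      (by
        intro e he
        obtain ⟨x, hx, y, hy, h⟩ := hF e (hF'F he)
        exact ⟨x, List.mem_toFinset.2 hx, y, List.mem_toFinset.2 hy, h⟩)
      (fun v => (dg_mono hF'F v).trans (hd v))
      (by
        intro h
        obtain ⟨s, hs, h2⟩ := hN F' hF'F h
        exact ⟨s, List.mem_toFinset.2 hs, h2⟩)
    rw [hScard, hcard] at h1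
    refine h1.trans ?_
    have h2 : (X.toFinset.filter (fun v => 0 < dg F' v)).disjSum (Finset.univ : Finset (Fin k)) ⊆
        s.biUnion (fun e : {e // e ∈ F} => (X.toFinset.filter (fun v => v ∈ e.1)).disjSum
          (Finset.univ : Finset (Fin k))) := by
      intro a ha
      rw [Finset.mem_biUnion]
      rw [Finset.mem_disjSum] at ha
      rcases ha with ⟨v, hv, rfl⟩ | ⟨i, -, rfl⟩
      · rw [Finset.mem_filter] at hv
        have h3 : 0 < (F'.filter (fun e => v ∈ e)).card := by
          have := hv.2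
          unfold dg at this
          omega
        obtain ⟨e, he⟩ := Finset.card_pos.1 h3
        rw [Finset.mem_filter, hF', Finset.mem_image] at he
        obtain ⟨⟨e', he', rfl⟩, hve⟩ := he
        refine ⟨e', he', ?_⟩
        rw [Finset.mem_disjSum]
        exact Or.inl ⟨v, Finset.mem_filter.2 ⟨hv.1, hve⟩, rfl⟩
      · refine ⟨e0, he0, ?_⟩
        rw [Finset.mem_disjSum]
        exact Or.inr ⟨i, Finset.mem_univ _, rfl⟩
    have h3 := Finset.card_le_card h2
    rw [Finset.card_disjSum, Finset.card_univ, Fintype.card_fin] at h3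
    exact h3)
  have hval : ∀ e : {e // e ∈ F}, (∃ v, g e = Sum.inl v ∧ v ∈ X ∧ v ∈ e.1) ∨ ∃ i, g e = Sum.inr i := by
    intro e
    have := hg2 e
    rw [Finset.mem_disjSum] at this
    rcases this with ⟨v, hv, h⟩ | ⟨i, -, h⟩
    · rw [Finset.mem_filter, List.mem_toFinset] at hv
      exact Or.inl ⟨v, h.symm, hv.1, hv.2⟩
    · exact Or.inr ⟨i, h.symm⟩
  set F1 := F.filter (fun e => ∃ h : e ∈ F, ∃ v, g ⟨e, h⟩ = Sum.inl v) with hF1
  set F2 := F.filter (fun e => ¬ ∃ h : e ∈ F, ∃ v, g ⟨e, h⟩ = Sum.inl v) with hF2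
  have hex : ∀ e : Sym2 V, ∃ v, e ∈ F1 → ∃ h : e ∈ F, g ⟨e, h⟩ = Sum.inl v := by
    intro e
    by_cases he : e ∈ F1
    · obtain ⟨h, v, hv⟩ := (Finset.mem_filter.1 he).2
      exact ⟨v, fun _ => ⟨h, hv⟩⟩
    · induction e using Sym2.ind with
      | _ x y => exact ⟨x, fun h => absurd h he⟩
  choose own hown using hex
  have t1 : Toks (X.map (fun x => ([x], W))) (dg F1) := by
    refine toks_own (Nb := fun _ => W) hX own F1 ?_ ?_
    · intro e he
      obtain ⟨h, hv⟩ := hown e he
      rcases hval ⟨e, h⟩ with ⟨v, h1, h2, h3⟩ | ⟨i, h1⟩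
      · rw [hv] at h1
        have h4 : own e = v := by simpa using h1
        rw [← h4] at h2 h3
        obtain ⟨x, hx, y, hy, hne, hexy⟩ := hF e h
        refine ⟨h2, ?_⟩
        have h3' : own e ∈ s(x, y) := by rw [← hexy]; exact h3
        rw [Sym2.mem_iff] at h3'
        rcases h3' with h5 | h5
        · exact ⟨y, hy, by rw [h5]; exact hexy, by rw [h5]; exact hne⟩
        · exact ⟨x, hx, by rw [h5]; exact hexy.trans Sym2.eq_swap, by rw [h5]; exact hne.symm⟩
      · rw [hv] at h1; simp at h1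
    · intro e he e' he' heq
      obtain ⟨h, hv⟩ := hown e he
      obtain ⟨h', hv'⟩ := hown e' he'
      have : g ⟨e, h⟩ = g ⟨e', h'⟩ := by rw [hv, hv', heq]
      have := hg1 this
      simpa using this
  have hex2 : ∀ e : Sym2 V, ∃ i : Option (Fin k), e ∈ F2 → ∃ h : e ∈ F, ∃ j, i = some j ∧
      g ⟨e, h⟩ = Sum.inr j := by
    intro e
    by_cases he : e ∈ F2
    · have h1 := (Finset.mem_filter.1 he)
      rcases hval ⟨e, h1.1⟩ with ⟨v, h2, -, -⟩ | ⟨i, h2⟩
      · exact absurd ⟨h1.1, v, h2⟩ h1.2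
      · exact ⟨some i, fun _ => ⟨h1.1, i, rfl, h2⟩⟩
    · exact ⟨none, fun h => absurd h he⟩
  choose idx hidx using hex2
  have hF2c : F2.card ≤ k := by
    have h1 : (F2.image idx).card = F2.card := by
      refine Finset.card_image_of_injOn ?_
      intro e he e' he' heq
      obtain ⟨h, j, hj, hv⟩ := hidx e he
      obtain ⟨h', j', hj', hv'⟩ := hidx e' he'
      have h2 : j = j' := by
        have h3 : idx e = idx e' := heq
        rw [hj, hj'] at h3
        simpa using h3
      have : g ⟨e, h⟩ = g ⟨e', h'⟩ := by rw [hv, hv', h2]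
      have := hg1 this
      simpa using this
    have h2 : F2.image idx ⊆ (Finset.univ : Finset (Fin k)).image some := by
      intro i hi
      rw [Finset.mem_image] at hi
      obtain ⟨e, he, rfl⟩ := hi
      obtain ⟨h, j, hj, hv⟩ := hidx e he
      rw [hj]
      exact Finset.mem_image_of_mem _ (Finset.mem_univ _)
    have h3 := Finset.card_le_card h2
    have h4 := Finset.card_image_le (s := (Finset.univ : Finset (Fin k))) (f := some)
    rw [Finset.card_univ, Fintype.card_fin] at h4
    omega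
  have t2 : Toks (List.replicate k (W, W)) (dg F2) :=
    toks_rep k F2 hF2c (fun e he => hF e (Finset.mem_filter.1 he).1)
  refine Toks.append.2 ⟨dg F1, dg F2, t1, t2, fun z => ?_⟩
  rw [← dg_union (Finset.disjoint_filter_filter_not F F _), Finset.filter_union_filter_not_eq]

theorem toks_x_cnt {W : List V} : ∀ {X : List V}, X.Nodup → (∀ x ∈ X, x ∈ W) → ∀ {f : V → ℤ},
    Toks (X.map (fun x => ([x], W))) f →
    ∃ k : ℕ, k ≤ (X.toFinset.filter (fun v => 0 < f v)).card ∧
      ∑ x ∈ W.toFinset, f x = 2 * k ∧ ∀ z, z ∉ W → f z = 0 := by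
  intro X
  induction X with
  | nil =>
    intro _ _ f h
    have h : ∀ z, f z = 0 := h
    exact ⟨0, by simp, by simp [h], fun z _ => h z⟩
  | cons v L ih =>
    intro hL hLW f h
    rw [List.nodup_cons] at hL
    rw [List.map_cons] at h
    obtain ⟨x, t, hx, ht, hf⟩ := h
    obtain ⟨k, h1, h2, h3⟩ := ih hL.2 (fun y hy => hLW y (List.mem_cons_of_mem _ hy)) hx
    rcases ht with ht | ⟨a, ha, b, hb, ht⟩
    · have hfx : f = x := by funext z; rw [hf, ht]; ring
      subst hfx
      refine ⟨k, h1.trans (Finset.card_le_card ?_), h2, h3⟩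
      intro z hz
      rw [Finset.mem_filter, List.mem_toFinset] at hz ⊢
      exact ⟨List.mem_cons_of_mem _ hz.1, hz.2⟩
    · rw [List.mem_singleton] at ha
      subst ha
      have hxn := hx.nonneg
      have haW : a ∈ W := hLW a (by simp)
      have hft : ∀ z, f z = x z + (ind a z + ind b z) := fun z => by rw [hf, ht]
      refine ⟨k + 1, ?_, ?_, ?_⟩
      · have : insert a (L.toFinset.filter (fun v => 0 < x v)) ⊆
            (a :: L).toFinset.filter (fun v => 0 < f v) := by
          intro z hz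
          rw [Finset.mem_insert] at hz
          rw [Finset.mem_filter, List.mem_toFinset]
          have i1 := ind_nonneg a z
          have i2 := ind_nonneg b z
          rcases hz with rfl | hz
          · refine ⟨by simp, ?_⟩
            rw [hft]; have := hxn z; rw [ind_self] at *; omega
          · rw [Finset.mem_filter, List.mem_toFinset] at hz
            exact ⟨List.mem_cons_of_mem _ hz.1, by rw [hft]; omega⟩
        refine le_trans ?_ (Finset.card_le_card this)
        rw [Finset.card_insert_of_notMem]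
        · omega
        · rw [Finset.mem_filter, List.mem_toFinset]; exact fun h => hL.1 h.1
      · have : ∑ z ∈ W.toFinset, f z = ∑ z ∈ W.toFinset, x z + (∑ z ∈ W.toFinset, ind a z +
            ∑ z ∈ W.toFinset, ind b z) := by
          rw [← Finset.sum_add_distrib, ← Finset.sum_add_distrib]
          exact Finset.sum_congr rfl fun z _ => hft z
        rw [this, h2, sum_ind_mem (List.mem_toFinset.2 haW), sum_ind_mem (List.mem_toFinset.2 hb)]
        push_cast; ring
      · intro z hz
        rw [hft, h3 z hz, ind_ne (by rintro rfl; exact hz haW),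
          ind_ne (by rintro rfl; exact hz hb)]; ring

/-- tokens vanish outside `W` -/
theorem toks_item_out {W X : List V} {k : ℕ} (hX : X.Nodup) (hXW : ∀ x ∈ X, x ∈ W) {f : V → ℤ}
    (hf : Toks (X.map (fun x => ([x], W)) ++ List.replicate k (W, W)) f) {z : V} (hz : z ∉ W) :
    f z = 0 := by
  obtain ⟨f1, f2, h1, h2, h3⟩ := Toks.append.1 hf
  obtain ⟨k1, -, -, g3⟩ := toks_x_cnt hX hXW h1
  obtain ⟨-, g5⟩ := toks_rep_cnt (l := W) (L := W.toFinset) (fun v hv => List.mem_toFinset.2 hv)
    k h2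
  rw [h3, g3 z hz, g5 z (by rwa [List.mem_toFinset])]; ring

/-- separation by counting -/
theorem toks_item_even {W X S0 : List V} (hX : X.Nodup) (hS : S0.Nodup) (hS0 : S0 ≠ [])
    (hXS : ∀ x ∈ X, x ∉ S0) (hXW : ∀ x ∈ X, x ∈ W) (hSW : ∀ x ∈ S0, x ∈ W) {f : V → ℤ}
    (hf : Toks (X.map (fun x => ([x], W)) ++ List.replicate (S0.length - 1) (W, W)) f)
    (hev : ∀ x ∈ X, f x = 0 ∨ f x = 2) (hs : ∀ x ∈ S0, f x = 2) : False := by
  have hf0 := hf.nonneg
  obtain ⟨f1, f2, h1, h2, h3⟩ := Toks.append.1 hf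
  obtain ⟨k1, g1, g2, g3⟩ := toks_x_cnt hX hXW h1
  obtain ⟨g4, g5⟩ := toks_rep_cnt (l := W) (L := W.toFinset) (fun v hv => List.mem_toFinset.2 hv)
    (S0.length - 1) h2
  have hsum : ∑ z ∈ W.toFinset, f z = ∑ z ∈ W.toFinset, f1 z + ∑ z ∈ W.toFinset, f2 z := by
    rw [← Finset.sum_add_distrib]
    exact Finset.sum_congr rfl fun z _ => h3 z
  have hdis : Disjoint X.toFinset S0.toFinset := by
    rw [Finset.disjoint_left]
    intro z hz hz'
    exact hXS z (List.mem_toFinset.1 hz) (List.mem_toFinset.1 hz')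
  have hsub : X.toFinset ∪ S0.toFinset ⊆ W.toFinset := by
    intro z hz
    rw [Finset.mem_union, List.mem_toFinset, List.mem_toFinset] at hz
    rw [List.mem_toFinset]
    rcases hz with h | h
    · exact hXW z h
    · exact hSW z h
  have h4 : ∑ z ∈ X.toFinset, f z + ∑ z ∈ S0.toFinset, f z ≤ ∑ z ∈ W.toFinset, f z := by
    rw [← Finset.sum_union hdis]
    exact Finset.sum_le_sum_of_subset_of_nonneg hsub fun z _ _ => hf0 z
  have h5 : ∑ z ∈ S0.toFinset, f z = 2 * S0.length := by
    rw [Finset.sum_congr rfl fun z hz => hs z (List.mem_toFinset.1 hz), Finset.sum_const,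
      List.toFinset_card_of_nodup hS]
    simp; ring
  have h6 : 2 * ((X.toFinset.filter (fun v => 0 < f1 v)).card : ℤ) ≤ ∑ z ∈ X.toFinset, f z := by
    have e1 : ∑ z ∈ X.toFinset.filter (fun v => 0 < f1 v), f z ≤ ∑ z ∈ X.toFinset, f z :=
      Finset.sum_le_sum_of_subset_of_nonneg (Finset.filter_subset _ _) fun z _ _ => hf0 z
    have e2 : ∑ z ∈ X.toFinset.filter (fun v => 0 < f1 v), (2 : ℤ) ≤
        ∑ z ∈ X.toFinset.filter (fun v => 0 < f1 v), f z := by
      refine Finset.sum_le_sum fun z hz => ?_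
      rw [Finset.mem_filter, List.mem_toFinset] at hz
      have := hev z hz.1
      have := h3 z
      have := h2.nonneg z
      omega
    rw [Finset.sum_const] at e2
    simp at e2
    omega
  have hpos : 0 < S0.length := List.length_pos_iff.2 hS0
  have h7 : ((S0.length - 1 : ℕ) : ℤ) = S0.length - 1 := by omega
  rw [h7] at g4
  omega

/-- items: complete part, petals, special vertices -/
abbrev Jtem (V : Type*) := List V × List V × List V

/-- edges of an item -/
def jE (it : Jtem V) : Set (Sym2 V) :=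
  {e | ∃ x ∈ it.1, ∃ y ∈ it.1 ++ it.2.1, x ≠ y ∧ e = s(x, y)}

/-- tokens of an item -/
def jtoks (it : Jtem V) : List (List V × List V) :=
  ((it.1 ++ it.2.1).filter (fun x => !decide (x ∈ it.2.2))).map (fun x => ([x], it.1 ++ it.2.1)) ++
    List.replicate (it.2.2.length - 1) (it.1 ++ it.2.1, it.1 ++ it.2.1)

/-- validity of an item -/
def jok (it : Jtem V) : Prop :=
  (it.1 ++ it.2.1).Nodup ∧ it.2.2.Nodup ∧ (∀ x ∈ it.2.2, x ∈ it.1 ++ it.2.1) ∧
    ((it.1.length = 4 ∧ it.2.1 = [] ∧ 1 ≤ it.2.2.length) ∨ (it.1.length = 2 ∧ it.2.2.length = 1))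

theorem jok.ne {it : Jtem V} (h : jok it) : it.2.2 ≠ [] := by
  rintro he
  rcases h.2.2.2 with ⟨-, -, h1⟩ | ⟨-, h1⟩ <;> rw [he] at h1 <;> simp at h1

/-- realisation by the tokens of an item -/
theorem jtoks_of {it : Jtem V} (hok : jok it) {F : Finset (Sym2 V)} (hF : ∀ e ∈ F, e ∈ jE it)
    (hd : ∀ v, dg F v ≤ 2)
    (hN : ∀ F' ⊆ F, (∀ v, dg F' v = 0 ∨ dg F' v = 2) → ∃ s ∈ it.2.2, dg F' s = 0) :
    Toks (jtoks it) (dg F) := by
  refine toks_hall (hok.1.filter _) hok.2.1 hok.ne ?_ F ?_ hd hN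
  · intro v hv
    by_cases h : v ∈ it.2.2
    · exact Or.inr h
    · left; rw [List.mem_filter]; exact ⟨hv, by simp [h]⟩
  · intro e he
    obtain ⟨x, hx, y, hy, hne, h⟩ := hF e he
    exact ⟨x, List.mem_append_left _ hx, y, hy, hne, h⟩

/-- separation -/
theorem jtoks_sep {it : Jtem V} (hok : jok it) {f : V → ℤ} (hf : Toks (jtoks it) f)
    (hev : ∀ x ∈ it.1 ++ it.2.1, f x = 0 ∨ f x = 2) (hs : ∀ x ∈ it.2.2, f x = 2) : False := by
  refine toks_item_even (hok.1.filter _) hok.2.1 hok.ne ?_ ?_ hok.2.2.1 hf ?_ hs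
  · intro x hx
    rw [List.mem_filter] at hx
    simpa using hx.2
  · intro x hx
    exact (List.mem_filter.1 hx).1
  · intro x hx
    exact hev x (List.mem_filter.1 hx).1

theorem jtoks_out {it : Jtem V} (hok : jok it) {f : V → ℤ} (hf : Toks (jtoks it) f) {z : V}
    (hz : z ∉ it.1 ++ it.2.1) : f z = 0 := by
  refine toks_item_out (hok.1.filter _) ?_ hf hz
  intro x hx
  exact (List.mem_filter.1 hx).1

end H999
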