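import Pool.Agent.H999_TwoFactor.TPath

/-!
The environment of a `K_4` with some of its triangles.
-/

namespace H999

open Finset

set_option linter.all false

variable {V : Type*} [DecidableEq V]

/-- value 2 on `M` -/
def kt (M : Finset V) (z : V) : ℤ := if z ∈ M then 2 else 0

/-- environment of a `K_4` -/
structure KEnv (Q : (V → ℤ) → Prop) (L : Finset V) : Prop where
  js : JS Q
  card : L.card = 4
  le : ∀ f, Q f → ∀ z, f z ≤ 2
  path : ∀ l : List V, l.Nodup → (∀ x ∈ l, x ∈ L) → ∀ f, (∀ z, f z = pv l z) → ¬ Q f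
  seed : Q (kt L)

theorem kt4 {a b c d : V} (hab : a ≠ b) (hac : a ≠ c) (had : a ≠ d) (hbc : b ≠ c)
    (hbd : b ≠ d) (hcd : c ≠ d) (z : V) :
    kt {a, b, c, d} z = 2 * ind a z + 2 * ind b z + 2 * ind c z + 2 * ind d z := by
  unfold kt
  by_cases h1 : z = a
  · subst h1; rw [if_pos (by simp), ind_self, ind_ne hab, ind_ne hac, ind_ne had]; ring
  by_cases h2 : z = b
  · subst h2; rw [if_pos (by simp), ind_self, ind_ne hab.symm, ind_ne hbc, ind_ne hbd]; ring
  by_cases h3 : z = c
  · subst h3
    rw [if_pos (by simp), ind_self, ind_ne hac.symm, ind_ne hbc.symm, ind_ne hcd]; ring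
  by_cases h4 : z = d
  · subst h4
    rw [if_pos (by simp), ind_self, ind_ne had.symm, ind_ne hbd.symm, ind_ne hcd.symm]; ring
  rw [if_neg (by simp [h1, h2, h3, h4]), ind_ne h1, ind_ne h2, ind_ne h3, ind_ne h4]; ring

theorem kt3 {a b c : V} (hab : a ≠ b) (hac : a ≠ c) (hbc : b ≠ c) (z : V) :
    kt {a, b, c} z = 2 * ind a z + 2 * ind b z + 2 * ind c z := by
  unfold kt
  by_cases h1 : z = a
  · subst h1; rw [if_pos (by simp), ind_self, ind_ne hab, ind_ne hac]; ring
  by_cases h2 : z = b
  · subst h2; rw [if_pos (by simp), ind_self, ind_ne hab.symm, ind_ne hbc]; ring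
  by_cases h3 : z = c
  · subst h3
    rw [if_pos (by simp), ind_self, ind_ne hac.symm, ind_ne hbc.symm]; ring
  rw [if_neg (by simp [h1, h2, h3]), ind_ne h1, ind_ne h2, ind_ne h3]; ring

theorem erase4 {a b c d : V} (hab : a ≠ b) (hac : a ≠ c) (had : a ≠ d) :
    ({a, b, c, d} : Finset V).erase a = {b, c, d} := by
  rw [Finset.erase_insert]; simp [hab, hac, had]

theorem exists_rest {L : Finset V} (hL : L.card = 4) {s v : V} (hs : s ∈ L) (hv : v ∈ L)
    (hsv : s ≠ v) : ∃ x y, s ≠ x ∧ s ≠ y ∧ v ≠ x ∧ v ≠ y ∧ x ≠ y ∧ L = {s, v, x, y} := by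
  have hwv : v ∈ L.erase s := Finset.mem_erase.2 ⟨hsv.symm, hv⟩
  have hc : ((L.erase s).erase v).card = 2 := by
    rw [Finset.card_erase_of_mem hwv, Finset.card_erase_of_mem hs]; omega
  obtain ⟨x, y, hxy, hLe⟩ := Finset.card_eq_two.1 hc
  have mx : x ∈ (L.erase s).erase v := by rw [hLe]; simp
  have my : y ∈ (L.erase s).erase v := by rw [hLe]; simp
  rw [Finset.mem_erase, Finset.mem_erase] at mx my
  refine ⟨x, y, Ne.symm mx.2.1, Ne.symm my.2.1, Ne.symm mx.1, Ne.symm my.1, hxy, ?_⟩
  rw [← Finset.insert_erase hs, ← Finset.insert_erase hwv, hLe]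

section

variable {Q : (V → ℤ) → Prop} {L : Finset V}

theorem KEnv.s2 (h : KEnv Q L) {s : V} (hs : s ∈ L) (hn : ¬ Q (kt (L.erase s))) {f : V → ℤ}
    (hf : Q f) (hout : ∀ z, z ∉ L → f z = 0) : f s = 2 := by
  by_contra hne
  have hle := h.le f hf
  obtain ⟨v, τ, hτ, h2, h3⟩ := h.js _ _ h.seed hf s (-1) (Or.inr rfl)
  unfold kt at h2
  by_cases hvL : v ∈ L
  · rw [if_pos hvL] at h2
    by_cases hvs : v = s
    · subst hvs
      rw [ind_self] at h2
      have := tau_neg hτ h2 (by have := hle v; omega)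
      subst this
      refine hn ?_
      have he : kt (L.erase v) = fun z => kt L z + -1 * ind v z + -1 * ind v z := by
        funext z
        unfold kt
        by_cases hz : z = v
        · subst hz; rw [if_neg (by simp), if_pos hvL, ind_self]; ring
        · rw [ind_ne hz]
          by_cases hzL : z ∈ L
          · rw [if_pos (Finset.mem_erase.2 ⟨hz, hzL⟩), if_pos hzL]; ring
          · rw [if_neg (fun h => hzL (Finset.mem_erase.1 h).2), if_neg hzL]; ring
      rw [he]; exact h3
    · rw [ind_ne hvs] at h2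
      have := tau_neg hτ h2 (by have := hle v; omega)
      subst this
      obtain ⟨x, y, hsx, hsy, hvx, hvy, hxy, hLe⟩ := exists_rest h.card hs hvL (Ne.symm hvs)
      refine h.path [s, x, y, v] (by simp [hsx, hsy, Ne.symm hvs, hxy, hvx.symm, hvy.symm]) ?_ _
        ?_ h3
      · rw [hLe]; intro t ht
        simp only [List.mem_cons, List.not_mem_nil, or_false] at ht
        rcases ht with rfl | rfl | rfl | rfl <;> simp
      · intro z
        rw [hLe, kt4 (Ne.symm hvs) hsx hsy hvx hvy hxy]
        simp only [pv]; ring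
  · have hvs : v ≠ s := by rintro rfl; exact hvL hs
    rw [if_neg hvL, hout v hvL, ind_ne hvs] at h2
    exact tau_zero h2 (by ring)

theorem KEnv.x1 (h : KEnv Q L) {x : V} (hx : x ∈ L) (ht : Q (kt (L.erase x))) {f : V → ℤ}
    (hf : Q f) (hout : ∀ z, z ∉ L → f z = 0) : f x ≠ 1 := by
  intro h1
  have hle := h.le f hf
  obtain ⟨v, τ, hτ, h2, h3⟩ := h.js _ _ ht hf x 1 (Or.inl rfl)
  unfold kt at h2
  by_cases hvL : v ∈ L
  · by_cases hvx : v = x
    · subst hvx
      rw [if_neg (by simp), ind_self, h1] at h2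
      exact tau_zero h2 (by ring)
    · rw [if_pos (Finset.mem_erase.2 ⟨hvx, hvL⟩), ind_ne hvx] at h2
      have := tau_neg hτ h2 (by have := hle v; omega)
      subst this
      obtain ⟨p, q, hsx, hsy, hvp, hvq, hpq, hLe⟩ := exists_rest h.card hx hvL (Ne.symm hvx)
      refine h.path [x, p, q, v] (by simp [hsx, hsy, Ne.symm hvx, hpq, hvp.symm, hvq.symm]) ?_ _
        ?_ h3
      · rw [hLe]; intro t ht
        simp only [List.mem_cons, List.not_mem_nil, or_false] at ht
        rcases ht with rfl | rfl | rfl | rfl <;> simp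
      · intro z
        rw [hLe, erase4 (Ne.symm hvx) hsx hsy, kt3 hvp hvq hpq]
        simp only [pv]; ring
  · have hvs : v ≠ x := by rintro rfl; exact hvL hx
    rw [if_neg (fun h => hvL (Finset.mem_erase.1 h).2), hout v hvL, ind_ne hvs] at h2
    exact tau_zero h2 (by ring)

theorem KEnv.pair (h : KEnv Q L) {a b c d : V} (hab : a ≠ b) (hac : a ≠ c) (had : a ≠ d)
    (hbc : b ≠ c) (hbd : b ≠ d) (hcd : c ≠ d) (hL : ∀ x ∈ [a, b, c, d], x ∈ L)
    (h1 : Q (t3 b c d)) (h2 : Q (t3 a c d)) : Q (dbl c d) := by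
  obtain ⟨v, τ, hτ, h3, h4⟩ := h.js _ _ h1 h2 b (-1) (Or.inr rfl)
  unfold t3 at h3
  by_cases hvb : v = b
  · subst hvb
    rw [ind_self, ind_ne hab.symm, ind_ne hbc, ind_ne hbd] at h3
    have := tau_neg hτ h3 (by omega)
    subst this
    have he : dbl c d = fun z => t3 v c d z + -1 * ind v z + -1 * ind v z := by
      funext z; unfold dbl t3; ring
    rw [he]; exact h4
  exfalso
  by_cases hva : v = a
  · subst hva
    rw [ind_self, ind_ne hab, ind_ne hac, ind_ne had] at h3
    have := tau_pos hτ h3 (by omega)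
    subst this
    refine h.path [v, c, d, b] (by simp [hac, had, hab, hcd, hbc.symm, hbd.symm]) ?_ _ ?_ h4
    · intro t ht
      refine hL t ?_
      simp only [List.mem_cons, List.not_mem_nil, or_false] at ht ⊢
      tauto
    · intro z; simp only [pv, t3]; ring
  by_cases hvc : v = c
  · subst hvc
    rw [ind_self, ind_ne hbc.symm, ind_ne hac.symm, ind_ne hcd] at h3
    exact tau_zero h3 (by ring)
  by_cases hvd : v = d
  · subst hvd
    rw [ind_self, ind_ne hbd.symm, ind_ne had.symm, ind_ne hcd.symm] at h3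
    exact tau_zero h3 (by ring)
  rw [ind_ne hva, ind_ne hvb, ind_ne hvc, ind_ne hvd] at h3
  exact tau_zero h3 (by ring)

theorem KEnv.single (h : KEnv Q L) {a b c d : V} (hab : a ≠ b) (hac : a ≠ c) (had : a ≠ d)
    (hbc : b ≠ c) (hbd : b ≠ d) (hcd : c ≠ d) (hL : ∀ x ∈ [a, b, c, d], x ∈ L)
    (h1 : Q (dbl c d)) (h2 : Q (dbl a b)) : Q (fun z => 2 * ind d z) := by
  obtain ⟨v, τ, hτ, h3, h4⟩ := h.js _ _ h1 h2 c (-1) (Or.inr rfl)
  unfold dbl at h3
  by_cases hvc : v = c
  · subst hvc
    rw [ind_self, ind_ne hac.symm, ind_ne hbc.symm, ind_ne hcd] at h3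
    have := tau_neg hτ h3 (by omega)
    subst this
    have he : (fun z => 2 * ind d z) = fun z => dbl v d z + -1 * ind v z + -1 * ind v z := by
      funext z; unfold dbl; ring
    rw [he]; exact h4
  exfalso
  by_cases hva : v = a
  · subst hva
    rw [ind_self, ind_ne hab, ind_ne hac, ind_ne had] at h3
    have := tau_pos hτ h3 (by omega)
    subst this
    refine h.path [v, d, c] (by simp [hac, had, hcd.symm]) ?_ _ ?_ h4
    · intro t ht
      refine hL t ?_
      simp only [List.mem_cons, List.not_mem_nil, or_false] at ht ⊢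
      tauto
    · intro z; simp only [pv, dbl]; ring
  by_cases hvb : v = b
  · subst hvb
    rw [ind_self, ind_ne hab.symm, ind_ne hbc, ind_ne hbd] at h3
    have := tau_pos hτ h3 (by omega)
    subst this
    refine h.path [v, d, c] (by simp [hbc, hbd, hcd.symm]) ?_ _ ?_ h4
    · intro t ht
      refine hL t ?_
      simp only [List.mem_cons, List.not_mem_nil, or_false] at ht ⊢
      tauto
    · intro z; simp only [pv, dbl]; ring
  by_cases hvd : v = d
  · subst hvd
    rw [ind_self, ind_ne hbd.symm, ind_ne had.symm, ind_ne hcd.symm] at h3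
    have := tau_neg hτ h3 (by omega)
    subst this
    refine h.path [c, v] (by simp [hcd]) ?_ _ ?_ h4
    · intro t ht
      refine hL t ?_
      simp only [List.mem_cons, List.not_mem_nil, or_false] at ht ⊢
      tauto
    · intro z; simp only [pv, dbl]; ring
  rw [ind_ne hva, ind_ne hvb, ind_ne hvc, ind_ne hvd] at h3
  exact tau_zero h3 (by ring)

theorem KEnv.four (h : KEnv Q L) (hall : ∀ x ∈ L, Q (kt (L.erase x))) : False := by
  obtain ⟨a, ha⟩ : L.Nonempty := Finset.card_pos.1 (by rw [h.card]; norm_num)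
  obtain ⟨b, hb⟩ : (L.erase a).Nonempty :=
    Finset.card_pos.1 (by rw [Finset.card_erase_of_mem ha, h.card]; norm_num)
  rw [Finset.mem_erase] at hb
  obtain ⟨c, d, hac, had, hbc, hbd, hcd, hLe⟩ := exists_rest h.card ha hb.2 hb.1.symm
  have hab : a ≠ b := hb.1.symm
  have hc : c ∈ L := by rw [hLe]; simp
  have hd : d ∈ L := by rw [hLe]; simp
  have ta : Q (t3 b c d) := by
    have h1 := hall a ha
    rw [hLe, erase4 hab hac had] at h1
    have he : t3 b c d = kt {b, c, d} := by funext z; rw [kt3 hbc hbd hcd]; rfl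
    rw [he]; exact h1
  have tb : Q (t3 a c d) := by
    have h1 := hall b hb.2
    rw [hLe, Finset.insert_comm a b, erase4 hab.symm hbc hbd] at h1
    have he : t3 a c d = kt {a, c, d} := by funext z; rw [kt3 hac had hcd]; rfl
    rw [he]; exact h1
  have tc : Q (t3 a b d) := by
    have h1 := hall c hc
    have e1 : L = {c, a, b, d} := by rw [hLe]; ext z; simp only [Finset.mem_insert, Finset.mem_singleton]; tauto
    rw [e1, erase4 hac.symm hbc.symm hcd] at h1
    have he : t3 a b d = kt {a, b, d} := by funext z; rw [kt3 hab had hbd]; rfl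
    rw [he]; exact h1
  have td : Q (t3 a b c) := by
    have h1 := hall d hd
    have e1 : L = {d, a, b, c} := by rw [hLe]; ext z; simp only [Finset.mem_insert, Finset.mem_singleton]; tauto
    rw [e1, erase4 had.symm hbd.symm hcd.symm] at h1
    have he : t3 a b c = kt {a, b, c} := by funext z; rw [kt3 hab hac hbc]; rfl
    rw [he]; exact h1
  have hL : ∀ {p q r t : V}, (∀ x ∈ [p, q, r, t], x = a ∨ x = b ∨ x = c ∨ x = d) →
      ∀ x ∈ [p, q, r, t], x ∈ L := by
    intro p q r t h x hx
    rw [hLe]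
    simpa using h x hx
  have t3r : ∀ x y z : V, (t3 x y z : V → ℤ) = t3 z x y := by
    intro x y z; funext t; unfold t3; ring
  have e1 : Q (dbl c d) := h.pair hab hac had hbc hbd hcd (hL (by simp)) ta tb
  have e2 : Q (dbl a b) := h.pair hcd hac.symm hbc.symm had.symm hbd.symm hab
    (hL (by simp)) (by rw [← t3r]; exact tc) (by rw [← t3r]; exact td)
  have e3 : Q (fun z => 2 * ind d z) := h.single hab hac had hbc hbd hcd (hL (by simp)) e1 e2
  have e4 : Q (fun z => 2 * ind c z) := h.single hab had hac hbd hbc hcd.symm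
    (hL (by simp)) (by rw [dbl_sw]; exact e1) e2
  obtain ⟨v, τ, hτ, h3, h4⟩ := h.js _ _ e3 e4 d (-1) (Or.inr rfl)
  beta_reduce at h3
  by_cases hvd : v = d
  · subst hvd
    rw [ind_self, ind_ne hcd.symm] at h3
    have := tau_neg hτ h3 (by omega)
    subst this
    exact h.path [] (by simp) (by simp) _ (fun z => by simp only [pv]; ring) h4
  by_cases hvc : v = c
  · subst hvc
    rw [ind_self, ind_ne hcd] at h3
    have := tau_pos hτ h3 (by omega)
    subst this
    refine h.path [v, d] (by simp [*]) ?_ _ (fun z => by simp only [pv]; ring) h4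
    intro x hx
    simp only [List.mem_cons, List.not_mem_nil, or_false] at hx
    rcases hx with rfl | rfl <;> assumption
  rw [ind_ne hvd, ind_ne hvc] at h3
  exact tau_zero h3 (by ring)

end

end H999
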