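import Pool.Agent.H999_TwoFactor.TStep

/-!
The step for a `K_4`.
-/

namespace H999

open Finset

set_option linter.all false

variable {V : Type*} [DecidableEq V]

/-- edges inside `L` -/
def KL (L : Finset V) : Set (Sym2 V) := {e | ∃ x ∈ L, ∃ y ∈ L, x ≠ y ∧ e = s(x, y)}

theorem jE_K4 (L : Finset V) (s : List V) : jE (L.toList, [], s) = KL L := by
  ext e
  simp only [jE, KL, Set.mem_setOf_eq, List.append_nil, Finset.mem_toList]

theorem pe_KL {L : Finset V} : ∀ l : List V, l.Nodup → (∀ x ∈ l, x ∈ L) → pe (KL L) l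
  | [], _, _ => trivial
  | [_], _, _ => trivial
  | x :: y :: l, hnd, hl => by
    rw [List.nodup_cons] at hnd
    refine ⟨⟨x, hl x (by simp), y, hl y (by simp), ?_, rfl⟩,
      pe_KL (y :: l) hnd.2 (fun z hz => hl z (List.mem_cons_of_mem _ hz))⟩
    rintro rfl
    exact hnd.1 (by simp)

theorem reg_three {L : Finset V} {F : Finset (Sym2 V)} (hF : ∀ e ∈ F, e ∈ KL L)
    (hreg : ∀ v, dg F v = 0 ∨ dg F v = 2) {v : V} (hd : dg F v ≠ 0) :
    ∃ b c, v ≠ b ∧ v ≠ c ∧ b ≠ c ∧ v ∈ L ∧ b ∈ L ∧ c ∈ L ∧ dg F v = 2 ∧ dg F b = 2 ∧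
      dg F c = 2 := by
  have h2 : dg F v = 2 := by rcases hreg v with h | h <;> omega
  obtain ⟨b, -, hb⟩ := exists_other (a := v) h2.ge
  obtain ⟨c, hcb, hc⟩ := exists_other (a := b) h2.ge
  have key : ∀ b, s(v, b) ∈ F → v ≠ b ∧ v ∈ L ∧ b ∈ L ∧ dg F b = 2 := by
    intro b hb
    obtain ⟨x, hx, y, hy, hne, h⟩ := hF _ hb
    have h1 : 1 ≤ dg F b := one_le_dg (a := v) (by rw [Sym2.eq_swap]; exact hb)
    have h3 : dg F b = 2 := by rcases hreg b with h | h <;> omega
    rw [Sym2.eq_iff] at h
    rcases h with ⟨rfl, rfl⟩ | ⟨rfl, rfl⟩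
    · exact ⟨hne, hx, hy, h3⟩
    · exact ⟨hne.symm, hy, hx, h3⟩
  obtain ⟨k1, k2, k3, k4⟩ := key b hb
  obtain ⟨k5, -, k6, k7⟩ := key c hc
  exact ⟨b, c, k1, k5, hcb.symm, k2, k3, k6, h2, k4, k7⟩

theorem KL_out {L : Finset V} {F : Finset (Sym2 V)} (hF : ∀ e ∈ F, e ∈ KL L) {v : V}
    (hv : v ∉ L) : dg F v = 0 := dg_out hF hv

section

variable {S C : Set (Finset (Sym2 V))} {R : Set (Sym2 V)} {ts : List (List V × List V)}

theorem stepK [Fintype V] (hst : St S R ts) (hs : StrT S) {a b c d : V} (hab : a ≠ b)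
    (hac : a ≠ c) (had : a ≠ d) (hbc : b ≠ c) (hbd : b ≠ d) (hcd : c ≠ d)
    (h1 : quad a b c d ∈ S) (h2 : quad a b d c ∈ S) : DoneT S R ts := by
  classical
  have h3 := hs.K a b c d hab hac had hbc hbd hcd h1 h2
  obtain ⟨L, hLdef⟩ : ∃ L : Finset V, L = {a, b, c, d} := ⟨_, rfl⟩
  have hLm : ∀ x, x ∈ L ↔ x = a ∨ x = b ∨ x = c ∨ x = d := by
    intro x; rw [hLdef]; simp
  have hLcard : L.card = 4 := by
    rw [hLdef, Finset.card_insert_of_notMem (by simp [hab, hac, had]),
      Finset.card_insert_of_notMem (by simp [hbc, hbd]),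
      Finset.card_insert_of_notMem (by simp [hcd]), Finset.card_singleton]
  have hall : ∀ p q r s, p ≠ q → p ≠ r → p ≠ s → q ≠ r → q ≠ s → r ≠ s → p ∈ L → q ∈ L →
      r ∈ L → s ∈ L → quad p q r s ∈ S := by
    obtain ⟨a1, a2, a3, a4, a5, a6, a7⟩ := quad8 h1
    obtain ⟨b1, b2, b3, b4, b5, b6, b7⟩ := quad8 h2
    obtain ⟨c1, c2, c3, c4, c5, c6, c7⟩ := quad8 h3
    intro p q r s g1 g2 g3 g4 g5 g6 hp hq hr hs
    rw [hLm] at hp hq hr hs
    rcases hp with rfl | rfl | rfl | rfl <;> rcases hq with rfl | rfl | rfl | rfl <;>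
      first
        | exact absurd rfl g1
        | (rcases hr with rfl | rfl | rfl | rfl <;>
            first
              | exact absurd rfl g2
              | exact absurd rfl g4
              | (rcases hs with rfl | rfl | rfl | rfl <;>
                  first
                    | exact absurd rfl g3
                    | exact absurd rfl g5
                    | exact absurd rfl g6
                    | assumption))
  set C : Set (Finset (Sym2 V)) := {Z | Z ∈ S ∧ ∀ e ∈ Z, e ∈ KL L} with hC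
  have hKL : ∀ {x y : V}, x ∈ L → y ∈ L → x ≠ y → s(x, y) ∈ KL L :=
    fun hx hy hne => ⟨_, hx, _, hy, hne, rfl⟩
  have hquad : ∀ p q r s, p ≠ q → p ≠ r → p ≠ s → q ≠ r → q ≠ s → r ≠ s → p ∈ L → q ∈ L →
      r ∈ L → s ∈ L → quad p q r s ∈ C := by
    intro p q r s g1 g2 g3 g4 g5 g6 hp hq hr hs
    refine ⟨hall p q r s g1 g2 g3 g4 g5 g6 hp hq hr hs, ?_⟩
    intro e he
    rw [mem_quad] at he
    rcases he with rfl | rfl | rfl | rfl
    · exact hKL hp hq g1
    · exact hKL hq hr g4
    · exact hKL hr hs g6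
    · exact hKL hs hp g3.symm
  have hcl : Clus S C (KL L) := by
    refine ⟨fun Z hZ => hZ.1, ?_, fun Z hZ => hZ.2, ?_, ?_⟩
    · rintro Z hZ hZC e ⟨x, hx, y, hy, hxy, rfl⟩ he
      obtain ⟨z, t, hxz, hxt, hyz, hyt, hzt, hLe⟩ := exists_rest hLcard hx hy hxy
      have hz : z ∈ L := by rw [hLe]; simp
      have ht : t ∈ L := by rw [hLe]; simp
      have q1 := hall x y z t hxy hxz hxt hyz hyt hzt hx hy hz ht
      have q2 := hall x y t z hxy hxt hxz hyt hyz hzt.symm hx hy ht hz
      refine hZC ⟨hZ, ?_⟩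
      rcases (hs.q Z hZ).at_edge he with ⟨q, -, hxq, hyq, rfl⟩ |
        ⟨p, r, -, hxp, hxr, hyp, hyr, hpr, rfl⟩
      · have hq : q ∈ L := by
          rcases hs.tq hxy hxz hxt hyz hyt hzt hxq hyq hZ q1 with rfl | rfl <;> assumption
        intro e he
        rw [mem_tri] at he
        rcases he with rfl | rfl | rfl
        · exact hKL hx hy hxy
        · exact hKL hy hq hyq
        · exact hKL hq hx hxq.symm
      · have e1 := hs.qq hxy hxz hxt hyz hyt hzt hxp hxr hyp hyr hpr q1 hZ
        have e2 := hs.qq hxy hxt hxz hyt hyz hzt.symm hxp hxr hyp hyr hpr q2 hZ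
        have hpr' : (p = z ∧ r = t) ∨ (p = t ∧ r = z) := by
          rcases e1 with h | h | ⟨h, h'⟩
          · rcases e2 with h' | h' | ⟨h', h''⟩
            · exact absurd (h.symm.trans h') hzt
            · exact absurd (h.trans h'.symm) hpr
            · exact Or.inl ⟨h, h''⟩
          · rcases e2 with h' | h' | ⟨h', h''⟩
            · exact absurd (h'.trans h.symm) hpr
            · exact absurd (h'.symm.trans h) hzt
            · exact Or.inl ⟨h', h⟩
          · exact Or.inr ⟨h, h'⟩
        have hp : p ∈ L ∧ r ∈ L := by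
          rcases hpr' with ⟨rfl, rfl⟩ | ⟨rfl, rfl⟩
          · exact ⟨hz, ht⟩
          · exact ⟨ht, hz⟩
        intro e he
        rw [mem_quad] at he
        rcases he with rfl | rfl | rfl | rfl
        · exact hKL hx hy hxy
        · exact hKL hy hp.1 hyp
        · exact hKL hp.1 hp.2 hpr
        · exact hKL hp.2 hx hxr.symm
    · rintro Z hZ e ⟨x, hx, y, hy, hxy, rfl⟩
      have hZs := hs.q Z hZ.1
      by_cases hdx : dg Z x = 0
      · by_cases hdy : dg Z y = 0
        · exfalso
          obtain ⟨e, he⟩ := hZs.nonempty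
          induction e using Sym2.ind with
          | _ v v' =>
          have hdv : dg Z v ≠ 0 := by have := one_le_dg he; omega
          obtain ⟨p, q, g1, g2, g3, g4, g5, g6, g7, g8, g9⟩ := reg_three hZ.2 hZs.reg hdv
          have hsub : ({x, y, v, p, q} : Finset V) ⊆ L := by
            intro t ht
            simp only [Finset.mem_insert, Finset.mem_singleton] at ht
            rcases ht with rfl | rfl | rfl | rfl | rfl <;> assumption
          have n1 : x ≠ v := by rintro rfl; omega
          have n2 : x ≠ p := by rintro rfl; omega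
          have n3 : x ≠ q := by rintro rfl; omega
          have n4 : y ≠ v := by rintro rfl; omega
          have n5 : y ≠ p := by rintro rfl; omega
          have n6 : y ≠ q := by rintro rfl; omega
          have hc5 : ({x, y, v, p, q} : Finset V).card = 5 := by
            rw [Finset.card_insert_of_notMem (by simp [hxy, n1, n2, n3]),
              Finset.card_insert_of_notMem (by simp [n4, n5, n6]),
              Finset.card_insert_of_notMem (by simp [g1, g2]),
              Finset.card_insert_of_notMem (by simp [g3]), Finset.card_singleton]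
          have := Finset.card_le_card hsub
          omega
        · exact ⟨y, Sym2.mem_mk_right _ _, by rcases hZs.reg y with h | h <;> omega⟩
      · exact ⟨x, Sym2.mem_mk_left _ _, by rcases hZs.reg x with h | h <;> omega⟩
    · rintro e ⟨x, hx, y, hy, hxy, rfl⟩
      obtain ⟨z, t, hxz, hxt, hyz, hyt, hzt, hLe⟩ := exists_rest hLcard hx hy hxy
      have hz : z ∈ L := by rw [hLe]; simp
      have ht : t ∈ L := by rw [hLe]; simp
      exact ⟨_, hquad x y z t hxy hxz hxt hyz hyt hzt hx hy hz ht, by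
        rw [mem_quad]; left; rfl⟩
  have haL : a ∈ L := (hLm a).2 (by simp)
  have hbL : b ∈ L := (hLm b).2 (by simp)
  have hcL : c ∈ L := (hLm c).2 (by simp)
  have hdL : d ∈ L := (hLm d).2 (by simp)
  have hCq := hquad a b c d hab hac had hbc hbd hcd haL hbL hcL hdL
  have hseed : QE S C (KL L) R ts (kt L) := by
    have h := hcl.seed hst hCq
    have he : kt L = fun z => dg (quad a b c d) z := by
      funext z
      rw [hLdef, kt4 hab hac had hbc hbd hcd, dg_quad hab hac had hbc hbd hcd]
    rw [he]; exact h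
  have henv : KEnv (QE S C (KL L) R ts) L := by
    refine ⟨QE.js' hs.q, hLcard, fun f hf z => QE.le hf z, ?_, hseed⟩
    intro l hnd hl f hf
    exact path_not hcl hst hs.q l hnd (pe_KL l hnd hl) hf
  set S0 : Finset V := L.filter (fun x => ¬ QE S C (KL L) R ts (kt (L.erase x))) with hS0
  have hS0m : ∀ x, x ∈ S0 ↔ x ∈ L ∧ ¬ QE S C (KL L) R ts (kt (L.erase x)) := fun x => by
    rw [hS0, Finset.mem_filter]
  have hS0ne : S0.Nonempty := by
    by_contra hcon
    rw [Finset.not_nonempty_iff_eq_empty] at hcon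
    refine henv.four ?_
    intro x hx
    by_contra hn
    have : x ∈ S0 := (hS0m x).2 ⟨hx, hn⟩
    rw [hcon] at this
    simp at this
  have hjE := jE_K4 L S0.toList
  refine doneT_of (it := (L.toList, [], S0.toList)) (C := C) hst ?_ ⟨_, hCq⟩
    (by rw [hjE]; exact hcl) ?_ ?_
  · refine ⟨?_, Finset.nodup_toList _, ?_, Or.inl ⟨?_, rfl, ?_⟩⟩
    · simpa using Finset.nodup_toList L
    · intro x hx
      rw [Finset.mem_toList] at hx
      simpa using ((hS0m x).1 hx).1
    · rw [Finset.length_toList]; exact hLcard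
    · rw [Finset.length_toList]; exact Finset.card_pos.2 hS0ne
  · intro F hF hfree hreg
    rw [hjE] at hF
    by_contra hcon
    push Not at hcon
    have hcon' : ∀ s ∈ S0, dg F s ≠ 0 := fun s hs => hcon s (by simpa using hs)
    obtain ⟨s0, hs0⟩ := hS0ne
    obtain ⟨p, q, g1, g2, g3, g4, g5, g6, g7, g8, g9⟩ := reg_three hF hreg (hcon' s0 hs0)
    have hne : ∀ {x y : V}, s(x, y) ∈ F → x ≠ y := by
      intro x y hxy
      obtain ⟨x', -, y', -, hn, h⟩ := hF _ hxy
      rw [Sym2.eq_iff] at h
      rcases h with ⟨rfl, rfl⟩ | ⟨rfl, rfl⟩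
      · exact hn
      · exact hn.symm
    have hbad := hcl.bad hst hF (fun h => hne h) hfree
    obtain ⟨x, t, e1, e2, e3, e4, e5, hLe⟩ := exists_rest hLcard g4 g5 g1
    -- the fourth vertex
    obtain ⟨r, hr, hLr⟩ : ∃ r, (r ≠ s0 ∧ r ≠ p ∧ r ≠ q) ∧ L = {s0, p, q, r} := by
      have hq : q = x ∨ q = t := by
        rw [hLe] at g6
        simp only [Finset.mem_insert, Finset.mem_singleton] at g6
        rcases g6 with h | h | h | h
        · exact absurd h.symm g2
        · exact absurd h.symm g3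
        · exact Or.inl h
        · exact Or.inr h
      rcases hq with rfl | rfl
      · exact ⟨t, ⟨e2.symm, e4.symm, e5.symm⟩, hLe⟩
      · refine ⟨x, ⟨e1.symm, e3.symm, e5⟩, ?_⟩
        rw [hLe]; ext z; simp only [Finset.mem_insert, Finset.mem_singleton]; tauto
    have hrL : r ∈ L := by rw [hLr]; simp
    rcases hreg r with hr0 | hr2
    · have he : (fun z => dg F z) = kt (L.erase r) := by
        funext z
        unfold kt
        by_cases hz : z ∈ L.erase r
        · rw [if_pos hz]
          rw [Finset.mem_erase, hLr] at hz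
          simp only [Finset.mem_insert, Finset.mem_singleton] at hz
          rcases hz with ⟨hz, rfl | rfl | rfl | rfl⟩
          · exact g7
          · exact g8
          · exact g9
          · exact absurd rfl hz
        · rw [if_neg hz]
          by_cases hzr : z = r
          · rw [hzr]; exact hr0
          · exact KL_out hF (fun h => hz (Finset.mem_erase.2 ⟨hzr, h⟩))
      rw [he] at hbad
      exact hcon' r ((hS0m r).2 ⟨hrL, hbad⟩) hr0
    · refine hbad ?_
      have he : (fun z => dg F z) = kt L := by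
        funext z
        unfold kt
        by_cases hz : z ∈ L
        · rw [if_pos hz]
          rw [hLr] at hz
          simp only [Finset.mem_insert, Finset.mem_singleton] at hz
          rcases hz with rfl | rfl | rfl | rfl
          · exact g7
          · exact g8
          · exact g9
          · exact hr2
        · rw [if_neg hz]
          exact KL_out hF hz
      rw [he]; exact hseed
  · intro f hf h0 hout
    rw [hjE] at hf
    have hout' : ∀ z, z ∉ L → f z = 0 := fun z hz => hout z (by simpa using hz)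
    have hs2 : ∀ x ∈ S0, f x = 2 := fun x hx =>
      henv.s2 ((hS0m x).1 hx).1 ((hS0m x).1 hx).2 hf hout'
    refine ⟨fun x => ?_, fun x hx => hs2 x (by simpa using hx)⟩
    by_cases hxL : x ∈ L
    · by_cases hxS : x ∈ S0
      · exact Or.inr (hs2 x hxS)
      · have hq : QE S C (KL L) R ts (kt (L.erase x)) := by
          by_contra hn; exact hxS ((hS0m x).2 ⟨hxL, hn⟩)
        have := henv.x1 hxL hq hf hout'
        have := h0 x
        have := henv.le f hf x
        omega
    · exact Or.inl (hout' x hxL)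

/-- one step for a family with a triangle -/
theorem step_tri [Fintype V] (hst : St S R ts) (hs : StrT S) {T : Finset (Sym2 V)}
    (hT : T ∈ S) (htri : IsTri T) : DoneT S R ts := by
  by_cases hk : NoK S
  · by_cases hex : ∃ Z' ∈ S, Z' ≠ T ∧ ∃ e ∈ T, e ∈ Z'
    · -- a 4-cycle sharing two edges with the triangle
      have key : ∃ u w c b, TT S u w c ∧ HH S u w c b := by
        obtain ⟨Z', hZ', hne, e, he, he'⟩ := hex
        induction e using Sym2.ind with
        | _ a b =>
        obtain ⟨c, hab, hac, hbc, rfl⟩ : ∃ c, a ≠ b ∧ a ≠ c ∧ b ≠ c ∧ T = tri a b c := by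
          rcases (hs.q T hT).at_edge he with ⟨q, h1, h2, h3, rfl⟩ |
            ⟨q, r, h1, h2, h3, h4, h5, h6, rfl⟩
          · exact ⟨q, h1, h2, h3, rfl⟩
          · exact (not_tri_quad htri ⟨a, b, q, r, h1, h2, h3, h4, h5, h6, rfl⟩).elim
        rcases (hs.q Z' hZ').at_edge he' with ⟨q, -, haq, hbq, rfl⟩ |
          ⟨q, r, -, haq, har, hbq, hbr, hqr, rfl⟩
        · have hcq : c ≠ q := by rintro rfl; exact hne rfl
          have h := hs.tt hab hac hbc haq hbq hcq hT hZ'
          exact ⟨a, b, c, q, ⟨hab, hac, hbc, hT⟩,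
            ⟨hcq, hac, haq, hbc, hbq, (quad8 h).2.2.2.1⟩⟩
        · rcases hs.tq hab haq har hbq hbr hqr hac hbc hT hZ' with rfl | rfl
          · -- `Z' = a b c r`, poles `a c`, petals `b r`
            exact ⟨a, c, b, r, ⟨hac, hab, hbc.symm, (tri6 hT).2.2.2.1⟩,
              ⟨hbr, hab, har, hbc.symm, hqr, hZ'⟩⟩
          · -- `Z' = a b q c`, poles `b c`, petals `a q`
            exact ⟨b, c, a, q, ⟨hbc, hab.symm, hac.symm, (tri6 hT).1⟩,
              ⟨haq, hab.symm, hbq, hac.symm, hqr.symm, (quad8 hZ').2.2.2.1⟩⟩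
      obtain ⟨u, w, c, b, h1, h2⟩ := key
      exact stepPole hst hs hk h1 h2
    · push Not at hex
      obtain ⟨a, b, c, hab, hac, hbc, rfl⟩ := htri
      exact stepOne hst hs hab hac hbc hT (fun Z' h1 h2 e h3 => hex Z' h1 h2 e h3)
  · unfold NoK at hk
    push Not at hk
    obtain ⟨a, b, c, d, hab, hac, had, hbc, hbd, hcd, h1, h2, -⟩ := hk
    exact stepK hst hs hab hac had hbc hbd hcd h1 h2

end

end H999
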