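import Pool.Agent.H999_TwoFactor.TItem

/-!
Paths, and the environments of parts with triangles.
-/

namespace H999

open Finset

set_option linter.all false

variable {V : Type*} [DecidableEq V]

theorem dg_tri {a b c : V} (hab : a ≠ b) (hac : a ≠ c) (hbc : b ≠ c) (z : V) :
    dg (tri a b c) z = 2 * ind a z + 2 * ind b z + 2 * ind c z := by
  have h := rmT_dg hab hac hbc (Finset.Subset.refl (tri a b c)) z
  have h2 : rmT (tri a b c) a b c = ∅ := by
    ext e
    simp only [rmT, Finset.mem_erase, mem_tri, Finset.notMem_empty, iff_false]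
    tauto
  rw [h2] at h
  have h3 : dg (∅ : Finset (Sym2 V)) z = 0 := by simp [dg]
  rw [h3] at h
  omega

theorem Short.reg {Z : Finset (Sym2 V)} (hZ : Short Z) (v : V) : dg Z v = 0 ∨ dg Z v = 2 := by
  rcases hZ with ⟨a, b, c, hab, hac, hbc, rfl⟩ | ⟨a, b, c, d, hab, hac, had, hbc, hbd, hcd, rfl⟩
  · rw [dg_tri hab hac hbc]
    by_cases h1 : v = a
    · subst h1; right; rw [ind_self, ind_ne hab, ind_ne hac]; ring
    by_cases h2 : v = b
    · subst h2; right; rw [ind_self, ind_ne hab.symm, ind_ne hbc]; ring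
    by_cases h3 : v = c
    · subst h3; right; rw [ind_self, ind_ne hac.symm, ind_ne hbc.symm]; ring
    left; rw [ind_ne h1, ind_ne h2, ind_ne h3]; ring
  · rw [dg_quad hab hac had hbc hbd hcd]
    by_cases h1 : v = a
    · subst h1; right; rw [ind_self, ind_ne hab, ind_ne hac, ind_ne had]; ring
    by_cases h2 : v = b
    · subst h2; right; rw [ind_self, ind_ne hab.symm, ind_ne hbc, ind_ne hbd]; ring
    by_cases h3 : v = c
    · subst h3; right; rw [ind_self, ind_ne hac.symm, ind_ne hbc.symm, ind_ne hcd]; ring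
    by_cases h4 : v = d
    · subst h4; right; rw [ind_self, ind_ne had.symm, ind_ne hbd.symm, ind_ne hcd.symm]; ring
    left; rw [ind_ne h1, ind_ne h2, ind_ne h3, ind_ne h4]; ring

theorem Short.nonempty {Z : Finset (Sym2 V)} (hZ : Short Z) : Z.Nonempty := by
  rcases hZ with ⟨a, b, c, hab, hac, hbc, rfl⟩ | ⟨a, b, c, d, hab, hac, had, hbc, hbd, hcd, rfl⟩
  · exact ⟨s(a, b), by rw [mem_tri]; left; rfl⟩
  · exact ⟨s(a, b), by rw [mem_quad]; left; rfl⟩

/-- no nonempty 2-regular part -/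
def NoReg (F : Finset (Sym2 V)) : Prop :=
  ∀ Z ⊆ F, (∀ v, dg Z v = 0 ∨ dg Z v = 2) → Z = ∅

theorem notMem_of_dg0 {F : Finset (Sym2 V)} {x y : V} (hx : dg F x = 0) : s(x, y) ∉ F := by
  intro h
  have := one_le_dg h
  omega

theorem NoReg.pend {F : Finset (Sym2 V)} (h : NoReg F) {x y : V} (hx : dg F x = 0)
    (hxy : x ≠ y) : NoReg (insert s(x, y) F) := by
  intro Z hZ hreg
  have hd := dg_insert hxy (notMem_of_dg0 (y := y) hx) x
  rw [ind_self, ind_ne hxy, hx] at hd
  by_cases hm : s(x, y) ∈ Z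
  · have h1 := one_le_dg hm
    have h2 := dg_mono hZ x
    have := hreg x
    omega
  · refine h Z ?_ hreg
    intro e he
    rcases Finset.mem_insert.1 (hZ he) with rfl | h'
    · exact absurd he hm
    · exact h'

/-- degree vector of a path -/
def pv : List V → V → ℤ
  | x :: y :: l, z => ind x z + ind y z + pv (y :: l) z
  | _, _ => 0

/-- consecutive vertices of the list are joined in `K` -/
def pe (K : Set (Sym2 V)) : List V → Prop
  | x :: y :: l => s(x, y) ∈ K ∧ pe K (y :: l)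
  | _ => True

theorem pv_notMem : ∀ (l : List V) {z : V}, z ∉ l → pv l z = 0
  | [], _, _ => rfl
  | [_], _, _ => rfl
  | x :: y :: l, z, h => by
    have h1 : z ≠ x := fun e => h (by simp [e])
    have h2 : z ≠ y := fun e => h (by simp [e])
    have h3 : z ∉ y :: l := fun e => h (List.mem_cons_of_mem _ e)
    rw [pv, ind_ne h1, ind_ne h2, pv_notMem (y :: l) h3]; ring

theorem exists_path {K : Set (Sym2 V)} : ∀ l : List V, l.Nodup → pe K l →
    ∃ F : Finset (Sym2 V), (∀ e ∈ F, e ∈ K) ∧ (∀ {x y : V}, s(x, y) ∈ F → x ≠ y) ∧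
      (∀ z, dg F z = pv l z) ∧ NoReg F
  | [], _, _ => ⟨∅, by simp, by simp, fun z => by simp [dg, pv], fun Z hZ _ => by simpa using hZ⟩
  | [_], _, _ => ⟨∅, by simp, by simp, fun z => by simp [dg, pv], fun Z hZ _ => by simpa using hZ⟩
  | x :: y :: l, hnd, hpe => by
    rw [List.nodup_cons] at hnd
    obtain ⟨F, h1, h2, h3, h4⟩ := exists_path (y :: l) hnd.2 hpe.2
    have hxy : x ≠ y := fun e => hnd.1 (by simp [e])
    have hx0 : dg F x = 0 := by rw [h3]; exact pv_notMem _ hnd.1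
    refine ⟨insert s(x, y) F, ?_, ?_, ?_, h4.pend hx0 hxy⟩
    · intro e he
      rcases Finset.mem_insert.1 he with rfl | h
      · exact hpe.1
      · exact h1 e h
    · intro a b hab
      rcases Finset.mem_insert.1 hab with h | h
      · rw [Sym2.eq_iff] at h
        rcases h with ⟨rfl, rfl⟩ | ⟨rfl, rfl⟩
        · exact hxy
        · exact hxy.symm
      · exact h2 h
    · intro z
      rw [dg_insert hxy (notMem_of_dg0 hx0), h3, pv]; ring

section

variable {S C : Set (Finset (Sym2 V))} {K R : Set (Sym2 V)} {ts : List (List V × List V)}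

theorem QE.js' [Fintype V] (hq : ∀ Z ∈ S, Short Z) : JS (QE S C K R ts) :=
  (Env.js (S := S \ C) (fun Z hZ => hq Z hZ.1)).neg (fun _ => 2)

theorem path_not (hc : Clus S C K) (hst : St S R ts) (hq : ∀ Z ∈ S, Short Z) (l : List V)
    (hnd : l.Nodup) (hpe : pe K l) {f : V → ℤ} (hf : ∀ z, f z = pv l z) :
    ¬ QE S C K R ts f := by
  obtain ⟨F, h1, h2, h3, h4⟩ := exists_path l hnd hpe
  have : f = fun z => dg F z := by funext z; rw [hf, h3]
  rw [this]
  refine hc.bad hst h1 (fun h => h2 h) ?_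
  intro Z hZ hsub
  have hZs := hq Z (hc.sub hZ)
  have := h4 Z hsub hZs.reg
  have h5 := hZs.nonempty
  rw [this] at h5
  simp at h5

end

/-- edges of the pole type -/
def KP (u w : V) (Y : Finset V) : Set (Sym2 V) :=
  {e | e = s(u, w) ∨ ∃ y ∈ Y, e = s(u, y) ∨ e = s(w, y)}

theorem KP_swap (u w : V) (Y : Finset V) : KP w u Y = KP u w Y := by
  ext e
  simp only [KP, Set.mem_setOf_eq]
  constructor
  · rintro (h | ⟨y, hy, h⟩)
    · exact Or.inl (h.trans Sym2.eq_swap)
    · exact Or.inr ⟨y, hy, h.symm⟩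
  · rintro (h | ⟨y, hy, h⟩)
    · exact Or.inl (h.trans Sym2.eq_swap)
    · exact Or.inr ⟨y, hy, h.symm⟩

theorem KP.uw {u w : V} {Y : Finset V} : s(u, w) ∈ KP u w Y := Or.inl rfl
theorem KP.wu {u w : V} {Y : Finset V} : s(w, u) ∈ KP u w Y := Or.inl Sym2.eq_swap
theorem KP.uy {u w y : V} {Y : Finset V} (h : y ∈ Y) : s(u, y) ∈ KP u w Y :=
  Or.inr ⟨y, h, Or.inl rfl⟩
theorem KP.yu {u w y : V} {Y : Finset V} (h : y ∈ Y) : s(y, u) ∈ KP u w Y :=
  Or.inr ⟨y, h, Or.inl Sym2.eq_swap⟩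
theorem KP.wy {u w y : V} {Y : Finset V} (h : y ∈ Y) : s(w, y) ∈ KP u w Y :=
  Or.inr ⟨y, h, Or.inr rfl⟩
theorem KP.yw {u w y : V} {Y : Finset V} (h : y ∈ Y) : s(y, w) ∈ KP u w Y :=
  Or.inr ⟨y, h, Or.inr Sym2.eq_swap⟩

/-- environment of the pole type -/
structure PEnv (Q : (V → ℤ) → Prop) (u w : V) (Y : Finset V) : Prop where
  js : JS Q
  huw : u ≠ w
  hu : u ∉ Y
  hw : w ∉ Y
  le : ∀ f, Q f → ∀ z, f z ≤ 2
  path : ∀ l : List V, l.Nodup → pe (KP u w Y) l → ∀ f, (∀ z, f z = pv l z) → ¬ Q f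

/-- three vertices of degree 2 -/
def t3 (u w y : V) (z : V) : ℤ := 2 * ind u z + 2 * ind w z + 2 * ind y z

/-- four vertices of degree 2 -/
def t4 (u w y x : V) (z : V) : ℤ := 2 * ind u z + 2 * ind w z + 2 * ind y z + 2 * ind x z

theorem t3_sw (u w y : V) : t3 w u y = t3 u w y := by funext z; unfold t3; ring

theorem t4_sw (u w y x : V) : t4 w u y x = t4 u w y x := by funext z; unfold t4; ring

section

variable {Q : (V → ℤ) → Prop} {u w : V} {Y : Finset V}

theorem PEnv.swap (h : PEnv Q u w Y) : PEnv Q w u Y where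
  js := h.js
  huw := h.huw.symm
  hu := h.hw
  hw := h.hu
  le := h.le
  path l h1 h2 := h.path l h1 (by rw [← KP_swap]; exact h2)

theorem tau_neg {τ x : ℤ} (hτ : τ = 1 ∨ τ = -1) (h : 0 < τ * x) (hx : x ≤ 0) : τ = -1 := by
  rcases hτ with rfl | rfl
  · omega
  · rfl

theorem tau_pos {τ x : ℤ} (hτ : τ = 1 ∨ τ = -1) (h : 0 < τ * x) (hx : 0 ≤ x) : τ = 1 := by
  rcases hτ with rfl | rfl
  · rfl
  · omega

theorem tau_zero {τ x : ℤ} (h : 0 < τ * x) (hx : x = 0) : False := by
  subst hx; simp at h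

/-- values 1 at a petal are excluded -/
theorem PEnv.y1 (h : PEnv Q u w Y) {y : V} (hy : y ∈ Y) (ht : Q (t3 u w y)) {f : V → ℤ}
    (hf : Q f) (hs : ∀ z, z ≠ u → z ≠ w → z ∉ Y → f z = 0) (h0 : ∀ z, 0 ≤ f z) : f y ≠ 1 := by
  intro h1
  have huw := h.huw
  have huy : u ≠ y := fun e => h.hu (e ▸ hy)
  have hwy : w ≠ y := fun e => h.hw (e ▸ hy)
  have hle := h.le f hf
  obtain ⟨v, τ, hτ, h2, h3⟩ := h.js _ _ ht hf y (-1) (Or.inr rfl)
  unfold t3 at h2
  by_cases hvu : v = u
  · subst hvu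
    rw [ind_self, ind_ne huw, ind_ne huy] at h2
    have := tau_neg hτ h2 (by have := hle v; omega)
    subst this
    exact h.path [v, w, y] (by simp [*]) ⟨KP.uw, KP.wy hy, trivial⟩ _
      (fun z => by simp only [pv, t3]; ring) h3
  by_cases hvw : v = w
  · subst hvw
    rw [ind_self, ind_ne huw.symm, ind_ne hwy] at h2
    have := tau_neg hτ h2 (by have := hle v; omega)
    subst this
    exact h.path [v, u, y] (by simp [*, huw.symm]) ⟨KP.wu, KP.uy hy, trivial⟩ _
      (fun z => by simp only [pv, t3]; ring) h3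
  by_cases hvy : v = y
  · subst hvy
    rw [ind_self, ind_ne huy.symm, ind_ne hwy.symm, h1] at h2
    exact tau_zero h2 (by ring)
  rw [ind_ne hvu, ind_ne hvw, ind_ne hvy] at h2
  by_cases hvY : v ∈ Y
  · have := tau_pos hτ h2 (by have := h0 v; omega)
    subst this
    exact h.path [y, u, w, v] (by
      simp [huw, huy.symm, hwy.symm, Ne.symm hvu, Ne.symm hvw, Ne.symm hvy])
      ⟨KP.yu hy, KP.uw, KP.wy hvY, trivial⟩ _
      (fun z => by simp only [pv, t3]; ring) h3
  · rw [hs v hvu hvw hvY] at h2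
    exact tau_zero h2 (by ring)

/-- the value at a pole -/
theorem PEnv.u1 (h : PEnv Q u w Y) {y : V} (hy : y ∈ Y) (ht : Q (t3 u w y)) {f : V → ℤ}
    (hf : Q f) (hs : ∀ z, z ≠ u → z ≠ w → z ∉ Y → f z = 0) (h0 : ∀ z, 0 ≤ f z) (h1 : f u < 2) :
    f u = 0 ∧ Q (dbl w y) := by
  have huw := h.huw
  have huy : u ≠ y := fun e => h.hu (e ▸ hy)
  have hwy : w ≠ y := fun e => h.hw (e ▸ hy)
  have hle := h.le f hf
  obtain ⟨v, τ, hτ, h2, h3⟩ := h.js _ _ ht hf u (-1) (Or.inr rfl)
  unfold t3 at h2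
  by_cases hvu : v = u
  · subst hvu
    rw [ind_self, ind_ne huw, ind_ne huy] at h2
    have := tau_neg hτ h2 (by omega)
    subst this
    refine ⟨by have := h0 v; omega, ?_⟩
    have he : dbl w y = fun z => t3 v w y z + -1 * ind v z + -1 * ind v z := by
      funext z; unfold dbl t3; ring
    rw [he]; exact h3
  exfalso
  by_cases hvw : v = w
  · subst hvw
    rw [ind_self, ind_ne huw.symm, ind_ne hwy] at h2
    have := tau_neg hτ h2 (by have := hle v; omega)
    subst this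
    exact h.path [u, y, v] (by simp [huw, huy, hwy.symm]) ⟨KP.uy hy, KP.yw hy, trivial⟩ _
      (fun z => by simp only [pv, t3]; ring) h3
  by_cases hvy : v = y
  · subst hvy
    rw [ind_self, ind_ne huy.symm, ind_ne hwy.symm] at h2
    have := tau_neg hτ h2 (by have := hle v; omega)
    subst this
    exact h.path [u, w, v] (by simp [huw, huy, hwy]) ⟨KP.uw, KP.wy hy, trivial⟩ _
      (fun z => by simp only [pv, t3]; ring) h3
  rw [ind_ne hvu, ind_ne hvw, ind_ne hvy] at h2
  by_cases hvY : v ∈ Y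
  · have := tau_pos hτ h2 (by have := h0 v; omega)
    subst this
    exact h.path [u, y, w, v] (by
      simp [huw, huy, hwy.symm, Ne.symm hvu, Ne.symm hvw, Ne.symm hvy])
      ⟨KP.uy hy, KP.yw hy, KP.wy hvY, trivial⟩ _
      (fun z => by simp only [pv, t3]; ring) h3
  · rw [hs v hvu hvw hvY] at h2
    exact tau_zero h2 (by ring)

/-- all values are even, and the value at `u` is 2 -/
theorem PEnv.all (h : PEnv Q u w Y) (ht : ∀ y ∈ Y, Q (t3 u w y)) {y0 : V} (hy0 : y0 ∈ Y)
    (hn : ¬ Q (dbl w y0)) {f : V → ℤ}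
    (hf : Q f) (hs : ∀ z, z ≠ u → z ≠ w → z ∉ Y → f z = 0) (h0 : ∀ z, 0 ≤ f z) :
    f u = 2 ∧ (∀ z, f z = 0 ∨ f z = 2) := by
  have hle := h.le f hf
  have hu2 : f u = 2 := by
    by_contra hne
    have := hle u
    exact hn (h.u1 hy0 (ht y0 hy0) hf hs h0 (by omega)).2
  refine ⟨hu2, fun z => ?_⟩
  by_cases hzu : z = u
  · subst hzu; exact Or.inr hu2
  by_cases hzw : z = w
  · subst hzw
    by_cases hlt : f z < 2
    · left
      exact (h.swap.u1 hy0 (by rw [t3_sw]; exact ht y0 hy0) hf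
        (fun x a b c => hs x b a c) h0 hlt).1
    · right; have := hle z; omega
  by_cases hzY : z ∈ Y
  · have := h.y1 hzY (ht z hzY) hf hs h0
    have := hle z
    have := h0 z
    omega
  · exact Or.inl (hs z hzu hzw hzY)

/-- from a double edge to a single vertex -/
theorem PEnv.dd1 (h : PEnv Q u w Y) {y x : V} (hy : y ∈ Y) (hx : x ∈ Y) (hxy : x ≠ y)
    (h1 : Q (dbl w y)) (ht : Q (t3 u w x)) : Q (fun z => 2 * ind w z) := by
  have huw := h.huw
  have huy : u ≠ y := fun e => h.hu (e ▸ hy)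
  have hwy : w ≠ y := fun e => h.hw (e ▸ hy)
  have hux : u ≠ x := fun e => h.hu (e ▸ hx)
  have hwx : w ≠ x := fun e => h.hw (e ▸ hx)
  obtain ⟨v, τ, hτ, h2, h3⟩ := h.js _ _ h1 ht y (-1) (Or.inr rfl)
  unfold dbl t3 at h2
  by_cases hvy : v = y
  · subst hvy
    rw [ind_self, ind_ne huy.symm, ind_ne hwy.symm, ind_ne hxy.symm] at h2
    have := tau_neg hτ h2 (by omega)
    subst this
    have he : (fun z => 2 * ind w z) = fun z => dbl w v z + -1 * ind v z + -1 * ind v z := by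
      funext z; unfold dbl; ring
    rw [he]; exact h3
  exfalso
  by_cases hvu : v = u
  · subst hvu
    rw [ind_self, ind_ne huw, ind_ne huy, ind_ne hux] at h2
    have := tau_pos hτ h2 (by omega)
    subst this
    exact h.path [v, w, y] (by simp [*]) ⟨KP.uw, KP.wy hy, trivial⟩ _
      (fun z => by simp only [pv, dbl]; ring) h3
  by_cases hvw : v = w
  · subst hvw
    rw [ind_self, ind_ne huw.symm, ind_ne hwy, ind_ne hwx] at h2
    exact tau_zero h2 (by ring)
  by_cases hvx : v = x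
  · subst hvx
    rw [ind_self, ind_ne hux.symm, ind_ne hwx.symm, ind_ne hxy] at h2
    have := tau_pos hτ h2 (by omega)
    subst this
    exact h.path [y, w, v] (by simp [hwy.symm, hxy.symm, hwx]) ⟨KP.yw hy, KP.wy hx, trivial⟩ _
      (fun z => by simp only [pv, dbl]; ring) h3
  rw [ind_ne hvu, ind_ne hvw, ind_ne hvx, ind_ne hvy] at h2
  exact tau_zero h2 (by ring)

/-- from a double edge to a single vertex, single triangle -/
theorem PEnv.dd2 (h : PEnv Q u w Y) {y : V} (hy : y ∈ Y)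
    (h1 : Q (dbl w y)) (ht : Q (dbl u w)) : Q (fun z => 2 * ind w z) := by
  have huw := h.huw
  have huy : u ≠ y := fun e => h.hu (e ▸ hy)
  have hwy : w ≠ y := fun e => h.hw (e ▸ hy)
  obtain ⟨v, τ, hτ, h2, h3⟩ := h.js _ _ h1 ht y (-1) (Or.inr rfl)
  unfold dbl at h2
  by_cases hvy : v = y
  · subst hvy
    rw [ind_self, ind_ne huy.symm, ind_ne hwy.symm] at h2
    have := tau_neg hτ h2 (by omega)
    subst this
    have he : (fun z => 2 * ind w z) = fun z => dbl w v z + -1 * ind v z + -1 * ind v z := by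
      funext z; unfold dbl; ring
    rw [he]; exact h3
  exfalso
  by_cases hvu : v = u
  · subst hvu
    rw [ind_self, ind_ne huw, ind_ne huy] at h2
    have := tau_pos hτ h2 (by omega)
    subst this
    exact h.path [v, w, y] (by simp [*]) ⟨KP.uw, KP.wy hy, trivial⟩ _
      (fun z => by simp only [pv, dbl]; ring) h3
  by_cases hvw : v = w
  · subst hvw
    rw [ind_self, ind_ne huw.symm, ind_ne hwy] at h2
    exact tau_zero h2 (by ring)
  rw [ind_ne hvu, ind_ne hvw, ind_ne hvy] at h2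
  exact tau_zero h2 (by ring)

theorem PEnv.dd3 (h : PEnv Q u w Y) (h1 : Q (fun z => 2 * ind w z))
    (h2 : Q (fun z => 2 * ind u z)) : False := by
  have huw := h.huw
  obtain ⟨v, τ, hτ, h3, h4⟩ := h.js _ _ h1 h2 w (-1) (Or.inr rfl)
  beta_reduce at h3
  by_cases hvw : v = w
  · subst hvw
    rw [ind_self, ind_ne huw.symm] at h3
    have := tau_neg hτ h3 (by omega)
    subst this
    exact h.path [] (by simp) trivial _ (fun z => by simp only [pv]; ring) h4
  by_cases hvu : v = u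
  · subst hvu
    rw [ind_self, ind_ne huw] at h3
    have := tau_pos hτ h3 (by omega)
    subst this
    exact h.path [v, w] (by simp [*]) ⟨KP.uw, trivial⟩ _
      (fun z => by simp only [pv]; ring) h4
  rw [ind_ne hvu, ind_ne hvw] at h3
  exact tau_zero h3 (by ring)

/-- two triangles: one of the poles has no double edges -/
theorem PEnv.two (h : PEnv Q u w Y) {y x : V} (hy : y ∈ Y) (hx : x ∈ Y) (hxy : x ≠ y)
    (ht : Q (t3 u w x)) (h1 : Q (dbl w y)) (h2 : Q (dbl u y)) : False :=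
  h.dd3 (h.dd1 hy hx hxy h1 ht) (h.swap.dd1 hy hx hxy h2 (by rw [t3_sw]; exact ht))

theorem dbl_sw (u w : V) : dbl w u = dbl u w := by funext z; unfold dbl; ring

/-- one triangle -/
theorem PEnv.one (h : PEnv Q u w Y) {y : V} (hy : y ∈ Y)
    (h1 : Q (dbl w y)) (h2 : Q (dbl u y)) (h3 : Q (dbl u w)) : False :=
  h.dd3 (h.dd2 hy h1 h3) (h.swap.dd2 hy h2 (by rw [dbl_sw]; exact h3))

/-- star: the centre has value 2 -/
theorem PEnv.c2 (h : PEnv Q u w Y) {c b : V} (hc : c ∈ Y) (hb : b ∈ Y) (hbc : b ≠ c)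
    (hq : Q (t4 u w c b)) (hn : ¬ Q (t3 u w b)) {f : V → ℤ}
    (hf : Q f) (hs : ∀ z, z ≠ u → z ≠ w → z ∉ Y → f z = 0) (h0 : ∀ z, 0 ≤ f z) : f c = 2 := by
  by_contra hne
  have huw := h.huw
  have huc : u ≠ c := fun e => h.hu (e ▸ hc)
  have hwc : w ≠ c := fun e => h.hw (e ▸ hc)
  have hub : u ≠ b := fun e => h.hu (e ▸ hb)
  have hwb : w ≠ b := fun e => h.hw (e ▸ hb)
  have hle := h.le f hf
  obtain ⟨v, τ, hτ, h2, h3⟩ := h.js _ _ hq hf c (-1) (Or.inr rfl)
  unfold t4 at h2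
  by_cases hvc : v = c
  · subst hvc
    rw [ind_self, ind_ne huc.symm, ind_ne hwc.symm, ind_ne hbc.symm] at h2
    have := tau_neg hτ h2 (by have := hle v; omega)
    subst this
    refine hn ?_
    have he : t3 u w b = fun z => t4 u w v b z + -1 * ind v z + -1 * ind v z := by
      funext z; unfold t4 t3; ring
    rw [he]; exact h3
  by_cases hvu : v = u
  · subst hvu
    rw [ind_self, ind_ne huw, ind_ne huc, ind_ne hub] at h2
    have := tau_neg hτ h2 (by have := hle v; omega)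
    subst this
    exact h.path [v, b, w, c] (by simp [hub, huw, huc, hwb.symm, hbc, hwc])
      ⟨KP.uy hb, KP.yw hb, KP.wy hc, trivial⟩ _
      (fun z => by simp only [pv, t4]; ring) h3
  by_cases hvw : v = w
  · subst hvw
    rw [ind_self, ind_ne huw.symm, ind_ne hwc, ind_ne hwb] at h2
    have := tau_neg hτ h2 (by have := hle v; omega)
    subst this
    exact h.path [v, b, u, c] (by simp [hwb, huw.symm, hwc, hub.symm, hbc, huc])
      ⟨KP.wy hb, KP.yu hb, KP.uy hc, trivial⟩ _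
      (fun z => by simp only [pv, t4]; ring) h3
  by_cases hvb : v = b
  · subst hvb
    rw [ind_self, ind_ne hub.symm, ind_ne hwb.symm, ind_ne hbc] at h2
    have := tau_neg hτ h2 (by have := hle v; omega)
    subst this
    exact h.path [c, u, w, v] (by simp [huc.symm, hwc.symm, hbc.symm, huw, hub, hwb])
      ⟨KP.yu hc, KP.uw, KP.wy hb, trivial⟩ _
      (fun z => by simp only [pv, t4]; ring) h3
  rw [ind_ne hvu, ind_ne hvw, ind_ne hvc, ind_ne hvb] at h2
  by_cases hvY : v ∈ Y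
  · have := tau_pos hτ h2 (by have := h0 v; omega)
    subst this
    exact h.path [c, u, b, w, v] (by
      simp [huc.symm, hbc.symm, hwc.symm, hub, huw, hwb.symm, Ne.symm hvu, Ne.symm hvw,
        Ne.symm hvc, Ne.symm hvb])
      ⟨KP.yu hc, KP.uy hb, KP.yw hb, KP.wy hvY, trivial⟩ _
      (fun z => by simp only [pv, t4]; ring) h3
  · rw [hs v hvu hvw hvY] at h2
    exact tau_zero h2 (by ring)

/-- star: values 1 at leaves are excluded -/
theorem PEnv.b1 (h : PEnv Q u w Y) {c b : V} (hc : c ∈ Y) (hb : b ∈ Y) (hbc : b ≠ c)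
    (ht : Q (t3 u w c)) {f : V → ℤ} (hf : Q f) (hfc : f c = 2)
    (hs : ∀ z, z ≠ u → z ≠ w → z ∉ Y → f z = 0) (h0 : ∀ z, 0 ≤ f z) : f b ≠ 1 := by
  intro h1
  have huw := h.huw
  have huc : u ≠ c := fun e => h.hu (e ▸ hc)
  have hwc : w ≠ c := fun e => h.hw (e ▸ hc)
  have hub : u ≠ b := fun e => h.hu (e ▸ hb)
  have hwb : w ≠ b := fun e => h.hw (e ▸ hb)
  have hle := h.le f hf
  obtain ⟨v, τ, hτ, h2, h3⟩ := h.js _ _ ht hf b 1 (Or.inl rfl)
  unfold t3 at h2
  by_cases hvc : v = c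
  · subst hvc
    rw [ind_self, ind_ne huc.symm, ind_ne hwc.symm, ind_ne hbc.symm, hfc] at h2
    exact tau_zero h2 (by ring)
  by_cases hvu : v = u
  · subst hvu
    rw [ind_self, ind_ne huw, ind_ne huc, ind_ne hub] at h2
    have := tau_neg hτ h2 (by have := hle v; omega)
    subst this
    exact h.path [v, c, w, b] (by simp [huc, huw, hub, hwc.symm, hbc.symm, hwb])
      ⟨KP.uy hc, KP.yw hc, KP.wy hb, trivial⟩ _
      (fun z => by simp only [pv, t3]; ring) h3
  by_cases hvw : v = w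
  · subst hvw
    rw [ind_self, ind_ne huw.symm, ind_ne hwc, ind_ne hwb] at h2
    have := tau_neg hτ h2 (by have := hle v; omega)
    subst this
    exact h.path [v, c, u, b] (by simp [hwc, huw.symm, hwb, huc.symm, hbc.symm, hub])
      ⟨KP.wy hc, KP.yu hc, KP.uy hb, trivial⟩ _
      (fun z => by simp only [pv, t3]; ring) h3
  by_cases hvb : v = b
  · subst hvb
    rw [ind_self, ind_ne hub.symm, ind_ne hwb.symm, ind_ne hbc, h1] at h2
    exact tau_zero h2 (by ring)
  rw [ind_ne hvu, ind_ne hvw, ind_ne hvc, ind_ne hvb] at h2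
  by_cases hvY : v ∈ Y
  · have := tau_pos hτ h2 (by have := h0 v; omega)
    subst this
    exact h.path [b, u, c, w, v] (by
      simp [hub.symm, hbc, hwb.symm, huc, huw, hwc.symm, Ne.symm hvu, Ne.symm hvw,
        Ne.symm hvc, Ne.symm hvb])
      ⟨KP.yu hb, KP.uy hc, KP.yw hc, KP.wy hvY, trivial⟩ _
      (fun z => by simp only [pv, t3]; ring) h3
  · rw [hs v hvu hvw hvY] at h2
    exact tau_zero h2 (by ring)

/-- star: the value 1 at a pole is excluded -/
theorem PEnv.su (h : PEnv Q u w Y) {c : V} (hc : c ∈ Y)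
    (ht : Q (t3 u w c)) {f : V → ℤ} (hf : Q f) (hfc : f c = 2)
    (hs : ∀ z, z ≠ u → z ≠ w → z ∉ Y → f z = 0) (h0 : ∀ z, 0 ≤ f z) : f u ≠ 1 := by
  intro h1
  have := (h.u1 hc ht hf hs h0 (by omega)).1
  omega

/-- star: all values are even, and the value at the centre is 2 -/
theorem PEnv.star (h : PEnv Q u w Y) {c b : V} (hc : c ∈ Y) (hb : b ∈ Y) (hbc : b ≠ c)
    (ht : Q (t3 u w c)) (hq : Q (t4 u w c b)) (hn : ¬ Q (t3 u w b)) {f : V → ℤ}
    (hf : Q f) (hs : ∀ z, z ≠ u → z ≠ w → z ∉ Y → f z = 0) (h0 : ∀ z, 0 ≤ f z) :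
    f c = 2 ∧ (∀ z, f z = 0 ∨ f z = 2) := by
  have hle := h.le f hf
  have hc2 := h.c2 hc hb hbc hq hn hf hs h0
  refine ⟨hc2, fun z => ?_⟩
  have := hle z
  have := h0 z
  by_cases hzu : z = u
  · subst hzu
    have := h.su hc ht hf hc2 hs h0
    omega
  by_cases hzw : z = w
  · subst hzw
    have := h.swap.su hc (by rw [t3_sw]; exact ht) hf hc2 (fun x a b c => hs x b a c) h0
    omega
  by_cases hzY : z ∈ Y
  · by_cases hzc : z = c
    · subst hzc; exact Or.inr hc2
    · have := h.b1 hc hzY hzc ht hf hc2 hs h0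
      omega
  · exact Or.inl (hs z hzu hzw hzY)

/-- a 4-cycle avoiding a triangle petal has triangle petals -/
theorem PEnv.prop (h : PEnv Q u w Y) {x y z : V} (hx : x ∈ Y) (hy : y ∈ Y) (hz : z ∈ Y)
    (hxy : x ≠ y) (hxz : x ≠ z) (hyz : y ≠ z) (ht : Q (t3 u w x)) (hq : Q (t4 u w z y))
    (hn : ¬ Q (t3 u w y)) : False := by
  have huw := h.huw
  have hux : u ≠ x := fun e => h.hu (e ▸ hx)
  have hwx : w ≠ x := fun e => h.hw (e ▸ hx)
  have huy : u ≠ y := fun e => h.hu (e ▸ hy)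
  have hwy : w ≠ y := fun e => h.hw (e ▸ hy)
  have huz : u ≠ z := fun e => h.hu (e ▸ hz)
  have hwz : w ≠ z := fun e => h.hw (e ▸ hz)
  obtain ⟨v, τ, hτ, h2, h3⟩ := h.js _ _ hq ht z (-1) (Or.inr rfl)
  unfold t3 t4 at h2
  by_cases hvz : v = z
  · subst hvz
    rw [ind_self, ind_ne huz.symm, ind_ne hwz.symm, ind_ne hyz.symm, ind_ne hxz.symm] at h2
    have := tau_neg hτ h2 (by omega)
    subst this
    refine hn ?_
    have he : t3 u w y = fun t => t4 u w v y t + -1 * ind v t + -1 * ind v t := by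
      funext t; unfold t4 t3; ring
    rw [he]; exact h3
  by_cases hvu : v = u
  · subst hvu
    rw [ind_self, ind_ne huw, ind_ne huz, ind_ne huy, ind_ne hux] at h2
    exact tau_zero h2 (by ring)
  by_cases hvw : v = w
  · subst hvw
    rw [ind_self, ind_ne huw.symm, ind_ne hwz, ind_ne hwy, ind_ne hwx] at h2
    exact tau_zero h2 (by ring)
  by_cases hvy : v = y
  · subst hvy
    rw [ind_self, ind_ne huy.symm, ind_ne hwy.symm, ind_ne hyz, ind_ne hxy.symm] at h2
    have := tau_neg hτ h2 (by omega)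
    subst this
    exact h.path [z, u, w, v] (by simp [huz.symm, hwz.symm, hyz.symm, huw, huy, hwy])
      ⟨KP.yu hz, KP.uw, KP.wy hy, trivial⟩ _
      (fun t => by simp only [pv, t4]; ring) h3
  by_cases hvx : v = x
  · subst hvx
    rw [ind_self, ind_ne hux.symm, ind_ne hwx.symm, ind_ne hxy, ind_ne hxz] at h2
    have := tau_pos hτ h2 (by omega)
    subst this
    exact h.path [z, u, y, w, v] (by
      simp [huz.symm, hyz.symm, hwz.symm, hxz.symm, huy, huw, hux, hwy.symm, hxy.symm, hwx])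
      ⟨KP.yu hz, KP.uy hy, KP.yw hy, KP.wy hx, trivial⟩ _
      (fun t => by simp only [pv, t4]; ring) h3
  rw [ind_ne hvu, ind_ne hvw, ind_ne hvz, ind_ne hvy, ind_ne hvx] at h2
  exact tau_zero h2 (by ring)

end

end H999
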