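import Pool.Agent.H999_TwoFactor.TKStep

/-!
The good characterisation for 2-factors without triangles and 4-cycles.
-/

namespace H999

open Finset

set_option linter.all false

variable {V : Type*} [DecidableEq V]

/-- all edges of the items -/
def kJ (jts : List (Jtem V)) : Set (Sym2 V) := {e | ∃ it ∈ jts, e ∈ jE it}

theorem exists_jtems [Fintype V] : ∀ (n : ℕ) {S : Set (Finset (Sym2 V))} {R : Set (Sym2 V)}
    {ts : List (List V × List V)}, S.Finite → S.ncard ≤ n → St S R ts → StrT S →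
    ∃ (jts : List (Jtem V)) (its : List (Item V)), (∀ it ∈ jts, jok it) ∧ (∀ it ∈ its, iok it) ∧
      jts.length + its.length ≤ n ∧
      ¬ Env ∅ ((R \ kJ jts) \ kAll its) (ts ++ jts.flatMap jtoks ++ its.flatMap itoks)
        (fun _ => 2) := by
  intro n
  induction n with
  | zero =>
    intro S R ts hfin hcard hst hs
    have hS : S = ∅ := by
      rw [Nat.le_zero, Set.ncard_eq_zero hfin] at hcard; exact hcard
    subst hS
    refine ⟨[], [], by simp, by simp, by simp, ?_⟩
    have h1 : kAll ([] : List (Item V)) = ∅ := by ext e; simp [kAll]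
    have h2 : kJ ([] : List (Jtem V)) = ∅ := by ext e; simp [kJ]
    rw [h1, h2, Set.diff_empty, Set.diff_empty]
    simpa using hst.inf
  | succ n ih =>
    intro S R ts hfin hcard hst hs
    by_cases hT : ∃ T ∈ S, IsTri T
    · obtain ⟨T, hT, htri⟩ := hT
      obtain ⟨it, C, h1, h2, h3, h4⟩ := step_tri hst hs hT htri
      have hlt : (S \ C).ncard < S.ncard := by
        refine Set.ncard_lt_ncard ?_ hfin
        refine ⟨Set.diff_subset, fun h => ?_⟩
        obtain ⟨Z, hZ⟩ := h2
        exact (h (h3.sub hZ)).2 hZ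
      obtain ⟨jts, its, g1, g2, g3, g4⟩ :=
        ih (hfin.subset Set.diff_subset) (by omega) h4 (hs.sdiff h3)
      refine ⟨it :: jts, its, ?_, g2, by simp only [List.length_cons]; omega, ?_⟩
      · intro it' hit'
        rcases List.mem_cons.1 hit' with rfl | h
        · exact h1
        · exact g1 it' h
      · have e1 : R \ kJ (it :: jts) = (R \ jE it) \ kJ jts := by
          ext e; simp [kJ]; tauto
        rw [e1, List.flatMap_cons, ← List.append_assoc]
        exact g4
    · push Not at hT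
      have hq : ∀ Z ∈ S, IsQuad Z := by
        intro Z hZ
        rcases hs.q Z hZ with h | h
        · exact absurd h (hT Z hZ)
        · exact h
      have hSQ : SQ S = S := by
        ext Z; constructor
        · exact fun h => h.1
        · exact fun h => ⟨h, hq Z h⟩
      have hstr : Str S := by rw [← hSQ]; exact hs.sq
      obtain ⟨its, g1, g2, g3⟩ := exists_items (n + 1) hfin hcard hst hstr
      refine ⟨[], its, by simp, g1, by simpa using g2, ?_⟩
      have h2 : kJ ([] : List (Jtem V)) = ∅ := by ext e; simp [kJ]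
      rw [h2, Set.diff_empty]
      simpa using g3

theorem startT [Fintype V] {R : Set (Sym2 V)} (h : Blk R {Z | Short Z}) :
    ∃ T : Set (Finset (Sym2 V)), T.ncard ≤ Fintype.card V ^ 4 + Fintype.card V ^ 3 ∧
      St T R [] ∧ StrT T := by
  obtain ⟨T, hTsub, hmin⟩ := (Set.toFinite {T : Set (Finset (Sym2 V)) | Blk R T}).exists_le_minimal h
  have hblk : Blk R T := hmin.prop
  have hshort : ∀ Z ∈ T, Short Z := fun Z hZ => hTsub hZ
  have hirr : ∀ Z ∈ T, ∃ N : Finset (Sym2 V), TF N ∧ (∀ g ∈ N, g ∈ R) ∧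
      ∀ W ∈ T, W ⊆ N → W = Z := by
    intro Z hZ
    have h1 : ¬ Blk R (T \ {Z}) := by
      intro h
      have h2 := hmin.le_of_le h Set.sdiff_subset hZ
      exact h2.2 rfl
    unfold Blk at h1
    push Not at h1
    obtain ⟨N, h2, h3, h4⟩ := h1
    refine ⟨N, h2, h3, fun W hW hsub => ?_⟩
    by_contra hne
    exact h4 W ⟨hW, hne⟩ hsub
  refine ⟨T, ?_, ?_, ?_⟩
  · have h1 : T ⊆ (fun p : V × V × V × V => quad p.1 p.2.1 p.2.2.1 p.2.2.2) '' Set.univ ∪
        (fun p : V × V × V => tri p.1 p.2.1 p.2.2) '' Set.univ := by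
      intro Z hZ
      rcases hshort Z hZ with ⟨a, b, c, -, -, -, rfl⟩ | ⟨a, b, c, d, -, -, -, -, -, -, rfl⟩
      · exact Or.inr ⟨(a, b, c), Set.mem_univ _, rfl⟩
      · exact Or.inl ⟨(a, b, c, d), Set.mem_univ _, rfl⟩
    refine (Set.ncard_le_ncard h1 (Set.toFinite _)).trans ((Set.ncard_union_le _ _).trans ?_)
    refine Nat.add_le_add ((Set.ncard_image_le).trans ?_) ((Set.ncard_image_le).trans ?_)
    · rw [Set.ncard_univ, Nat.card_eq_fintype_card]
      simp only [Fintype.card_prod]
      apply le_of_eq; ring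
    · rw [Set.ncard_univ, Nat.card_eq_fintype_card]
      simp only [Fintype.card_prod]
      apply le_of_eq; ring
  · refine ⟨?_, ?_⟩
    · intro henv
      obtain ⟨M, t, h1, h2, h3, h4⟩ := henv.bound
      have h3 : ∀ z, t z = 0 := h3
      obtain ⟨Z, hZ, hsub⟩ := hblk M ⟨fun h => h1.ne h, fun v => by
        have := h4 v; rw [h3] at this; omega⟩ h2
      exact h1.free Z hZ hsub
    · intro Z hZ
      obtain ⟨N, h1, h2, h3⟩ := hirr Z hZ
      refine ⟨dg N, fun _ => 0, ⟨N, ⟨fun h => h1.ne h, fun v => (h1.deg v).le, ?_⟩, h2,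
        fun z => rfl⟩, fun _ => rfl, fun z => ?_⟩
      · intro W hW hsub
        exact hW.2 (h3 W hW.1 hsub)
      · rw [h1.deg]; ring
  · refine ⟨hshort, ?_, ?_⟩
    · intro Z hZ Z' hZ' hne e he he'
      by_cases hc : (Z ∩ Z').card = 1
      · exact Or.inr (uncrossed_of_irredundant (G := R) hshort hblk hirr hZ hZ' hne hc)
      · left
        have hpos : 0 < (Z ∩ Z').card := Finset.card_pos.2 ⟨e, Finset.mem_inter.2 ⟨he, he'⟩⟩
        obtain ⟨e', h1, h2⟩ := Finset.exists_mem_ne (s := Z ∩ Z') (by omega) e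
        rw [Finset.mem_inter] at h1
        exact ⟨e', h1.1, h1.2, h2⟩
    · intro a b c d hab hac had hbc hbd hcd h1 h2
      by_contra hnot
      obtain ⟨N1, t1, g1, o1⟩ := hirr _ h1
      obtain ⟨N2, t2, g2, o2⟩ := hirr _ h2
      have q1 : quad a b c d ⊆ N1 := by
        obtain ⟨W, hW, hWN⟩ := hblk N1 t1 g1
        rw [← o1 W hW hWN]; exact hWN
      have q2 : quad a b d c ⊆ N2 := by
        obtain ⟨W, hW, hWN⟩ := hblk N2 t2 g2
        rw [← o2 W hW hWN]; exact hWN
      have hMd := rmQ_dg hab hac had hbc hbd hcd q1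
      have hMG : Good T (rmQ N1 a b c d) := good_rm t1 o1 rmQ_sub (by rw [mem_quad]; left; rfl)
        rmQ_not
      have ha : dg (rmQ N1 a b c d) a ≤ 0 := by
        rw [hMd, t1.deg, ind_self, ind_ne hab, ind_ne hac, ind_ne had]; omega
      have hb : dg (rmQ N1 a b c d) b ≤ 0 := by
        rw [hMd, t1.deg, ind_self, ind_ne hab.symm, ind_ne hbc, ind_ne hbd]; omega
      have hc : dg (rmQ N1 a b c d) c ≤ 0 := by
        rw [hMd, t1.deg, ind_self, ind_ne hac.symm, ind_ne hbc.symm, ind_ne hcd]; omega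
      have hd : dg (rmQ N1 a b c d) d ≤ 0 := by
        rw [hMd, t1.deg, ind_self, ind_ne had.symm, ind_ne hbd.symm, ind_ne hcd.symm]; omega
      have hG := C4_good hshort hMG ha hc hb hd hac hab had hbc.symm hcd hbd hnot
      obtain ⟨W, hW, hWN⟩ := hblk (C4 (rmQ N1 a b c d) a c b d) ⟨fun h => hG.ne h, fun v => by
        rw [C4_dg ha hc hb hd hac hab had hbc.symm hcd hbd, hMd, t1.deg]; ring⟩ (by
        intro e he
        rw [mem_C4] at he
        rcases he with rfl | rfl | rfl | rfl | he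
        · exact g1 _ (q1 (by rw [mem_quad]; simp))
        · exact g2 _ (q2 (by rw [mem_quad]; right; right; right; exact Sym2.eq_swap))
        · exact g2 _ (q2 (by rw [mem_quad]; simp))
        · exact g1 _ (q1 (by rw [mem_quad]; right; left; exact Sym2.eq_swap))
        · exact g1 _ (rmQ_sub he))
      exact hG.free W hW hWN

/-- good characterisation, necessity -/
theorem char_jtems [Fintype V] {R : Set (Sym2 V)} (h : Blk R {Z | Short Z}) :
    ∃ (jts : List (Jtem V)) (its : List (Item V)), (∀ it ∈ jts, jok it) ∧ (∀ it ∈ its, iok it) ∧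
      jts.length + its.length ≤ Fintype.card V ^ 4 + Fintype.card V ^ 3 ∧
      ¬ Env ∅ ((R \ kJ jts) \ kAll its) (jts.flatMap jtoks ++ its.flatMap itoks)
        (fun _ => 2) := by
  obtain ⟨T, h1, h2, h3⟩ := startT h
  obtain ⟨jts, its, h4, h5, h6, h7⟩ := exists_jtems _ (Set.toFinite T) h1 h2 h3
  exact ⟨jts, its, h4, h5, h6, by simpa using h7⟩

/-- a 2-regular subgraph of a `K_4` contains a triangle or a 4-cycle -/
theorem K4_short {L : Finset V} (hL : L.card = 4) {F : Finset (Sym2 V)}
    (hF : ∀ e ∈ F, e ∈ KL L) (hreg : ∀ v, dg F v = 0 ∨ dg F v = 2) {v : V} (hd : dg F v ≠ 0) :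
    ∃ Z, Short Z ∧ Z ⊆ F := by
  have h2 : dg F v = 2 := by rcases hreg v with h | h <;> omega
  obtain ⟨b, -, hb⟩ := exists_other (a := v) h2.ge
  obtain ⟨c, hcb, hc⟩ := exists_other (a := b) h2.ge
  have key : ∀ {x y : V}, s(x, y) ∈ F → x ≠ y ∧ x ∈ L ∧ y ∈ L := by
    intro x y hxy
    obtain ⟨x', hx, y', hy, hn, h⟩ := hF _ hxy
    rw [Sym2.eq_iff] at h
    rcases h with ⟨rfl, rfl⟩ | ⟨rfl, rfl⟩
    · exact ⟨hn, hx, hy⟩
    · exact ⟨hn.symm, hy, hx⟩
  obtain ⟨hvb, hvL, hbL⟩ := key hb
  obtain ⟨hvc, -, hcL⟩ := key hc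
  have tri_of : s(b, c) ∈ F → ∃ Z, Short Z ∧ Z ⊆ F := by
    intro hbc
    refine ⟨tri v b c, Or.inl ⟨v, b, c, hvb, hvc, hcb.symm, rfl⟩, ?_⟩
    intro g hg
    rw [mem_tri] at hg
    rcases hg with rfl | rfl | rfl
    · exact hb
    · exact hbc
    · rw [Sym2.eq_swap]; exact hc
  obtain ⟨x, hxv, hx⟩ := reg_two hreg (x := b) (y := v) (by rw [Sym2.eq_swap]; exact hb)
  obtain ⟨y, hyv, hy⟩ := reg_two hreg (x := c) (y := v) (by rw [Sym2.eq_swap]; exact hc)
  by_cases hxc : x = c
  · subst hxc; exact tri_of hx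
  by_cases hyb : y = b
  · subst hyb; exact tri_of (by rw [Sym2.eq_swap]; exact hy)
  obtain ⟨p, q, e1, e2, e3, e4, e5, hLe⟩ := exists_rest hL hvL hbL hvb
  have hxy : x = y := by
    have hxL := (key hx).2.2
    have hyL := (key hy).2.2
    have hbx := (key hx).1
    have hcy := (key hy).1
    rw [hLe] at hxL hyL hcL
    simp only [Finset.mem_insert, Finset.mem_singleton] at hxL hyL hcL
    rcases hcL with h | h | h | h
    · exact absurd h.symm hvc
    · exact absurd h hcb
    · subst h
      have h1 : x = q := by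
        rcases hxL with h | h | h | h
        · exact absurd h hxv
        · exact absurd h.symm hbx
        · exact absurd h hxc
        · exact h
      have h2 : y = q := by
        rcases hyL with h | h | h | h
        · exact absurd h hyv
        · exact absurd h hyb
        · exact absurd h.symm hcy
        · exact h
      rw [h1, h2]
    · subst h
      have h1 : x = p := by
        rcases hxL with h | h | h | h
        · exact absurd h hxv
        · exact absurd h.symm hbx
        · exact h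
        · exact absurd h hxc
      have h2 : y = p := by
        rcases hyL with h | h | h | h
        · exact absurd h hyv
        · exact absurd h hyb
        · exact h
        · exact absurd h.symm hcy
      rw [h1, h2]
  subst hxy
  refine ⟨quad v b x c, Or.inr ⟨v, b, x, c, hvb, hxv.symm, hvc, (key hx).1, hcb.symm,
    (key hy).1.symm, rfl⟩, ?_⟩
  intro g hg
  rw [mem_quad] at hg
  rcases hg with rfl | rfl | rfl | rfl
  · exact hb
  · exact hx
  · rw [Sym2.eq_swap]; exact hy
  · rw [Sym2.eq_swap]; exact hc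

/-- a 2-regular subgraph of an item contains a triangle or a 4-cycle -/
theorem jE_short {it : Jtem V} (hok : jok it) {F : Finset (Sym2 V)} (hF : ∀ e ∈ F, e ∈ jE it)
    (hreg : ∀ v, dg F v = 0 ∨ dg F v = 2) {v : V} (hd : dg F v ≠ 0) :
    ∃ Z, Short Z ∧ Z ⊆ F := by
  obtain ⟨P, Y, S0⟩ := it
  obtain ⟨hnd, -, -, ⟨h1, h2, -⟩ | ⟨h1, -⟩⟩ := hok
  · simp only at h1 h2 hnd
    subst h2
    rw [List.append_nil] at hnd
    have hL : P.toFinset.card = 4 := by rw [List.toFinset_card_of_nodup hnd, h1]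
    have hK : jE (P, [], S0) = KL P.toFinset := by
      ext e; simp only [jE, KL, Set.mem_setOf_eq, List.append_nil, List.mem_toFinset]
    rw [hK] at hF
    exact K4_short hL hF hreg hd
  · simp only at h1
    obtain ⟨u, w, rfl⟩ := List.length_eq_two.1 h1
    simp only [List.cons_append, List.nil_append, List.nodup_cons, List.mem_cons, not_or] at hnd
    obtain ⟨⟨huw, hu⟩, hw, hY⟩ := hnd
    have hu' : u ∉ Y.toFinset := by rw [List.mem_toFinset]; exact hu
    have hw' : w ∉ Y.toFinset := by rw [List.mem_toFinset]; exact hw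
    have hK : jE ([u, w], Y, S0) = KP u w Y.toFinset := by
      rw [← jE_pole huw hu' hw' S0]
      ext e
      simp only [jE, Set.mem_setOf_eq, List.mem_append, Finset.mem_toList, List.mem_toFinset]
    rw [hK] at hF
    have main : ∀ u w : V, u ≠ w → u ∉ Y.toFinset → w ∉ Y.toFinset →
        (∀ e ∈ F, e ∈ KP u w Y.toFinset) → dg F u ≠ 0 → ∃ Z, Short Z ∧ Z ⊆ F := by
      intro u w huw hu hw hF hd
      rcases KP_reg huw hu hw hF hreg hd with ⟨y, hy, h⟩ | ⟨y, hy, x, hx, hyx, h⟩
      · exact ⟨_, Or.inl ⟨u, w, y, huw, fun e => hu (e ▸ hy), fun e => hw (e ▸ hy), rfl⟩, h⟩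
      · have n1 : u ≠ y := by rintro rfl; exact hu hy
        have n2 : u ≠ x := by rintro rfl; exact hu hx
        have n3 : w ≠ y := by rintro rfl; exact hw hy
        have n4 : w ≠ x := by rintro rfl; exact hw hx
        exact ⟨_, Or.inr ⟨u, y, w, x, n1, huw, n2, n3.symm, hyx, n4, rfl⟩, h⟩
    have h2 : 2 ≤ dg F v := by rcases hreg v with h | h <;> omega
    obtain ⟨b, -, hb⟩ := exists_other (a := v) h2
    have hdb : dg F b ≠ 0 := by
      have := one_le_dg (M := F) (v := b) (a := v) (by rw [Sym2.eq_swap]; exact hb)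
      omega
    have huw2 : dg F u ≠ 0 ∨ dg F w ≠ 0 := by
      rcases hF _ hb with h | ⟨y, hy, h | h⟩ <;> rw [Sym2.eq_iff] at h <;>
        rcases h with ⟨rfl, rfl⟩ | ⟨rfl, rfl⟩
      · exact Or.inl hd
      · exact Or.inl hdb
      · exact Or.inl hd
      · exact Or.inl hdb
      · exact Or.inr hd
      · exact Or.inr hdb
    rcases huw2 with h | h
    · exact main u w huw hu' hw' hF h
    · exact main w u (Ne.symm huw) hw' hu' (by rw [KP_swap]; exact hF) h

/-- tokens of the items realise 2-matchings without triangles and 4-cycles -/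
theorem realiseJ {R : Set (Sym2 V)} : ∀ jts : List (Jtem V), (∀ it ∈ jts, jok it) →
    ∀ N : Finset (Sym2 V), (∀ v, dg N v ≤ 2) → (∀ Z, Short Z → ¬ Z ⊆ N) →
    (∀ e ∈ N, e ∈ R) →
    ∃ M t, M ⊆ N ∧ (∀ e ∈ M, e ∈ R \ kJ jts) ∧ Toks (jts.flatMap jtoks) t ∧
      ∀ z, dg M z + t z = dg N z := by
  classical
  intro jts
  induction jts with
  | nil =>
    intro _ N _ _ hNR
    refine ⟨N, fun _ => 0, Finset.Subset.refl _, ?_, fun _ => rfl, fun z => by ring⟩
    intro e he
    exact ⟨hNR e he, by simp [kJ]⟩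
  | cons it jts ih =>
    intro hok N hdeg hfree hNR
    set F := N.filter (fun e => e ∈ jE it) with hF
    set N' := N.filter (fun e => e ∉ jE it) with hN'
    have hFN : F ⊆ N := Finset.filter_subset _ _
    have hNN : N' ⊆ N := Finset.filter_subset _ _
    have hdg : ∀ z, dg F z + dg N' z = dg N z := by
      intro z
      rw [← dg_union (Finset.disjoint_filter_filter_not N N (fun e => e ∈ jE it)),
        Finset.filter_union_filter_not_eq]
    obtain ⟨M, t, h1, h2, h3, h4⟩ := ih (fun it' h => hok it' (List.mem_cons_of_mem _ h)) N'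
      (fun v => (dg_mono hNN v).trans (hdeg v))
      (fun Z hZ hsub => hfree Z hZ (hsub.trans hNN)) (fun e he => hNR e (hNN he))
    have hit := hok it (by simp)
    have htk : Toks (jtoks it) (dg F) := by
      refine jtoks_of hit (fun e he => (Finset.mem_filter.1 he).2)
        (fun v => (dg_mono hFN v).trans (hdeg v)) ?_
      intro F' hF' hreg
      obtain ⟨s, hs⟩ := List.exists_mem_of_ne_nil _ hit.ne
      refine ⟨s, hs, ?_⟩
      by_contra hd
      obtain ⟨Z, hZ, hsub⟩ := jE_short hit (fun e he => (Finset.mem_filter.1 (hF' he)).2) hreg hd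
      exact hfree Z hZ (hsub.trans (hF'.trans hFN))
    refine ⟨M, fun z => dg F z + t z, h1.trans hNN, ?_, ?_, fun z => ?_⟩
    · intro e he
      obtain ⟨h5, h6⟩ := h2 e he
      refine ⟨h5, ?_⟩
      rintro ⟨it', hit', he'⟩
      rcases List.mem_cons.1 hit' with rfl | h
      · exact (Finset.mem_filter.1 (h1 he)).2 he'
      · exact h6 ⟨it', h, he'⟩
    · rw [List.flatMap_cons]
      exact Toks.append.2 ⟨dg F, t, htk, h3, fun z => rfl⟩
    · beta_reduce
      have := hdg z
      have := h4 z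
      omega

/-- tokens of both kinds of items -/
theorem realiseT {R : Set (Sym2 V)} {jts : List (Jtem V)} {its : List (Item V)}
    (hj : ∀ it ∈ jts, jok it) (hi : ∀ it ∈ its, iok it) (N : Finset (Sym2 V))
    (hne : ∀ {x y : V}, s(x, y) ∈ N → x ≠ y) (hd : ∀ v, dg N v ≤ 2)
    (hfree : ∀ Z, Short Z → ¬ Z ⊆ N) (hNR : ∀ e ∈ N, e ∈ R) :
    ∃ M t, M ⊆ N ∧ (∀ e ∈ M, e ∈ (R \ kJ jts) \ kAll its) ∧
      Toks (jts.flatMap jtoks ++ its.flatMap itoks) t ∧ ∀ z, dg M z + t z = dg N z := by
  obtain ⟨M, t, h1, h2, h3, h4⟩ := realiseJ jts hj N hd hfree hNR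
  obtain ⟨M', t', g1, g2, g3, g4⟩ := realise (R := R \ kJ jts) its hi M (fun h => hne (h1 h))
    (fun v => (dg_mono h1 v).trans (hd v))
    (fun Z hZ hsub => hfree Z hZ.short (hsub.trans h1)) h2
  refine ⟨M', fun z => t z + t' z, g1.trans h1, g2,
    Toks.append.2 ⟨t, t', h3, g3, fun z => rfl⟩, fun z => ?_⟩
  have := h4 z
  have := g4 z
  beta_reduce
  omega

end H999
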