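import Pool.Agent.H999_TwoFactor.TClus

/-!
The step for a family with a triangle.
-/

namespace H999

open Finset

set_option linter.all false

variable {V : Type*} [DecidableEq V]

theorem share_TQ {a b c d q : V} (hab : a ≠ b) (hac : a ≠ c) (had : a ≠ d) (hbc : b ≠ c)
    (hbd : b ≠ d) (haq : a ≠ q) (hbq : b ≠ q)
    (h : ∃ e' ∈ tri a b q, e' ∈ quad a b c d ∧ e' ≠ s(a, b)) : q = c ∨ q = d := by
  obtain ⟨e', h1, h2, h3⟩ := h
  rw [mem_tri] at h1
  rcases h1 with rfl | rfl | rfl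
  · exact absurd rfl h3
  · simp only [mem_quad, Sym2.eq_iff] at h2
    grind
  · simp only [mem_quad, Sym2.eq_iff] at h2
    grind

theorem share_QQ {a b c d p r : V} (hab : a ≠ b) (hac : a ≠ c) (had : a ≠ d) (hbc : b ≠ c)
    (hbd : b ≠ d) (hcd : c ≠ d) (hap : a ≠ p) (har : a ≠ r) (hbp : b ≠ p) (hbr : b ≠ r)
    (hpr : p ≠ r)
    (h : ∃ e' ∈ quad a b c d, e' ∈ quad a b p r ∧ e' ≠ s(a, b)) :
    p = c ∨ r = d ∨ (p = d ∧ r = c) := by
  obtain ⟨e', h1, h2, h3⟩ := h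
  rw [mem_quad] at h1
  rcases h1 with rfl | rfl | rfl | rfl
  · exact absurd rfl h3
  · simp only [mem_quad, Sym2.eq_iff] at h2
    grind
  · simp only [mem_quad, Sym2.eq_iff] at h2
    grind
  · simp only [mem_quad, Sym2.eq_iff] at h2
    grind

theorem share_TT {a b p q : V} (hab : a ≠ b) (hap : a ≠ p) (hbp : b ≠ p) (haq : a ≠ q)
    (hbq : b ≠ q) (hpq : p ≠ q)
    (h : ∃ e' ∈ tri a b p, e' ∈ tri a b q ∧ e' ≠ s(a, b)) : False := by
  obtain ⟨e', h1, h2, h3⟩ := h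
  rw [mem_tri] at h1
  rcases h1 with rfl | rfl | rfl
  · exact absurd rfl h3
  · simp only [mem_tri, Sym2.eq_iff] at h2
    grind
  · simp only [mem_tri, Sym2.eq_iff] at h2
    grind

theorem quad8 {S : Set (Finset (Sym2 V))} {a b c d : V} (h : quad a b c d ∈ S) :
    quad b c d a ∈ S ∧ quad c d a b ∈ S ∧ quad d a b c ∈ S ∧ quad b a d c ∈ S ∧
      quad a d c b ∈ S ∧ quad d c b a ∈ S ∧ quad c b a d ∈ S := by
  have h1 : quad b c d a ∈ S := by rw [← quad_rot]; exact h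
  have h2 : quad c d a b ∈ S := by rw [← quad_rot]; exact h1
  have h3 : quad d a b c ∈ S := by rw [← quad_rot]; exact h2
  have h4 : quad b a d c ∈ S := by rw [← quad_rev]; exact h
  have h5 : quad a d c b ∈ S := by rw [← quad_rot]; exact h4
  have h6 : quad d c b a ∈ S := by rw [← quad_rot]; exact h5
  have h7 : quad c b a d ∈ S := by rw [← quad_rot]; exact h6
  exact ⟨h1, h2, h3, h4, h5, h6, h7⟩

theorem tri6 {S : Set (Finset (Sym2 V))} {a b c : V} (h : tri a b c ∈ S) :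
    tri b c a ∈ S ∧ tri c a b ∈ S ∧ tri b a c ∈ S ∧ tri a c b ∈ S ∧ tri c b a ∈ S := by
  have h1 : tri b c a ∈ S := by rw [← tri_rot]; exact h
  have h2 : tri c a b ∈ S := by rw [← tri_rot]; exact h1
  have h3 : tri b a c ∈ S := by rw [← tri_swap]; exact h
  have h4 : tri a c b ∈ S := by rw [← tri_rot]; exact h3
  have h5 : tri c b a ∈ S := by rw [← tri_rot]; exact h4
  exact ⟨h1, h2, h3, h4, h5⟩

section

variable {S C : Set (Finset (Sym2 V))} {R : Set (Sym2 V)} {ts : List (List V × List V)}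

theorem isTri_tri {a b c : V} (hab : a ≠ b) (hac : a ≠ c) (hbc : b ≠ c) : IsTri (tri a b c) :=
  ⟨a, b, c, hab, hac, hbc, rfl⟩

theorem isQuad_quad {a b c d : V} (hab : a ≠ b) (hac : a ≠ c) (had : a ≠ d) (hbc : b ≠ c)
    (hbd : b ≠ d) (hcd : c ≠ d) : IsQuad (quad a b c d) :=
  ⟨a, b, c, d, hab, hac, had, hbc, hbd, hcd, rfl⟩

/-- triangle against 4-cycle -/
theorem StrT.tq (hs : StrT S) {a b c d q : V} (hab : a ≠ b) (hac : a ≠ c) (had : a ≠ d)
    (hbc : b ≠ c) (hbd : b ≠ d) (hcd : c ≠ d) (haq : a ≠ q) (hbq : b ≠ q)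
    (h1 : tri a b q ∈ S) (h2 : quad a b c d ∈ S) : q = c ∨ q = d := by
  have t := isTri_tri hab haq hbq
  have r := isQuad_quad hab hac had hbc hbd hcd
  have hne : tri a b q ≠ quad a b c d := fun h => not_tri_quad t (h ▸ r)
  rcases hs.U _ h1 _ h2 hne s(a, b) (by rw [mem_tri]; left; rfl) (by rw [mem_quad]; left; rfl)
    with h | ⟨-, h, -⟩
  · exact share_TQ hab hac had hbc hbd haq hbq h
  · exact (not_tri_quad h r).elim

/-- two 4-cycles -/
theorem StrT.qq (hs : StrT S) {a b c d p r : V} (hab : a ≠ b) (hac : a ≠ c) (had : a ≠ d)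
    (hbc : b ≠ c) (hbd : b ≠ d) (hcd : c ≠ d) (hap : a ≠ p) (har : a ≠ r) (hbp : b ≠ p)
    (hbr : b ≠ r) (hpr : p ≠ r)
    (h1 : quad a b c d ∈ S) (h2 : quad a b p r ∈ S) : p = c ∨ r = d ∨ (p = d ∧ r = c) := by
  by_cases he : quad a b c d = quad a b p r
  · refine share_QQ hab hac had hbc hbd hcd hap har hbp hbr hpr
      ⟨s(b, c), by rw [mem_quad]; simp, ?_, mk_ne' hac.symm hbc.symm⟩
    rw [← he, mem_quad]; simp
  · rcases hs.U _ h1 _ h2 he s(a, b) (by rw [mem_quad]; left; rfl)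
      (by rw [mem_quad]; left; rfl) with h | ⟨h, -, -⟩
    · exact share_QQ hab hac had hbc hbd hcd hap har hbp hbr hpr h
    · exact (not_tri_quad h (isQuad_quad hab hac had hbc hbd hcd)).elim

/-- two triangles -/
theorem StrT.tt (hs : StrT S) {a b p q : V} (hab : a ≠ b) (hap : a ≠ p) (hbp : b ≠ p)
    (haq : a ≠ q) (hbq : b ≠ q) (hpq : p ≠ q) (h1 : tri a b p ∈ S) (h2 : tri a b q ∈ S) :
    quad p a q b ∈ S := by
  have hne : tri a b p ≠ tri a b q := by
    intro h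
    have : s(b, p) ∈ tri a b q := by rw [← h, mem_tri]; simp
    simp only [mem_tri, Sym2.eq_iff] at this
    grind
  rcases hs.U _ h1 _ h2 hne s(a, b) (by rw [mem_tri]; left; rfl) (by rw [mem_tri]; left; rfl)
    with h | ⟨-, -, h⟩
  · exact (share_TT hab hap hbp haq hbq hpq h).elim
  · rwa [symmDiff_tri hab hap haq hbp hbq hpq] at h

/-- the triangle with petal `y` -/
def TT (S : Set (Finset (Sym2 V))) (u w y : V) : Prop :=
  u ≠ w ∧ u ≠ y ∧ w ≠ y ∧ tri u w y ∈ S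

/-- the 4-cycles of the part -/
def ET (S : Set (Finset (Sym2 V))) (u w i j : V) : Prop :=
  HH S u w i j ∧ (TT S u w i ∨ TT S u w j ∨
    ∃ k, (k ≠ j ∧ HH S u w i k) ∨ (k ≠ i ∧ HH S u w k j))

/-- the part -/
def CT (S : Set (Finset (Sym2 V))) (u w : V) : Set (Finset (Sym2 V)) :=
  {Z | (∃ y, TT S u w y ∧ Z = tri u w y) ∨ ∃ i j, ET S u w i j ∧ Z = quad u i w j}

theorem TT.sw {u w y : V} (h : TT S u w y) : TT S w u y :=
  ⟨h.1.symm, h.2.2.1, h.2.1, by rw [tri_swap]; exact h.2.2.2⟩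

theorem ET.symm {u w i j : V} (h : ET S u w i j) : ET S u w j i := by
  obtain ⟨h1, h2 | h2 | ⟨k, h2 | h2⟩⟩ := h
  · exact ⟨h1.symm, Or.inr (Or.inl h2)⟩
  · exact ⟨h1.symm, Or.inl h2⟩
  · exact ⟨h1.symm, Or.inr (Or.inr ⟨k, Or.inr ⟨h2.1, h2.2.symm⟩⟩)⟩
  · exact ⟨h1.symm, Or.inr (Or.inr ⟨k, Or.inl ⟨h2.1, h2.2.symm⟩⟩)⟩

theorem ET.sw {u w i j : V} (h : ET S u w i j) : ET S w u i j := by
  obtain ⟨h1, h2 | h2 | ⟨k, h2 | h2⟩⟩ := h
  · exact ⟨h1.sw, Or.inl h2.sw⟩
  · exact ⟨h1.sw, Or.inr (Or.inl h2.sw)⟩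
  · exact ⟨h1.sw, Or.inr (Or.inr ⟨k, Or.inl ⟨h2.1, h2.2.sw⟩⟩)⟩
  · exact ⟨h1.sw, Or.inr (Or.inr ⟨k, Or.inr ⟨h2.1, h2.2.sw⟩⟩)⟩

theorem CT.sw (u w : V) : CT S w u = CT S u w := by
  ext Z
  constructor
  · rintro (⟨y, h1, rfl⟩ | ⟨i, j, h1, rfl⟩)
    · exact Or.inl ⟨y, h1.sw, tri_swap _ _ _⟩
    · exact Or.inr ⟨i, j, h1.sw, quad_sw _ _ _ _⟩
  · rintro (⟨y, h1, rfl⟩ | ⟨i, j, h1, rfl⟩)
    · exact Or.inl ⟨y, h1.sw, tri_swap _ _ _⟩
    · exact Or.inr ⟨i, j, h1.sw, quad_sw _ _ _ _⟩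

/-- there are no two 4-cycles on the same four vertices -/
def NoK (S : Set (Finset (Sym2 V))) : Prop :=
  ∀ a b c d, a ≠ b → a ≠ c → a ≠ d → b ≠ c → b ≠ d → c ≠ d → quad a b c d ∈ S →
    quad a b d c ∈ S → False

/-- a member containing the pole edge -/
theorem edge_uw (hs : StrT S) (hk : NoK S) {u w c b : V} (hc : TT S u w c) (hcb : HH S u w c b)
    {Z : Finset (Sym2 V)} (hZ : Z ∈ S) (he : s(u, w) ∈ Z) : ∃ y, TT S u w y ∧ Z = tri u w y := by
  obtain ⟨huw, huc, hwc, ht⟩ := hc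
  obtain ⟨hcb1, -, hub, -, hwb, hq⟩ := hcb
  rcases (hs.q Z hZ).at_edge he with ⟨q, -, huq, hwq, rfl⟩ | ⟨q, r, -, huq, hur, hwq, hwr, hqr, rfl⟩
  · exact ⟨q, ⟨huw, huq, hwq, hZ⟩, rfl⟩
  · exfalso
    rcases hs.tq huw huq hur hwq hwr hqr huc hwc ht hZ with rfl | rfl
    · have h1 : quad w c r u ∈ S := (quad8 hZ).1
      have h2 : quad w c u b ∈ S := by rw [quad_sw]; exact hq
      rcases hs.qq hwc hwr huw.symm hqr huc.symm hur.symm huw.symm hwb huc.symm hcb1 hub h1 h2 with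
        h | h | ⟨-, h⟩
      · exact hur h
      · exact hub h.symm
      · subst h
        exact hk w c b u hwc hwb huw.symm hcb1 huc.symm hub.symm h1 h2
    · have h1 : quad u c q w ∈ S := (quad8 hZ).2.2.2.2.1
      rcases hs.qq huc huq huw hqr.symm hwc.symm hwq.symm huw hub hwc.symm hcb1 hwb h1 hq with
        h | h | ⟨-, h⟩
      · exact hwq h
      · exact hwb h.symm
      · subst h
        exact hk u c b w huc hub huw hcb1 hwc.symm hwb.symm h1 hq

/-- a member containing an edge at a petal -/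
theorem edge_uy (hs : StrT S) (hk : NoK S) {u w c b : V} (hc : TT S u w c)
    (hcb : HH S u w c b) {y z : V} (hyz : ET S u w y z)
    {Z : Finset (Sym2 V)} (hZ : Z ∈ S) (he : s(u, y) ∈ Z) : Z ∈ CT S u w := by
  have huw := hc.1
  obtain ⟨⟨nyz, nuy, nuz, nwy, nwz, h0⟩, hor⟩ := id hyz
  rcases (hs.q Z hZ).at_edge he with ⟨q, -, huq, hyq, rfl⟩ | ⟨q, r, -, huq, hur, hyq, hyr, hqr, rfl⟩
  · rcases hs.tq nuy huw nuz nwy.symm nyz nwz huq hyq hZ h0 with rfl | rfl
    · left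
      exact ⟨y, ⟨huw, nuy, nwy, (tri6 hZ).2.2.2.1⟩, by rw [tri_rot, tri_rot, tri_swap]⟩
    · exfalso
      rcases hor with h | h | ⟨k, ⟨h1, h2⟩ | ⟨h1, h2⟩⟩
      · have h3 : quad w u q y ∈ S :=
          hs.tt nuy huw nwy.symm nuz nyz nwz (tri6 h.2.2.2).2.2.2.1 hZ
        exact hk y w q u nwy.symm nyz nuy.symm nwz huw.symm nuz.symm (quad8 h0).1
          (quad8 h3).2.2.1
      · have h3 : quad w u y q ∈ S :=
          hs.tt nuz huw nwz.symm nuy nyz.symm nwy (tri6 h.2.2.2).2.2.2.1 (tri6 hZ).2.2.2.1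
        exact hk u y w q nuy huw nuz nwy.symm nyz nwz h0 (quad8 h3).1
      · rcases hs.tq nuy huw h2.2.2.1 nwy.symm h2.1 h2.2.2.2.2.1 nuz nyz hZ h2.2.2.2.2.2 with h | h
        · exact nwz h.symm
        · exact h1 h.symm
      · have h3 := h2.symm
        rcases hs.tq nuz huw h3.2.2.1 nwz.symm h3.1 h3.2.2.2.2.1 nuy nyz.symm
          (tri6 hZ).2.2.2.1 h3.2.2.2.2.2 with h | h
        · exact nwy h.symm
        · exact h1 h.symm
  · rcases hs.qq nuy huw nuz nwy.symm nyz nwz huq hur hyq hyr hqr h0 hZ with h | h | ⟨h, h'⟩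
    · subst h
      right
      refine ⟨y, r, ?_, rfl⟩
      by_cases hrz : r = z
      · subst hrz; exact hyz
      · exact ⟨⟨hyr, nuy, hur, nwy, hqr, hZ⟩,
          Or.inr (Or.inr ⟨z, Or.inl ⟨Ne.symm hrz, hyz.1⟩⟩)⟩
    · subst h
      by_cases hqw : q = w
      · subst hqw
        right
        exact ⟨y, r, hyz, rfl⟩
      exfalso
      rcases hor with h | h | ⟨k, ⟨h1, h2⟩ | ⟨h1, h2⟩⟩
      · rcases hs.tq nuy huq nuz hyq nyz hqr huw nwy.symm (tri6 h.2.2.2).2.2.2.1 hZ with h | h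
        · exact hqw h.symm
        · exact nwz h
      · rcases hs.tq nuz huq nuy hqr.symm nyz.symm hyq.symm huw nwz.symm
          (tri6 h.2.2.2).2.2.2.1 (quad8 hZ).2.2.2.2.1 with h | h
        · exact hqw h.symm
        · exact nwy h
      · rcases hs.qq nuy huw h2.2.2.1 nwy.symm h2.1 h2.2.2.2.2.1 huq hur hyq hyr hqr
          h2.2.2.2.2.2 hZ with h | h | ⟨h, h'⟩
        · exact hqw h
        · exact h1 h.symm
        · exact nwz h'.symm
      · have h3 := h2.symm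
        rcases hs.qq nuz huw h3.2.2.1 nwz.symm h3.1 h3.2.2.2.2.1 huq nuy hqr.symm nyz.symm
          hyq.symm h3.2.2.2.2.2 (quad8 hZ).2.2.2.2.1 with h | h | ⟨h, h'⟩
        · exact hqw h
        · exact h1 h.symm
        · exact nwy h'.symm
    · subst h h'
      exact (hk u y r q nuy huw nuz nwy.symm nyz nwz h0 hZ).elim

/-- two triangle petals are joined -/
theorem TT.pair (hs : StrT S) {u w i j : V} (hi : TT S u w i) (hj : TT S u w j) (hij : i ≠ j) :
    ET S u w i j := by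
  obtain ⟨huw, hui, hwi, ti⟩ := id hi
  obtain ⟨-, huj, hwj, tj⟩ := id hj
  have h := hs.tt huw hui hwi huj hwj hij ti tj
  exact ⟨⟨hij, hui, huj, hwi, hwj, (quad8 h).2.2.2.1⟩, Or.inl hi⟩

theorem stepPole [Fintype V] (hst : St S R ts) (hs : StrT S) (hk : NoK S) {u w c b : V}
    (hc : TT S u w c) (hcb : HH S u w c b) : DoneT S R ts := by
  classical
  have huw := hc.1
  set Y : Finset V := Finset.univ.filter (fun y => TT S u w y ∨ ∃ z, ET S u w y z) with hY
  have hYm : ∀ y, y ∈ Y ↔ TT S u w y ∨ ∃ z, ET S u w y z := fun y => by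
    rw [hY, Finset.mem_filter]; simp
  have ecb : ET S u w c b := ⟨hcb, Or.inl hc⟩
  have hne : ∀ y ∈ Y, u ≠ y ∧ w ≠ y := by
    intro y hy
    rcases (hYm y).1 hy with h | ⟨z, h⟩
    · exact ⟨h.2.1, h.2.2.1⟩
    · exact ⟨h.1.2.1, h.1.2.2.2.1⟩
  have hu : u ∉ Y := fun h => (hne u h).1 rfl
  have hw : w ∉ Y := fun h => (hne w h).2 rfl
  have hz : ∀ y ∈ Y, ∃ z, ET S u w y z := by
    intro y hy
    rcases (hYm y).1 hy with h | h
    · by_cases hyc : y = c
      · subst hyc; exact ⟨b, ecb⟩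
      · exact ⟨c, TT.pair hs h hc hyc⟩
    · exact h
  have dE : ∀ {i j}, ET S u w i j → dg (quad u i w j) u = 2 ∧ dg (quad u i w j) w = 2 := by
    intro i j h
    obtain ⟨⟨nij, nui, nuj, nwi, nwj, -⟩, -⟩ := h
    constructor
    · exact quad_dg_left nui huw nuj nwi.symm nij nwj
    · rw [← quad_sw]; exact quad_dg_left nwi huw.symm nwj nui.symm nij nuj
  have dT : ∀ {y}, TT S u w y → dg (tri u w y) u = 2 ∧ dg (tri u w y) w = 2 := by
    intro y h
    obtain ⟨-, h1, h2, -⟩ := h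
    rw [dg_tri huw h1 h2, dg_tri huw h1 h2, ind_self, ind_self, ind_ne huw, ind_ne h1,
      ind_ne huw.symm, ind_ne h2]
    constructor <;> ring
  have hcl : Clus S (CT S u w) (KP u w Y) := by
    refine ⟨?_, ?_, ?_, ?_, ?_⟩
    · rintro Z (⟨y, h, rfl⟩ | ⟨i, j, h, rfl⟩)
      · exact h.2.2.2
      · exact h.1.2.2.2.2.2
    · intro Z hZ hZC e he heZ
      rcases he with rfl | ⟨y, hy, rfl | rfl⟩
      · exact hZC (Or.inl (edge_uw hs hk hc hcb hZ heZ))
      · obtain ⟨z, h⟩ := hz y hy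
        exact hZC (edge_uy hs hk hc hcb h hZ heZ)
      · obtain ⟨z, h⟩ := hz y hy
        have := edge_uy hs hk hc.sw hcb.sw h.sw hZ heZ
        rw [CT.sw] at this
        exact hZC this
    · rintro Z (⟨y, h, rfl⟩ | ⟨i, j, h, rfl⟩) e he
      · have hy : y ∈ Y := (hYm y).2 (Or.inl h)
        rw [mem_tri] at he
        rcases he with rfl | rfl | rfl
        · exact KP.uw
        · exact KP.wy hy
        · exact KP.yu hy
      · have hi : i ∈ Y := (hYm i).2 (Or.inr ⟨j, h⟩)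
        have hj : j ∈ Y := (hYm j).2 (Or.inr ⟨i, h.symm⟩)
        rw [mem_quad] at he
        rcases he with rfl | rfl | rfl | rfl
        · exact KP.uy hi
        · exact KP.yw hi
        · exact KP.wy hj
        · exact KP.yu hj
    · rintro Z hZ e he
      have hd : dg Z u = 2 ∧ dg Z w = 2 := by
        rcases hZ with ⟨y, h, rfl⟩ | ⟨i, j, h, rfl⟩
        · exact dT h
        · exact dE h
      rcases he with rfl | ⟨y, hy, rfl | rfl⟩
      · exact ⟨u, Sym2.mem_mk_left _ _, hd.1⟩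
      · exact ⟨u, Sym2.mem_mk_left _ _, hd.1⟩
      · exact ⟨w, Sym2.mem_mk_left _ _, hd.2⟩
    · rintro e (rfl | ⟨y, hy, rfl | rfl⟩)
      · exact ⟨_, Or.inl ⟨c, hc, rfl⟩, by rw [mem_tri]; left; rfl⟩
      · obtain ⟨z, h⟩ := hz y hy
        exact ⟨_, Or.inr ⟨y, z, h, rfl⟩, by rw [mem_quad]; left; rfl⟩
      · obtain ⟨z, h⟩ := hz y hy
        exact ⟨_, Or.inr ⟨y, z, h, rfl⟩, by rw [mem_quad]; right; left; exact Sym2.eq_swap⟩
  have hpc : PC S (CT S u w) u w Y (TT S u w) (ET S u w) := by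
    refine ⟨huw, hu, hw, ?_, ?_, ?_, ?_, ?_, hcl⟩
    · intro y hy
      exact ⟨(hYm y).2 (Or.inl hy), Or.inl ⟨y, hy, rfl⟩⟩
    · intro y hy hn hC
      exact hn ⟨huw, (hne y hy).1, (hne y hy).2, hcl.sub hC⟩
    · intro i j h
      exact ⟨(hYm i).2 (Or.inr ⟨j, h⟩), (hYm j).2 (Or.inr ⟨i, h.symm⟩), h.1.1, h.symm,
        Or.inr ⟨i, j, h, rfl⟩⟩
    · intro i j hi hj hij
      exact TT.pair hs hi hj hij
    · intro y hy
      exact (hYm y).1 hy
  exact hpc.done hst hs hc ecb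

/-- single triangle -/
theorem pcSingle {u w y : V} (huw : u ≠ w) (huy : u ≠ y) (hwy : w ≠ y) {T : Finset (Sym2 V)}
    (hT : T = tri u w y) (hTS : T ∈ S) (hno : ∀ Z' ∈ S, Z' ≠ T → ∀ e ∈ T, e ∉ Z') :
    PC S {T} u w {y} (fun x => x = y) (fun _ _ => False) := by
  subst hT
  have hKq : ∀ e, e ∈ KP u w ({y} : Finset V) ↔ e ∈ tri u w y := by
    intro e
    simp only [KP, Set.mem_setOf_eq, Finset.mem_singleton, exists_eq_left, mem_tri]
    constructor
    · rintro (h | h | h)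
      · exact Or.inl h
      · exact Or.inr (Or.inr (h.trans Sym2.eq_swap))
      · exact Or.inr (Or.inl h)
    · rintro (h | h | h)
      · exact Or.inl h
      · exact Or.inr (Or.inr h)
      · exact Or.inr (Or.inl (h.trans Sym2.eq_swap))
  refine ⟨huw, by simpa using huy, by simpa using hwy, ?_, ?_, ?_, ?_, ?_, ?_⟩
  · rintro x rfl; simp
  · intro x hx hn
    rw [Finset.mem_singleton] at hx
    exact absurd hx hn
  · intro i j h; exact h.elim
  · rintro i j rfl rfl h; exact absurd rfl h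
  · intro x hx
    exact Or.inl (Finset.mem_singleton.1 hx)
  · refine ⟨by simpa using hTS, ?_, ?_, ?_, ?_⟩
    · intro Z h1 h2 e he
      exact hno Z h1 (by simpa using h2) e ((hKq e).1 he)
    · intro Z h1 e he
      rw [Set.mem_singleton_iff] at h1
      subst h1
      exact (hKq e).2 he
    · intro Z h1 e he
      rw [Set.mem_singleton_iff] at h1
      subst h1
      have hd : dg (tri u w y) u = 2 ∧ dg (tri u w y) w = 2 := by
        rw [dg_tri huw huy hwy, dg_tri huw huy hwy, ind_self, ind_self, ind_ne huw, ind_ne huy,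
          ind_ne huw.symm, ind_ne hwy]
        constructor <;> ring
      rcases he with rfl | ⟨x, hx, rfl | rfl⟩
      · exact ⟨u, Sym2.mem_mk_left _ _, hd.1⟩
      · exact ⟨u, Sym2.mem_mk_left _ _, hd.1⟩
      · exact ⟨w, Sym2.mem_mk_left _ _, hd.2⟩
    · intro e he
      exact ⟨_, rfl, (hKq e).1 he⟩

theorem stepOne [Fintype V] (hst : St S R ts) (hs : StrT S) {u w y : V} (huw : u ≠ w)
    (huy : u ≠ y) (hwy : w ≠ y) (hTS : tri u w y ∈ S)
    (hno : ∀ Z' ∈ S, Z' ≠ tri u w y → ∀ e ∈ tri u w y, e ∉ Z') : DoneT S R ts := by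
  have p1 := pcSingle huw huy hwy rfl hTS hno
  have p2 : PC S {tri u w y} y u {w} (fun x => x = w) (fun _ _ => False) :=
    pcSingle huy.symm hwy.symm huw (by rw [tri_rot, tri_rot]) hTS hno
  have hKK : KP y u ({w} : Finset V) = KP u w {y} := by
    ext e
    simp only [KP, Set.mem_setOf_eq, Finset.mem_singleton, exists_eq_left]
    constructor
    · rintro (h | h | h)
      · exact Or.inr (Or.inl (h.trans Sym2.eq_swap))
      · exact Or.inr (Or.inr (h.trans Sym2.eq_swap))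
      · exact Or.inl h
    · rintro (h | h | h)
      · exact Or.inr (Or.inr h)
      · exact Or.inl (h.trans Sym2.eq_swap)
      · exact Or.inr (Or.inl (h.trans Sym2.eq_swap))
  by_cases h1 : QE S {tri u w y} (KP u w {y}) R ts (dbl w y)
  · by_cases h2 : QE S {tri u w y} (KP u w {y}) R ts (dbl u y)
    · refine p2.doneC hst hs (fun x hx => Finset.mem_singleton.1 hx) (y0 := w) (by simp) ?_
      rw [hKK]
      intro h3
      exact (p1.env hst hs).one (y := y) (by simp) h1 h2 h3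
    · refine p1.swap.doneC hst hs (fun x hx => Finset.mem_singleton.1 hx) (y0 := y) (by simp) ?_
      rw [KP_swap]; exact h2
  · exact p1.doneC hst hs (fun x hx => Finset.mem_singleton.1 hx) (y0 := y) (by simp) h1

end

end H999
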