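import Pool.Agent.H999_TwoFactor.Start

/-!
Token systems and perfect matchings; labels from Tutte's theorem.
-/

namespace H999

open Finset

set_option linter.all false

/-- labels certifying that there is no perfect matching -/
theorem labels_of_no_pm {W : Type*} [Fintype W] [DecidableEq W] (G : SimpleGraph W)
    (h : ∀ M : G.Subgraph, ¬ M.IsPerfectMatching) :
    ∃ (lab : W → ℕ) (cs : Finset ℕ), (∀ x, lab x ≤ Fintype.card W) ∧
      (∀ x y, G.Adj x y → lab x = 0 ∨ lab y = 0 ∨ lab x = lab y) ∧
      (∀ c ∈ cs, c ≠ 0 ∧ c ≤ Fintype.card W ∧ Odd (Finset.univ.filter (fun x => lab x = c)).card) ∧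
      (Finset.univ.filter (fun x => lab x = 0)).card < cs.card := by
  classical
  have h1 : ¬ ∃ M : G.Subgraph, M.IsPerfectMatching := by push Not; exact h
  rw [SimpleGraph.tutte] at h1
  push Not at h1
  obtain ⟨U, hU⟩ := h1
  set K := ((⊤ : G.Subgraph).deleteVerts U) with hK
  have hmem : ∀ x : W, x ∈ K.verts ↔ x ∉ U := by
    intro x; rw [hK, SimpleGraph.Subgraph.deleteVerts_verts]; simp
  -- number the components by a representative
  haveI : Fintype K.coe.ConnectedComponent := Fintype.ofFinite _
  obtain ⟨e⟩ := Fintype.truncEquivFin K.coe.ConnectedComponent |>.nonempty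
  have hcardle : Fintype.card K.coe.ConnectedComponent ≤ Fintype.card W := by
    have h2 : Function.Surjective (fun x : K.verts => K.coe.connectedComponentMk x) := by
      intro c
      induction c using SimpleGraph.ConnectedComponent.ind with
      | _ v => exact ⟨v, rfl⟩
    haveI : Fintype K.verts := Fintype.ofFinite _
    refine (Fintype.card_le_of_surjective _ h2).trans ?_
    exact Fintype.card_le_of_injective (fun x : K.verts => (x : W)) Subtype.val_injective
  set lab : W → ℕ := fun x => if hx : x ∈ K.verts then
    (e (K.coe.connectedComponentMk ⟨x, hx⟩) : ℕ) + 1 else 0 with hlab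
  have lab0 : ∀ x, lab x = 0 ↔ x ∈ U := by
    intro x
    rw [hlab]
    beta_reduce
    by_cases hx : x ∈ K.verts
    · rw [dif_pos hx]
      have := (hmem x).1 hx
      simp [this]
    · rw [dif_neg hx]
      rw [hmem] at hx
      push Not at hx
      simp [hx]
  refine ⟨lab, (Finset.univ.filter (fun c : K.coe.ConnectedComponent => Odd c.supp.ncard)).image
    (fun c => (e c : ℕ) + 1), ?_, ?_, ?_, ?_⟩
  · intro x
    rw [hlab]
    beta_reduce
    split_ifs with hx
    · have := (e (K.coe.connectedComponentMk ⟨x, hx⟩)).2
      omega
    · omega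
  · intro x y hxy
    by_cases hx : x ∈ U
    · left; exact (lab0 x).2 hx
    by_cases hy : y ∈ U
    · right; left; exact (lab0 y).2 hy
    right; right
    have hx' := (hmem x).2 hx
    have hy' := (hmem y).2 hy
    rw [hlab]
    beta_reduce
    rw [dif_pos hx', dif_pos hy']
    have : K.coe.connectedComponentMk ⟨x, hx'⟩ = K.coe.connectedComponentMk ⟨y, hy'⟩ := by
      apply SimpleGraph.ConnectedComponent.sound
      apply SimpleGraph.Adj.reachable
      have hadj' : K.Adj x y := by
        rw [hK, SimpleGraph.Subgraph.deleteVerts_adj]
        simp [hx, hy, hxy]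
      exact hadj'
    rw [this]
  · intro c hc
    rw [Finset.mem_image] at hc
    obtain ⟨d, hd, rfl⟩ := hc
    rw [Finset.mem_filter] at hd
    refine ⟨by omega, by have := (e d).2; omega, ?_⟩
    have h3 : ((Finset.univ.filter (fun x => lab x = (e d : ℕ) + 1) : Finset W) : Set W) =
        Subtype.val '' d.supp := by
      ext x
      rw [Finset.coe_filter, Set.mem_image]
      simp only [Finset.mem_univ, true_and, Set.mem_setOf_eq]
      rw [hlab]
      beta_reduce
      constructor
      · intro hx
        split_ifs at hx with hx'
        · refine ⟨⟨x, hx'⟩, ?_, rfl⟩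
          rw [SimpleGraph.ConnectedComponent.mem_supp_iff]
          have h4 : (e (K.coe.connectedComponentMk ⟨x, hx'⟩) : ℕ) = e d := by omega
          exact e.injective (Fin.ext h4)
      · rintro ⟨y, hy, rfl⟩
        rw [dif_pos y.2]
        rw [SimpleGraph.ConnectedComponent.mem_supp_iff] at hy
        rw [← hy]
    have h4 : (Finset.univ.filter (fun x => lab x = (e d : ℕ) + 1)).card = d.supp.ncard := by
      rw [← Set.ncard_coe_finset, h3, Set.ncard_image_of_injective _ Subtype.val_injective]
    rw [h4]
    exact hd.2
  · have h5 : (Finset.univ.filter (fun x => lab x = 0)).card = U.ncard := by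
      rw [← Set.ncard_coe_finset]
      congr 1
      ext x
      simp [lab0]
    rw [h5, Finset.card_image_of_injective]
    · have h6 : U.ncard < K.coe.oddComponents.ncard := hU
      refine h6.trans_le (le_of_eq ?_)
      rw [← Set.ncard_coe_finset]
      congr 1
      ext c
      simp
    · intro c c' hcc
      have : (e c : ℕ) = e c' := by simpa using hcc
      exact e.injective (Fin.ext this)

variable {V : Type*} [DecidableEq V]

/-- contribution of a choice -/
def ctr (o : Option (V × V)) (z : V) : ℤ :=
  match o with
  | none => 0
  | some p => ind p.1 z + ind p.2 z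

theorem toks_of_choice : ∀ (TT : List (List V × List V)) (c : Fin TT.length → Option (V × V)),
    (∀ i x y, c i = some (x, y) → x ∈ (TT.get i).1 ∧ y ∈ (TT.get i).2) →
    Toks TT (fun z => ∑ i, ctr (c i) z)
  | [], c, _ => fun z => by simp
  | t :: TT, c, hc => by
    refine ⟨fun z => ∑ i, ctr (c (Fin.succ i)) z, ctr (c 0), ?_, ?_, fun z => ?_⟩
    · exact toks_of_choice TT (fun i => c (Fin.succ i)) (fun i x y h => hc (Fin.succ i) x y h)
    · cases h : c 0 with
      | none => left; intro z; rfl
      | some p =>
        right
        obtain ⟨x, y⟩ := p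
        obtain ⟨h1, h2⟩ := hc 0 x y h
        exact ⟨x, h1, y, h2, fun z => rfl⟩
    · beta_reduce
      rw [add_comm]
      exact Fin.sum_univ_succ (fun i => ctr (c i) z)

/-- the two lists of a token -/
def side (TT : List (List V × List V)) (i : Fin TT.length) (s : Bool) : List V :=
  if s then (TT.get i).2 else (TT.get i).1

/-- adjacency of the matching instance -/
def tadj (TT : List (List V × List V)) :
    (V × Bool) ⊕ (Fin TT.length × Bool) → (V × Bool) ⊕ (Fin TT.length × Bool) → Prop
  | .inl a, .inr p => a.1 ∈ side TT p.1 p.2
  | .inr p, .inl a => a.1 ∈ side TT p.1 p.2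
  | .inr p, .inr q => p.1 = q.1 ∧ p.2 ≠ q.2
  | .inl _, .inl _ => False

/-- the matching instance -/
def tgraph (TT : List (List V × List V)) :
    SimpleGraph ((V × Bool) ⊕ (Fin TT.length × Bool)) where
  Adj := tadj TT
  symm := by
    constructor
    intro a b h
    rcases a with a | a <;> rcases b with b | b
    · exact h
    · exact h
    · exact h
    · exact ⟨h.1.symm, h.2.symm⟩
  loopless := by
    constructor
    intro a h
    rcases a with a | a
    · exact h
    · exact h.2 rfl

theorem toks_of_pm [Fintype V] (TT : List (List V × List V)) (M : (tgraph TT).Subgraph)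
    (hM : M.IsPerfectMatching) : Toks TT (fun _ => 2) := by
  classical
  have hmate : ∀ v, ∃ w, M.Adj v w ∧ ∀ w', M.Adj v w' → w' = w := by
    intro v
    obtain ⟨w, h1, h2⟩ := hM.1 (hM.2 v)
    exact ⟨w, h1, h2⟩
  choose mu hmu hmu' using hmate
  have hinv : ∀ v, mu (mu v) = v := fun v => (hmu' (mu v) v (hmu v).symm).symm
  have hadj : ∀ v, tadj TT v (mu v) := fun v => M.adj_sub (hmu v)
  set c : Fin TT.length → Option (V × V) := fun i =>
    match mu (.inr (i, false)), mu (.inr (i, true)) with
    | .inl a, .inl b => some (a.1, b.1)
    | _, _ => none with hc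
  have hcc : ∀ i x y, c i = some (x, y) → x ∈ (TT.get i).1 ∧ y ∈ (TT.get i).2 := by
    intro i x y h
    rw [hc] at h
    beta_reduce at h
    have a1 := hadj (.inr (i, false))
    have a2 := hadj (.inr (i, true))
    rcases h1 : mu (.inr (i, false)) with a | a <;> rcases h2 : mu (.inr (i, true)) with b | b <;>
      rw [h1, h2] at h <;> simp at h
    rw [h1] at a1
    rw [h2] at a2
    obtain ⟨rfl, rfl⟩ := h
    exact ⟨a1, a2⟩
  have h2 := toks_of_choice TT c hcc
  have h3 : (fun z => ∑ i, ctr (c i) z) = (fun _ => (2 : ℤ)) := by
    funext z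
    -- indicator of a partner at `z`
    set g : Fin TT.length × Bool → ℤ := fun p =>
      if ∃ ε, mu (.inr p) = .inl (z, ε) then 1 else 0 with hg
    have e1 : ∀ i, ctr (c i) z = g (i, false) + g (i, true) := by
      intro i
      have a1 := hadj (.inr (i, false))
      have a2 := hadj (.inr (i, true))
      rw [hc, hg]
      beta_reduce
      rcases h1 : mu (.inr (i, false)) with a | a <;>
        rcases h2 : mu (.inr (i, true)) with b | b
      · simp only [ctr, ind]
        obtain ⟨a, ε⟩ := a
        obtain ⟨b, δ⟩ := b
        simp only [Sum.inl.injEq, Prod.mk.injEq]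
        congr 1
        · by_cases haz : a = z
          · subst haz; simp
          · rw [if_neg (fun h => haz h.symm), if_neg]; rintro ⟨e, h, -⟩; exact haz h
        · by_cases haz : b = z
          · subst haz; simp
          · rw [if_neg (fun h => haz h.symm), if_neg]; rintro ⟨e, h, -⟩; exact haz h
      · exfalso
        -- mate of the second is a token vertex, hence the first
        rw [h2] at a2
        have : b = (i, false) := by
          obtain ⟨b1, b2⟩ := b
          obtain ⟨h5, h6⟩ := a2
          simp only at h5 h6
          subst h5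
          cases b2
          · rfl
          · exact absurd rfl h6
        subst this
        have h7 := hinv (.inr (i, true))
        rw [h2, h1] at h7
        cases h7
      · exfalso
        rw [h1] at a1
        have : a = (i, true) := by
          obtain ⟨b1, b2⟩ := a
          obtain ⟨h5, h6⟩ := a1
          simp only at h5 h6
          subst h5
          cases b2
          · exact absurd rfl h6
          · rfl
        subst this
        have h7 := hinv (.inr (i, false))
        rw [h1, h2] at h7
        cases h7
      · simp [ctr]
    have e2 : ∑ i, ctr (c i) z = ∑ p : Fin TT.length × Bool, g p := by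
      rw [Fintype.sum_prod_type]
      refine Finset.sum_congr rfl fun i _ => ?_
      rw [e1 i]
      simp [add_comm]
    rw [e2]
    have e3 : ∑ p : Fin TT.length × Bool, g p =
        ((Finset.univ.filter (fun p : Fin TT.length × Bool => ∃ ε, mu (.inr p) = .inl (z, ε))).card
          : ℤ) := by
      rw [hg, Finset.card_filter]; push_cast; rfl
    rw [e3]
    have e4 : (Finset.univ.filter
        (fun p : Fin TT.length × Bool => ∃ ε, mu (.inr p) = .inl (z, ε))).card =
        (Finset.univ : Finset Bool).card := by
      symm
      have hex : ∀ ε : Bool, ∃ p, mu (.inl (z, ε)) = .inr p := by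
        intro ε
        have a1 := hadj (.inl (z, ε))
        rcases h1 : mu (.inl (z, ε)) with a | a
        · rw [h1] at a1; exact a1.elim
        · exact ⟨a, rfl⟩
      choose p hp using hex
      refine Finset.card_bij (fun ε _ => p ε) ?_ ?_ ?_
      · intro ε _
        rw [Finset.mem_filter]
        refine ⟨Finset.mem_univ _, ε, ?_⟩
        rw [← hp ε, hinv]
      · intro ε _ δ _ h
        have h5 : mu (.inl (z, ε)) = mu (.inl (z, δ)) := by rw [hp ε, hp δ, h]
        have h6 := congrArg mu h5
        rw [hinv, hinv] at h6
        simpa using h6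
      · intro q hq
        rw [Finset.mem_filter] at hq
        obtain ⟨-, ε, hε⟩ := hq
        refine ⟨ε, Finset.mem_univ _, ?_⟩
        have h5 : mu (.inl (z, ε)) = .inr q := by rw [← hε, hinv]
        rw [hp ε] at h5
        simpa using h5
    rw [e4]
    simp
  rw [h3] at h2
  exact h2

end H999
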