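import Pool.Agent.H999_TwoFactor.Jump

/-!
The uncrossing lemmas: two 2-factors whose only members of `S` are two short cycles in a
conflicting position can be recombined to a 2-factor without members of `S`.
-/

namespace H999

open Finset

set_option linter.all false
set_option linter.unusedVariables false

variable {V : Type*} [DecidableEq V]

/-- remove the 4-cycle `a b c d` -/
def rmQ (N : Finset (Sym2 V)) (a b c d : V) : Finset (Sym2 V) :=
  (((N.erase s(a, b)).erase s(b, c)).erase s(c, d)).erase s(d, a)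

/-- remove the triangle `a b c` -/
def rmT (N : Finset (Sym2 V)) (a b c : V) : Finset (Sym2 V) :=
  ((N.erase s(a, b)).erase s(b, c)).erase s(c, a)

theorem rmQ_sub {N : Finset (Sym2 V)} {a b c d : V} : rmQ N a b c d ⊆ N := by
  intro e he
  simp only [rmQ, Finset.mem_erase] at he
  exact he.2.2.2.2

theorem rmT_sub {N : Finset (Sym2 V)} {a b c : V} : rmT N a b c ⊆ N := by
  intro e he
  simp only [rmT, Finset.mem_erase] at he
  exact he.2.2.2

theorem rmQ_not {N : Finset (Sym2 V)} {a b c d : V} : s(a, b) ∉ rmQ N a b c d := by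
  simp [rmQ]

theorem rmT_not {N : Finset (Sym2 V)} {a b c : V} : s(a, b) ∉ rmT N a b c := by
  simp [rmT]

theorem rmQ_dg {N : Finset (Sym2 V)} {a b c d : V} (hab : a ≠ b) (hac : a ≠ c) (had : a ≠ d)
    (hbc : b ≠ c) (hbd : b ≠ d) (hcd : c ≠ d) (h : quad a b c d ⊆ N) (z : V) :
    dg (rmQ N a b c d) z = dg N z - 2 * ind a z - 2 * ind b z - 2 * ind c z - 2 * ind d z := by
  have h1 : s(a, b) ∈ N := h (by rw [mem_quad]; left; rfl)
  have h2 : s(b, c) ∈ N := h (by rw [mem_quad]; right; left; rfl)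
  have h3 : s(c, d) ∈ N := h (by rw [mem_quad]; right; right; left; rfl)
  have h4 : s(d, a) ∈ N := h (by rw [mem_quad]; right; right; right; rfl)
  unfold rmQ
  rw [dg_erase had.symm, dg_erase hcd, dg_erase hbc, dg_erase hab h1]
  · ring
  · exact Finset.mem_erase.2 ⟨mk_ne' hac.symm hbc.symm, h2⟩
  · exact Finset.mem_erase.2 ⟨mk_ne' hbd.symm hcd.symm, Finset.mem_erase.2
      ⟨mk_ne hac.symm hbc.symm, h3⟩⟩
  · exact Finset.mem_erase.2 ⟨mk_ne' hac had, Finset.mem_erase.2
      ⟨mk_ne hbd.symm hcd.symm, Finset.mem_erase.2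
      ⟨mk_ne had.symm hbd.symm, h4⟩⟩⟩

theorem rmT_dg {N : Finset (Sym2 V)} {a b c : V} (hab : a ≠ b) (hac : a ≠ c)
    (hbc : b ≠ c) (h : tri a b c ⊆ N) (z : V) :
    dg (rmT N a b c) z = dg N z - 2 * ind a z - 2 * ind b z - 2 * ind c z := by
  have h1 : s(a, b) ∈ N := h (by rw [mem_tri]; left; rfl)
  have h2 : s(b, c) ∈ N := h (by rw [mem_tri]; right; left; rfl)
  have h3 : s(c, a) ∈ N := h (by rw [mem_tri]; right; right; rfl)
  unfold rmT
  rw [dg_erase hac.symm, dg_erase hbc, dg_erase hab h1]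
  · ring
  · exact Finset.mem_erase.2 ⟨mk_ne' hac.symm hbc.symm, h2⟩
  · exact Finset.mem_erase.2 ⟨mk_ne' hab hac, Finset.mem_erase.2
      ⟨mk_ne hac.symm hbc.symm, h3⟩⟩

/-- a 2-factor as an edge set -/
structure TF (N : Finset (Sym2 V)) : Prop where
  ne : ∀ {x y : V}, s(x, y) ∈ N → x ≠ y
  deg : ∀ v, dg N v = 2

theorem good_rm {S : Set (Finset (Sym2 V))} {N M Z : Finset (Sym2 V)} (hN : TF N)
    (honly : ∀ Z' ∈ S, Z' ⊆ N → Z' = Z) (hM : M ⊆ N) {e : Sym2 V} (he : e ∈ Z) (heM : e ∉ M) :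
    Good S M := by
  refine ⟨fun h => hN.ne (hM h), fun v => (dg_mono hM v).trans (hN.deg v).le, ?_⟩
  intro Z' hZ' hsub
  have := honly Z' hZ' (hsub.trans hM)
  subst this
  exact heM (hsub he)

/-- the recombined 2-factor -/
def Res (S : Set (Finset (Sym2 V))) (N1 N2 : Finset (Sym2 V)) : Prop :=
  ∃ N, Good S N ∧ N ⊆ N1 ∪ N2 ∧ TF N

theorem res_of {S : Set (Finset (Sym2 V))} {N1 N2 N : Finset (Sym2 V)} (h1 : Good S N)
    (h2 : N ⊆ N1 ∪ N2) (h3 : ∀ v, dg N v = 2) : Res S N1 N2 :=
  ⟨N, h1, h2, ⟨fun h => h1.ne h, h3⟩⟩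

/-- two 4-cycles `a b c d` and `a b e c` -/
theorem uncrossC {S : Set (Finset (Sym2 V))} (hS : ∀ Z ∈ S, Short Z)
    {N1 N2 : Finset (Sym2 V)} (t1 : TF N1) (t2 : TF N2) {a b c d e : V}
    (hab : a ≠ b) (hac : a ≠ c) (had : a ≠ d) (hae : a ≠ e) (hbc : b ≠ c) (hbd : b ≠ d) (hbe : b ≠ e) (hcd : c ≠ d) (hce : c ≠ e) (hde : d ≠ e)
    (q1 : quad a b c d ⊆ N1) (q2 : quad a b e c ⊆ N2)
    (o1 : ∀ Z ∈ S, Z ⊆ N1 → Z = quad a b c d) (o2 : ∀ Z ∈ S, Z ⊆ N2 → Z = quad a b e c) :
    Res S N1 N2 := by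
  have mab : s(a, b) ∈ N1 := q1 (by rw [mem_quad]; left; rfl)
  have mbc : s(b, c) ∈ N1 := q1 (by rw [mem_quad]; right; left; rfl)
  have mcd : s(c, d) ∈ N1 := q1 (by rw [mem_quad]; right; right; left; rfl)
  have mda : s(d, a) ∈ N1 := q1 (by rw [mem_quad]; right; right; right; rfl)
  have nab : s(a, b) ∈ N2 := q2 (by rw [mem_quad]; left; rfl)
  have nbe : s(b, e) ∈ N2 := q2 (by rw [mem_quad]; right; left; rfl)
  have nec : s(e, c) ∈ N2 := q2 (by rw [mem_quad]; right; right; left; rfl)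
  have nca : s(c, a) ∈ N2 := q2 (by rw [mem_quad]; right; right; right; rfl)
  have hA : JD S (N1 ∪ N2) (fun z => 2 - 2 * ind c z) d e a b 2 0 2 2 := by
    refine ⟨rmQ N1 a b c d, good_rm t1 o1 rmQ_sub (by rw [mem_quad]; left; rfl) rmQ_not,
      rmQ_sub.trans Finset.subset_union_left, fun z => ?_⟩
    rw [rmQ_dg hab hac had hbc hbd hcd q1, t1.deg]; ring
  have hB : JD S (N1 ∪ N2) (fun z => 2 - 2 * ind c z) d e a b 0 2 2 2 := by
    refine ⟨rmQ N2 a b e c, good_rm t2 o2 rmQ_sub (by rw [mem_quad]; left; rfl) rmQ_not,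
      rmQ_sub.trans Finset.subset_union_right, fun z => ?_⟩
    rw [rmQ_dg hab hae hac hbe hbc hce.symm q2, t2.deg]; ring
  have hst := JD.step4 hS (R := N1 ∪ N2) (B := fun z => 2 - 2 * ind c z) hde had.symm hbd.symm hae.symm hbe.symm hab
  rcases derive2 hst hA hB with ⟨M, hMG, hMR', hM⟩ | ⟨M, hMG, hMR', hM⟩
  · skip
    have ga : dg M a ≤ 0 := by rw [hM]; simp [ind, hab, hab.symm, hac, hac.symm, had, had.symm, hae, hae.symm, hbc, hbc.symm, hbd, hbd.symm, hbe, hbe.symm, hcd, hcd.symm, hce, hce.symm, hde, hde.symm]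
    have gb : dg M b ≤ 0 := by rw [hM]; simp [ind, hab, hab.symm, hac, hac.symm, had, had.symm, hae, hae.symm, hbc, hbc.symm, hbd, hbd.symm, hbe, hbe.symm, hcd, hcd.symm, hce, hce.symm, hde, hde.symm]
    have gc : dg M c ≤ 0 := by rw [hM]; simp [ind, hab, hab.symm, hac, hac.symm, had, had.symm, hae, hae.symm, hbc, hbc.symm, hbd, hbd.symm, hbe, hbe.symm, hcd, hcd.symm, hce, hce.symm, hde, hde.symm]
    have gd : dg M d ≤ 1 := by rw [hM]; simp [ind, hab, hab.symm, hac, hac.symm, had, had.symm, hae, hae.symm, hbc, hbc.symm, hbd, hbd.symm, hbe, hbe.symm, hcd, hcd.symm, hce, hce.symm, hde, hde.symm]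
    have ge : dg M e ≤ 1 := by rw [hM]; simp [ind, hab, hab.symm, hac, hac.symm, had, had.symm, hae, hae.symm, hbc, hbc.symm, hbd, hbd.symm, hbe, hbe.symm, hcd, hcd.symm, hce, hce.symm, hde, hde.symm]
    refine res_of (P4_good hS hMG ga gb gc gd ge had.symm hbd.symm hcd.symm hab hac hbc hae.symm hbe.symm hce.symm hde.symm) ?_ ?_
    · intro g hg
      rw [mem_P4] at hg
      rcases hg with rfl | rfl | rfl | rfl | hg
      · exact (swp (Finset.mem_union_right _ nec))
      · exact (Finset.mem_union_left _ mda)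
      · exact (Finset.mem_union_left _ mbc)
      · exact (Finset.mem_union_left _ mab)
      · exact hMR' hg
    · intro z
      rw [P4_dg ga gb gc had.symm hbd.symm hcd.symm hab hac hbc hae.symm hbe.symm hce.symm hde.symm, hM]; ring
  · skip
    have gd : dg M d ≤ 0 := by rw [hM]; simp [ind, hab, hab.symm, hac, hac.symm, had, had.symm, hae, hae.symm, hbc, hbc.symm, hbd, hbd.symm, hbe, hbe.symm, hcd, hcd.symm, hce, hce.symm, hde, hde.symm]
    have ga : dg M a ≤ 0 := by rw [hM]; simp [ind, hab, hab.symm, hac, hac.symm, had, had.symm, hae, hae.symm, hbc, hbc.symm, hbd, hbd.symm, hbe, hbe.symm, hcd, hcd.symm, hce, hce.symm, hde, hde.symm]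
    have gb : dg M b ≤ 0 := by rw [hM]; simp [ind, hab, hab.symm, hac, hac.symm, had, had.symm, hae, hae.symm, hbc, hbc.symm, hbd, hbd.symm, hbe, hbe.symm, hcd, hcd.symm, hce, hce.symm, hde, hde.symm]
    have ge : dg M e ≤ 0 := by rw [hM]; simp [ind, hab, hab.symm, hac, hac.symm, had, had.symm, hae, hae.symm, hbc, hbc.symm, hbd, hbd.symm, hbe, hbe.symm, hcd, hcd.symm, hce, hce.symm, hde, hde.symm]
    have gc : dg M c ≤ 0 := by rw [hM]; simp [ind, hab, hab.symm, hac, hac.symm, had, had.symm, hae, hae.symm, hbc, hbc.symm, hbd, hbd.symm, hbe, hbe.symm, hcd, hcd.symm, hce, hce.symm, hde, hde.symm]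
    refine res_of (C5_good hS hMG gd ga gb ge gc had.symm hbd.symm hde hcd.symm hab hae hac hbe hbc hce.symm) ?_ ?_
    · intro g hg
      rw [mem_C5] at hg
      rcases hg with rfl | rfl | rfl | rfl | rfl | hg
      · exact (Finset.mem_union_left _ mcd)
      · exact (Finset.mem_union_right _ nec)
      · exact (Finset.mem_union_left _ mda)
      · exact (Finset.mem_union_right _ nbe)
      · exact (Finset.mem_union_left _ mab)
      · exact hMR' hg
    · intro z
      rw [C5_dg gd ga gb ge had.symm hbd.symm hde hcd.symm hab hae hac hbe hbc hce.symm, hM]; ring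

/-- two triangles `a b c` and `a b d` -/
theorem uncrossF {S : Set (Finset (Sym2 V))} (hS : ∀ Z ∈ S, Short Z)
    {N1 N2 : Finset (Sym2 V)} (t1 : TF N1) (t2 : TF N2) {a b c d : V}
    (hab : a ≠ b) (hac : a ≠ c) (had : a ≠ d) (hbc : b ≠ c) (hbd : b ≠ d) (hcd : c ≠ d)
    (q1 : tri a b c ⊆ N1) (q2 : tri a b d ⊆ N2) (hnot : quad c a d b ∉ S)
    (o1 : ∀ Z ∈ S, Z ⊆ N1 → Z = tri a b c) (o2 : ∀ Z ∈ S, Z ⊆ N2 → Z = tri a b d) :
    Res S N1 N2 := by
  have mab : s(a, b) ∈ N1 := q1 (by rw [mem_tri]; left; rfl)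
  have mbc : s(b, c) ∈ N1 := q1 (by rw [mem_tri]; right; left; rfl)
  have mca : s(c, a) ∈ N1 := q1 (by rw [mem_tri]; right; right; rfl)
  have nab : s(a, b) ∈ N2 := q2 (by rw [mem_tri]; left; rfl)
  have nbd : s(b, d) ∈ N2 := q2 (by rw [mem_tri]; right; left; rfl)
  have nda : s(d, a) ∈ N2 := q2 (by rw [mem_tri]; right; right; rfl)
  have hA : JD S ((N1 ∪ N2).erase s(c, d)) (fun z => 2) c d a b 2 0 2 2 := by
    have hdz := rmT_dg hab hac hbc q1
    refine ⟨rmT N1 a b c, good_rm t1 o1 rmT_sub (by rw [mem_tri]; left; rfl) rmT_not,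
      ?_, fun z => ?_⟩
    · intro g hg
      refine Finset.mem_erase.2 ⟨?_, Finset.mem_union_left _ (rmT_sub hg)⟩
      rintro rfl
      exact notMem_of_dg (by rw [hdz, t1.deg]; simp [ind, hab, hab.symm, hac, hac.symm, had, had.symm, hbc, hbc.symm, hbd, hbd.symm, hcd, hcd.symm]) hg
    · rw [hdz, t1.deg]; ring
  have hB : JD S ((N1 ∪ N2).erase s(c, d)) (fun z => 2) c d a b 0 2 2 2 := by
    have hdz := rmT_dg hab had hbd q2
    refine ⟨rmT N2 a b d, good_rm t2 o2 rmT_sub (by rw [mem_tri]; left; rfl) rmT_not,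
      ?_, fun z => ?_⟩
    · intro g hg
      refine Finset.mem_erase.2 ⟨?_, Finset.mem_union_right _ (rmT_sub hg)⟩
      rintro rfl
      exact notMem_of_dg' (by rw [hdz, t2.deg]; simp [ind, hab, hab.symm, hac, hac.symm, had, had.symm, hbc, hbc.symm, hbd, hbd.symm, hcd, hcd.symm]) hg
    · rw [hdz, t2.deg]; ring
  have hst := JD.step4 hS (R := (N1 ∪ N2).erase s(c, d)) (B := fun z => 2) hcd hac.symm hbc.symm had.symm hbd.symm hab
  rcases derive2 hst hA hB with ⟨M, hMG, hMR, hM⟩ | ⟨M, hMG, hMR, hM⟩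
  · have hMR' : M ⊆ N1 ∪ N2 := hMR.trans (Finset.erase_subset _ _)
    have hcd' : s(c, d) ∉ M := fun h => (Finset.mem_erase.1 (hMR h)).1 rfl
    have ga : dg M a ≤ 0 := by rw [hM]; simp [ind, hab, hab.symm, hac, hac.symm, had, had.symm, hbc, hbc.symm, hbd, hbd.symm, hcd, hcd.symm]
    have gb : dg M b ≤ 0 := by rw [hM]; simp [ind, hab, hab.symm, hac, hac.symm, had, had.symm, hbc, hbc.symm, hbd, hbd.symm, hcd, hcd.symm]
    have gc : dg M c ≤ 1 := by rw [hM]; simp [ind, hab, hab.symm, hac, hac.symm, had, had.symm, hbc, hbc.symm, hbd, hbd.symm, hcd, hcd.symm]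
    have gd : dg M d ≤ 1 := by rw [hM]; simp [ind, hab, hab.symm, hac, hac.symm, had, had.symm, hbc, hbc.symm, hbd, hbd.symm, hcd, hcd.symm]
    refine res_of (P3_good hS hMG ga gb gc gd hac.symm hbc.symm hcd hab had hbd hcd') ?_ ?_
    · intro g hg
      rw [mem_P3] at hg
      rcases hg with rfl | rfl | rfl | hg
      · exact (Finset.mem_union_left _ mca)
      · exact (Finset.mem_union_right _ nbd)
      · exact (Finset.mem_union_left _ mab)
      · exact hMR' hg
    · intro z
      rw [P3_dg ga gb hac.symm hbc.symm hcd hab had hbd, hM]; ring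
  · have hMR' : M ⊆ N1 ∪ N2 := hMR.trans (Finset.erase_subset _ _)
    have gc : dg M c ≤ 0 := by rw [hM]; simp [ind, hab, hab.symm, hac, hac.symm, had, had.symm, hbc, hbc.symm, hbd, hbd.symm, hcd, hcd.symm]
    have ga : dg M a ≤ 0 := by rw [hM]; simp [ind, hab, hab.symm, hac, hac.symm, had, had.symm, hbc, hbc.symm, hbd, hbd.symm, hcd, hcd.symm]
    have gd : dg M d ≤ 0 := by rw [hM]; simp [ind, hab, hab.symm, hac, hac.symm, had, had.symm, hbc, hbc.symm, hbd, hbd.symm, hcd, hcd.symm]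
    have gb : dg M b ≤ 0 := by rw [hM]; simp [ind, hab, hab.symm, hac, hac.symm, had, had.symm, hbc, hbc.symm, hbd, hbd.symm, hcd, hcd.symm]
    refine res_of (C4_good hS hMG gc ga gd gb hac.symm hcd hbc.symm had hab hbd.symm hnot) ?_ ?_
    · intro g hg
      rw [mem_C4] at hg
      rcases hg with rfl | rfl | rfl | rfl | hg
      · exact (Finset.mem_union_left _ mbc)
      · exact (Finset.mem_union_left _ mca)
      · exact (swp (Finset.mem_union_right _ nbd))
      · exact (swp (Finset.mem_union_right _ nda))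
      · exact hMR' hg
    · intro z
      rw [C4_dg gc ga gd gb hac.symm hcd hbc.symm had hab hbd.symm, hM]; ring

/-- a triangle `a b c` and a 4-cycle `a b e f` -/
theorem uncrossE {S : Set (Finset (Sym2 V))} (hS : ∀ Z ∈ S, Short Z)
    {N1 N2 : Finset (Sym2 V)} (t1 : TF N1) (t2 : TF N2) {a b c e f : V}
    (hab : a ≠ b) (hac : a ≠ c) (hae : a ≠ e) (haf : a ≠ f) (hbc : b ≠ c) (hbe : b ≠ e) (hbf : b ≠ f) (hce : c ≠ e) (hcf : c ≠ f) (hef : e ≠ f)
    (q1 : tri a b c ⊆ N1) (q2 : quad a b e f ⊆ N2)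
    (o1 : ∀ Z ∈ S, Z ⊆ N1 → Z = tri a b c) (o2 : ∀ Z ∈ S, Z ⊆ N2 → Z = quad a b e f) :
    Res S N1 N2 := by
  have mab : s(a, b) ∈ N1 := q1 (by rw [mem_tri]; left; rfl)
  have mbc : s(b, c) ∈ N1 := q1 (by rw [mem_tri]; right; left; rfl)
  have mca : s(c, a) ∈ N1 := q1 (by rw [mem_tri]; right; right; rfl)
  have nab : s(a, b) ∈ N2 := q2 (by rw [mem_quad]; left; rfl)
  have nbe : s(b, e) ∈ N2 := q2 (by rw [mem_quad]; right; left; rfl)
  have nef : s(e, f) ∈ N2 := q2 (by rw [mem_quad]; right; right; left; rfl)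
  have nfa : s(f, a) ∈ N2 := q2 (by rw [mem_quad]; right; right; right; rfl)
  have hA : JD S (((N1 ∪ N2).erase s(c, e)).erase s(c, f)) (fun z => 2 - 2 * ind b z) c e f a 2 0 0 2 := by
    have hdz := rmT_dg hab hac hbc q1
    have hc0 : dg (rmT N1 a b c) c ≤ 0 := by rw [hdz, t1.deg]; simp [ind, hab, hab.symm, hac, hac.symm, hae, hae.symm, haf, haf.symm, hbc, hbc.symm, hbe, hbe.symm, hbf, hbf.symm, hce, hce.symm, hcf, hcf.symm, hef, hef.symm]
    refine ⟨rmT N1 a b c, good_rm t1 o1 rmT_sub (by rw [mem_tri]; left; rfl) rmT_not,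
      ?_, fun z => ?_⟩
    · intro g hg
      refine Finset.mem_erase.2 ⟨?_, Finset.mem_erase.2 ⟨?_, Finset.mem_union_left _ (rmT_sub hg)⟩⟩
      · rintro rfl; exact notMem_of_dg hc0 hg
      · rintro rfl; exact notMem_of_dg hc0 hg
    · rw [hdz, t1.deg]; ring
  have hB : JD S (((N1 ∪ N2).erase s(c, e)).erase s(c, f)) (fun z => 2 - 2 * ind b z) c e f a 0 2 2 2 := by
    have hdz := rmQ_dg hab hae haf hbe hbf hef q2
    have he0 : dg (rmQ N2 a b e f) e ≤ 0 := by rw [hdz, t2.deg]; simp [ind, hab, hab.symm, hac, hac.symm, hae, hae.symm, haf, haf.symm, hbc, hbc.symm, hbe, hbe.symm, hbf, hbf.symm, hce, hce.symm, hcf, hcf.symm, hef, hef.symm]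
    have hf0 : dg (rmQ N2 a b e f) f ≤ 0 := by rw [hdz, t2.deg]; simp [ind, hab, hab.symm, hac, hac.symm, hae, hae.symm, haf, haf.symm, hbc, hbc.symm, hbe, hbe.symm, hbf, hbf.symm, hce, hce.symm, hcf, hcf.symm, hef, hef.symm]
    refine ⟨rmQ N2 a b e f, good_rm t2 o2 rmQ_sub (by rw [mem_quad]; left; rfl) rmQ_not,
      ?_, fun z => ?_⟩
    · intro g hg
      refine Finset.mem_erase.2 ⟨?_, Finset.mem_erase.2 ⟨?_, Finset.mem_union_right _ (rmQ_sub hg)⟩⟩
      · rintro rfl; exact notMem_of_dg' hf0 hg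
      · rintro rfl; exact notMem_of_dg' he0 hg
    · rw [hdz, t2.deg]; ring
  have hst := JD.step4 hS (R := (((N1 ∪ N2).erase s(c, e)).erase s(c, f))) (B := fun z => 2 - 2 * ind b z) hce hcf hac.symm hef hae.symm haf.symm
  rcases derive3 hst hA hB with ⟨M, hMG, hMR, hM⟩ | ⟨M, hMG, hMR, hM⟩ | ⟨M, hMG, hMR, hM⟩ | ⟨M, hMG, hMR, hM⟩ <;>
    have hMR' : M ⊆ N1 ∪ N2 := hMR.trans ((Finset.erase_subset _ _).trans (Finset.erase_subset _ _))
  · have hx : s(c, e) ∉ M := fun h => (Finset.mem_erase.1 (Finset.mem_erase.1 (hMR h)).2).1 rfl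
    have ga : dg M a ≤ 0 := by rw [hM]; simp [ind, hab, hab.symm, hac, hac.symm, hae, hae.symm, haf, haf.symm, hbc, hbc.symm, hbe, hbe.symm, hbf, hbf.symm, hce, hce.symm, hcf, hcf.symm, hef, hef.symm]
    have gb : dg M b ≤ 0 := by rw [hM]; simp [ind, hab, hab.symm, hac, hac.symm, hae, hae.symm, haf, haf.symm, hbc, hbc.symm, hbe, hbe.symm, hbf, hbf.symm, hce, hce.symm, hcf, hcf.symm, hef, hef.symm]
    have gc : dg M c ≤ 1 := by rw [hM]; simp [ind, hab, hab.symm, hac, hac.symm, hae, hae.symm, haf, haf.symm, hbc, hbc.symm, hbe, hbe.symm, hbf, hbf.symm, hce, hce.symm, hcf, hcf.symm, hef, hef.symm]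
    have ge : dg M e ≤ 1 := by rw [hM]; simp [ind, hab, hab.symm, hac, hac.symm, hae, hae.symm, haf, haf.symm, hbc, hbc.symm, hbe, hbe.symm, hbf, hbf.symm, hce, hce.symm, hcf, hcf.symm, hef, hef.symm]
    refine res_of (P3_good hS hMG ga gb gc ge hac.symm hbc.symm hce hab hae hbe hx) ?_ ?_
    · intro g hg
      rw [mem_P3] at hg
      rcases hg with rfl | rfl | rfl | hg
      · exact (Finset.mem_union_left _ mca)
      · exact (Finset.mem_union_right _ nbe)
      · exact (Finset.mem_union_left _ mab)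
      · exact hMR' hg
    · intro z
      rw [P3_dg ga gb hac.symm hbc.symm hce hab hae hbe, hM]; ring
  · have hx : s(c, f) ∉ M := fun h => (Finset.mem_erase.1 (hMR h)).1 rfl
    have gb : dg M b ≤ 0 := by rw [hM]; simp [ind, hab, hab.symm, hac, hac.symm, hae, hae.symm, haf, haf.symm, hbc, hbc.symm, hbe, hbe.symm, hbf, hbf.symm, hce, hce.symm, hcf, hcf.symm, hef, hef.symm]
    have ga : dg M a ≤ 0 := by rw [hM]; simp [ind, hab, hab.symm, hac, hac.symm, hae, hae.symm, haf, haf.symm, hbc, hbc.symm, hbe, hbe.symm, hbf, hbf.symm, hce, hce.symm, hcf, hcf.symm, hef, hef.symm]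
    have gc : dg M c ≤ 1 := by rw [hM]; simp [ind, hab, hab.symm, hac, hac.symm, hae, hae.symm, haf, haf.symm, hbc, hbc.symm, hbe, hbe.symm, hbf, hbf.symm, hce, hce.symm, hcf, hcf.symm, hef, hef.symm]
    have gf : dg M f ≤ 1 := by rw [hM]; simp [ind, hab, hab.symm, hac, hac.symm, hae, hae.symm, haf, haf.symm, hbc, hbc.symm, hbe, hbe.symm, hbf, hbf.symm, hce, hce.symm, hcf, hcf.symm, hef, hef.symm]
    refine res_of (P3_good hS hMG gb ga gc gf hbc.symm hac.symm hcf hab.symm hbf haf hx) ?_ ?_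
    · intro g hg
      rw [mem_P3] at hg
      rcases hg with rfl | rfl | rfl | hg
      · exact (swp (Finset.mem_union_left _ mbc))
      · exact (swp (Finset.mem_union_right _ nfa))
      · exact (swp (Finset.mem_union_left _ mab))
      · exact hMR' hg
    · intro z
      rw [P3_dg gb ga hbc.symm hac.symm hcf hab.symm hbf haf, hM]; ring
  · skip
    have gc : dg M c ≤ 0 := by rw [hM]; simp [ind, hab, hab.symm, hac, hac.symm, hae, hae.symm, haf, haf.symm, hbc, hbc.symm, hbe, hbe.symm, hbf, hbf.symm, hce, hce.symm, hcf, hcf.symm, hef, hef.symm]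
    have ga : dg M a ≤ 0 := by rw [hM]; simp [ind, hab, hab.symm, hac, hac.symm, hae, hae.symm, haf, haf.symm, hbc, hbc.symm, hbe, hbe.symm, hbf, hbf.symm, hce, hce.symm, hcf, hcf.symm, hef, hef.symm]
    have gf : dg M f ≤ 0 := by rw [hM]; simp [ind, hab, hab.symm, hac, hac.symm, hae, hae.symm, haf, haf.symm, hbc, hbc.symm, hbe, hbe.symm, hbf, hbf.symm, hce, hce.symm, hcf, hcf.symm, hef, hef.symm]
    have ge : dg M e ≤ 0 := by rw [hM]; simp [ind, hab, hab.symm, hac, hac.symm, hae, hae.symm, haf, haf.symm, hbc, hbc.symm, hbe, hbe.symm, hbf, hbf.symm, hce, hce.symm, hcf, hcf.symm, hef, hef.symm]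
    have gb : dg M b ≤ 0 := by rw [hM]; simp [ind, hab, hab.symm, hac, hac.symm, hae, hae.symm, haf, haf.symm, hbc, hbc.symm, hbe, hbe.symm, hbf, hbf.symm, hce, hce.symm, hcf, hcf.symm, hef, hef.symm]
    refine res_of (C5_good hS hMG gc ga gf ge gb hac.symm hcf hce hbc.symm haf hae hab hef.symm hbf.symm hbe.symm) ?_ ?_
    · intro g hg
      rw [mem_C5] at hg
      rcases hg with rfl | rfl | rfl | rfl | rfl | hg
      · exact (Finset.mem_union_left _ mbc)
      · exact (swp (Finset.mem_union_right _ nbe))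
      · exact (Finset.mem_union_left _ mca)
      · exact (swp (Finset.mem_union_right _ nef))
      · exact (swp (Finset.mem_union_right _ nfa))
      · exact hMR' hg
    · intro z
      rw [C5_dg gc ga gf ge hac.symm hcf hce hbc.symm haf hae hab hef.symm hbf.symm hbe.symm, hM]; ring
  · skip
    have ga : dg M a ≤ 0 := by rw [hM]; simp [ind, hab, hab.symm, hac, hac.symm, hae, hae.symm, haf, haf.symm, hbc, hbc.symm, hbe, hbe.symm, hbf, hbf.symm, hce, hce.symm, hcf, hcf.symm, hef, hef.symm]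
    have gc : dg M c ≤ 0 := by rw [hM]; simp [ind, hab, hab.symm, hac, hac.symm, hae, hae.symm, haf, haf.symm, hbc, hbc.symm, hbe, hbe.symm, hbf, hbf.symm, hce, hce.symm, hcf, hcf.symm, hef, hef.symm]
    have gb : dg M b ≤ 0 := by rw [hM]; simp [ind, hab, hab.symm, hac, hac.symm, hae, hae.symm, haf, haf.symm, hbc, hbc.symm, hbe, hbe.symm, hbf, hbf.symm, hce, hce.symm, hcf, hcf.symm, hef, hef.symm]
    have gf : dg M f ≤ 1 := by rw [hM]; simp [ind, hab, hab.symm, hac, hac.symm, hae, hae.symm, haf, haf.symm, hbc, hbc.symm, hbe, hbe.symm, hbf, hbf.symm, hce, hce.symm, hcf, hcf.symm, hef, hef.symm]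
    have ge : dg M e ≤ 1 := by rw [hM]; simp [ind, hab, hab.symm, hac, hac.symm, hae, hae.symm, haf, haf.symm, hbc, hbc.symm, hbe, hbe.symm, hbf, hbf.symm, hce, hce.symm, hcf, hcf.symm, hef, hef.symm]
    refine res_of (P4_good hS hMG ga gc gb gf ge haf.symm hcf.symm hbf.symm hac hab hbc.symm hae.symm hce.symm hbe.symm hef) ?_ ?_
    · intro g hg
      rw [mem_P4] at hg
      rcases hg with rfl | rfl | rfl | rfl | hg
      · exact (Finset.mem_union_right _ nbe)
      · exact (Finset.mem_union_right _ nfa)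
      · exact (swp (Finset.mem_union_left _ mbc))
      · exact (swp (Finset.mem_union_left _ mca))
      · exact hMR' hg
    · intro z
      rw [P4_dg ga gc gb haf.symm hcf.symm hbf.symm hac hab hbc.symm hae.symm hce.symm hbe.symm hef, hM]; ring

/-- two 4-cycles `a b c d` and `a b e f` -/
theorem uncrossD {S : Set (Finset (Sym2 V))} (hS : ∀ Z ∈ S, Short Z)
    {N1 N2 : Finset (Sym2 V)} (t1 : TF N1) (t2 : TF N2) {a b c d e f : V}
    (hab : a ≠ b) (hac : a ≠ c) (had : a ≠ d) (hae : a ≠ e) (haf : a ≠ f) (hbc : b ≠ c) (hbd : b ≠ d) (hbe : b ≠ e) (hbf : b ≠ f) (hcd : c ≠ d) (hce : c ≠ e) (hcf : c ≠ f) (hde : d ≠ e) (hdf : d ≠ f) (hef : e ≠ f)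
    (q1 : quad a b c d ⊆ N1) (q2 : quad a b e f ⊆ N2)
    (o1 : ∀ Z ∈ S, Z ⊆ N1 → Z = quad a b c d) (o2 : ∀ Z ∈ S, Z ⊆ N2 → Z = quad a b e f) :
    Res S N1 N2 := by
  have mab : s(a, b) ∈ N1 := q1 (by rw [mem_quad]; left; rfl)
  have mbc : s(b, c) ∈ N1 := q1 (by rw [mem_quad]; right; left; rfl)
  have mcd : s(c, d) ∈ N1 := q1 (by rw [mem_quad]; right; right; left; rfl)
  have mda : s(d, a) ∈ N1 := q1 (by rw [mem_quad]; right; right; right; rfl)
  have nab : s(a, b) ∈ N2 := q2 (by rw [mem_quad]; left; rfl)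
  have nbe : s(b, e) ∈ N2 := q2 (by rw [mem_quad]; right; left; rfl)
  have nef : s(e, f) ∈ N2 := q2 (by rw [mem_quad]; right; right; left; rfl)
  have nfa : s(f, a) ∈ N2 := q2 (by rw [mem_quad]; right; right; right; rfl)
  have hdz1 := rmQ_dg hab hac had hbc hbd hcd q1
  have hdz2 := rmQ_dg hab hae haf hbe hbf hef q2
  have hG1 : Good S (rmQ N1 a b c d) := good_rm t1 o1 rmQ_sub (by rw [mem_quad]; left; rfl) rmQ_not
  have hG2 : Good S (rmQ N2 a b e f) := good_rm t2 o2 rmQ_sub (by rw [mem_quad]; left; rfl) rmQ_not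
  have z1c : dg (rmQ N1 a b c d) c ≤ 0 := by rw [hdz1, t1.deg]; simp [ind, hab, hab.symm, hac, hac.symm, had, had.symm, hae, hae.symm, haf, haf.symm, hbc, hbc.symm, hbd, hbd.symm, hbe, hbe.symm, hbf, hbf.symm, hcd, hcd.symm, hce, hce.symm, hcf, hcf.symm, hde, hde.symm, hdf, hdf.symm, hef, hef.symm]
  have z1d : dg (rmQ N1 a b c d) d ≤ 0 := by rw [hdz1, t1.deg]; simp [ind, hab, hab.symm, hac, hac.symm, had, had.symm, hae, hae.symm, haf, haf.symm, hbc, hbc.symm, hbd, hbd.symm, hbe, hbe.symm, hbf, hbf.symm, hcd, hcd.symm, hce, hce.symm, hcf, hcf.symm, hde, hde.symm, hdf, hdf.symm, hef, hef.symm]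
  have z2e : dg (rmQ N2 a b e f) e ≤ 0 := by rw [hdz2, t2.deg]; simp [ind, hab, hab.symm, hac, hac.symm, had, had.symm, hae, hae.symm, haf, haf.symm, hbc, hbc.symm, hbd, hbd.symm, hbe, hbe.symm, hbf, hbf.symm, hcd, hcd.symm, hce, hce.symm, hcf, hcf.symm, hde, hde.symm, hdf, hdf.symm, hef, hef.symm]
  have z2f : dg (rmQ N2 a b e f) f ≤ 0 := by rw [hdz2, t2.deg]; simp [ind, hab, hab.symm, hac, hac.symm, had, had.symm, hae, hae.symm, haf, haf.symm, hbc, hbc.symm, hbd, hbd.symm, hbe, hbe.symm, hbf, hbf.symm, hcd, hcd.symm, hce, hce.symm, hcf, hcf.symm, hde, hde.symm, hdf, hdf.symm, hef, hef.symm]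
  by_cases hef1 : s(e, f) ∈ N1
  · have hmem : s(e, f) ∈ rmQ N1 a b c d := by
      simp only [rmQ, Finset.mem_erase]
      exact ⟨(mk_ne hde.symm hae.symm), (mk_ne hce.symm hde.symm), (mk_ne hbe.symm hce.symm), (mk_ne hae.symm hbe.symm), hef1⟩
    obtain ⟨M, hMdef⟩ : ∃ M, M = (rmQ N1 a b c d).erase s(e, f) := ⟨_, rfl⟩
    have hMG : Good S M := by rw [hMdef]; exact hG1.mono (Finset.erase_subset _ _)
    have hMR' : M ⊆ N1 ∪ N2 := by
      rw [hMdef]; exact (Finset.erase_subset _ _).trans (rmQ_sub.trans Finset.subset_union_left)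
    have hM : ∀ z, dg M z = 2 - 2 * ind a z - 2 * ind b z - 2 * ind c z - 2 * ind d z - ind e z - ind f z := by
      intro z; rw [hMdef, dg_erase hef hmem, hdz1, t1.deg]
    have ga : dg M a ≤ 0 := by rw [hM]; simp [ind, hab, hab.symm, hac, hac.symm, had, had.symm, hae, hae.symm, haf, haf.symm, hbc, hbc.symm, hbd, hbd.symm, hbe, hbe.symm, hbf, hbf.symm, hcd, hcd.symm, hce, hce.symm, hcf, hcf.symm, hde, hde.symm, hdf, hdf.symm, hef, hef.symm]
    have gd : dg M d ≤ 0 := by rw [hM]; simp [ind, hab, hab.symm, hac, hac.symm, had, had.symm, hae, hae.symm, haf, haf.symm, hbc, hbc.symm, hbd, hbd.symm, hbe, hbe.symm, hbf, hbf.symm, hcd, hcd.symm, hce, hce.symm, hcf, hcf.symm, hde, hde.symm, hdf, hdf.symm, hef, hef.symm]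
    have gc : dg M c ≤ 0 := by rw [hM]; simp [ind, hab, hab.symm, hac, hac.symm, had, had.symm, hae, hae.symm, haf, haf.symm, hbc, hbc.symm, hbd, hbd.symm, hbe, hbe.symm, hbf, hbf.symm, hcd, hcd.symm, hce, hce.symm, hcf, hcf.symm, hde, hde.symm, hdf, hdf.symm, hef, hef.symm]
    have gb : dg M b ≤ 0 := by rw [hM]; simp [ind, hab, hab.symm, hac, hac.symm, had, had.symm, hae, hae.symm, haf, haf.symm, hbc, hbc.symm, hbd, hbd.symm, hbe, hbe.symm, hbf, hbf.symm, hcd, hcd.symm, hce, hce.symm, hcf, hcf.symm, hde, hde.symm, hdf, hdf.symm, hef, hef.symm]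
    have gf : dg M f ≤ 1 := by rw [hM]; simp [ind, hab, hab.symm, hac, hac.symm, had, had.symm, hae, hae.symm, haf, haf.symm, hbc, hbc.symm, hbd, hbd.symm, hbe, hbe.symm, hbf, hbf.symm, hcd, hcd.symm, hce, hce.symm, hcf, hcf.symm, hde, hde.symm, hdf, hdf.symm, hef, hef.symm]
    have ge : dg M e ≤ 1 := by rw [hM]; simp [ind, hab, hab.symm, hac, hac.symm, had, had.symm, hae, hae.symm, haf, haf.symm, hbc, hbc.symm, hbd, hbd.symm, hbe, hbe.symm, hbf, hbf.symm, hcd, hcd.symm, hce, hce.symm, hcf, hcf.symm, hde, hde.symm, hdf, hdf.symm, hef, hef.symm]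
    refine res_of (P5_good hS hMG ga gd gc gb gf ge haf.symm hdf.symm hcf.symm hbf.symm had hac hab hcd.symm hbd.symm hbc.symm hae.symm hde.symm hce.symm hbe.symm hef) ?_ ?_
    · intro g hg
      rw [mem_P5] at hg
      rcases hg with rfl | rfl | rfl | rfl | rfl | hg
      · exact (Finset.mem_union_right _ nbe)
      · exact (swp (Finset.mem_union_left _ mbc))
      · exact (Finset.mem_union_right _ nfa)
      · exact (swp (Finset.mem_union_left _ mcd))
      · exact (swp (Finset.mem_union_left _ mda))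
      · exact hMR' hg
    · intro z
      rw [P5_dg ga gd gc gb haf.symm hdf.symm hcf.symm hbf.symm had hac hab hcd.symm hbd.symm hbc.symm hae.symm hde.symm hce.symm hbe.symm hef, hM]; ring
  by_cases hcd2 : s(c, d) ∈ N2
  · have hmem : s(c, d) ∈ rmQ N2 a b e f := by
      simp only [rmQ, Finset.mem_erase]
      exact ⟨(mk_ne hcf hac.symm), (mk_ne hce hcf), (mk_ne hbc.symm hce), (mk_ne hac.symm hbc.symm), hcd2⟩
    obtain ⟨M, hMdef⟩ : ∃ M, M = (rmQ N2 a b e f).erase s(c, d) := ⟨_, rfl⟩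
    have hMG : Good S M := by rw [hMdef]; exact hG2.mono (Finset.erase_subset _ _)
    have hMR' : M ⊆ N1 ∪ N2 := by
      rw [hMdef]; exact (Finset.erase_subset _ _).trans (rmQ_sub.trans Finset.subset_union_right)
    have hM : ∀ z, dg M z = 2 - 2 * ind a z - 2 * ind b z - 2 * ind e z - 2 * ind f z - ind c z - ind d z := by
      intro z; rw [hMdef, dg_erase hcd hmem, hdz2, t2.deg]
    have ga : dg M a ≤ 0 := by rw [hM]; simp [ind, hab, hab.symm, hac, hac.symm, had, had.symm, hae, hae.symm, haf, haf.symm, hbc, hbc.symm, hbd, hbd.symm, hbe, hbe.symm, hbf, hbf.symm, hcd, hcd.symm, hce, hce.symm, hcf, hcf.symm, hde, hde.symm, hdf, hdf.symm, hef, hef.symm]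
    have gf : dg M f ≤ 0 := by rw [hM]; simp [ind, hab, hab.symm, hac, hac.symm, had, had.symm, hae, hae.symm, haf, haf.symm, hbc, hbc.symm, hbd, hbd.symm, hbe, hbe.symm, hbf, hbf.symm, hcd, hcd.symm, hce, hce.symm, hcf, hcf.symm, hde, hde.symm, hdf, hdf.symm, hef, hef.symm]
    have ge : dg M e ≤ 0 := by rw [hM]; simp [ind, hab, hab.symm, hac, hac.symm, had, had.symm, hae, hae.symm, haf, haf.symm, hbc, hbc.symm, hbd, hbd.symm, hbe, hbe.symm, hbf, hbf.symm, hcd, hcd.symm, hce, hce.symm, hcf, hcf.symm, hde, hde.symm, hdf, hdf.symm, hef, hef.symm]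
    have gb : dg M b ≤ 0 := by rw [hM]; simp [ind, hab, hab.symm, hac, hac.symm, had, had.symm, hae, hae.symm, haf, haf.symm, hbc, hbc.symm, hbd, hbd.symm, hbe, hbe.symm, hbf, hbf.symm, hcd, hcd.symm, hce, hce.symm, hcf, hcf.symm, hde, hde.symm, hdf, hdf.symm, hef, hef.symm]
    have gd : dg M d ≤ 1 := by rw [hM]; simp [ind, hab, hab.symm, hac, hac.symm, had, had.symm, hae, hae.symm, haf, haf.symm, hbc, hbc.symm, hbd, hbd.symm, hbe, hbe.symm, hbf, hbf.symm, hcd, hcd.symm, hce, hce.symm, hcf, hcf.symm, hde, hde.symm, hdf, hdf.symm, hef, hef.symm]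
    have gc : dg M c ≤ 1 := by rw [hM]; simp [ind, hab, hab.symm, hac, hac.symm, had, had.symm, hae, hae.symm, haf, haf.symm, hbc, hbc.symm, hbd, hbd.symm, hbe, hbe.symm, hbf, hbf.symm, hcd, hcd.symm, hce, hce.symm, hcf, hcf.symm, hde, hde.symm, hdf, hdf.symm, hef, hef.symm]
    refine res_of (P5_good hS hMG ga gf ge gb gd gc had.symm hdf hde hbd.symm haf hae hab hef.symm hbf.symm hbe.symm hac.symm hcf hce hbc.symm hcd) ?_ ?_
    · intro g hg
      rw [mem_P5] at hg
      rcases hg with rfl | rfl | rfl | rfl | rfl | hg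
      · exact (Finset.mem_union_left _ mbc)
      · exact (swp (Finset.mem_union_right _ nbe))
      · exact (Finset.mem_union_left _ mda)
      · exact (swp (Finset.mem_union_right _ nef))
      · exact (swp (Finset.mem_union_right _ nfa))
      · exact hMR' hg
    · intro z
      rw [P5_dg ga gf ge gb had.symm hdf hde hbd.symm haf hae hab hef.symm hbf.symm hbe.symm hac.symm hcf hce hbc.symm hcd, hM]; ring
  obtain ⟨R, hR⟩ : ∃ R, R = (N1 ∪ N2) \ ({s(c, d), s(d, e), s(c, f), s(e, f), s(d, f), s(c, e)} : Finset (Sym2 V)) := ⟨_, rfl⟩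
  have hRN : R ⊆ N1 ∪ N2 := by rw [hR]; exact Finset.sdiff_subset
  have rcd : s(c, d) ∉ R := by rw [hR]; simp
  have rde : s(d, e) ∉ R := by rw [hR]; simp
  have rcf : s(c, f) ∉ R := by rw [hR]; simp
  have ref : s(e, f) ∉ R := by rw [hR]; simp
  have rdf : s(d, f) ∉ R := by rw [hR]; simp
  have rce : s(c, e) ∉ R := by rw [hR]; simp
  have hA : JD S R (fun z => 2 - 2 * ind a z - 2 * ind b z) c d e f 2 2 0 0 := by
    refine ⟨rmQ N1 a b c d, hG1, ?_, fun z => ?_⟩
    · intro g hg
      rw [hR, Finset.mem_sdiff]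
      refine ⟨Finset.mem_union_left _ (rmQ_sub hg), ?_⟩
      simp only [Finset.mem_insert, Finset.mem_singleton]
      rintro (rfl | rfl | rfl | rfl | rfl | rfl)
      · exact notMem_of_dg z1c hg
      · exact notMem_of_dg z1d hg
      · exact notMem_of_dg z1c hg
      · exact hef1 (rmQ_sub hg)
      · exact notMem_of_dg z1d hg
      · exact notMem_of_dg z1c hg
    · rw [hdz1, t1.deg]; ring
  have hB : JD S R (fun z => 2 - 2 * ind a z - 2 * ind b z) c d e f 0 0 2 2 := by
    refine ⟨rmQ N2 a b e f, hG2, ?_, fun z => ?_⟩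
    · intro g hg
      rw [hR, Finset.mem_sdiff]
      refine ⟨Finset.mem_union_right _ (rmQ_sub hg), ?_⟩
      simp only [Finset.mem_insert, Finset.mem_singleton]
      rintro (rfl | rfl | rfl | rfl | rfl | rfl)
      · exact hcd2 (rmQ_sub hg)
      · exact notMem_of_dg' z2e hg
      · exact notMem_of_dg' z2f hg
      · exact notMem_of_dg z2e hg
      · exact notMem_of_dg' z2f hg
      · exact notMem_of_dg' z2e hg
    · rw [hdz2, t2.deg]; ring
  have hst := JD.step4 hS (R := R) (B := fun z => 2 - 2 * ind a z - 2 * ind b z) hcd hce hcf hde hdf hef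
  rcases derive4 hst hA hB with h | h | h | h | h | h | h | h | h | h | h | h <;>
    obtain ⟨M, hMG, hMR, hM⟩ := h <;> have hMR' : M ⊆ N1 ∪ N2 := hMR.trans hRN
  · have hx : s(d, c) ∉ M := fun h => rcd (hMR (swp h))
    have ga : dg M a ≤ 0 := by rw [hM]; simp [ind, hab, hab.symm, hac, hac.symm, had, had.symm, hae, hae.symm, haf, haf.symm, hbc, hbc.symm, hbd, hbd.symm, hbe, hbe.symm, hbf, hbf.symm, hcd, hcd.symm, hce, hce.symm, hcf, hcf.symm, hde, hde.symm, hdf, hdf.symm, hef, hef.symm]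
    have gb : dg M b ≤ 0 := by rw [hM]; simp [ind, hab, hab.symm, hac, hac.symm, had, had.symm, hae, hae.symm, haf, haf.symm, hbc, hbc.symm, hbd, hbd.symm, hbe, hbe.symm, hbf, hbf.symm, hcd, hcd.symm, hce, hce.symm, hcf, hcf.symm, hde, hde.symm, hdf, hdf.symm, hef, hef.symm]
    have gd : dg M d ≤ 1 := by rw [hM]; simp [ind, hab, hab.symm, hac, hac.symm, had, had.symm, hae, hae.symm, haf, haf.symm, hbc, hbc.symm, hbd, hbd.symm, hbe, hbe.symm, hbf, hbf.symm, hcd, hcd.symm, hce, hce.symm, hcf, hcf.symm, hde, hde.symm, hdf, hdf.symm, hef, hef.symm]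
    have gc : dg M c ≤ 1 := by rw [hM]; simp [ind, hab, hab.symm, hac, hac.symm, had, had.symm, hae, hae.symm, haf, haf.symm, hbc, hbc.symm, hbd, hbd.symm, hbe, hbe.symm, hbf, hbf.symm, hcd, hcd.symm, hce, hce.symm, hcf, hcf.symm, hde, hde.symm, hdf, hdf.symm, hef, hef.symm]
    refine res_of (P3_good hS hMG ga gb gd gc had.symm hbd.symm hcd.symm hab hac hbc hx) ?_ ?_
    · intro g hg
      rw [mem_P3] at hg
      rcases hg with rfl | rfl | rfl | hg
      · exact (Finset.mem_union_left _ mda)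
      · exact (Finset.mem_union_left _ mbc)
      · exact (Finset.mem_union_left _ mab)
      · exact hMR' hg
    · intro z
      rw [P3_dg ga gb had.symm hbd.symm hcd.symm hab hac hbc, hM]; ring
  · have hx : s(d, e) ∉ M := fun h => rde (hMR h)
    have ga : dg M a ≤ 0 := by rw [hM]; simp [ind, hab, hab.symm, hac, hac.symm, had, had.symm, hae, hae.symm, haf, haf.symm, hbc, hbc.symm, hbd, hbd.symm, hbe, hbe.symm, hbf, hbf.symm, hcd, hcd.symm, hce, hce.symm, hcf, hcf.symm, hde, hde.symm, hdf, hdf.symm, hef, hef.symm]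
    have gb : dg M b ≤ 0 := by rw [hM]; simp [ind, hab, hab.symm, hac, hac.symm, had, had.symm, hae, hae.symm, haf, haf.symm, hbc, hbc.symm, hbd, hbd.symm, hbe, hbe.symm, hbf, hbf.symm, hcd, hcd.symm, hce, hce.symm, hcf, hcf.symm, hde, hde.symm, hdf, hdf.symm, hef, hef.symm]
    have gd : dg M d ≤ 1 := by rw [hM]; simp [ind, hab, hab.symm, hac, hac.symm, had, had.symm, hae, hae.symm, haf, haf.symm, hbc, hbc.symm, hbd, hbd.symm, hbe, hbe.symm, hbf, hbf.symm, hcd, hcd.symm, hce, hce.symm, hcf, hcf.symm, hde, hde.symm, hdf, hdf.symm, hef, hef.symm]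
    have ge : dg M e ≤ 1 := by rw [hM]; simp [ind, hab, hab.symm, hac, hac.symm, had, had.symm, hae, hae.symm, haf, haf.symm, hbc, hbc.symm, hbd, hbd.symm, hbe, hbe.symm, hbf, hbf.symm, hcd, hcd.symm, hce, hce.symm, hcf, hcf.symm, hde, hde.symm, hdf, hdf.symm, hef, hef.symm]
    refine res_of (P3_good hS hMG ga gb gd ge had.symm hbd.symm hde hab hae hbe hx) ?_ ?_
    · intro g hg
      rw [mem_P3] at hg
      rcases hg with rfl | rfl | rfl | hg
      · exact (Finset.mem_union_left _ mda)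
      · exact (Finset.mem_union_right _ nbe)
      · exact (Finset.mem_union_left _ mab)
      · exact hMR' hg
    · intro z
      rw [P3_dg ga gb had.symm hbd.symm hde hab hae hbe, hM]; ring
  · have hx : s(c, f) ∉ M := fun h => rcf (hMR h)
    have gb : dg M b ≤ 0 := by rw [hM]; simp [ind, hab, hab.symm, hac, hac.symm, had, had.symm, hae, hae.symm, haf, haf.symm, hbc, hbc.symm, hbd, hbd.symm, hbe, hbe.symm, hbf, hbf.symm, hcd, hcd.symm, hce, hce.symm, hcf, hcf.symm, hde, hde.symm, hdf, hdf.symm, hef, hef.symm]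
    have ga : dg M a ≤ 0 := by rw [hM]; simp [ind, hab, hab.symm, hac, hac.symm, had, had.symm, hae, hae.symm, haf, haf.symm, hbc, hbc.symm, hbd, hbd.symm, hbe, hbe.symm, hbf, hbf.symm, hcd, hcd.symm, hce, hce.symm, hcf, hcf.symm, hde, hde.symm, hdf, hdf.symm, hef, hef.symm]
    have gc : dg M c ≤ 1 := by rw [hM]; simp [ind, hab, hab.symm, hac, hac.symm, had, had.symm, hae, hae.symm, haf, haf.symm, hbc, hbc.symm, hbd, hbd.symm, hbe, hbe.symm, hbf, hbf.symm, hcd, hcd.symm, hce, hce.symm, hcf, hcf.symm, hde, hde.symm, hdf, hdf.symm, hef, hef.symm]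
    have gf : dg M f ≤ 1 := by rw [hM]; simp [ind, hab, hab.symm, hac, hac.symm, had, had.symm, hae, hae.symm, haf, haf.symm, hbc, hbc.symm, hbd, hbd.symm, hbe, hbe.symm, hbf, hbf.symm, hcd, hcd.symm, hce, hce.symm, hcf, hcf.symm, hde, hde.symm, hdf, hdf.symm, hef, hef.symm]
    refine res_of (P3_good hS hMG gb ga gc gf hbc.symm hac.symm hcf hab.symm hbf haf hx) ?_ ?_
    · intro g hg
      rw [mem_P3] at hg
      rcases hg with rfl | rfl | rfl | hg
      · exact (swp (Finset.mem_union_left _ mbc))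
      · exact (swp (Finset.mem_union_right _ nfa))
      · exact (swp (Finset.mem_union_left _ mab))
      · exact hMR' hg
    · intro z
      rw [P3_dg gb ga hbc.symm hac.symm hcf hab.symm hbf haf, hM]; ring
  · have hx : s(f, e) ∉ M := fun h => ref (hMR (swp h))
    have ga : dg M a ≤ 0 := by rw [hM]; simp [ind, hab, hab.symm, hac, hac.symm, had, had.symm, hae, hae.symm, haf, haf.symm, hbc, hbc.symm, hbd, hbd.symm, hbe, hbe.symm, hbf, hbf.symm, hcd, hcd.symm, hce, hce.symm, hcf, hcf.symm, hde, hde.symm, hdf, hdf.symm, hef, hef.symm]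
    have gb : dg M b ≤ 0 := by rw [hM]; simp [ind, hab, hab.symm, hac, hac.symm, had, had.symm, hae, hae.symm, haf, haf.symm, hbc, hbc.symm, hbd, hbd.symm, hbe, hbe.symm, hbf, hbf.symm, hcd, hcd.symm, hce, hce.symm, hcf, hcf.symm, hde, hde.symm, hdf, hdf.symm, hef, hef.symm]
    have gf : dg M f ≤ 1 := by rw [hM]; simp [ind, hab, hab.symm, hac, hac.symm, had, had.symm, hae, hae.symm, haf, haf.symm, hbc, hbc.symm, hbd, hbd.symm, hbe, hbe.symm, hbf, hbf.symm, hcd, hcd.symm, hce, hce.symm, hcf, hcf.symm, hde, hde.symm, hdf, hdf.symm, hef, hef.symm]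
    have ge : dg M e ≤ 1 := by rw [hM]; simp [ind, hab, hab.symm, hac, hac.symm, had, had.symm, hae, hae.symm, haf, haf.symm, hbc, hbc.symm, hbd, hbd.symm, hbe, hbe.symm, hbf, hbf.symm, hcd, hcd.symm, hce, hce.symm, hcf, hcf.symm, hde, hde.symm, hdf, hdf.symm, hef, hef.symm]
    refine res_of (P3_good hS hMG ga gb gf ge haf.symm hbf.symm hef.symm hab hae hbe hx) ?_ ?_
    · intro g hg
      rw [mem_P3] at hg
      rcases hg with rfl | rfl | rfl | hg
      · exact (Finset.mem_union_right _ nfa)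
      · exact (Finset.mem_union_right _ nbe)
      · exact (Finset.mem_union_left _ mab)
      · exact hMR' hg
    · intro z
      rw [P3_dg ga gb haf.symm hbf.symm hef.symm hab hae hbe, hM]; ring
  · skip
    have ga : dg M a ≤ 0 := by rw [hM]; simp [ind, hab, hab.symm, hac, hac.symm, had, had.symm, hae, hae.symm, haf, haf.symm, hbc, hbc.symm, hbd, hbd.symm, hbe, hbe.symm, hbf, hbf.symm, hcd, hcd.symm, hce, hce.symm, hcf, hcf.symm, hde, hde.symm, hdf, hdf.symm, hef, hef.symm]
    have gd : dg M d ≤ 0 := by rw [hM]; simp [ind, hab, hab.symm, hac, hac.symm, had, had.symm, hae, hae.symm, haf, haf.symm, hbc, hbc.symm, hbd, hbd.symm, hbe, hbe.symm, hbf, hbf.symm, hcd, hcd.symm, hce, hce.symm, hcf, hcf.symm, hde, hde.symm, hdf, hdf.symm, hef, hef.symm]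
    have gc : dg M c ≤ 0 := by rw [hM]; simp [ind, hab, hab.symm, hac, hac.symm, had, had.symm, hae, hae.symm, haf, haf.symm, hbc, hbc.symm, hbd, hbd.symm, hbe, hbe.symm, hbf, hbf.symm, hcd, hcd.symm, hce, hce.symm, hcf, hcf.symm, hde, hde.symm, hdf, hdf.symm, hef, hef.symm]
    have gb : dg M b ≤ 0 := by rw [hM]; simp [ind, hab, hab.symm, hac, hac.symm, had, had.symm, hae, hae.symm, haf, haf.symm, hbc, hbc.symm, hbd, hbd.symm, hbe, hbe.symm, hbf, hbf.symm, hcd, hcd.symm, hce, hce.symm, hcf, hcf.symm, hde, hde.symm, hdf, hdf.symm, hef, hef.symm]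
    have ge : dg M e ≤ 0 := by rw [hM]; simp [ind, hab, hab.symm, hac, hac.symm, had, had.symm, hae, hae.symm, haf, haf.symm, hbc, hbc.symm, hbd, hbd.symm, hbe, hbe.symm, hbf, hbf.symm, hcd, hcd.symm, hce, hce.symm, hcf, hcf.symm, hde, hde.symm, hdf, hdf.symm, hef, hef.symm]
    have gf : dg M f ≤ 0 := by rw [hM]; simp [ind, hab, hab.symm, hac, hac.symm, had, had.symm, hae, hae.symm, haf, haf.symm, hbc, hbc.symm, hbd, hbd.symm, hbe, hbe.symm, hbf, hbf.symm, hcd, hcd.symm, hce, hce.symm, hcf, hcf.symm, hde, hde.symm, hdf, hdf.symm, hef, hef.symm]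
    refine res_of (C6_good hS hMG ga gd gc gb ge gf had hac hab hae haf hcd.symm hbd.symm hde hdf hbc.symm hce hcf hbe hbf hef) ?_ ?_
    · intro g hg
      rw [mem_C6] at hg
      rcases hg with rfl | rfl | rfl | rfl | rfl | rfl | hg
      · exact (Finset.mem_union_right _ nfa)
      · exact (Finset.mem_union_right _ nef)
      · exact (Finset.mem_union_right _ nbe)
      · exact (swp (Finset.mem_union_left _ mda))
      · exact (swp (Finset.mem_union_left _ mbc))
      · exact (swp (Finset.mem_union_left _ mcd))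
      · exact hMR' hg
    · intro z
      rw [C6_dg ga gd gc gb ge had hac hab hae haf hcd.symm hbd.symm hde hdf hbc.symm hce hcf hbe hbf hef, hM]; ring
  · skip
    have gd : dg M d ≤ 0 := by rw [hM]; simp [ind, hab, hab.symm, hac, hac.symm, had, had.symm, hae, hae.symm, haf, haf.symm, hbc, hbc.symm, hbd, hbd.symm, hbe, hbe.symm, hbf, hbf.symm, hcd, hcd.symm, hce, hce.symm, hcf, hcf.symm, hde, hde.symm, hdf, hdf.symm, hef, hef.symm]
    have ga : dg M a ≤ 0 := by rw [hM]; simp [ind, hab, hab.symm, hac, hac.symm, had, had.symm, hae, hae.symm, haf, haf.symm, hbc, hbc.symm, hbd, hbd.symm, hbe, hbe.symm, hbf, hbf.symm, hcd, hcd.symm, hce, hce.symm, hcf, hcf.symm, hde, hde.symm, hdf, hdf.symm, hef, hef.symm]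
    have gb : dg M b ≤ 0 := by rw [hM]; simp [ind, hab, hab.symm, hac, hac.symm, had, had.symm, hae, hae.symm, haf, haf.symm, hbc, hbc.symm, hbd, hbd.symm, hbe, hbe.symm, hbf, hbf.symm, hcd, hcd.symm, hce, hce.symm, hcf, hcf.symm, hde, hde.symm, hdf, hdf.symm, hef, hef.symm]
    have gc : dg M c ≤ 1 := by rw [hM]; simp [ind, hab, hab.symm, hac, hac.symm, had, had.symm, hae, hae.symm, haf, haf.symm, hbc, hbc.symm, hbd, hbd.symm, hbe, hbe.symm, hbf, hbf.symm, hcd, hcd.symm, hce, hce.symm, hcf, hcf.symm, hde, hde.symm, hdf, hdf.symm, hef, hef.symm]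
    have ge : dg M e ≤ 1 := by rw [hM]; simp [ind, hab, hab.symm, hac, hac.symm, had, had.symm, hae, hae.symm, haf, haf.symm, hbc, hbc.symm, hbd, hbd.symm, hbe, hbe.symm, hbf, hbf.symm, hcd, hcd.symm, hce, hce.symm, hcf, hcf.symm, hde, hde.symm, hdf, hdf.symm, hef, hef.symm]
    refine res_of (P4_good hS hMG gd ga gb gc ge hcd hac.symm hbc.symm had.symm hbd.symm hab hde.symm hae.symm hbe.symm hce.symm) ?_ ?_
    · intro g hg
      rw [mem_P4] at hg
      rcases hg with rfl | rfl | rfl | rfl | hg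
      · exact (Finset.mem_union_right _ nbe)
      · exact (Finset.mem_union_left _ mcd)
      · exact (Finset.mem_union_left _ mab)
      · exact (Finset.mem_union_left _ mda)
      · exact hMR' hg
    · intro z
      rw [P4_dg gd ga gb hcd hac.symm hbc.symm had.symm hbd.symm hab hde.symm hae.symm hbe.symm hce.symm, hM]; ring
  · skip
    have gc : dg M c ≤ 0 := by rw [hM]; simp [ind, hab, hab.symm, hac, hac.symm, had, had.symm, hae, hae.symm, haf, haf.symm, hbc, hbc.symm, hbd, hbd.symm, hbe, hbe.symm, hbf, hbf.symm, hcd, hcd.symm, hce, hce.symm, hcf, hcf.symm, hde, hde.symm, hdf, hdf.symm, hef, hef.symm]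
    have gb : dg M b ≤ 0 := by rw [hM]; simp [ind, hab, hab.symm, hac, hac.symm, had, had.symm, hae, hae.symm, haf, haf.symm, hbc, hbc.symm, hbd, hbd.symm, hbe, hbe.symm, hbf, hbf.symm, hcd, hcd.symm, hce, hce.symm, hcf, hcf.symm, hde, hde.symm, hdf, hdf.symm, hef, hef.symm]
    have ga : dg M a ≤ 0 := by rw [hM]; simp [ind, hab, hab.symm, hac, hac.symm, had, had.symm, hae, hae.symm, haf, haf.symm, hbc, hbc.symm, hbd, hbd.symm, hbe, hbe.symm, hbf, hbf.symm, hcd, hcd.symm, hce, hce.symm, hcf, hcf.symm, hde, hde.symm, hdf, hdf.symm, hef, hef.symm]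
    have gd : dg M d ≤ 1 := by rw [hM]; simp [ind, hab, hab.symm, hac, hac.symm, had, had.symm, hae, hae.symm, haf, haf.symm, hbc, hbc.symm, hbd, hbd.symm, hbe, hbe.symm, hbf, hbf.symm, hcd, hcd.symm, hce, hce.symm, hcf, hcf.symm, hde, hde.symm, hdf, hdf.symm, hef, hef.symm]
    have gf : dg M f ≤ 1 := by rw [hM]; simp [ind, hab, hab.symm, hac, hac.symm, had, had.symm, hae, hae.symm, haf, haf.symm, hbc, hbc.symm, hbd, hbd.symm, hbe, hbe.symm, hbf, hbf.symm, hcd, hcd.symm, hce, hce.symm, hcf, hcf.symm, hde, hde.symm, hdf, hdf.symm, hef, hef.symm]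
    refine res_of (P4_good hS hMG gc gb ga gd gf hcd.symm hbd.symm had.symm hbc.symm hac.symm hab.symm hcf.symm hbf.symm haf.symm hdf.symm) ?_ ?_
    · intro g hg
      rw [mem_P4] at hg
      rcases hg with rfl | rfl | rfl | rfl | hg
      · exact (swp (Finset.mem_union_right _ nfa))
      · exact (swp (Finset.mem_union_left _ mcd))
      · exact (swp (Finset.mem_union_left _ mab))
      · exact (swp (Finset.mem_union_left _ mbc))
      · exact hMR' hg
    · intro z
      rw [P4_dg gc gb ga hcd.symm hbd.symm had.symm hbc.symm hac.symm hab.symm hcf.symm hbf.symm haf.symm hdf.symm, hM]; ring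
  · skip
    have ge : dg M e ≤ 0 := by rw [hM]; simp [ind, hab, hab.symm, hac, hac.symm, had, had.symm, hae, hae.symm, haf, haf.symm, hbc, hbc.symm, hbd, hbd.symm, hbe, hbe.symm, hbf, hbf.symm, hcd, hcd.symm, hce, hce.symm, hcf, hcf.symm, hde, hde.symm, hdf, hdf.symm, hef, hef.symm]
    have gb : dg M b ≤ 0 := by rw [hM]; simp [ind, hab, hab.symm, hac, hac.symm, had, had.symm, hae, hae.symm, haf, haf.symm, hbc, hbc.symm, hbd, hbd.symm, hbe, hbe.symm, hbf, hbf.symm, hcd, hcd.symm, hce, hce.symm, hcf, hcf.symm, hde, hde.symm, hdf, hdf.symm, hef, hef.symm]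
    have ga : dg M a ≤ 0 := by rw [hM]; simp [ind, hab, hab.symm, hac, hac.symm, had, had.symm, hae, hae.symm, haf, haf.symm, hbc, hbc.symm, hbd, hbd.symm, hbe, hbe.symm, hbf, hbf.symm, hcd, hcd.symm, hce, hce.symm, hcf, hcf.symm, hde, hde.symm, hdf, hdf.symm, hef, hef.symm]
    have gf : dg M f ≤ 1 := by rw [hM]; simp [ind, hab, hab.symm, hac, hac.symm, had, had.symm, hae, hae.symm, haf, haf.symm, hbc, hbc.symm, hbd, hbd.symm, hbe, hbe.symm, hbf, hbf.symm, hcd, hcd.symm, hce, hce.symm, hcf, hcf.symm, hde, hde.symm, hdf, hdf.symm, hef, hef.symm]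
    have gd : dg M d ≤ 1 := by rw [hM]; simp [ind, hab, hab.symm, hac, hac.symm, had, had.symm, hae, hae.symm, haf, haf.symm, hbc, hbc.symm, hbd, hbd.symm, hbe, hbe.symm, hbf, hbf.symm, hcd, hcd.symm, hce, hce.symm, hcf, hcf.symm, hde, hde.symm, hdf, hdf.symm, hef, hef.symm]
    refine res_of (P4_good hS hMG ge gb ga gf gd hef.symm hbf.symm haf.symm hbe.symm hae.symm hab.symm hde hbd.symm had.symm hdf) ?_ ?_
    · intro g hg
      rw [mem_P4] at hg
      rcases hg with rfl | rfl | rfl | rfl | hg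
      · exact (swp (Finset.mem_union_left _ mda))
      · exact (swp (Finset.mem_union_right _ nef))
      · exact (swp (Finset.mem_union_left _ mab))
      · exact (swp (Finset.mem_union_right _ nbe))
      · exact hMR' hg
    · intro z
      rw [P4_dg ge gb ga hef.symm hbf.symm haf.symm hbe.symm hae.symm hab.symm hde hbd.symm had.symm hdf, hM]; ring
  · skip
    have gf : dg M f ≤ 0 := by rw [hM]; simp [ind, hab, hab.symm, hac, hac.symm, had, had.symm, hae, hae.symm, haf, haf.symm, hbc, hbc.symm, hbd, hbd.symm, hbe, hbe.symm, hbf, hbf.symm, hcd, hcd.symm, hce, hce.symm, hcf, hcf.symm, hde, hde.symm, hdf, hdf.symm, hef, hef.symm]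
    have ga : dg M a ≤ 0 := by rw [hM]; simp [ind, hab, hab.symm, hac, hac.symm, had, had.symm, hae, hae.symm, haf, haf.symm, hbc, hbc.symm, hbd, hbd.symm, hbe, hbe.symm, hbf, hbf.symm, hcd, hcd.symm, hce, hce.symm, hcf, hcf.symm, hde, hde.symm, hdf, hdf.symm, hef, hef.symm]
    have gb : dg M b ≤ 0 := by rw [hM]; simp [ind, hab, hab.symm, hac, hac.symm, had, had.symm, hae, hae.symm, haf, haf.symm, hbc, hbc.symm, hbd, hbd.symm, hbe, hbe.symm, hbf, hbf.symm, hcd, hcd.symm, hce, hce.symm, hcf, hcf.symm, hde, hde.symm, hdf, hdf.symm, hef, hef.symm]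
    have ge : dg M e ≤ 1 := by rw [hM]; simp [ind, hab, hab.symm, hac, hac.symm, had, had.symm, hae, hae.symm, haf, haf.symm, hbc, hbc.symm, hbd, hbd.symm, hbe, hbe.symm, hbf, hbf.symm, hcd, hcd.symm, hce, hce.symm, hcf, hcf.symm, hde, hde.symm, hdf, hdf.symm, hef, hef.symm]
    have gc : dg M c ≤ 1 := by rw [hM]; simp [ind, hab, hab.symm, hac, hac.symm, had, had.symm, hae, hae.symm, haf, haf.symm, hbc, hbc.symm, hbd, hbd.symm, hbe, hbe.symm, hbf, hbf.symm, hcd, hcd.symm, hce, hce.symm, hcf, hcf.symm, hde, hde.symm, hdf, hdf.symm, hef, hef.symm]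
    refine res_of (P4_good hS hMG gf ga gb ge gc hef hae.symm hbe.symm haf.symm hbf.symm hab hcf hac.symm hbc.symm hce) ?_ ?_
    · intro g hg
      rw [mem_P4] at hg
      rcases hg with rfl | rfl | rfl | rfl | hg
      · exact (Finset.mem_union_left _ mbc)
      · exact (Finset.mem_union_right _ nef)
      · exact (Finset.mem_union_left _ mab)
      · exact (Finset.mem_union_right _ nfa)
      · exact hMR' hg
    · intro z
      rw [P4_dg gf ga gb hef hae.symm hbe.symm haf.symm hbf.symm hab hcf hac.symm hbc.symm hce, hM]; ring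
  · skip
    have ga : dg M a ≤ 0 := by rw [hM]; simp [ind, hab, hab.symm, hac, hac.symm, had, had.symm, hae, hae.symm, haf, haf.symm, hbc, hbc.symm, hbd, hbd.symm, hbe, hbe.symm, hbf, hbf.symm, hcd, hcd.symm, hce, hce.symm, hcf, hcf.symm, hde, hde.symm, hdf, hdf.symm, hef, hef.symm]
    have gd : dg M d ≤ 0 := by rw [hM]; simp [ind, hab, hab.symm, hac, hac.symm, had, had.symm, hae, hae.symm, haf, haf.symm, hbc, hbc.symm, hbd, hbd.symm, hbe, hbe.symm, hbf, hbf.symm, hcd, hcd.symm, hce, hce.symm, hcf, hcf.symm, hde, hde.symm, hdf, hdf.symm, hef, hef.symm]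
    have gc : dg M c ≤ 0 := by rw [hM]; simp [ind, hab, hab.symm, hac, hac.symm, had, had.symm, hae, hae.symm, haf, haf.symm, hbc, hbc.symm, hbd, hbd.symm, hbe, hbe.symm, hbf, hbf.symm, hcd, hcd.symm, hce, hce.symm, hcf, hcf.symm, hde, hde.symm, hdf, hdf.symm, hef, hef.symm]
    have gb : dg M b ≤ 0 := by rw [hM]; simp [ind, hab, hab.symm, hac, hac.symm, had, had.symm, hae, hae.symm, haf, haf.symm, hbc, hbc.symm, hbd, hbd.symm, hbe, hbe.symm, hbf, hbf.symm, hcd, hcd.symm, hce, hce.symm, hcf, hcf.symm, hde, hde.symm, hdf, hdf.symm, hef, hef.symm]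
    have gf : dg M f ≤ 1 := by rw [hM]; simp [ind, hab, hab.symm, hac, hac.symm, had, had.symm, hae, hae.symm, haf, haf.symm, hbc, hbc.symm, hbd, hbd.symm, hbe, hbe.symm, hbf, hbf.symm, hcd, hcd.symm, hce, hce.symm, hcf, hcf.symm, hde, hde.symm, hdf, hdf.symm, hef, hef.symm]
    have ge : dg M e ≤ 1 := by rw [hM]; simp [ind, hab, hab.symm, hac, hac.symm, had, had.symm, hae, hae.symm, haf, haf.symm, hbc, hbc.symm, hbd, hbd.symm, hbe, hbe.symm, hbf, hbf.symm, hcd, hcd.symm, hce, hce.symm, hcf, hcf.symm, hde, hde.symm, hdf, hdf.symm, hef, hef.symm]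
    refine res_of (P5_good hS hMG ga gd gc gb gf ge haf.symm hdf.symm hcf.symm hbf.symm had hac hab hcd.symm hbd.symm hbc.symm hae.symm hde.symm hce.symm hbe.symm hef) ?_ ?_
    · intro g hg
      rw [mem_P5] at hg
      rcases hg with rfl | rfl | rfl | rfl | rfl | hg
      · exact (Finset.mem_union_right _ nbe)
      · exact (swp (Finset.mem_union_left _ mbc))
      · exact (Finset.mem_union_right _ nfa)
      · exact (swp (Finset.mem_union_left _ mcd))
      · exact (swp (Finset.mem_union_left _ mda))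
      · exact hMR' hg
    · intro z
      rw [P5_dg ga gd gc gb haf.symm hdf.symm hcf.symm hbf.symm had hac hab hcd.symm hbd.symm hbc.symm hae.symm hde.symm hce.symm hbe.symm hef, hM]; ring
  · skip
    have ga : dg M a ≤ 0 := by rw [hM]; simp [ind, hab, hab.symm, hac, hac.symm, had, had.symm, hae, hae.symm, haf, haf.symm, hbc, hbc.symm, hbd, hbd.symm, hbe, hbe.symm, hbf, hbf.symm, hcd, hcd.symm, hce, hce.symm, hcf, hcf.symm, hde, hde.symm, hdf, hdf.symm, hef, hef.symm]
    have gf : dg M f ≤ 0 := by rw [hM]; simp [ind, hab, hab.symm, hac, hac.symm, had, had.symm, hae, hae.symm, haf, haf.symm, hbc, hbc.symm, hbd, hbd.symm, hbe, hbe.symm, hbf, hbf.symm, hcd, hcd.symm, hce, hce.symm, hcf, hcf.symm, hde, hde.symm, hdf, hdf.symm, hef, hef.symm]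
    have ge : dg M e ≤ 0 := by rw [hM]; simp [ind, hab, hab.symm, hac, hac.symm, had, had.symm, hae, hae.symm, haf, haf.symm, hbc, hbc.symm, hbd, hbd.symm, hbe, hbe.symm, hbf, hbf.symm, hcd, hcd.symm, hce, hce.symm, hcf, hcf.symm, hde, hde.symm, hdf, hdf.symm, hef, hef.symm]
    have gb : dg M b ≤ 0 := by rw [hM]; simp [ind, hab, hab.symm, hac, hac.symm, had, had.symm, hae, hae.symm, haf, haf.symm, hbc, hbc.symm, hbd, hbd.symm, hbe, hbe.symm, hbf, hbf.symm, hcd, hcd.symm, hce, hce.symm, hcf, hcf.symm, hde, hde.symm, hdf, hdf.symm, hef, hef.symm]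
    have gd : dg M d ≤ 1 := by rw [hM]; simp [ind, hab, hab.symm, hac, hac.symm, had, had.symm, hae, hae.symm, haf, haf.symm, hbc, hbc.symm, hbd, hbd.symm, hbe, hbe.symm, hbf, hbf.symm, hcd, hcd.symm, hce, hce.symm, hcf, hcf.symm, hde, hde.symm, hdf, hdf.symm, hef, hef.symm]
    have gc : dg M c ≤ 1 := by rw [hM]; simp [ind, hab, hab.symm, hac, hac.symm, had, had.symm, hae, hae.symm, haf, haf.symm, hbc, hbc.symm, hbd, hbd.symm, hbe, hbe.symm, hbf, hbf.symm, hcd, hcd.symm, hce, hce.symm, hcf, hcf.symm, hde, hde.symm, hdf, hdf.symm, hef, hef.symm]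
    refine res_of (P5_good hS hMG ga gf ge gb gd gc had.symm hdf hde hbd.symm haf hae hab hef.symm hbf.symm hbe.symm hac.symm hcf hce hbc.symm hcd) ?_ ?_
    · intro g hg
      rw [mem_P5] at hg
      rcases hg with rfl | rfl | rfl | rfl | rfl | hg
      · exact (Finset.mem_union_left _ mbc)
      · exact (swp (Finset.mem_union_right _ nbe))
      · exact (Finset.mem_union_left _ mda)
      · exact (swp (Finset.mem_union_right _ nef))
      · exact (swp (Finset.mem_union_right _ nfa))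
      · exact hMR' hg
    · intro z
      rw [P5_dg ga gf ge gb had.symm hdf hde hbd.symm haf hae hab hef.symm hbf.symm hbe.symm hac.symm hcf hce hbc.symm hcd, hM]; ring
  · -- deficits 1 1 1 1
    have ga : dg M a ≤ 0 := by rw [hM]; simp [ind, hab, hab.symm, hac, hac.symm, had, had.symm, hae, hae.symm, haf, haf.symm, hbc, hbc.symm, hbd, hbd.symm, hbe, hbe.symm, hbf, hbf.symm, hcd, hcd.symm, hce, hce.symm, hcf, hcf.symm, hde, hde.symm, hdf, hdf.symm, hef, hef.symm]
    have gb : dg M b ≤ 0 := by rw [hM]; simp [ind, hab, hab.symm, hac, hac.symm, had, had.symm, hae, hae.symm, haf, haf.symm, hbc, hbc.symm, hbd, hbd.symm, hbe, hbe.symm, hbf, hbf.symm, hcd, hcd.symm, hce, hce.symm, hcf, hcf.symm, hde, hde.symm, hdf, hdf.symm, hef, hef.symm]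
    have gc : dg M c ≤ 1 := by rw [hM]; simp [ind, hab, hab.symm, hac, hac.symm, had, had.symm, hae, hae.symm, haf, haf.symm, hbc, hbc.symm, hbd, hbd.symm, hbe, hbe.symm, hbf, hbf.symm, hcd, hcd.symm, hce, hce.symm, hcf, hcf.symm, hde, hde.symm, hdf, hdf.symm, hef, hef.symm]
    have gd : dg M d ≤ 1 := by rw [hM]; simp [ind, hab, hab.symm, hac, hac.symm, had, had.symm, hae, hae.symm, haf, haf.symm, hbc, hbc.symm, hbd, hbd.symm, hbe, hbe.symm, hbf, hbf.symm, hcd, hcd.symm, hce, hce.symm, hcf, hcf.symm, hde, hde.symm, hdf, hdf.symm, hef, hef.symm]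
    have ge : dg M e ≤ 1 := by rw [hM]; simp [ind, hab, hab.symm, hac, hac.symm, had, had.symm, hae, hae.symm, haf, haf.symm, hbc, hbc.symm, hbd, hbd.symm, hbe, hbe.symm, hbf, hbf.symm, hcd, hcd.symm, hce, hce.symm, hcf, hcf.symm, hde, hde.symm, hdf, hdf.symm, hef, hef.symm]
    have gf : dg M f ≤ 1 := by rw [hM]; simp [ind, hab, hab.symm, hac, hac.symm, had, had.symm, hae, hae.symm, haf, haf.symm, hbc, hbc.symm, hbd, hbd.symm, hbe, hbe.symm, hbf, hbf.symm, hcd, hcd.symm, hce, hce.symm, hcf, hcf.symm, hde, hde.symm, hdf, hdf.symm, hef, hef.symm]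
    have k1 : s(b, e) ∉ M := notMem_of_dg gb
    have k2 : s(c, b) ∉ insert s(b, e) M := by
      rw [Finset.mem_insert]; push Not
      exact ⟨(mk_ne hbc.symm hce), notMem_of_dg' gb⟩
    have k3 : s(a, f) ∉ insert s(c, b) (insert s(b, e) M) := by
      rw [Finset.mem_insert, Finset.mem_insert]; push Not
      exact ⟨(mk_ne hac hab), (mk_ne hab hae), notMem_of_dg ga⟩
    have k4 : s(d, a) ∉ insert s(a, f) (insert s(c, b) (insert s(b, e) M)) := by
      rw [Finset.mem_insert, Finset.mem_insert, Finset.mem_insert]; push Not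
      exact ⟨(mk_ne had.symm hdf), (mk_ne hcd.symm hbd.symm), (mk_ne hbd.symm hde), notMem_of_dg' ga⟩
    have hN3 : ∀ z, dg (insert s(d, a) (insert s(a, f) (insert s(c, b) (insert s(b, e) M)))) z
        = 2 := by
      intro z
      rw [dg_insert had.symm k4, dg_insert haf k3, dg_insert hbc.symm k2, dg_insert hbe k1, hM]
      ring
    have mem3 : ∀ g, g ∈ insert s(d, a) (insert s(a, f) (insert s(c, b) (insert s(b, e) M))) ↔
        g = s(d, a) ∨ g = s(a, f) ∨ g = s(c, b) ∨ g = s(b, e) ∨ g ∈ M := by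
      intro g; simp
    by_cases hfree : ∀ Z ∈ S,
        ¬ Z ⊆ insert s(d, a) (insert s(a, f) (insert s(c, b) (insert s(b, e) M)))
    · refine res_of (N := insert s(d, a) (insert s(a, f) (insert s(c, b) (insert s(b, e) M))))
        ⟨?_, fun v => (hN3 v).le, hfree⟩ ?_ hN3
      · intro x y hxy
        rw [mem3] at hxy
        rcases hxy with h | h | h | h | h
        · rw [Sym2.eq_iff] at h
          rcases h with ⟨rfl, rfl⟩ | ⟨rfl, rfl⟩
          · exact had.symm
          · exact had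
        · rw [Sym2.eq_iff] at h
          rcases h with ⟨rfl, rfl⟩ | ⟨rfl, rfl⟩
          · exact haf
          · exact haf.symm
        · rw [Sym2.eq_iff] at h
          rcases h with ⟨rfl, rfl⟩ | ⟨rfl, rfl⟩
          · exact hbc.symm
          · exact hbc
        · rw [Sym2.eq_iff] at h
          rcases h with ⟨rfl, rfl⟩ | ⟨rfl, rfl⟩
          · exact hbe
          · exact hbe.symm
        · exact hMG.ne h
      · intro g hg
        rw [mem3] at hg
        rcases hg with rfl | rfl | rfl | rfl | hg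
        · exact (Finset.mem_union_left _ mda)
        · exact (swp (Finset.mem_union_right _ nfa))
        · exact (swp (Finset.mem_union_left _ mbc))
        · exact (Finset.mem_union_right _ nbe)
        · exact hMR' hg
    · push Not at hfree
      obtain ⟨Z, hZS, hZ⟩ := hfree
      have hZs := hS Z hZS
      have key : ∃ w, (s(d, w) ∈ M ∧ s(w, f) ∈ M) ∨ (s(c, w) ∈ M ∧ s(w, e) ∈ M) := by
        -- the two middle vertices
        have side : ∀ {x y m : V}, s(x, m) ∈ Z → x ≠ y → m ≠ x → m ≠ y →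
            s(x, y) ∉ insert s(d, a) (insert s(a, f) (insert s(c, b) (insert s(b, e) M))) →
            s(m, y) ∈ insert s(d, a) (insert s(a, f) (insert s(c, b) (insert s(b, e) M))) →
            ∃ r, r ≠ m ∧ r ≠ x ∧ r ≠ y ∧ s(x, r) ∈ Z ∧ s(r, y) ∈ Z := by
          intro x y m h1 hxy hmx hmy hn h2
          have h3 : s(m, y) ∈ Z := hZs.closure hZ (hN3 m).le (swp h1) h2
          rcases hZs.at_edge h1 with ⟨q, e1, e2, e3, rfl⟩ | ⟨q, r, e1, e2, e3, e4, e5, e6, rfl⟩
          · exfalso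
            rw [mem_tri] at h3
            rcases h3 with h3 | h3 | h3
            · rw [Sym2.eq_iff] at h3
              rcases h3 with ⟨h3, _⟩ | ⟨_, h3⟩
              · exact hmx h3
              · exact hxy h3.symm
            · rw [Sym2.eq_iff] at h3
              rcases h3 with ⟨_, h3⟩ | ⟨h3, _⟩
              · subst h3
                apply hn
                apply hZ
                rw [mem_tri]; right; right; exact Sym2.eq_swap
              · exact e3 h3
            · rw [Sym2.eq_iff] at h3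
              rcases h3 with ⟨h3, _⟩ | ⟨h3, _⟩
              · exact e3 h3
              · exact hmx h3
          · rw [mem_quad] at h3
            have hyq : y = q := by
              rcases h3 with h3 | h3 | h3 | h3
              · rw [Sym2.eq_iff] at h3
                rcases h3 with ⟨h3, _⟩ | ⟨_, h3⟩
                · exact absurd h3 hmx
                · exact absurd h3.symm hxy
              · rw [Sym2.eq_iff] at h3
                rcases h3 with ⟨_, h3⟩ | ⟨h3, _⟩
                · exact h3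
                · exact absurd h3 e4
              · rw [Sym2.eq_iff] at h3
                rcases h3 with ⟨h3, _⟩ | ⟨h3, _⟩
                · exact absurd h3 e4
                · exact absurd h3 e5
              · rw [Sym2.eq_iff] at h3
                rcases h3 with ⟨h3, _⟩ | ⟨h3, _⟩
                · exact absurd h3 e5
                · exact absurd h3 hmx
            subst hyq
            refine ⟨r, e5.symm, e3.symm, e6.symm, ?_, ?_⟩
            · rw [mem_quad]; right; right; right; exact Sym2.eq_swap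
            · rw [mem_quad]; right; right; left; exact Sym2.eq_swap
        have sideA : s(d, a) ∈ Z → ∃ w, (s(d, w) ∈ M ∧ s(w, f) ∈ M) ∨ (s(c, w) ∈ M ∧ s(w, e) ∈ M) := by
          intro h
          have hdf' : s(d, f) ∉ insert s(d, a) (insert s(a, f) (insert s(c, b) (insert s(b, e) M))) := by
            rw [mem3]; push Not
            exact ⟨(mk_ne' hdf.symm haf.symm), (mk_ne had.symm hdf), (mk_ne hcd.symm hbd.symm), (mk_ne hbd.symm hde), fun h => rdf (hMR h)⟩
          obtain ⟨w, w1, w2, w3, w4, w5⟩ := side h hdf had haf hdf'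
            (by rw [mem3]; right; left; rfl)
          refine ⟨w, Or.inl ⟨?_, ?_⟩⟩
          · rcases (mem3 _).1 (hZ w4) with h | h | h | h | h
            · rw [Sym2.eq_iff] at h
              rcases h with ⟨_, h⟩ | ⟨h, _⟩
              · exact absurd h w1
              · exact absurd h had.symm
            · exact absurd h (mk_ne had.symm hdf)
            · exact absurd h (mk_ne hcd.symm hbd.symm)
            · exact absurd h (mk_ne hbd.symm hde)
            · exact h
          · rcases (mem3 _).1 (hZ w5) with h | h | h | h | h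
            · exact absurd h (mk_ne' hdf.symm haf.symm)
            · rw [Sym2.eq_iff] at h
              rcases h with ⟨h, _⟩ | ⟨_, h⟩
              · exact absurd h w1
              · exact absurd h haf.symm
            · exact absurd h (mk_ne' hcf.symm hbf.symm)
            · exact absurd h (mk_ne' hbf.symm hef.symm)
            · exact h
        have sideB : s(c, b) ∈ Z → ∃ w, (s(d, w) ∈ M ∧ s(w, f) ∈ M) ∨ (s(c, w) ∈ M ∧ s(w, e) ∈ M) := by
          intro h
          have hce' : s(c, e) ∉ insert s(d, a) (insert s(a, f) (insert s(c, b) (insert s(b, e) M))) := by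
            rw [mem3]; push Not
            exact ⟨(mk_ne hcd hac.symm), (mk_ne hac.symm hcf), (mk_ne' hce.symm hbe.symm), (mk_ne hbc.symm hce), fun h => rce (hMR h)⟩
          obtain ⟨w, w1, w2, w3, w4, w5⟩ := side h hce hbc hbe hce'
            (by rw [mem3]; right; right; right; left; rfl)
          refine ⟨w, Or.inr ⟨?_, ?_⟩⟩
          · rcases (mem3 _).1 (hZ w4) with h | h | h | h | h
            · exact absurd h (mk_ne hcd hac.symm)
            · exact absurd h (mk_ne hac.symm hcf)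
            · rw [Sym2.eq_iff] at h
              rcases h with ⟨_, h⟩ | ⟨h, _⟩
              · exact absurd h w1
              · exact absurd h hbc.symm
            · exact absurd h (mk_ne hbc.symm hce)
            · exact h
          · rcases (mem3 _).1 (hZ w5) with h | h | h | h | h
            · exact absurd h (mk_ne' hde.symm hae.symm)
            · exact absurd h (mk_ne' hae.symm hef)
            · exact absurd h (mk_ne' hce.symm hbe.symm)
            · rw [Sym2.eq_iff] at h
              rcases h with ⟨h, _⟩ | ⟨_, h⟩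
              · exact absurd h w1
              · exact absurd h hbe.symm
            · exact h
        have hex : s(d, a) ∈ Z ∨ s(a, f) ∈ Z ∨ s(c, b) ∈ Z ∨ s(b, e) ∈ Z := by
          by_contra hcon
          push Not at hcon
          obtain ⟨x1, x2, x3, x4⟩ := hcon
          refine hMG.free Z hZS (fun g hg => ?_)
          rcases (mem3 g).1 (hZ hg) with rfl | rfl | rfl | rfl | h
          · exact absurd hg x1
          · exact absurd hg x2
          · exact absurd hg x3
          · exact absurd hg x4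
          · exact h
        rcases hex with h | h | h | h
        · exact sideA h
        · exact sideA (swp (hZs.closure hZ (hN3 a).le h
            (by rw [mem3]; left; exact Sym2.eq_swap)))
        · exact sideB h
        · exact sideB (swp (hZs.closure hZ (hN3 b).le h
            (by rw [mem3]; right; right; left; exact Sym2.eq_swap)))
      have hfe' : s(f, e) ∉ M := fun h => ref (hMR (swp h))
      have hP : Good S (P3 M f a b e) :=
        P3_good hS hMG ga gb gf ge haf.symm hbf.symm hef.symm hab hae hbe hfe'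
      have dP := P3_dg (M := M) ga gb haf.symm hbf.symm hef.symm hab hae hbe
      have hcdP : s(c, d) ∉ P3 M f a b e := by
        rw [mem_P3]; push Not
        exact ⟨(mk_ne hcf hac.symm), (mk_ne hbc.symm hce), (mk_ne hac.symm hbc.symm), fun h => rcd (hMR h)⟩
      have pc : dg (P3 M f a b e) c ≤ 1 := by
        rw [dP, ind_ne hcf, ind_ne hac.symm, ind_ne hbc.symm, ind_ne hce]; omega
      have pd : dg (P3 M f a b e) d ≤ 1 := by
        rw [dP, ind_ne hdf, ind_ne had.symm, ind_ne hbd.symm, ind_ne hde]; omega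
      have hdeg := dg_insert_le hcd hcdP hP.deg pc pd
      have memN4 : ∀ g, g ∈ insert s(c, d) (P3 M f a b e) ↔
          g = s(c, d) ∨ g = s(f, a) ∨ g = s(b, e) ∨ g = s(a, b) ∨ g ∈ M := by
        intro g; rw [Finset.mem_insert, mem_P3]
      have hfin : Good S (insert s(c, d) (P3 M f a b e)) := by
        refine good_insert hP hcd hcdP pc pd ?_
        intro Z' hZ'S hZ' hmem
        have hZ's := hS Z' hZ'S
        obtain ⟨w, ⟨w1, w2⟩ | ⟨w1, w2⟩⟩ := key
        · have hwc : w ≠ c := by rintro rfl; exact rcd (hMR (swp w1))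
          have e1 : s(d, w) ∈ Z' := hZ's.closure hZ' (hdeg d) (swp hmem)
            (by rw [memN4]; right; right; right; right; exact w1)
          have e2 : s(w, f) ∈ Z' := hZ's.closure hZ' (hdeg w) (swp e1)
            (by rw [memN4]; right; right; right; right; exact w2)
          have e3 := hZ's.path3 hmem e1 e2 hwc.symm hdf hcf
          have e4 : s(f, c) ∈ Z' := by rw [e3, mem_quad]; right; right; right; rfl
          rcases (memN4 _).1 (hZ' e4) with h | h | h | h | h
          · exact (mk_ne hcf.symm hdf.symm) h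
          · exact (mk_ne' hcf hac.symm) h
          · exact (mk_ne hbf.symm hef.symm) h
          · exact (mk_ne haf.symm hbf.symm) h
          · exact rcf (hMR (swp h))
        · have hwd : w ≠ d := by rintro rfl; exact rcd (hMR w1)
          have e1 : s(c, w) ∈ Z' := hZ's.closure hZ' (hdeg c) hmem
            (by rw [memN4]; right; right; right; right; exact w1)
          have e2 : s(w, e) ∈ Z' := hZ's.closure hZ' (hdeg w) (swp e1)
            (by rw [memN4]; right; right; right; right; exact w2)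
          have e3 := hZ's.path3 (swp hmem) e1 e2 hwd.symm hce hde
          have e4 : s(e, d) ∈ Z' := by rw [e3, mem_quad]; right; right; right; rfl
          rcases (memN4 _).1 (hZ' e4) with h | h | h | h | h
          · exact (mk_ne hce.symm hde.symm) h
          · exact (mk_ne hef hae.symm) h
          · exact (mk_ne' hbd.symm hde) h
          · exact (mk_ne hae.symm hbe.symm) h
          · exact rde (hMR (swp h))
      refine res_of hfin ?_ ?_
      · intro g hg
        rcases (memN4 g).1 hg with rfl | rfl | rfl | rfl | hg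
        · exact (Finset.mem_union_left _ mcd)
        · exact (Finset.mem_union_right _ nfa)
        · exact (Finset.mem_union_right _ nbe)
        · exact (Finset.mem_union_left _ mab)
        · exact hMR' hg
      · intro z
        rw [dg_insert hcd hcdP, dP, hM]; ring

end H999
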