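import Pool.Agent.H999_TwoFactor.Env

/-!
Vectors with few coordinates and a checker for derivations in even jump systems.
-/

namespace H999

open Finset

set_option linter.all false

variable {V : Type*} [DecidableEq V]

/-- vector with given coordinates -/
def vf : List V → List ℤ → V → ℤ
  | a :: L, x :: X, z => x * ind a z + vf L X z
  | _, _, _ => 0

/-- change of one coordinate -/
def upd : List ℤ → ℕ → ℤ → List ℤ
  | [], _, _ => []
  | x :: X, 0, s => (x + s) :: X
  | x :: X, i + 1, s => x :: upd X i s

/-- moves of `X` towards `Y` -/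
def mvs : List ℤ → List ℤ → List (List ℤ)
  | y :: Y, x :: X => (if x < y then [(x + 1) :: X] else if y < x then [(x - 1) :: X] else []) ++
      (mvs Y X).map (fun Z => x :: Z)
  | _, _ => []

theorem upd_length : ∀ (X : List ℤ) (i : ℕ) (s : ℤ), (upd X i s).length = X.length
  | [], _, _ => rfl
  | x :: X, 0, s => rfl
  | x :: X, i + 1, s => by simp [upd, upd_length X i s]

theorem vf_notMem : ∀ (L : List V) (X : List ℤ) {z : V}, z ∉ L → vf L X z = 0
  | [], [], _, _ => rfl
  | [], _ :: _, _, _ => rfl
  | _ :: _, [], _, _ => rfl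
  | a :: L, x :: X, z, h => by
    rw [List.mem_cons] at h
    push Not at h
    rw [vf, ind_ne h.1, vf_notMem L X h.2]; simp

theorem vf_upd : ∀ (L : List V) (X : List ℤ) (i : ℕ), X.length = L.length → i < L.length →
    ∃ w, ∀ s z, vf L (upd X i s) z = vf L X z + s * ind w z
  | [], _, i, _, h => absurd h (by simp)
  | a :: L, [], i, h, _ => absurd h (by simp)
  | a :: L, x :: X, 0, h, _ => ⟨a, fun s z => by rw [upd, vf, vf]; ring⟩
  | a :: L, x :: X, i + 1, h, h' => by
    obtain ⟨w, hw⟩ := vf_upd L X i (by simpa using h) (by simpa using h')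
    exact ⟨w, fun s z => by rw [upd, vf, vf, hw]; ring⟩

theorem mvs_sound : ∀ (L : List V) (X Y : List ℤ), L.Nodup → X.length = L.length →
    Y.length = L.length → ∀ (v : V) (τ : ℤ), (τ = 1 ∨ τ = -1) →
    0 < τ * (vf L Y v - vf L X v) →
    ∃ Z ∈ mvs Y X, Z.length = L.length ∧ ∀ z, vf L Z z = vf L X z + τ * ind v z
  | [], [], [], _, _, _, v, τ, _, h => by simp [vf] at h
  | [], _ :: _, _, _, h, _, v, τ, _, _ => absurd h (by simp)
  | [], _, _ :: _, _, _, h, v, τ, _, _ => absurd h (by simp)
  | a :: L, [], _, _, h, _, v, τ, _, _ => absurd h (by simp)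
  | a :: L, _ :: _, [], _, _, h, v, τ, _, _ => absurd h (by simp)
  | a :: L, x :: X, y :: Y, hL, hX, hY, v, τ, hτ, h => by
    rw [List.nodup_cons] at hL
    by_cases hv : v = a
    · subst hv
      rw [vf, vf, ind_self, vf_notMem L _ hL.1, vf_notMem L _ hL.1] at h
      rcases hτ with rfl | rfl
      · refine ⟨(x + 1) :: X, ?_, by simpa using hX, fun z => by rw [vf, vf]; ring⟩
        rw [mvs, if_pos (by omega)]; simp
      · refine ⟨(x - 1) :: X, ?_, by simpa using hX, fun z => by rw [vf, vf]; ring⟩
        rw [mvs, if_neg (by omega), if_pos (by omega)]; simp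
    · rw [vf, vf, ind_ne hv] at h
      obtain ⟨Z, h1, h2, h3⟩ := mvs_sound L X Y hL.2 (by simpa using hX) (by simpa using hY) v τ
        hτ (by simpa using h)
      refine ⟨x :: Z, ?_, by simpa using h2, fun z => by rw [vf, vf, h3]; ring⟩
      rw [mvs]
      exact List.mem_append_right _ (List.mem_map.2 ⟨Z, h1, rfl⟩)

/-- derivations -/
inductive Der
  | stop
  | one (X Y : List ℤ) (i : ℕ) (s : Bool) (d : Der)
  | two (X Y : List ℤ) (i : ℕ) (s : Bool) (d d' : Der)

/-- possible results of a step -/
def res (neg : List ℤ → Bool) (X Y : List ℤ) (i : ℕ) (s : Bool) : List (List ℤ) :=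
  (mvs Y (upd X i (if s then 1 else -1))).filter (fun Z => !neg Z)

/-- the checker -/
def run (neg : List ℤ → Bool) (n : ℕ) : Der → List (List ℤ) → Bool
  | .stop, _ => false
  | .one X Y i s d, pos => (decide (X ∈ pos) && decide (Y ∈ pos) && decide (i < n)) &&
      match res neg X Y i s with
      | [] => true
      | [Z] => run neg n d (Z :: pos)
      | _ => false
  | .two X Y i s d d', pos => (decide (X ∈ pos) && decide (Y ∈ pos) && decide (i < n)) &&
      match res neg X Y i s with
      | [Z, Z'] => run neg n d (Z :: pos) && run neg n d' (Z' :: pos)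
      | _ => false

theorem res_sound {Q : (V → ℤ) → Prop} (hQ : JS Q) {L : List V} (hL : L.Nodup)
    {neg : List ℤ → Bool} (hneg : ∀ Z, Z.length = L.length → neg Z = true → ¬ Q (vf L Z))
    {X Y : List ℤ} {i : ℕ} {s : Bool} (hX : X.length = L.length) (hY : Y.length = L.length)
    (qX : Q (vf L X)) (qY : Q (vf L Y)) (hi : i < L.length) :
    ∃ Z ∈ res neg X Y i s, Z.length = L.length ∧ Q (vf L Z) := by
  obtain ⟨w, hw⟩ := vf_upd L X i hX hi
  set σ : ℤ := if s then 1 else -1 with hσ
  have hσ' : σ = 1 ∨ σ = -1 := by cases s <;> simp [hσ]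
  obtain ⟨v, τ, h1, h2, h3⟩ := hQ _ _ qX qY w σ hσ'
  obtain ⟨Z, h4, h5, h6⟩ := mvs_sound L (upd X i σ) Y hL (by rw [upd_length]; exact hX) hY v τ h1
    (by rw [hw]; have : vf L Y v - (vf L X v + σ * ind w v) =
          vf L Y v - vf L X v - σ * ind w v := by ring
        rw [this]; exact h2)
  have h7 : vf L Z = fun z => vf L X z + σ * ind w z + τ * ind v z := by
    funext z; rw [h6, hw]
  have h8 : Q (vf L Z) := by rw [h7]; exact h3
  refine ⟨Z, ?_, h5, h8⟩
  unfold res
  rw [List.mem_filter]
  refine ⟨h4, ?_⟩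
  by_contra hcon
  have : neg Z = true := by simpa using hcon
  exact hneg Z h5 this h8

theorem run_sound {Q : (V → ℤ) → Prop} (hQ : JS Q) {L : List V} (hL : L.Nodup)
    {neg : List ℤ → Bool} (hneg : ∀ Z, Z.length = L.length → neg Z = true → ¬ Q (vf L Z)) :
    ∀ (d : Der) (pos : List (List ℤ)), (∀ X ∈ pos, X.length = L.length ∧ Q (vf L X)) →
      run neg L.length d pos = true → False := by
  intro d
  induction d with
  | stop => intro pos _ h; simp [run] at h
  | one X Y i s d ih =>
    intro pos hpos h
    rw [run] at h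
    simp only [Bool.and_eq_true, decide_eq_true_eq] at h
    obtain ⟨⟨⟨hX, hY⟩, hi⟩, h⟩ := h
    obtain ⟨Z, h1, h2, h3⟩ := res_sound hQ hL hneg (s := s) (hpos X hX).1 (hpos Y hY).1
      (hpos X hX).2 (hpos Y hY).2 hi
    split at h
    · rename_i he; rw [he] at h1; simp at h1
    · rename_i Z' he
      rw [he] at h1
      rw [List.mem_singleton] at h1
      subst h1
      refine ih (Z :: pos) ?_ h
      intro X' hX'
      rcases List.mem_cons.1 hX' with rfl | hX'
      · exact ⟨h2, h3⟩
      · exact hpos X' hX'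
    · simp at h
  | two X Y i s d d' ih ih' =>
    intro pos hpos h
    rw [run] at h
    simp only [Bool.and_eq_true, decide_eq_true_eq] at h
    obtain ⟨⟨⟨hX, hY⟩, hi⟩, h⟩ := h
    obtain ⟨Z, h1, h2, h3⟩ := res_sound hQ hL hneg (s := s) (hpos X hX).1 (hpos Y hY).1
      (hpos X hX).2 (hpos Y hY).2 hi
    split at h
    · rename_i Z1 Z2 he
      rw [he] at h1
      rw [Bool.and_eq_true] at h
      rw [List.mem_cons, List.mem_singleton] at h1
      rcases h1 with rfl | rfl
      · refine ih (Z :: pos) ?_ h.1
        intro X' hX'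
        rcases List.mem_cons.1 hX' with rfl | hX'
        · exact ⟨h2, h3⟩
        · exact hpos X' hX'
      · refine ih' (Z :: pos) ?_ h.2
        intro X' hX'
        rcases List.mem_cons.1 hX' with rfl | hX'
        · exact ⟨h2, h3⟩
        · exact hpos X' hX'
    · simp at h

/-! ### Square-free subgraphs of `K_{2,m}` -/

/-- the edges from `u` to `P` and from `w` to `R` -/
def KF (u w : V) (P R : Finset V) : Finset (Sym2 V) :=
  P.image (fun y => s(u, y)) ∪ R.image (fun y => s(w, y))

theorem mem_KF {u w : V} {P R : Finset V} {e : Sym2 V} :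
    e ∈ KF u w P R ↔ (∃ y ∈ P, e = s(u, y)) ∨ (∃ y ∈ R, e = s(w, y)) := by
  simp only [KF, Finset.mem_union, Finset.mem_image, eq_comm]

theorem mem_KF_left {u w : V} {P R : Finset V} (huw : u ≠ w) (hu : u ∉ R) {y : V} :
    s(u, y) ∈ KF u w P R ↔ y ∈ P := by
  rw [mem_KF]
  constructor
  · rintro (⟨a, ha, h⟩ | ⟨a, ha, h⟩)
    · rw [Sym2.eq_iff] at h
      rcases h with ⟨_, rfl⟩ | ⟨rfl, rfl⟩ <;> assumption
    · rw [Sym2.eq_iff] at h
      rcases h with ⟨h, _⟩ | ⟨rfl, rfl⟩
      · exact absurd h huw
      · exact absurd ha hu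
  · intro h; exact Or.inl ⟨y, h, rfl⟩

theorem KF_swap (u w : V) (P R : Finset V) : KF u w P R = KF w u R P := by
  unfold KF; rw [Finset.union_comm]

theorem mem_KF_right {u w : V} {P R : Finset V} (huw : u ≠ w) (hw : w ∉ P) {y : V} :
    s(w, y) ∈ KF u w P R ↔ y ∈ R := by
  rw [KF_swap]; exact mem_KF_left huw.symm hw

theorem KF_insert_left {u w : V} {P R : Finset V} {y : V} :
    KF u w (insert y P) R = insert s(u, y) (KF u w P R) := by
  unfold KF; rw [Finset.image_insert, Finset.insert_union]

theorem dg_KF {u w : V} (huw : u ≠ w) {P R : Finset V} (hu : u ∉ P) (hu' : u ∉ R)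
    (hw : w ∉ P) (hw' : w ∉ R) (z : V) :
    dg (KF u w P R) z = P.card * ind u z + R.card * ind w z +
      (if z ∈ P then 1 else 0) + (if z ∈ R then 1 else 0) := by
  have main : ∀ (u w : V) (R : Finset V), u ≠ w → u ∉ R → w ∉ R → ∀ P : Finset V, u ∉ P →
      w ∉ P → dg (KF u w P R) z = dg (KF u w ∅ R) z + P.card * ind u z +
        (if z ∈ P then 1 else 0) := by
    intro u w R huw hu' hw' P
    induction P using Finset.induction_on with
    | empty => intro _ _; simp
    | insert y P hy ih =>
      intro hu hw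
      rw [Finset.mem_insert] at hu hw
      push Not at hu hw
      rw [KF_insert_left, dg_insert hu.1, ih hu.2 hw.2, Finset.card_insert_of_notMem hy]
      · by_cases hz : z = y
        · subst hz
          rw [if_neg hy, if_pos (Finset.mem_insert_self _ _), ind_self]; push_cast; ring
        · rw [ind_ne hz]
          have : (z ∈ insert y P) = (z ∈ P) := by simp [hz]
          simp only [this]
          push_cast; ring
      · rw [mem_KF_left huw hu']; exact hy
  rw [main u w R huw hu' hw' P hu hw, KF_swap, main w u ∅ huw.symm (by simp) (by simp) R hw' hu']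
  have : dg (KF w u (∅ : Finset V) ∅) z = 0 := by simp [KF, dg]
  rw [this]; ring

/-- square inside `KF` -/
theorem quad_sub_KF {u w i j : V} (huw : u ≠ w) {P R : Finset V} (hu' : u ∉ R) (hw : w ∉ P)
    (h : quad u i w j ⊆ KF u w P R) : i ∈ P ∩ R ∧ j ∈ P ∩ R := by
  rw [Finset.mem_inter, Finset.mem_inter]
  refine ⟨⟨?_, ?_⟩, ?_, ?_⟩
  · exact (mem_KF_left huw hu').1 (h (by rw [mem_quad]; left; rfl))
  · exact (mem_KF_right huw hw).1 (h (by rw [mem_quad]; right; left; exact Sym2.eq_swap))
  · exact (mem_KF_left huw hu').1 (h (by rw [mem_quad]; right; right; right; exact Sym2.eq_swap))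
  · exact (mem_KF_right huw hw).1 (h (by rw [mem_quad]; right; right; left; rfl))

/-- possible choices of the edges at the `y`s -/
def cands : List ℤ → List (List (Bool × Bool))
  | [] => [[]]
  | y :: ys => (if y = 0 then [(false, false)] else if y = 1 then [(true, false), (false, true)]
      else if y = 2 then [(true, true)] else []).flatMap (fun c => (cands ys).map (fun b => c :: b))

/-- number of edges at `u` -/
def cu : List (Bool × Bool) → ℤ
  | [] => 0
  | b :: bs => (if b.1 then 1 else 0) + cu bs

/-- number of edges at `w` -/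
def cw : List (Bool × Bool) → ℤ
  | [] => 0
  | b :: bs => (if b.2 then 1 else 0) + cw bs

/-- number of `y`s with both edges -/
def cb : List (Bool × Bool) → ℤ
  | [] => 0
  | b :: bs => (if b.1 && b.2 then 1 else 0) + cb bs

/-- vectors of square-free subgraphs -/
def negD : List ℤ → Bool
  | u :: w :: ys => (cands ys).any
      (fun bs => decide (cu bs = u) && decide (cw bs = w) && decide (cb bs ≤ 1))
  | _ => false

/-- the set of `y`s joined to `u` -/
def PF : List V → List (Bool × Bool) → Finset V
  | y :: ys, b :: bs => if b.1 then insert y (PF ys bs) else PF ys bs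
  | _, _ => ∅

/-- the set of `y`s joined to `w` -/
def RF : List V → List (Bool × Bool) → Finset V
  | y :: ys, b :: bs => if b.2 then insert y (RF ys bs) else RF ys bs
  | _, _ => ∅

theorem cands_spec : ∀ (ys : List V) (xs : List ℤ) (bs : List (Bool × Bool)), ys.Nodup →
    xs.length = ys.length → bs ∈ cands xs →
    (∀ y ∈ PF ys bs, y ∈ ys) ∧ (∀ y ∈ RF ys bs, y ∈ ys) ∧
    ((PF ys bs).card : ℤ) = cu bs ∧ ((RF ys bs).card : ℤ) = cw bs ∧
    ((PF ys bs ∩ RF ys bs).card : ℤ) = cb bs ∧
    ∀ z, (if z ∈ PF ys bs then (1 : ℤ) else 0) + (if z ∈ RF ys bs then 1 else 0) = vf ys xs z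
  | [], [], bs, _, _, h => by
    simp only [cands, List.mem_singleton] at h
    subst h
    simp [PF, RF, cu, cw, cb, vf]
  | [], _ :: _, bs, _, h, _ => absurd h (by simp)
  | _ :: _, [], bs, _, h, _ => absurd h (by simp)
  | y :: ys, x :: xs, bs, hnd, hlen, h => by
    rw [List.nodup_cons] at hnd
    rw [cands, List.mem_flatMap] at h
    obtain ⟨c, hc, h⟩ := h
    rw [List.mem_map] at h
    obtain ⟨b, hb, rfl⟩ := h
    obtain ⟨i1, i2, i3, i4, i5, i6⟩ := cands_spec ys xs b hnd.2 (by simpa using hlen) hb
    have hyP : y ∉ PF ys b := fun h => hnd.1 (i1 y h)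
    have hyR : y ∉ RF ys b := fun h => hnd.1 (i2 y h)
    have hc' : (x = 0 ∧ c = (false, false)) ∨ (x = 1 ∧ (c = (true, false) ∨ c = (false, true))) ∨
        (x = 2 ∧ c = (true, true)) := by
      split_ifs at hc with h1 h2 h3
      · left; exact ⟨h1, by simpa using hc⟩
      · right; left; exact ⟨h2, by simpa using hc⟩
      · right; right; exact ⟨h3, by simpa using hc⟩
      · simp at hc
    have hz : ∀ z, (z ∈ insert y (PF ys b)) = (z = y ∨ z ∈ PF ys b) := fun z => by simp
    have hz' : ∀ z, (z ∈ insert y (RF ys b)) = (z = y ∨ z ∈ RF ys b) := fun z => by simp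
    rcases hc' with ⟨rfl, rfl⟩ | ⟨rfl, rfl | rfl⟩ | ⟨rfl, rfl⟩
    · simp only [PF, RF, cu, cw, cb]
      refine ⟨fun z hz => List.mem_cons_of_mem _ (i1 z (by simpa using hz)),
        fun z hz => List.mem_cons_of_mem _ (i2 z (by simpa using hz)), by simpa using i3,
        by simpa using i4, by simpa using i5, fun z => ?_⟩
      rw [vf, ← i6 z]; simp
    · simp only [PF, RF, cu, cw, cb]
      refine ⟨?_, fun z hz => List.mem_cons_of_mem _ (i2 z (by simpa using hz)), ?_,
        by simpa using i4, ?_, fun z => ?_⟩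
      · intro z hz
        simp only [if_true, Finset.mem_insert] at hz
        rcases hz with rfl | hz
        · simp
        · exact List.mem_cons_of_mem _ (i1 z hz)
      · simp only [if_true]; rw [Finset.card_insert_of_notMem hyP]; push_cast; omega
      · simp only [if_true]
        rw [Finset.insert_inter_of_notMem (by simpa using hyR)]; simpa using i5
      · rw [vf, ← i6 z]
        by_cases hzy : z = y
        · subst hzy; simp [hyP, hyR, ind_self]
        · simp [hzy, ind_ne hzy]
    · simp only [PF, RF, cu, cw, cb]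
      refine ⟨fun z hz => List.mem_cons_of_mem _ (i1 z (by simpa using hz)), ?_,
        by simpa using i3, ?_, ?_, fun z => ?_⟩
      · intro z hz
        simp only [if_true, Finset.mem_insert] at hz
        rcases hz with rfl | hz
        · simp
        · exact List.mem_cons_of_mem _ (i2 z hz)
      · simp only [if_true]; rw [Finset.card_insert_of_notMem hyR]; push_cast; omega
      · simp only [if_true]
        rw [Finset.inter_insert_of_notMem (by simpa using hyP)]; simpa using i5
      · rw [vf, ← i6 z]
        by_cases hzy : z = y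
        · subst hzy; simp [hyP, hyR, ind_self]
        · simp [hzy, ind_ne hzy]
    · simp only [PF, RF, cu, cw, cb]
      refine ⟨?_, ?_, ?_, ?_, ?_, fun z => ?_⟩
      · intro z hz
        simp only [if_true, Finset.mem_insert] at hz
        rcases hz with rfl | hz
        · simp
        · exact List.mem_cons_of_mem _ (i1 z hz)
      · intro z hz
        simp only [if_true, Finset.mem_insert] at hz
        rcases hz with rfl | hz
        · simp
        · exact List.mem_cons_of_mem _ (i2 z hz)
      · simp only [if_true]; rw [Finset.card_insert_of_notMem hyP]; push_cast; omega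
      · simp only [if_true]; rw [Finset.card_insert_of_notMem hyR]; push_cast; omega
      · simp only [if_true]
        rw [← Finset.insert_inter_distrib, Finset.card_insert_of_notMem (by simp [hyP])]
        simp only [Bool.and_self, if_true]; push_cast; omega
      · rw [vf, ← i6 z]
        by_cases hzy : z = y
        · subst hzy; simp [hyP, hyR, ind_self]
        · simp [hzy, ind_ne hzy]

theorem negD_spec {u w : V} {ys : List V} (hnd : (u :: w :: ys).Nodup) {X : List ℤ}
    (hlen : X.length = (u :: w :: ys).length) (h : negD X = true) :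
    ∃ P R : Finset V, (∀ y ∈ P, y ∈ ys) ∧ (∀ y ∈ R, y ∈ ys) ∧ (P ∩ R).card ≤ 1 ∧
      ∀ z, dg (KF u w P R) z = vf (u :: w :: ys) X z := by
  match X, hlen with
  | xu :: xw :: xs, hlen =>
    rw [negD, List.any_eq_true] at h
    obtain ⟨bs, hbs, h⟩ := h
    simp only [Bool.and_eq_true, decide_eq_true_eq] at h
    obtain ⟨⟨h1, h2⟩, h3⟩ := h
    simp only [List.nodup_cons, List.mem_cons] at hnd
    obtain ⟨hu, hw, hys⟩ := hnd
    push Not at hu
    obtain ⟨i1, i2, i3, i4, i5, i6⟩ := cands_spec ys xs bs hys (by simpa using hlen) hbs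
    refine ⟨PF ys bs, RF ys bs, i1, i2, by omega, fun z => ?_⟩
    rw [dg_KF hu.1 (fun h => hu.2 (i1 _ h)) (fun h => hu.2 (i2 _ h)) (fun h => hw (i1 _ h))
      (fun h => hw (i2 _ h)), vf, vf, ← i6 z, i3, i4, h1, h2]
    ring

end H999
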